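import Mathlib

/-! The Cantor set on the circle is compact and null (helper55). -/

set_option autoImplicit false

namespace Pool.Agent.T9h55.MD

open MeasureTheory

lemma volume_cantorSet : volume cantorSet = 0 := by
  have h1 : volume ((fun x : ℝ => x / 3) '' cantorSet) = ENNReal.ofReal (1 / 3) * volume cantorSet := by
    have e1 : (fun x : ℝ => x / 3) '' cantorSet = (fun y : ℝ => 3 * y) ⁻¹' cantorSet := by
      ext y
      constructor
      · rintro ⟨x, hx, rfl⟩
        show 3 * (x / 3) ∈ cantorSet
        rw [mul_div_cancel₀ x (by norm_num)]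
        exact hx
      · intro hy
        exact ⟨3 * y, hy, by simp⟩
    rw [e1, Real.volume_preimage_mul_left (by norm_num)]
    congr 2
    norm_num
  have h2 : volume ((fun x : ℝ => (2 + x) / 3) '' cantorSet) = ENNReal.ofReal (1 / 3) * volume cantorSet := by
    have e1 : (fun x : ℝ => (2 + x) / 3) '' cantorSet =
        (fun y : ℝ => 3 * y) ⁻¹' ((fun z : ℝ => z + (-2)) ⁻¹' cantorSet) := by
      ext y
      constructor
      · rintro ⟨x, hx, rfl⟩
        show 3 * ((2 + x) / 3) + (-2) ∈ cantorSet
        have : 3 * ((2 + x) / 3) + (-2) = x := by ring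
        rw [this]
        exact hx
      · intro hy
        exact ⟨3 * y + (-2), hy, by ring⟩
    rw [e1, Real.volume_preimage_mul_left (by norm_num), measure_preimage_add_right]
    congr 2
    norm_num
  have h3 : volume cantorSet ≤ ENNReal.ofReal (2 / 3) * volume cantorSet := by
    calc volume cantorSet = volume ((fun x : ℝ => x / 3) '' cantorSet ∪ (fun x : ℝ => (2 + x) / 3) '' cantorSet) := by
          rw [← cantorSet_eq_union_halves]
      _ ≤ volume ((fun x : ℝ => x / 3) '' cantorSet) + volume ((fun x : ℝ => (2 + x) / 3) '' cantorSet) :=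
          measure_union_le _ _
      _ = ENNReal.ofReal (2 / 3) * volume cantorSet := by
          rw [h1, h2, ← add_mul, ← ENNReal.ofReal_add (by norm_num) (by norm_num)]
          norm_num
  have hfin : volume cantorSet ≠ ⊤ := by
    have : volume cantorSet ≤ volume (Set.Icc (0 : ℝ) 1) := measure_mono cantorSet_subset_unitInterval
    rw [Real.volume_Icc] at this
    exact ne_top_of_le_ne_top (by simp) this
  have h4 := ENNReal.toReal_mono (ENNReal.mul_ne_top ENNReal.ofReal_ne_top hfin) h3
  rw [ENNReal.toReal_mul, ENNReal.toReal_ofReal (by norm_num)] at h4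
  have h5 : (0 : ℝ) ≤ (volume cantorSet).toReal := ENNReal.toReal_nonneg
  have h6 : (volume cantorSet).toReal = 0 := by linarith
  exact ((ENNReal.toReal_eq_zero_iff _).1 h6).resolve_right hfin

/-- the Cantor set on the circle -/
def cantorCircle : Set UnitAddCircle := (fun x : ℝ => (x : UnitAddCircle)) '' cantorSet

lemma cantor_compact : IsCompact cantorCircle :=
  isCompact_cantorSet.image (AddCircle.continuous_mk' 1)

lemma null_image {S : Set ℝ} (hS : volume S = 0) (hm : MeasurableSet ((fun x : ℝ => (x : UnitAddCircle)) '' S)) :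
    volume ((fun x : ℝ => (x : UnitAddCircle)) '' S) = 0 := by
  rw [AddCircle.add_projection_respects_measure (T := 1) 0 hm]
  refine measure_mono_null (t := ⋃ k : ℤ, (fun y : ℝ => y + k) ⁻¹' S) ?_ ?_
  · rintro y ⟨hy, _⟩
    obtain ⟨x, hx, hxy⟩ := hy
    have h1 : (x : UnitAddCircle) = (y : UnitAddCircle) := hxy
    rw [← sub_eq_zero, ← AddCircle.coe_sub, AddCircle.coe_eq_zero_iff] at h1
    obtain ⟨k, hk⟩ := h1
    rw [zsmul_eq_mul, mul_one] at hk
    refine Set.mem_iUnion.2 ⟨k, ?_⟩
    show y + k ∈ S
    have : y + k = x := by rw [hk]; ring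
    rw [this]
    exact hx
  · rw [measure_iUnion_null_iff]
    intro k
    rw [measure_preimage_add_right]
    exact hS

lemma cantor_null : volume cantorCircle = 0 :=
  null_image volume_cantorSet cantor_compact.measurableSet

lemma cantor_zero : (0 : UnitAddCircle) ∈ cantorCircle := ⟨0, zero_mem_cantorSet, rfl⟩

end Pool.Agent.T9h55.MD
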