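import Pool.Agent.T9h55.MD.Fin3

/-! Polynomial phases whose leading coefficient is near a rational point: reduction of the degree (helper55). -/

set_option autoImplicit false

namespace Pool.Agent.T9h55.MD

open Finset Polynomial MeasureTheory
open Pool.Agent.Helper44K9.FU
open Pool.Agent.H807R2.Dav (ee norm_ee ee_add ee_int dd_le dd ee_zero ee_pow)

lemma ee_eq_one {x : ℝ} (h : ee x = 1) : ∃ k : ℤ, x = k := by
  unfold ee at h
  rw [Complex.exp_eq_one_iff] at h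
  obtain ⟨k, hk⟩ := h
  refine ⟨k, ?_⟩
  have h1 : (2 * (Real.pi : ℂ) * Complex.I) ≠ 0 := by
    simp [Real.pi_ne_zero, Complex.I_ne_zero]
  have h2 : (x : ℂ) = (k : ℂ) := by
    have h3 : (2 * (Real.pi : ℂ) * Complex.I) * x = (2 * (Real.pi : ℂ) * Complex.I) * k := by
      rw [hk]; ring
    exact mul_left_cancel₀ h1 h3
  exact_mod_cast h2

/-- orthogonality of the additive characters modulo `q` -/
lemma orth {q : ℕ} (hq : 1 ≤ q) (u : ℤ) :
    ∑ c ∈ range q, ee (c * ((u : ℝ) / q)) = if (q : ℤ) ∣ u then (q : ℂ) else 0 := by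
  have hqr : (q : ℝ) ≠ 0 := by
    have : (0 : ℝ) < q := by exact_mod_cast hq
    exact this.ne'
  simp only [ee_pow]
  split_ifs with h
  · obtain ⟨k, rfl⟩ := h
    have h1 : ee (((q * k : ℤ) : ℝ) / q) = 1 := by
      have : ((q * k : ℤ) : ℝ) / q = (k : ℝ) := by push_cast; field_simp
      rw [this]
      exact ee_int k
    rw [h1]
    simp
  · have h1 : ee ((u : ℝ) / q) ≠ 1 := by
      intro h2
      obtain ⟨k, hk⟩ := ee_eq_one h2
      apply h
      refine ⟨k, ?_⟩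
      rw [div_eq_iff hqr] at hk
      have : (u : ℝ) = ((q * k : ℤ) : ℝ) := by rw [hk]; push_cast; ring
      exact_mod_cast this
    have h2 : ee ((u : ℝ) / q) ^ q = 1 := by
      rw [← ee_pow]
      have : (q : ℝ) * ((u : ℝ) / q) = (u : ℝ) := by field_simp
      rw [this]
      exact ee_int u
    have h3 := geom_sum_mul (ee ((u : ℝ) / q)) q
    rw [h2, sub_self] at h3
    rcases mul_eq_zero.1 h3 with h4 | h4
    · exact h4
    · exact absurd (sub_eq_zero.1 h4) h1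

/-- a periodic factor -/
lemma periodic_sum {q : ℕ} (hq : 1 ≤ q) (g : ℕ → ℂ) (φ : ℕ → ℂ) (hφ : ∀ m, ‖φ m‖ ≤ 1)
    (hper : ∀ m m' : ℕ, (q : ℤ) ∣ (m : ℤ) - m' → φ m = φ m') (S : Finset ℕ) (B : ℝ)
    (hB : ∀ c < q, ‖∑ m ∈ S, g m * ee (c / q * (m : ℝ))‖ ≤ B) :
    ‖∑ m ∈ S, φ m * g m‖ ≤ q * B := by
  have hq0 : (0 : ℝ) < q := by exact_mod_cast hq
  have hB0 : 0 ≤ B := (norm_nonneg _).trans (hB 0 (by omega))
  -- the expansion
  have hexp : ∀ m : ℕ, φ m = ∑ c ∈ range q, (∑ u ∈ range q, φ u * ee (-(c / q * (u : ℝ)))) / q * ee (c / q * (m : ℝ)) := by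
    intro m
    have h1 : ∑ c ∈ range q, (∑ u ∈ range q, φ u * ee (-(c / q * (u : ℝ)))) / q * ee (c / q * (m : ℝ)) =
        ∑ u ∈ range q, φ u / q * ∑ c ∈ range q, ee (c * ((((m : ℤ) - u : ℤ) : ℝ) / q)) := by
      simp only [sum_div, sum_mul, mul_sum]
      rw [sum_comm]
      refine sum_congr rfl fun u _ => sum_congr rfl fun c _ => ?_
      have h2 : ee (c * ((((m : ℤ) - u : ℤ) : ℝ) / q)) = ee (-(c / q * (u : ℝ))) * ee (c / q * (m : ℝ)) := by
        rw [← ee_add]; congr 1; push_cast; ring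
      rw [h2]; ring
    rw [h1]
    simp only [orth hq]
    have h2 : ∀ u ∈ range q, φ u / q * (if (q : ℤ) ∣ (m : ℤ) - u then (q : ℂ) else 0) =
        if u = m % q then φ m else 0 := by
      intro u hu
      rw [mem_range] at hu
      have hqc : (q : ℂ) ≠ 0 := by exact_mod_cast hq0.ne'
      by_cases h3 : (q : ℤ) ∣ (m : ℤ) - u
      · rw [if_pos h3, hper m u h3, div_mul_cancel₀ _ hqc, if_pos]
        have h4 : (u : ℤ) % q = (m : ℤ) % q := Int.modEq_iff_dvd.2 h3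
        have h5 : u % q = m % q := by exact_mod_cast h4
        rw [← h5, Nat.mod_eq_of_lt hu]
      · rw [if_neg h3, mul_zero, if_neg]
        intro h4
        apply h3
        rw [h4]
        have h5 : (m : ℤ) = (m % q : ℕ) + q * (m / q : ℕ) := by exact_mod_cast (Nat.mod_add_div m q).symm
        exact ⟨((m / q : ℕ) : ℤ), by linarith⟩
    rw [sum_congr rfl h2, sum_ite_eq' (range q) (m % q), if_pos (mem_range.2 (Nat.mod_lt _ hq))]
  have h1 : ∑ m ∈ S, φ m * g m = ∑ c ∈ range q, (∑ u ∈ range q, φ u * ee (-(c / q * (u : ℝ)))) / q *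
      ∑ m ∈ S, g m * ee (c / q * (m : ℝ)) := by
    calc ∑ m ∈ S, φ m * g m = ∑ m ∈ S, (∑ c ∈ range q, (∑ u ∈ range q, φ u * ee (-(c / q * (u : ℝ)))) / q *
          ee (c / q * (m : ℝ))) * g m := sum_congr rfl fun m _ => by rw [← hexp m]
      _ = _ := by
        simp only [sum_mul, mul_sum]
        rw [sum_comm]
        refine sum_congr rfl fun c _ => sum_congr rfl fun m _ => ?_
        simp only [sum_div, sum_mul]
        refine sum_congr rfl fun u _ => ?_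
        ring
  rw [h1]
  refine (norm_sum_le _ _).trans ?_
  calc ∑ c ∈ range q, ‖(∑ u ∈ range q, φ u * ee (-(c / q * (u : ℝ)))) / q * ∑ m ∈ S, g m * ee (c / q * (m : ℝ))‖ ≤
      ∑ c ∈ range q, B := by
        refine sum_le_sum fun c hc => ?_
        rw [norm_mul, norm_div, Complex.norm_natCast]
        have h2 : ‖∑ u ∈ range q, φ u * ee (-(c / q * (u : ℝ)))‖ ≤ q := by
          refine (norm_sum_le _ _).trans ?_
          calc ∑ u ∈ range q, ‖φ u * ee (-(c / q * (u : ℝ)))‖ ≤ ∑ u ∈ range q, (1 : ℝ) := by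
                refine sum_le_sum fun u _ => ?_
                rw [norm_mul, norm_ee, mul_one]
                exact hφ u
            _ = q := by simp
        have h3 : ‖∑ u ∈ range q, φ u * ee (-(c / q * (u : ℝ)))‖ / q ≤ 1 := by rw [div_le_one hq0]; exact h2
        calc _ ≤ 1 * B := mul_le_mul h3 (hB c (mem_range.1 hc)) (norm_nonneg _) zero_le_one
          _ = B := one_mul B
    _ = q * B := by rw [sum_const, card_range, nsmul_eq_mul]

/-- the part of degree less than `d` -/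
noncomputable def low (d : ℕ) (P : ℝ[X]) : ℝ[X] := P - C (P.coeff d) * X ^ d

lemma low_deg {d : ℕ} {P : ℝ[X]} (hP : P.natDegree ≤ d + 1) : (low (d + 1) P).natDegree ≤ d := by
  rw [natDegree_le_iff_coeff_eq_zero]
  intro N hN
  unfold low
  rw [coeff_sub, coeff_C_mul, coeff_X_pow]
  by_cases h : N = d + 1
  · subst h; simp
  · rw [if_neg h, mul_zero, sub_zero]
    exact coeff_eq_zero_of_natDegree_lt (by omega)

/-- the polynomial `x^d - (x - n)^d` -/
noncomputable def dif (d n : ℕ) : ℝ[X] := X ^ d - (X - C (n : ℝ)) ^ d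

lemma dif_deg (d n : ℕ) : (dif (d + 1) n).natDegree ≤ d := by
  rw [natDegree_le_iff_coeff_eq_zero]
  intro N hN
  unfold dif
  rw [coeff_sub, coeff_X_pow]
  have hm : ((X - C (n : ℝ)) ^ (d + 1)).Monic := (monic_X_sub_C _).pow _
  have hdeg : ((X - C (n : ℝ)) ^ (d + 1)).natDegree = d + 1 := by
    rw [natDegree_pow, natDegree_X_sub_C, mul_one]
  by_cases h : N = d + 1
  · subst h
    have h1 := hm.coeff_natDegree
    rw [hdeg] at h1
    rw [h1]; simp
  · rw [if_neg h, coeff_eq_zero_of_natDegree_lt (by rw [hdeg]; omega), sub_zero]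

lemma eval_low (d : ℕ) (P : ℝ[X]) (x : ℝ) : P.eval x = P.coeff d * x ^ d + (low d P).eval x := by
  unfold low
  rw [eval_sub, eval_mul, eval_C, eval_pow, eval_X]
  ring

/-- the phase near a rational point, degree `d + 1` -/
lemma phase_deg (d : ℕ) (P : ℝ[X]) (b q : ℕ) (k : ℤ) (n m : ℕ) :
    ee (P.eval (m : ℝ)) = ee ((b : ℝ) / q * (m : ℝ) ^ (d + 1)) *
      (ee ((P.coeff (d + 1) - (b : ℝ) / q - k) * ((m : ℝ) - n) ^ (d + 1)) *
      ee ((low (d + 1) P + C (P.coeff (d + 1) - (b : ℝ) / q - k) * dif (d + 1) n).eval (m : ℝ))) := by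
  have h1 : ee ((k * (m : ℤ) ^ (d + 1) : ℤ) : ℝ) = 1 := ee_int _
  have h2 : P.eval (m : ℝ) = ((b : ℝ) / q * (m : ℝ) ^ (d + 1) +
      ((P.coeff (d + 1) - (b : ℝ) / q - k) * ((m : ℝ) - n) ^ (d + 1) +
      (low (d + 1) P + C (P.coeff (d + 1) - (b : ℝ) / q - k) * dif (d + 1) n).eval (m : ℝ))) +
      ((k * (m : ℤ) ^ (d + 1) : ℤ) : ℝ) := by
    rw [eval_low (d + 1) P]
    unfold dif
    simp only [eval_add, eval_mul, eval_C, eval_sub, eval_pow, eval_X]
    push_cast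
    ring
  rw [h2, ee_add, h1, mul_one, ee_add, ee_add]

/-- the periodic factor -/
lemma per_fac {q : ℕ} (hq : 1 ≤ q) (b d : ℕ) (m m' : ℕ) (h : (q : ℤ) ∣ (m : ℤ) - m') :
    ee ((b : ℝ) / q * (m : ℝ) ^ d) = ee ((b : ℝ) / q * (m' : ℝ) ^ d) := by
  have hq0 : (q : ℝ) ≠ 0 := by
    have : (0 : ℝ) < q := by exact_mod_cast hq
    exact this.ne'
  obtain ⟨j, hj⟩ := h.trans (sub_dvd_pow_sub_pow (m : ℤ) m' d)
  have h1 : (m : ℝ) ^ d - (m' : ℝ) ^ d = q * j := by exact_mod_cast hj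
  have h2 : (b : ℝ) / q * (m : ℝ) ^ d = (b : ℝ) / q * (m' : ℝ) ^ d + ((b * j : ℤ) : ℝ) := by
    have : (m : ℝ) ^ d = (m' : ℝ) ^ d + q * j := by linarith
    rw [this]; push_cast; field_simp
  rw [h2, ee_add, ee_int, mul_one]

/-- adding a linear term -/
lemma add_lin (f : ℕ → ℂ) (R : ℝ[X]) (x : ℝ) (S : Finset ℕ) :
    ∑ m ∈ S, (f m * ee (R.eval (m : ℝ))) * ee (x * (m : ℝ)) = ∑ m ∈ S, f m * ee ((R + C x * X).eval (m : ℝ)) := by
  refine sum_congr rfl fun m _ => ?_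
  rw [eval_add, eval_mul, eval_C, eval_X, ee_add]
  ring

lemma deg_add_lin {d : ℕ} (hd : 1 ≤ d) {R : ℝ[X]} (hR : R.natDegree ≤ d) (x : ℝ) : (R + C x * X).natDegree ≤ d :=
  (natDegree_add_le _ _).trans (max_le hR (((natDegree_C_mul_le _ _).trans natDegree_X_le).trans hd))

/-- short windows near a rational point, degree `d + 1`, `d ≥ 1` -/
lemma near_W_deg {f : ℕ → ℂ} (hf : ∀ n, ‖f n‖ ≤ 1) {d : ℕ} (hd : 1 ≤ d) {P : ℝ[X]} (hP : P.natDegree ≤ d + 1) {b q : ℕ}
    (hq : 1 ≤ q) {κ : ℝ} {k : ℤ} (h : |P.coeff (d + 1) - (b : ℝ) / q - k| ≤ κ) (n M : ℕ) :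
    ‖W f P n M‖ ≤ q * wSup d Set.univ f n M + 2 * Real.pi * κ * (M : ℝ) ^ (d + 2) := by
  have hpi := Real.pi_pos
  set θ : ℝ := P.coeff (d + 1) - (b : ℝ) / q - k with hθ
  have hκ : 0 ≤ κ := (abs_nonneg _).trans h
  set R : ℝ[X] := low (d + 1) P + C θ * dif (d + 1) n with hR
  have hRd : R.natDegree ≤ d :=
    (natDegree_add_le _ _).trans (max_le (low_deg hP) ((natDegree_C_mul_le _ _).trans (dif_deg d n)))
  have e1 : W f P n M = ∑ m ∈ Ioc n (n + M), ee ((b : ℝ) / q * (m : ℝ) ^ (d + 1)) * (f m * ee (R.eval (m : ℝ))) +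
      ∑ m ∈ Ioc n (n + M), f m * ee ((b : ℝ) / q * (m : ℝ) ^ (d + 1)) * ee (R.eval (m : ℝ)) *
        (ee (θ * ((m : ℝ) - n) ^ (d + 1)) - 1) := by
    unfold W
    rw [← sum_add_distrib]
    refine sum_congr rfl fun m _ => ?_
    rw [phase_deg d P b q k n m, ← hθ, ← hR]
    ring
  rw [e1]
  refine (norm_add_le _ _).trans (add_le_add ?_ ?_)
  · refine periodic_sum hq _ _ (fun m => (norm_ee _).le) (fun m m' hm => per_fac hq b (d + 1) m m' hm) _ _ ?_
    intro c _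
    rw [add_lin]
    exact FL.le_wSup hf n M (deg_add_lin hd hRd _) (Set.mem_univ _)
  · refine (norm_sum_le _ _).trans ?_
    calc ∑ m ∈ Ioc n (n + M), ‖f m * ee ((b : ℝ) / q * (m : ℝ) ^ (d + 1)) * ee (R.eval (m : ℝ)) *
        (ee (θ * ((m : ℝ) - n) ^ (d + 1)) - 1)‖ ≤ ∑ m ∈ Ioc n (n + M), 2 * Real.pi * κ * (M : ℝ) ^ (d + 1) := by
          refine sum_le_sum fun m hm => ?_
          rw [mem_Ioc] at hm
          rw [norm_mul, norm_mul, norm_mul, norm_ee, norm_ee, mul_one, mul_one]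
          have h1 : ‖ee (θ * ((m : ℝ) - n) ^ (d + 1)) - 1‖ ≤ 2 * Real.pi * |θ * ((m : ℝ) - n) ^ (d + 1)| := by
            have := dd_le (θ * ((m : ℝ) - n) ^ (d + 1))
            unfold dd at this
            rwa [norm_sub_rev] at this
          have h3 : (n : ℝ) < m := by exact_mod_cast hm.1
          have h4 : (m : ℝ) ≤ n + M := by exact_mod_cast hm.2
          have h5 : |θ * ((m : ℝ) - n) ^ (d + 1)| ≤ κ * (M : ℝ) ^ (d + 1) := by
            rw [abs_mul, abs_pow]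
            refine mul_le_mul h ?_ (by positivity) hκ
            apply pow_le_pow_left₀ (abs_nonneg _)
            rw [abs_le]; constructor <;> linarith
          calc ‖f m‖ * ‖ee (θ * ((m : ℝ) - n) ^ (d + 1)) - 1‖ ≤ 1 * (2 * Real.pi * (κ * (M : ℝ) ^ (d + 1))) := by
                refine mul_le_mul (hf m) (h1.trans ?_) (norm_nonneg _) zero_le_one
                exact mul_le_mul_of_nonneg_left h5 (by positivity)
            _ = 2 * Real.pi * κ * (M : ℝ) ^ (d + 1) := by ring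
      _ = 2 * Real.pi * κ * (M : ℝ) ^ (d + 2) := by
          rw [sum_const, Nat.card_Ioc, nsmul_eq_mul, Nat.add_sub_cancel_left]
          ring

/-- all polynomials of degree at most `d` -/
def Full (d : ℕ) (f : ℕ → ℂ) : Prop := ∀ ε : ℝ, 0 < ε → ∃ H₀ : ℕ, ∀ N H : ℕ, H₀ ≤ H → H ≤ N →
  ∑ n ∈ Icc 1 N, (1 / (n : ℝ)) * wSup d Set.univ f n H ≤ ε * H * Real.log N

/-- **the scale for the leading coefficients near the rational points, degree at least two** -/
theorem near_scale_deg {f : ℕ → ℂ} (hf : Mul1 f) {d : ℕ} (hd : 1 ≤ d) (hF : Full d f) (Q : ℕ)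
    (ε : ℝ) (hε : 0 < ε) : ∃ κ : ℝ, 0 < κ ∧ ∃ M : ℕ, 1 ≤ M ∧ ∀ N ≥ M,
      ∑ n ∈ Icc 1 N, (1 / (n : ℝ)) * (wSup (d + 1) (nearSet Q κ Set.univ) f n M / M) ≤
        ε * ∑ n ∈ Icc 1 N, 1 / (n : ℝ) := by
  have hpi := Real.pi_pos
  set ε' : ℝ := ε / (2 * ((Q : ℝ) + 1)) with hε'
  have hε'0 : 0 < ε' := by positivity
  obtain ⟨H₀, hH₀⟩ := hF ε' hε'0
  set M : ℕ := H₀ + 1 with hM
  have hMr : (1 : ℝ) ≤ M := by rw [hM]; push_cast; linarith [(Nat.cast_nonneg H₀ : (0 : ℝ) ≤ H₀)]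
  have hM0 : (0 : ℝ) < M := by linarith
  set κ : ℝ := ε / (4 * Real.pi * (M : ℝ) ^ (d + 1)) with hκ
  have hκ0 : 0 < κ := by positivity
  refine ⟨κ, hκ0, M, by omega, fun N hN => ?_⟩
  set hn : ℝ := ∑ n ∈ Icc 1 N, 1 / (n : ℝ) with hhn
  have hpt : ∀ n, wSup (d + 1) (nearSet Q κ Set.univ) f n M / M ≤ Q * wSup d Set.univ f n M / M + ε / 2 := by
    intro n
    rw [div_le_iff₀ hM0]
    have h0 : 0 ≤ wSup d Set.univ f n M := FL.wSup_nonneg n M
    have e1 : (Q * wSup d Set.univ f n M / M + ε / 2) * M = Q * wSup d Set.univ f n M + ε / 2 * M := by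
      field_simp
    rw [e1]
    refine FL.wSup_le (by positivity) fun P hP hPE => ?_
    obtain ⟨_, q, hq1, hqQ, hq⟩ := hPE
    rw [norm_nsmul] at hq
    obtain ⟨b, hbq, k, hk⟩ := red hq1 hq.le
    refine (near_W_deg hf.1 hd hP hq1 hk n M).trans ?_
    have h1 : 2 * Real.pi * κ * (M : ℝ) ^ (d + 2) = ε / 2 * M := by
      rw [hκ, pow_succ (M : ℝ) (d + 1)]; field_simp; norm_num
    rw [h1]
    have h2 : (q : ℝ) ≤ Q := by exact_mod_cast hqQ
    nlinarith
  have hlogN : Real.log N ≤ hn := log_le_hn N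
  have hlog0 : 0 ≤ Real.log N := Real.log_natCast_nonneg N
  calc ∑ n ∈ Icc 1 N, (1 / (n : ℝ)) * (wSup (d + 1) (nearSet Q κ Set.univ) f n M / M) ≤
      ∑ n ∈ Icc 1 N, (1 / (n : ℝ)) * (Q * wSup d Set.univ f n M / M + ε / 2) :=
        sum_le_sum fun n _ => mul_le_mul_of_nonneg_left (hpt n) (by positivity)
    _ = Q / M * ∑ n ∈ Icc 1 N, (1 / (n : ℝ)) * wSup d Set.univ f n M + ε / 2 * hn := by
        rw [hhn, mul_sum, mul_sum, ← sum_add_distrib]
        refine sum_congr rfl fun n _ => ?_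
        ring
    _ ≤ Q / M * (ε' * M * Real.log N) + ε / 2 * hn := by
        refine add_le_add (mul_le_mul_of_nonneg_left (hH₀ N M (by omega) hN) (by positivity)) le_rfl
    _ = (Q * ε') * Real.log N + ε / 2 * hn := by field_simp
    _ ≤ ε / 2 * hn + ε / 2 * hn := by
        refine add_le_add ?_ le_rfl
        have h1 : (Q : ℝ) * ε' ≤ ε / 2 := by
          rw [hε', mul_div_assoc', div_le_div_iff₀ (by positivity) (by norm_num)]
          nlinarith
        calc (Q : ℝ) * ε' * Real.log N ≤ ε / 2 * Real.log N := mul_le_mul_of_nonneg_right h1 hlog0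
          _ ≤ ε / 2 * hn := mul_le_mul_of_nonneg_left hlogN (by positivity)
    _ = ε * hn := by ring

end Pool.Agent.T9h55.MD
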