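import Pool.Agent.T9h55.MD.Eqw
import Pool.Agent.T9h55.MD.Eq3

/-! Sharp upper bounds for the proportion of the primes `p` with `p α` near a compact set (helper55). -/

set_option autoImplicit false

namespace Pool.Agent.T9h55.MD

open Finset MeasureTheory AddCircle
open Pool.Agent.Helper44K9.FU
open Pool.Agent.H807R2.Dav (ee norm_ee)

open Pool.Agent.Helper44K9.FU.TrigL in
/-- a trigonometric majorant of a compact set, with almost the same mean value -/
theorem majorant {E : Set UnitAddCircle} (hE : IsCompact E) (ε : ℝ) (hε : 0 < ε) (hε1 : ε ≤ 1) :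
    ∃ (S : Finset ℤ) (a : ℤ → ℂ) (τ : ℝ), 0 < τ ∧ 0 ∈ S ∧
      (∀ x : ℝ, 0 ≤ (∑ j ∈ S, a j * ee (j * x)).re) ∧ (a 0).re ≤ (volume E).toReal + ε ∧
      ∀ x β : ℝ, (β : UnitAddCircle) ∈ E → ∀ b : ℤ, |β - x - b| ≤ τ → 1 ≤ (∑ j ∈ S, a j * ee (j * x)).re := by
  classical
  have : Fact ((0 : ℝ) < 1) := ⟨zero_lt_one⟩
  set δ : ℝ := ε / 8 with hδ
  have hδ0 : 0 < δ := by positivity
  have hEfin : volume E ≠ ⊤ :=
    ne_top_of_le_ne_top (measure_ne_top volume Set.univ) (measure_mono (Set.subset_univ E))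
  have hE1 : (volume E).toReal ≤ 1 := by
    have h1 : volume E ≤ 1 := by
      refine (measure_mono (Set.subset_univ E)).trans (le_of_eq ?_)
      exact UnitAddCircle.measure_univ
    exact ENNReal.toReal_le_of_le_ofReal zero_le_one (by simpa using h1)
  obtain ⟨V, hV1, hV2, hV3⟩ := Set.exists_isOpen_le_add E volume (ε := ENNReal.ofReal δ) (by
    rw [ne_eq, ENNReal.ofReal_eq_zero, not_le]
    exact hδ0)
  have hVv : (volume V).toReal ≤ (volume E).toReal + δ := by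
    have h1 := ENNReal.toReal_mono (ENNReal.add_ne_top.2 ⟨hEfin, ENNReal.ofReal_ne_top⟩) hV3
    rw [ENNReal.toReal_add hEfin ENNReal.ofReal_ne_top, ENNReal.toReal_ofReal hδ0.le] at h1
    exact h1
  obtain ⟨g, hg0, hg1, hg⟩ := exists_continuous_zero_one_of_isClosed hV2.isClosed_compl hE.isClosed
    (Set.disjoint_compl_left_iff_subset.2 hV1)
  -- the trigonometric polynomial
  obtain ⟨G, hG⟩ : ∃ G : C(UnitAddCircle, ℂ), ∀ z, G z = (((1 + 2 * δ) * g z : ℝ) : ℂ) :=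
    ⟨⟨fun z => (((1 + 2 * δ) * g z : ℝ) : ℂ), by fun_prop⟩, fun z => rfl⟩
  obtain ⟨c, hc⟩ := approx G (δ / 2) (by positivity)
  obtain ⟨p, hp⟩ : ∃ p : UnitAddCircle → ℝ, p = fun z => (∑ j ∈ c.support, c j * fourier j z).re :=
    ⟨_, rfl⟩
  have hpg : ∀ z, |p z - (1 + 2 * δ) * g z| ≤ δ / 2 := by
    intro z
    have h1 := hc z
    rw [hG] at h1
    have h2 := Complex.abs_re_le_norm (∑ j ∈ c.support, c j * fourier j z - (((1 + 2 * δ) * g z : ℝ) : ℂ))
    rw [Complex.sub_re, Complex.ofReal_re] at h2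
    rw [hp]
    exact h2.trans h1
  have hpc : Continuous p := by
    rw [hp]
    exact Complex.continuous_re.comp (continuous_finsetSum _ fun j _ =>
      (ContinuousMap.continuous (fourier j)).const_mul (c j))
  -- the mean
  have hc0 : (c 0).re ≤ (volume E).toReal + 5 * δ := by
    have h1 := mean c
    have hint : Integrable (fun z : UnitAddCircle => ∑ j ∈ c.support, c j * fourier j z) volume :=
      (continuous_finsetSum _ fun j _ =>
        (ContinuousMap.continuous (fourier j)).const_mul (c j)).integrable_of_hasCompactSupport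
        (HasCompactSupport.of_compactSpace _)
    have h2 : (c 0).re = ∫ z : UnitAddCircle, p z := by
      rw [← h1, hp]
      exact (integral_re hint).symm
    have hpi : Integrable p volume :=
      hpc.integrable_of_hasCompactSupport (HasCompactSupport.of_compactSpace _)
    have hgi : Integrable (fun z : UnitAddCircle => V.indicator (fun _ => (1 + 2 * δ : ℝ)) z + δ / 2) volume :=
      ((integrable_const (1 + 2 * δ : ℝ)).indicator hV2.measurableSet).add (integrable_const _)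
    have h3 : ∫ z : UnitAddCircle, p z ≤ ∫ z : UnitAddCircle, (V.indicator (fun _ => (1 + 2 * δ : ℝ)) z + δ / 2) := by
      refine integral_mono hpi hgi fun z => ?_
      have h4 := abs_le.1 (hpg z)
      simp only
      by_cases hz : z ∈ V
      · rw [Set.indicator_of_mem hz]
        have h5 := (hg z).2
        have h6 : (1 + 2 * δ) * g z ≤ (1 + 2 * δ) * 1 := mul_le_mul_of_nonneg_left h5 (by positivity)
        linarith [h4.2]
      · rw [Set.indicator_of_notMem hz]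
        have h5 : g z = 0 := hg0 hz
        rw [h5, mul_zero] at h4
        linarith [h4.2]
    have h4 : ∫ z : UnitAddCircle, (V.indicator (fun _ => (1 + 2 * δ : ℝ)) z + δ / 2) =
        (volume V).toReal * (1 + 2 * δ) + δ / 2 := by
      rw [integral_add ((integrable_const (1 + 2 * δ : ℝ)).indicator hV2.measurableSet) (integrable_const _),
        integral_indicator_const _ hV2.measurableSet, integral_const]
      simp [Measure.real]
    rw [h2]
    refine h3.trans ?_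
    rw [h4]
    have h5 : (volume V).toReal * (1 + 2 * δ) ≤ ((volume E).toReal + δ) * (1 + 2 * δ) :=
      mul_le_mul_of_nonneg_right hVv (by positivity)
    have h6 : δ ≤ 1 / 8 := by rw [hδ]; linarith
    nlinarith
  -- uniform continuity
  have hT : Continuous (fun z => p z + δ / 2) := hpc.add continuous_const
  have huc := CompactSpace.uniformContinuous_of_continuous hT
  obtain ⟨τ, hτ, hτ2⟩ := Metric.uniformContinuous_iff.1 huc (2 * δ) (by positivity)
  refine ⟨insert 0 c.support, fun j => c j + if j = 0 then ((δ / 2 : ℝ) : ℂ) else 0, τ / 2, by positivity,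
    mem_insert_self _ _, ?_, ?_, ?_⟩
  on_goal 2 =>
    simp only [if_true, Complex.add_re, Complex.ofReal_re]
    rw [hδ] at hc0 ⊢
    linarith
  all_goals
    have e1 : ∀ x : ℝ, (∑ j ∈ insert 0 c.support, (c j + if j = 0 then ((δ / 2 : ℝ) : ℂ) else 0) * ee (j * x)).re =
        p (x : UnitAddCircle) + δ / 2 := by
      intro x
      have e2 : ∑ j ∈ insert 0 c.support, (c j + if j = 0 then ((δ / 2 : ℝ) : ℂ) else 0) * ee (j * x) =
          ∑ j ∈ c.support, c j * fourier j (x : UnitAddCircle) + ((δ / 2 : ℝ) : ℂ) := by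
        simp only [add_mul, sum_add_distrib]
        congr 1
        · rw [sum_insert_of_eq_zero_if_notMem]
          · exact sum_congr rfl fun j _ => by rw [ee_fourier]
          · intro h
            rw [Finsupp.notMem_support_iff.1 h, zero_mul]
        · have e3 : ∀ j : ℤ, (if j = 0 then ((δ / 2 : ℝ) : ℂ) else 0) * ee (j * x) =
              if j = 0 then ((δ / 2 : ℝ) : ℂ) else 0 := by
            intro j
            by_cases hj : j = 0
            · subst hj
              have : ee 0 = 1 := by unfold ee; simp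
              simp [this]
            · simp [hj]
          simp only [e3]
          rw [sum_ite_eq' (insert 0 c.support) (0 : ℤ), if_pos (mem_insert_self _ _)]
      rw [e2, Complex.add_re, Complex.ofReal_re, hp]
  · intro x
    rw [e1]
    have h4 := abs_le.1 (hpg (x : UnitAddCircle))
    have h5 : 0 ≤ (1 + 2 * δ) * g (x : UnitAddCircle) := mul_nonneg (by positivity) (hg _).1
    linarith [h4.1]
  · intro x β hβ b hb
    rw [e1]
    have h4 := abs_le.1 (hpg (β : UnitAddCircle))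
    have h5 : g (β : UnitAddCircle) = 1 := hg1 hβ
    rw [h5, mul_one] at h4
    have h6 : dist (x : UnitAddCircle) (β : UnitAddCircle) < τ := by
      rw [dist_comm, dist_eq_norm, ← AddCircle.coe_sub, UnitAddCircle.norm_eq]
      exact ((round_le _ b).trans hb).trans_lt (by linarith)
    have h7 := hτ2 h6
    rw [Real.dist_eq] at h7
    have h8 := abs_lt.1 h7
    linarith [h4.1, h8.1]

/-- one block, upper bound -/
lemma block_up {α ε₁ : ℝ} {S : Finset ℤ} {a : ℤ → ℂ} (h0S : 0 ∈ S) (hε₁ : 0 ≤ ε₁) {N : ℕ}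
    (hpos : ∀ x : ℝ, 0 ≤ (∑ j ∈ S, a j * ee (j * x)).re)
    (hpp : ∑ n ∈ (Ioc N (2 * N)).filter (fun n => ¬ n.Prime), ArithmeticFunction.vonMangoldt n ≤ ε₁ * N)
    (hS : ∀ j ∈ S, j ≠ 0 → ‖∑ n ∈ Ioc N (2 * N), ((ArithmeticFunction.vonMangoldt n : ℝ) : ℂ) *
      ee ((j * α) * (n : ℝ) ^ 1)‖ ≤ ε₁ * N) :
    ∑ p ∈ (Ioc N (2 * N)).filter Nat.Prime, Real.log p * (∑ j ∈ S, a j * ee (j * ((p : ℝ) * α))).re ≤
      (a 0).re * ∑ p ∈ (Ioc N (2 * N)).filter Nat.Prime, Real.log p + 2 * (∑ j ∈ S, ‖a j‖) * ε₁ * N := by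
  set T : ℝ → ℝ := fun x => (∑ j ∈ S, a j * ee (j * x)).re with hT
  set A : ℝ := ∑ j ∈ S, ‖a j‖ with hA
  have hA0 : 0 ≤ A := sum_nonneg fun _ _ => norm_nonneg _
  have hNr : (0 : ℝ) ≤ N := Nat.cast_nonneg _
  have hsplit : ∀ F : ℕ → ℝ, ∑ n ∈ Ioc N (2 * N), ArithmeticFunction.vonMangoldt n * F n =
      ∑ p ∈ (Ioc N (2 * N)).filter Nat.Prime, Real.log p * F p +
      ∑ n ∈ (Ioc N (2 * N)).filter (fun n => ¬ n.Prime), ArithmeticFunction.vonMangoldt n * F n := by
    intro F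
    rw [← sum_filter_add_sum_filter_not (Ioc N (2 * N)) Nat.Prime]
    congr 1
    refine sum_congr rfl fun p hp => ?_
    rw [mem_filter] at hp
    rw [ArithmeticFunction.vonMangoldt_apply_prime hp.2]
  set PP : ℝ := ∑ n ∈ (Ioc N (2 * N)).filter (fun n => ¬ n.Prime), ArithmeticFunction.vonMangoldt n with hPP
  have hPP0 : 0 ≤ PP := sum_nonneg fun n _ => ArithmeticFunction.vonMangoldt_nonneg
  have ha0A : |(a 0).re| ≤ A := by
    refine (Complex.abs_re_le_norm _).trans ?_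
    exact single_le_sum (f := fun j => ‖a j‖) (fun _ _ => norm_nonneg _) h0S
  -- all n
  have h1 : ∑ n ∈ Ioc N (2 * N), ArithmeticFunction.vonMangoldt n * T ((n : ℝ) * α) ≤
      (a 0).re * ∑ n ∈ Ioc N (2 * N), ArithmeticFunction.vonMangoldt n + A * ε₁ * N := by
    have e1 : ∑ n ∈ Ioc N (2 * N), ArithmeticFunction.vonMangoldt n * T ((n : ℝ) * α) =
        (∑ j ∈ S, a j * ∑ n ∈ Ioc N (2 * N), ((ArithmeticFunction.vonMangoldt n : ℝ) : ℂ) *
          ee ((j * α) * (n : ℝ) ^ 1)).re := by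
      have : ((∑ j ∈ S, a j * ∑ n ∈ Ioc N (2 * N), ((ArithmeticFunction.vonMangoldt n : ℝ) : ℂ) *
          ee ((j * α) * (n : ℝ) ^ 1))) =
          ∑ n ∈ Ioc N (2 * N), ((ArithmeticFunction.vonMangoldt n : ℝ) : ℂ) * ∑ j ∈ S, a j * ee (j * ((n : ℝ) * α)) := by
        simp only [mul_sum]
        rw [sum_comm]
        refine sum_congr rfl fun n _ => sum_congr rfl fun j _ => ?_
        rw [show (j : ℝ) * ((n : ℝ) * α) = j * α * (n : ℝ) ^ 1 by ring]
        ring
      rw [this, Complex.re_sum]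
      refine sum_congr rfl fun n _ => ?_
      rw [Complex.re_ofReal_mul]
    rw [e1, Complex.re_sum, ← add_sum_erase S _ h0S]
    have e2 : (a 0 * ∑ n ∈ Ioc N (2 * N), ((ArithmeticFunction.vonMangoldt n : ℝ) : ℂ) *
        ee ((((0 : ℤ) : ℝ) * α) * (n : ℝ) ^ 1)).re = (a 0).re * ∑ n ∈ Ioc N (2 * N), ArithmeticFunction.vonMangoldt n := by
      have e3 : ∑ n ∈ Ioc N (2 * N), ((ArithmeticFunction.vonMangoldt n : ℝ) : ℂ) *
          ee ((((0 : ℤ) : ℝ) * α) * (n : ℝ) ^ 1) = ((∑ n ∈ Ioc N (2 * N), ArithmeticFunction.vonMangoldt n : ℝ) : ℂ) := by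
        push_cast
        refine sum_congr rfl fun n _ => ?_
        rw [zero_mul, zero_mul]
        have : ee 0 = 1 := by unfold ee; simp
        rw [this, mul_one]
      rw [e3, mul_comm, Complex.re_ofReal_mul, mul_comm]
    have e5 : ∑ j ∈ S.erase 0, (a j * ∑ n ∈ Ioc N (2 * N), ((ArithmeticFunction.vonMangoldt n : ℝ) : ℂ) *
        ee ((j * α) * (n : ℝ) ^ 1)).re ≤ A * ε₁ * N := by
      calc ∑ j ∈ S.erase 0, (a j * ∑ n ∈ Ioc N (2 * N), ((ArithmeticFunction.vonMangoldt n : ℝ) : ℂ) *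
            ee ((j * α) * (n : ℝ) ^ 1)).re ≤ ∑ j ∈ S.erase 0, ‖a j‖ * (ε₁ * N) := by
            refine sum_le_sum fun j hj => ?_
            rw [mem_erase] at hj
            refine (Complex.re_le_norm _).trans ?_
            rw [norm_mul]
            exact mul_le_mul_of_nonneg_left (hS j hj.2 hj.1) (norm_nonneg _)
        _ ≤ A * (ε₁ * N) := by
            rw [← sum_mul]
            refine mul_le_mul_of_nonneg_right ?_ (by positivity)
            exact sum_le_sum_of_subset_of_nonneg (erase_subset _ _) fun _ _ _ => norm_nonneg _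
        _ = A * ε₁ * N := by ring
    rw [e2]
    linarith
  rw [hsplit] at h1
  have h2 := hsplit (fun _ => 1)
  simp only [mul_one] at h2
  rw [h2, ← hPP] at h1
  have h3 : 0 ≤ ∑ n ∈ (Ioc N (2 * N)).filter (fun n => ¬ n.Prime), ArithmeticFunction.vonMangoldt n * T ((n : ℝ) * α) :=
    sum_nonneg fun n _ => mul_nonneg ArithmeticFunction.vonMangoldt_nonneg (hpos _)
  have h4 : (a 0).re * PP ≤ A * (ε₁ * N) := by
    calc (a 0).re * PP ≤ |(a 0).re| * PP := mul_le_mul_of_nonneg_right (le_abs_self _) hPP0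
      _ ≤ A * (ε₁ * N) := mul_le_mul ha0A hpp hPP0 hA0
  nlinarith

open Classical in
open Pool.Agent.Helper44K9.FU.EqL in
/-- **a sharp upper bound for the proportion of the primes `p` with `p α` near the far part of a compact set** -/
theorem equ (hPW : S_PW) (hCH : S_CHB) {E : Set UnitAddCircle} (hE : IsCompact E) (ε : ℝ) (hε : 0 < ε) (hε1 : ε ≤ 1) :
    ∃ Q : ℕ, 1 ≤ Q ∧ ∀ (E' : Set UnitAddCircle) (κ : ℝ), E' ⊆ E → 0 < κ → Far Q κ E' → ∀ (z : ℕ) (A : ℝ),
      ∃ I : Finset ℕ, (∀ p ∈ I, p.Prime ∧ z < p ∧ 0 ≤ vw p ∧ vw p ≤ 4 * (1 / (p : ℝ))) ∧ A ≤ ∑ p ∈ I, vw p ∧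
      ∃ τ : ℝ, 0 < τ ∧ ∀ α : ℝ, ∑ p ∈ I.filter (fun p : ℕ => ∃ β : ℝ, (β : UnitAddCircle) ∈ E' ∧ ∃ b : ℤ,
        |β - p * α - b| ≤ τ), vw p ≤ ((volume E).toReal + ε) * ∑ p ∈ I, vw p := by
  obtain ⟨⟨b, hb, k₀, hk₀⟩, N₁, hN₁⟩ := hCH
  have hl2 : 0 < Real.log 2 := Real.log_pos (by norm_num)
  have hE0 : 0 ≤ (volume E).toReal := ENNReal.toReal_nonneg
  obtain ⟨S, a, τ₁, hτ₁, h0S, hpos, ha0, hmaj0⟩ := majorant hE (ε / 4) (by positivity) (by linarith)
  set A₀ : ℝ := ∑ j ∈ S, ‖a j‖ with hA₀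
  have hA₀0 : 0 ≤ A₀ := sum_nonneg fun _ _ => norm_nonneg _
  set ε₁ : ℝ := ε * (b * Real.log 2) / (8 * (A₀ + 1)) with hε₁
  have hε₁0 : 0 < ε₁ := by positivity
  obtain ⟨C, N₀, hC1, hPWN⟩ := hPW 1 le_rfl ε₁ hε₁0
  obtain ⟨N₂, hN₂⟩ := pp_small ε₁ hε₁0
  set D₀ : ℕ := ∑ j ∈ S, j.natAbs + 1 with hD₀
  set Q : ℕ := C * D₀ with hQ
  have hQ1 : 1 ≤ Q := Nat.mul_pos hC1 (by omega)
  have hCQ : C ≤ Q := Nat.le_mul_of_pos_right _ (by omega)
  refine ⟨Q, hQ1, ?_⟩
  intro E' κ hsub hκ hκE z A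
  have hQr : (0 : ℝ) < Q := by exact_mod_cast hQ1
  set ρ : ℝ := κ / 8 with hρ
  have hρ0 : 0 < ρ := by positivity
  set τ : ℝ := min τ₁ (κ / (4 * Q)) with hτ
  have hτ0 : 0 < τ := lt_min hτ₁ (by positivity)
  have hτQ : (Q : ℝ) * τ ≤ κ / 4 := by
    calc (Q : ℝ) * τ ≤ Q * (κ / (4 * Q)) := mul_le_mul_of_nonneg_left (min_le_right _ _) hQr.le
      _ = κ / 4 := by field_simp
  obtain ⟨B₂, hB₂⟩ : ∃ B₂ : ℕ, (Q : ℝ) / ρ < 2 ^ B₂ := pow_unbounded_of_one_lt _ (by norm_num)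
  -- large k
  obtain ⟨k₁, hk₁0, hk₁1, hk₁N0, hk₁N2, hk₁z⟩ : ∃ k₁ : ℕ, k₀ ≤ k₁ ∧ 1 ≤ k₁ ∧ N₀ ≤ 2 ^ k₁ ∧ N₂ ≤ 2 ^ k₁ ∧ z ≤ 2 ^ k₁ := by
    refine ⟨k₀ + N₀ + N₂ + z + 1, by omega, by omega, ?_, ?_, ?_⟩
    all_goals exact le_trans (by omega) (Nat.lt_two_pow_self (n := k₀ + N₀ + N₂ + z + 1)).le
  -- the mass of a block
  have hmass : ∀ k ≥ k₁, b * Real.log 2 * 2 ^ k ≤ ∑ p ∈ (Ioc (2 ^ k) (2 ^ (k + 1))).filter Nat.Prime, Real.log p := by
    intro k hk
    have hk1 : 1 ≤ k := by omega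
    have hkr : (1 : ℝ) ≤ k := by exact_mod_cast hk1
    have h1 := hk₀ k (by omega)
    have h2 : (2 : ℝ) ^ k * (k * Real.log 2) * ∑ p ∈ (Ioc (2 ^ k) (2 ^ (k + 1))).filter Nat.Prime, 1 / (p : ℝ) ≤
        ∑ p ∈ (Ioc (2 ^ k) (2 ^ (k + 1))).filter Nat.Prime, Real.log p := by
      rw [mul_sum]
      refine sum_le_sum fun p hp => ?_
      rw [mem_filter, mem_Ioc] at hp
      have h3 : ((2 : ℝ) ^ k) ≤ p := by exact_mod_cast hp.1.1.le
      have h4 : (0 : ℝ) < 2 ^ k := by positivity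
      have h5 : k * Real.log 2 ≤ Real.log p := by
        rw [← Real.log_pow]
        exact Real.log_le_log h4 h3
      have h6 : (2 : ℝ) ^ k * (1 / (p : ℝ)) ≤ 1 := by
        rw [mul_one_div, div_le_one (by linarith)]
        exact h3
      calc (2 : ℝ) ^ k * (k * Real.log 2) * (1 / (p : ℝ)) = (k * Real.log 2) * ((2 : ℝ) ^ k * (1 / (p : ℝ))) := by ring
        _ ≤ (k * Real.log 2) * 1 := mul_le_mul_of_nonneg_left h6 (by positivity)
        _ ≤ Real.log p := by rw [mul_one]; exact h5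
    refine le_trans ?_ h2
    calc b * Real.log 2 * 2 ^ k = (2 : ℝ) ^ k * (k * Real.log 2) * (b / k) := by field_simp
      _ ≤ _ := mul_le_mul_of_nonneg_left h1 (by positivity)
  -- divergence
  obtain ⟨k₂, hk₂, hdiv⟩ : ∃ k₂ : ℕ, k₁ ≤ k₂ ∧ max A (8 * B₂ / ε) ≤ b * Real.log 2 * ∑ k ∈ Ico k₁ k₂, 1 / (k : ℝ) := by
    have h1 := Real.tendsto_sum_range_one_div_nat_succ_atTop
    obtain ⟨M, hM⟩ := (h1.eventually_ge_atTop (max A (8 * B₂ / ε) / (b * Real.log 2) +
      ∑ k ∈ range k₁, 1 / ((k : ℝ)))).exists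
    refine ⟨max k₁ (M + 1), le_max_left _ _, ?_⟩
    have h2 : ∑ i ∈ range M, 1 / ((i : ℝ) + 1) = ∑ k ∈ range (M + 1), 1 / (k : ℝ) := by
      rw [sum_range_succ' (fun k : ℕ => 1 / (k : ℝ)) M]
      push_cast; simp
    rw [h2] at hM
    have h3 : ∑ k ∈ range (M + 1), 1 / (k : ℝ) ≤ ∑ k ∈ range (max k₁ (M + 1)), 1 / (k : ℝ) :=
      sum_le_sum_of_subset_of_nonneg (range_subset_range.2 (le_max_right _ _)) fun _ _ _ => by positivity
    rw [sum_Ico_eq_sub _ (le_max_left _ _)]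
    have h5 : max A (8 * B₂ / ε) / (b * Real.log 2) ≤
        ∑ k ∈ range (max k₁ (M + 1)), 1 / (k : ℝ) - ∑ k ∈ range k₁, 1 / (k : ℝ) := by
      linarith
    rw [div_le_iff₀ (by positivity)] at h5
    linarith
  set I : Finset ℕ := (Ioc (2 ^ k₁) (2 ^ k₂)).filter Nat.Prime with hI
  have hblkv : ∀ k ∈ Ico k₁ k₂, ∀ F : ℕ → ℝ, ∑ p ∈ (Ioc (2 ^ k) (2 ^ (k + 1))).filter Nat.Prime, vw p * F p =
      (1 / ((2 : ℝ) ^ k * k)) * ∑ p ∈ (Ioc (2 ^ k) (2 ^ (k + 1))).filter Nat.Prime, Real.log p * F p := by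
    intro k hk F
    rw [mul_sum]
    refine sum_congr rfl fun p hp => ?_
    rw [mem_filter] at hp
    rw [vw_block hp.1]
    ring
  have hVbig : max A (8 * B₂ / ε) ≤ ∑ p ∈ I, vw p := by
    refine hdiv.trans ?_
    rw [hI, blocks _ k₁ k₂ hk₂, mul_sum]
    refine sum_le_sum fun k hk => ?_
    have hk' := mem_Ico.1 hk
    have hk0 : (0 : ℝ) < k := by exact_mod_cast (by omega : 0 < k)
    have h1 := hblkv k hk (fun _ => 1)
    simp only [mul_one] at h1
    rw [h1]
    calc b * Real.log 2 * (1 / (k : ℝ)) = (1 / ((2 : ℝ) ^ k * k)) * (b * Real.log 2 * 2 ^ k) := by field_simp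
      _ ≤ _ := mul_le_mul_of_nonneg_left (hmass k hk'.1) (by positivity)
  refine ⟨I, ?_, (le_max_left _ _).trans hVbig, τ, hτ0, fun α => ?_⟩
  · intro p hp
    rw [hI, mem_filter, mem_Ioc] at hp
    refine ⟨hp.2, lt_of_le_of_lt hk₁z hp.1.1, ?_⟩
    -- the block of p
    have hp1 : 1 ≤ p - 1 := by
      have : 2 ^ 1 ≤ 2 ^ k₁ := Nat.pow_le_pow_right (by norm_num) hk₁1
      omega
    have h1 := Nat.pow_log_le_self 2 (show p - 1 ≠ 0 by omega)
    have h2 := Nat.lt_pow_succ_log_self (b := 2) (by norm_num) (p - 1)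
    refine vw_le (k := Nat.log 2 (p - 1)) ?_ ?_
    · have h3 : 2 ^ 1 ≤ 2 ^ k₁ := Nat.pow_le_pow_right (by norm_num) hk₁1
      apply Nat.log_pos (by norm_num) (by omega)
    · rw [mem_Ioc]
      constructor
      · omega
      · rw [Nat.succ_eq_add_one] at h2
        omega
  -- the bad primes
  set Bd : ℕ → Prop := fun p => ∃ β : ℝ, (β : UnitAddCircle) ∈ E' ∧ ∃ b : ℤ, |β - p * α - b| ≤ τ with hBd
  have hvnn : ∀ p : ℕ, 0 ≤ vw p := by
    intro p
    unfold vw
    have : 0 ≤ Real.log p := Real.log_natCast_nonneg p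
    positivity
  -- exceptional blocks
  set X : Finset ℕ := (Ico k₁ k₂).filter (fun k =>
    (∃ q : ℕ, 1 ≤ q ∧ q ≤ Q ∧ ∃ a : ℤ, |q * α - a| ≤ Q / ((2 : ℝ) ^ k)) ∧
    ∀ q : ℕ, 1 ≤ q → q ≤ Q → ∀ a : ℤ, ρ / ((2 : ℝ) ^ k) < |q * α - a|) with hX
  have hXcard : #X ≤ B₂ := by
    rcases X.eq_empty_or_nonempty with h | h
    · rw [h]; simp
    set m := X.min' h with hm
    have hm1 : m ∈ X := X.min'_mem h
    have hsub : X ⊆ Ico m (m + B₂) := by
      intro l hl
      rw [mem_Ico]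
      have hml : m ≤ l := X.min'_le l hl
      refine ⟨hml, ?_⟩
      by_contra hcon
      push Not at hcon
      rw [hX, mem_filter] at hm1 hl
      obtain ⟨q, hq1, hqQ, a', ha'⟩ := hl.2.1
      have h1 := hm1.2.2 q hq1 hqQ a'
      have h2 : ρ / ((2 : ℝ) ^ m) < Q / ((2 : ℝ) ^ l) := lt_of_lt_of_le h1 ha'
      rw [div_lt_div_iff₀ (by positivity) (by positivity)] at h2
      have h3 : ((2 : ℝ) ^ l) = ((2 : ℝ) ^ m) * ((2 : ℝ) ^ (l - m)) := by
        rw [← pow_add]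
        congr 1; omega
      rw [h3] at h2
      have h4 : (2 : ℝ) ^ B₂ ≤ ((2 : ℝ) ^ (l - m)) := pow_le_pow_right₀ (by norm_num) (by omega)
      rw [div_lt_iff₀ hρ0] at hB₂
      have h5 : (0 : ℝ) < ((2 : ℝ) ^ m) := by positivity
      have h7 : (2 : ℝ) ^ B₂ * ρ ≤ ((2 : ℝ) ^ (l - m)) * ρ := mul_le_mul_of_nonneg_right h4 hρ0.le
      nlinarith
    calc #X ≤ #(Ico m (m + B₂)) := card_le_card hsub
      _ = B₂ := by rw [Nat.card_Ico]; omega
  have hblk : ∀ k ∈ Ico k₁ k₂, ∑ p ∈ ((Ioc (2 ^ k) (2 ^ (k + 1))).filter Nat.Prime).filter Bd, vw p ≤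
      ((volume E).toReal + ε / 2) * ∑ p ∈ (Ioc (2 ^ k) (2 ^ (k + 1))).filter Nat.Prime, vw p +
        (if k ∈ X then 4 else 0) := by
    intro k hk
    have hk' := mem_Ico.1 hk
    have hk0 : (0 : ℝ) < k := by exact_mod_cast (by omega : 0 < k)
    have hnn : 0 ≤ ((volume E).toReal + ε / 2) * ∑ p ∈ (Ioc (2 ^ k) (2 ^ (k + 1))).filter Nat.Prime, vw p :=
      mul_nonneg (by positivity) (sum_nonneg fun p _ => hvnn p)
    by_cases hkX : k ∈ X
    · rw [if_pos hkX]
      have h1 := block_le_one Bd k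
      have h2 : ∑ p ∈ ((Ioc (2 ^ k) (2 ^ (k + 1))).filter Nat.Prime).filter Bd, vw p ≤
          4 * ∑ p ∈ ((Ioc (2 ^ k) (2 ^ (k + 1))).filter Nat.Prime).filter Bd, 1 / (p : ℝ) := by
        rw [mul_sum]
        refine sum_le_sum fun p hp => ?_
        rw [mem_filter, mem_filter] at hp
        exact (vw_le (by omega : 1 ≤ k) hp.1.1).2
      linarith
    rw [if_neg hkX, add_zero]
    have h2k : (2 : ℕ) ^ k₁ ≤ 2 ^ k := Nat.pow_le_pow_right (by norm_num) hk'.1
    by_cases hnear : ∃ q : ℕ, 1 ≤ q ∧ q ≤ Q ∧ ∃ a : ℤ, |q * α - a| ≤ Q / ((2 : ℝ) ^ k)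
    · -- no bad primes
      have h1 : ¬ ∀ q : ℕ, 1 ≤ q → q ≤ Q → ∀ a : ℤ, ρ / ((2 : ℝ) ^ k) < |q * α - a| := by
        intro h2
        exact hkX (by rw [hX, mem_filter]; exact ⟨hk, hnear, h2⟩)
      push Not at h1
      obtain ⟨q, hq1, hqQ, a', ha'⟩ := h1
      have h3 : ((Ioc (2 ^ k) (2 ^ (k + 1))).filter Nat.Prime).filter Bd = ∅ := by
        rw [filter_eq_empty_iff]
        rintro p hp ⟨β, hβ, b', hb'⟩
        rw [mem_filter, mem_Ioc] at hp
        have h4 := hκE β hβ q hq1 hqQ (q * b' + p * a')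
        have h5 : (q : ℝ) * β - ((q * b' + p * a' : ℤ) : ℝ) = q * (β - p * α - b') + p * (q * α - a') := by
          push_cast; ring
        rw [h5] at h4
        have hqr : (q : ℝ) ≤ Q := by exact_mod_cast hqQ
        have hq0 : (0 : ℝ) ≤ q := Nat.cast_nonneg _
        have h6 : |(q : ℝ) * (β - p * α - b') + p * (q * α - a')| ≤ κ / 4 + κ / 4 := by
          refine (abs_add_le _ _).trans (add_le_add ?_ ?_)
          · rw [abs_mul, abs_of_nonneg hq0]
            calc (q : ℝ) * |β - p * α - b'| ≤ Q * τ := mul_le_mul hqr hb' (abs_nonneg _) hQr.le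
              _ ≤ κ / 4 := hτQ
          · rw [abs_mul, abs_of_nonneg (Nat.cast_nonneg p)]
            have h7 : (p : ℝ) ≤ 2 * 2 ^ k := by
              have : (p : ℝ) ≤ ((2 ^ (k + 1) : ℕ) : ℝ) := by exact_mod_cast hp.1.2
              push_cast at this
              rw [pow_succ] at this
              linarith
            calc (p : ℝ) * |q * α - a'| ≤ (2 * 2 ^ k) * (ρ / ((2 : ℝ) ^ k)) :=
                  mul_le_mul h7 ha' (abs_nonneg _) (by positivity)
              _ = 2 * ρ := by field_simp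
              _ = κ / 4 := by rw [hρ]; ring
        linarith
      rw [h3, sum_empty]
      exact hnn
    · -- a good block
      have hS : ∀ j ∈ S, j ≠ 0 → ‖∑ n ∈ Ioc (2 ^ k) (2 * 2 ^ k), ((ArithmeticFunction.vonMangoldt n : ℝ) : ℂ) *
          ee ((j * α) * (n : ℝ) ^ 1)‖ ≤ ε₁ * ((2 ^ k : ℕ) : ℝ) := by
        intro j hj hj0
        by_contra hcon
        push Not at hcon
        obtain ⟨q, hq1, hqC, a', ha'⟩ := hPWN (2 ^ k) (hk₁N0.trans h2k) (j * α) hcon.le
        refine hnear ⟨q * j.natAbs, Nat.mul_pos hq1 (Int.natAbs_pos.2 hj0), ?_, (if 0 ≤ j then a' else -a'), ?_⟩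
        · rw [hQ]
          refine Nat.mul_le_mul hqC ?_
          have : j.natAbs ≤ ∑ j ∈ S, j.natAbs := single_le_sum (f := fun j : ℤ => j.natAbs) (fun _ _ => Nat.zero_le _) hj
          omega
        · have h5 : |((q * j.natAbs : ℕ) : ℝ) * α - ((if 0 ≤ j then a' else -a' : ℤ) : ℝ)| = |q * (j * α) - a'| := by
            have h6 : ((j.natAbs : ℕ) : ℝ) = ((|j| : ℤ) : ℝ) := by
              rw [Int.abs_eq_natAbs, Int.cast_natCast]
            split_ifs with hj1
            · push_cast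
              rw [h6, abs_of_nonneg hj1]
              congr 1; ring
            · push Not at hj1
              push_cast
              rw [h6, abs_of_neg hj1]
              push_cast
              rw [show (q : ℝ) * -(j : ℝ) * α - -(a' : ℝ) = -(q * (j * α) - a') by ring, abs_neg]
          rw [h5]
          refine ha'.trans ?_
          rw [pow_one]
          push_cast
          have : (C : ℝ) ≤ Q := by exact_mod_cast hCQ
          gcongr
      have h3 := block_up (α := α) (ε₁ := ε₁) (S := S) (a := a) h0S hε₁0.le (N := 2 ^ k) hpos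
        (hN₂ _ (hk₁N2.trans h2k)) hS
      have hN : (2 : ℕ) ^ (k + 1) = 2 * 2 ^ k := by rw [pow_succ]; ring
      have hm := hmass k hk'.1
      rw [← hN] at h3
      set T : ℝ → ℝ := fun x => (∑ j ∈ S, a j * ee (j * x)).re with hT
      set θ : ℝ := ∑ p ∈ (Ioc (2 ^ k) (2 ^ (k + 1))).filter Nat.Prime, Real.log p with hθ
      have hθ0 : 0 ≤ θ := le_trans (by positivity) hm
      have h4 : ∑ p ∈ ((Ioc (2 ^ k) (2 ^ (k + 1))).filter Nat.Prime).filter Bd, vw p ≤
          ∑ p ∈ (Ioc (2 ^ k) (2 ^ (k + 1))).filter Nat.Prime, vw p * T (p * α) := by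
        rw [sum_filter (p := Bd)]
        refine sum_le_sum fun p hp => ?_
        split_ifs with h
        · obtain ⟨β, hβ, b', hb'⟩ := h
          have h5 : 1 ≤ T (p * α) := hmaj0 (p * α) β (hsub hβ) b' (hb'.trans (min_le_left _ _))
          have := mul_le_mul_of_nonneg_left h5 (hvnn p)
          linarith
        · exact mul_nonneg (hvnn p) (hpos _)
      refine h4.trans ?_
      rw [hblkv k hk (fun p => T (p * α))]
      have h5 := hblkv k hk (fun _ => 1)
      simp only [mul_one] at h5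
      rw [h5, ← hθ]
      calc (1 / ((2 : ℝ) ^ k * k)) * ∑ p ∈ (Ioc (2 ^ k) (2 ^ (k + 1))).filter Nat.Prime, Real.log p * T (p * α) ≤
          (1 / ((2 : ℝ) ^ k * k)) * (((volume E).toReal + ε / 2) * θ) := by
            refine mul_le_mul_of_nonneg_left (h3.trans ?_) (by positivity)
            have h7 : 2 * A₀ * ε₁ * ((2 ^ k : ℕ) : ℝ) ≤ ε / 4 * θ := by
              have h8 : 2 * A₀ * ε₁ ≤ ε / 4 * (b * Real.log 2) := by
                rw [hε₁, mul_div_assoc', div_le_iff₀ (by positivity)]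
                have : 0 < ε * (b * Real.log 2) := by positivity
                nlinarith
              push_cast
              calc 2 * A₀ * ε₁ * (2 : ℝ) ^ k ≤ ε / 4 * (b * Real.log 2) * 2 ^ k :=
                    mul_le_mul_of_nonneg_right h8 (by positivity)
                _ = ε / 4 * (b * Real.log 2 * 2 ^ k) := by ring
                _ ≤ ε / 4 * θ := mul_le_mul_of_nonneg_left hm (by positivity)
            have h8 : (a 0).re * θ ≤ ((volume E).toReal + ε / 4) * θ := mul_le_mul_of_nonneg_right ha0 hθ0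
            linarith
        _ = _ := by ring
  -- the sum over the blocks
  have e0 : ∑ p ∈ I.filter Bd, vw p = ∑ k ∈ Ico k₁ k₂, ∑ p ∈ ((Ioc (2 ^ k) (2 ^ (k + 1))).filter Nat.Prime).filter Bd,
      vw p := by
    have h1 := blocks (fun p => if Bd p then vw p else 0) k₁ k₂ hk₂
    rw [hI, sum_filter (p := Bd)]
    simp only [sum_filter (p := Bd)]
    exact h1
  rw [e0]
  refine (sum_le_sum hblk).trans ?_
  rw [sum_add_distrib, ← mul_sum]
  have h1 : ∑ k ∈ Ico k₁ k₂, (if k ∈ X then (4 : ℝ) else 0) ≤ 4 * B₂ := by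
    rw [← sum_filter, sum_const, nsmul_eq_mul]
    have : (Ico k₁ k₂).filter (fun k => k ∈ X) ⊆ X := fun k hk => (mem_filter.1 hk).2
    have h2 : (#((Ico k₁ k₂).filter (fun k => k ∈ X)) : ℝ) ≤ B₂ := by exact_mod_cast (card_le_card this).trans hXcard
    linarith
  have h2 : ∑ k ∈ Ico k₁ k₂, ∑ p ∈ (Ioc (2 ^ k) (2 ^ (k + 1))).filter Nat.Prime, vw p = ∑ p ∈ I, vw p := by
    rw [hI, blocks _ k₁ k₂ hk₂]
  rw [h2]
  have h3 : 4 * (B₂ : ℝ) ≤ ε / 2 * ∑ p ∈ I, vw p := by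
    have h5 : 8 * B₂ / ε ≤ ∑ p ∈ I, vw p := (le_max_right _ _).trans hVbig
    rw [div_le_iff₀ hε] at h5
    linarith
  linarith

end Pool.Agent.T9h55.MD
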