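import Pool.Agent.Helper44K9.FU.Trig

/-! Trigonometric minorants of open sets (helper55). -/

set_option autoImplicit false

namespace Pool.Agent.T9h55.MD

open Finset MeasureTheory AddCircle
open Pool.Agent.Helper44K9.FU
open Pool.Agent.H807R2.Dav (ee)

open Pool.Agent.Helper44K9.FU.TrigL in
/-- a trigonometric minorant of an open set, with almost the same mean value -/
theorem minorant {U : Set UnitAddCircle} (hU : IsOpen U) (ε : ℝ) (hε : 0 < ε) :
    ∃ (S : Finset ℤ) (a : ℤ → ℂ), 0 ∈ S ∧ (volume U).toReal - ε ≤ (a 0).re ∧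
      (∀ x : ℝ, (x : UnitAddCircle) ∉ U → (∑ j ∈ S, a j * ee (j * x)).re ≤ 0) ∧
      ∀ x : ℝ, (∑ j ∈ S, a j * ee (j * x)).re ≤ 1 := by
  classical
  have : Fact ((0 : ℝ) < 1) := ⟨zero_lt_one⟩
  have hUfin : volume U ≠ ⊤ :=
    ne_top_of_le_ne_top (measure_ne_top volume Set.univ) (measure_mono (Set.subset_univ U))
  -- a compact subset
  obtain ⟨K, hKU, hKc, hKv⟩ : ∃ K ⊆ U, IsCompact K ∧ (volume U).toReal - ε / 4 ≤ (volume K).toReal := by
    by_cases hz : (volume U).toReal - ε / 4 < 0
    · exact ⟨∅, Set.empty_subset _, isCompact_empty, by simpa using hz.le⟩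
    push Not at hz
    by_cases hz0 : volume U = 0
    · exact ⟨∅, Set.empty_subset _, isCompact_empty, by rw [hz0]; simp; positivity⟩
    have hlt : ENNReal.ofReal ((volume U).toReal - ε / 4) < volume U := by
      rw [ENNReal.ofReal_lt_iff_lt_toReal hz hUfin]
      linarith
    obtain ⟨K, hKU, hKc, hK⟩ := hU.exists_lt_isCompact hlt
    refine ⟨K, hKU, hKc, ?_⟩
    have hKfin : volume K ≠ ⊤ := ne_top_of_le_ne_top hUfin (measure_mono hKU)
    exact (ENNReal.ofReal_le_iff_le_toReal hKfin).1 hK.le
  obtain ⟨g, hg0, hg1, hg⟩ := exists_continuous_zero_one_of_isClosed hU.isClosed_compl hKc.isClosed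
    (Set.disjoint_compl_left_iff_subset.2 hKU)
  -- the trigonometric polynomial
  obtain ⟨G, hG⟩ : ∃ G : C(UnitAddCircle, ℂ), ∀ z, G z = ((g z : ℝ) : ℂ) :=
    ⟨⟨fun z => ((g z : ℝ) : ℂ), by fun_prop⟩, fun z => rfl⟩
  obtain ⟨c, hc⟩ := approx G (ε / 4) (by positivity)
  obtain ⟨p, hp⟩ : ∃ p : UnitAddCircle → ℝ, p = fun z => (∑ j ∈ c.support, c j * fourier j z).re :=
    ⟨_, rfl⟩
  have hpg : ∀ z, |p z - g z| ≤ ε / 4 := by
    intro z
    have h1 := hc z
    rw [hG] at h1
    have h2 := Complex.abs_re_le_norm (∑ j ∈ c.support, c j * fourier j z - ((g z : ℝ) : ℂ))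
    rw [Complex.sub_re, Complex.ofReal_re] at h2
    rw [hp]
    exact h2.trans h1
  have hpc : Continuous p := by
    rw [hp]
    exact Complex.continuous_re.comp (continuous_finsetSum _ fun j _ =>
      (ContinuousMap.continuous (fourier j)).const_mul (c j))
  -- the mean
  have hc0 : (volume U).toReal - ε / 2 ≤ (c 0).re := by
    have h1 := mean c
    have hint : Integrable (fun z : UnitAddCircle => ∑ j ∈ c.support, c j * fourier j z) volume :=
      (continuous_finsetSum _ fun j _ =>
        (ContinuousMap.continuous (fourier j)).const_mul (c j)).integrable_of_hasCompactSupport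
        (HasCompactSupport.of_compactSpace _)
    have h2 : (c 0).re = ∫ z : UnitAddCircle, p z := by
      rw [← h1, hp]
      exact (integral_re hint).symm
    have hpi : Integrable p volume :=
      hpc.integrable_of_hasCompactSupport (HasCompactSupport.of_compactSpace _)
    have hgi : Integrable (fun z : UnitAddCircle => K.indicator (fun _ => (1 : ℝ)) z - ε / 4) volume :=
      ((integrable_const (1 : ℝ)).indicator hKc.measurableSet).sub (integrable_const _)
    have h3 : ∫ z : UnitAddCircle, (K.indicator (fun _ => (1 : ℝ)) z - ε / 4) ≤ ∫ z : UnitAddCircle, p z := by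
      refine integral_mono hgi hpi fun z => ?_
      have h4 := abs_le.1 (hpg z)
      simp only
      by_cases hz : z ∈ K
      · rw [Set.indicator_of_mem hz]
        have h5 : g z = 1 := hg1 hz
        linarith [h4.1]
      · rw [Set.indicator_of_notMem hz]
        linarith [h4.1, (hg z).1]
    have h4 : ∫ z : UnitAddCircle, (K.indicator (fun _ => (1 : ℝ)) z - ε / 4) = (volume K).toReal - ε / 4 := by
      rw [integral_sub ((integrable_const (1 : ℝ)).indicator hKc.measurableSet) (integrable_const _),
        integral_indicator_const _ hKc.measurableSet, integral_const]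
      simp [Measure.real]
    rw [h2]
    linarith
  refine ⟨insert 0 c.support, fun j => c j - if j = 0 then ((ε / 4 : ℝ) : ℂ) else 0, mem_insert_self _ _, ?_, ?_, ?_⟩
  · simp only [if_true, Complex.sub_re, Complex.ofReal_re]
    linarith
  all_goals
    intro x
    have e1 : (∑ j ∈ insert 0 c.support, (c j - if j = 0 then ((ε / 4 : ℝ) : ℂ) else 0) * ee (j * x)).re =
        p (x : UnitAddCircle) - ε / 4 := by
      have e2 : ∑ j ∈ insert 0 c.support, (c j - if j = 0 then ((ε / 4 : ℝ) : ℂ) else 0) * ee (j * x) =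
          ∑ j ∈ c.support, c j * fourier j (x : UnitAddCircle) - ((ε / 4 : ℝ) : ℂ) := by
        simp only [sub_mul, sum_sub_distrib]
        congr 1
        · rw [sum_insert_of_eq_zero_if_notMem]
          · exact sum_congr rfl fun j _ => by rw [ee_fourier]
          · intro h
            rw [Finsupp.notMem_support_iff.1 h, zero_mul]
        · have e3 : ∀ j : ℤ, (if j = 0 then ((ε / 4 : ℝ) : ℂ) else 0) * ee (j * x) =
              if j = 0 then ((ε / 4 : ℝ) : ℂ) else 0 := by
            intro j
            by_cases hj : j = 0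
            · subst hj
              have : ee 0 = 1 := by unfold ee; simp
              simp [this]
            · simp [hj]
          simp only [e3]
          rw [sum_ite_eq' (insert 0 c.support) (0 : ℤ), if_pos (mem_insert_self _ _)]
      rw [e2, Complex.sub_re, Complex.ofReal_re, hp]
    have h4 := abs_le.1 (hpg (x : UnitAddCircle))
  · intro hx
    rw [e1]
    have h5 : g (x : UnitAddCircle) = 0 := hg0 hx
    linarith [h4.2]
  · rw [e1]
    linarith [h4.2, (hg (x : UnitAddCircle)).2]

end Pool.Agent.T9h55.MD
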