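import Pool.Agent.Helper44K9.FU.Eq
import Pool.Agent.T9h55.MD.Min

/-! Lower bounds for the proportion of the primes `p` with `p^d α` in an open set (helper55). -/

set_option autoImplicit false

namespace Pool.Agent.T9h55.MD

open Finset MeasureTheory
open Pool.Agent.Helper44K9.FU
open Pool.Agent.H807R2.Dav (ee norm_ee)

/-- prime powers are negligible -/
lemma pp_small (δ : ℝ) (hδ : 0 < δ) : ∃ N₀ : ℕ, ∀ N ≥ N₀,
    ∑ n ∈ (Ioc N (2 * N)).filter (fun n => ¬ n.Prime), ArithmeticFunction.vonMangoldt n ≤ δ * N := by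
  have h1 := (isLittleO_log_rpow_atTop (show (0 : ℝ) < 1 / 2 by norm_num)).def (show (0 : ℝ) < δ / 8 by positivity)
  obtain ⟨X, hX⟩ := Filter.eventually_atTop.1 h1
  obtain ⟨N₀, hN₀⟩ := exists_nat_ge X
  refine ⟨N₀ + 1, fun N hN => ?_⟩
  have hN1 : (1 : ℝ) ≤ N := by exact_mod_cast (by omega : 1 ≤ N)
  have hx1 : (1 : ℝ) ≤ ((2 * N : ℕ) : ℝ) := by push_cast; linarith
  have h2 := Chebyshev.psi_sub_theta_le hx1
  rw [Chebyshev.psi_sub_theta_eq_sum_not_prime] at h2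
  have h3 : ∑ n ∈ (Ioc N (2 * N)).filter (fun n => ¬ n.Prime), ArithmeticFunction.vonMangoldt n ≤
      ∑ n ∈ Ioc 0 ⌊((2 * N : ℕ) : ℝ)⌋₊ with ¬ n.Prime, ArithmeticFunction.vonMangoldt n := by
    apply sum_le_sum_of_subset_of_nonneg
    · rw [Nat.floor_natCast]
      intro n hn
      simp only [mem_filter, mem_Ioc] at hn ⊢
      exact ⟨⟨by omega, hn.1.2⟩, hn.2⟩
    · intro n _ _; exact ArithmeticFunction.vonMangoldt_nonneg
  refine h3.trans (h2.trans ?_)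
  have h4 := hX ((2 * N : ℕ) : ℝ) (hN₀.trans (by push_cast; have : (N₀ : ℝ) + 1 ≤ N := by exact_mod_cast hN
                                                 linarith))
  rw [Real.norm_of_nonneg (Real.log_nonneg hx1), Real.norm_of_nonneg (by positivity), ← Real.sqrt_eq_rpow] at h4
  have h5 : √((2 * N : ℕ) : ℝ) * √((2 * N : ℕ) : ℝ) = 2 * N := by
    rw [Real.mul_self_sqrt (by positivity)]; push_cast; ring
  have h6 := mul_le_mul_of_nonneg_left h4 (show 0 ≤ 2 * √((2 * N : ℕ) : ℝ) by positivity)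
  calc 2 * √((2 * N : ℕ) : ℝ) * Real.log ((2 * N : ℕ) : ℝ) ≤ 2 * √((2 * N : ℕ) : ℝ) * (δ / 8 * √((2 * N : ℕ) : ℝ)) := h6
    _ = δ / 4 * (√((2 * N : ℕ) : ℝ) * √((2 * N : ℕ) : ℝ)) := by ring
    _ = δ / 2 * N := by rw [h5]; ring
    _ ≤ δ * N := by nlinarith

/-- one block -/
lemma block_low {d : ℕ} {α ε₁ : ℝ} {S : Finset ℤ} {a : ℤ → ℂ} (h0S : 0 ∈ S) (hε₁ : 0 ≤ ε₁) {N : ℕ}
    (hpp : ∑ n ∈ (Ioc N (2 * N)).filter (fun n => ¬ n.Prime), ArithmeticFunction.vonMangoldt n ≤ ε₁ * N)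
    (hS : ∀ j ∈ S, j ≠ 0 → ‖∑ n ∈ Ioc N (2 * N), ((ArithmeticFunction.vonMangoldt n : ℝ) : ℂ) *
      ee ((j * α) * (n : ℝ) ^ d)‖ ≤ ε₁ * N) :
    (a 0).re * ∑ p ∈ (Ioc N (2 * N)).filter Nat.Prime, Real.log p - 3 * (∑ j ∈ S, ‖a j‖) * ε₁ * N ≤
      ∑ p ∈ (Ioc N (2 * N)).filter Nat.Prime, Real.log p * (∑ j ∈ S, a j * ee (j * ((p : ℝ) ^ d * α))).re := by
  set T : ℝ → ℝ := fun x => (∑ j ∈ S, a j * ee (j * x)).re with hT
  set A : ℝ := ∑ j ∈ S, ‖a j‖ with hA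
  have hA0 : 0 ≤ A := sum_nonneg fun _ _ => norm_nonneg _
  have hNr : (0 : ℝ) ≤ N := Nat.cast_nonneg _
  have hTA : ∀ x, |T x| ≤ A := by
    intro x
    refine (Complex.abs_re_le_norm _).trans ((norm_sum_le _ _).trans (sum_le_sum fun j _ => ?_))
    rw [norm_mul, norm_ee, mul_one]
  have hsplit : ∀ F : ℕ → ℝ, ∑ n ∈ Ioc N (2 * N), ArithmeticFunction.vonMangoldt n * F n =
      ∑ p ∈ (Ioc N (2 * N)).filter Nat.Prime, Real.log p * F p +
      ∑ n ∈ (Ioc N (2 * N)).filter (fun n => ¬ n.Prime), ArithmeticFunction.vonMangoldt n * F n := by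
    intro F
    rw [← sum_filter_add_sum_filter_not (Ioc N (2 * N)) Nat.Prime]
    congr 1
    refine sum_congr rfl fun p hp => ?_
    rw [mem_filter] at hp
    rw [ArithmeticFunction.vonMangoldt_apply_prime hp.2]
  set PP : ℝ := ∑ n ∈ (Ioc N (2 * N)).filter (fun n => ¬ n.Prime), ArithmeticFunction.vonMangoldt n with hPP
  have hPP0 : 0 ≤ PP := sum_nonneg fun n _ => ArithmeticFunction.vonMangoldt_nonneg
  have ha0A : |(a 0).re| ≤ A := by
    refine (Complex.abs_re_le_norm _).trans ?_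
    exact single_le_sum (f := fun j => ‖a j‖) (fun _ _ => norm_nonneg _) h0S
  -- all n
  have h1 : (a 0).re * ∑ n ∈ Ioc N (2 * N), ArithmeticFunction.vonMangoldt n - A * ε₁ * N ≤
      ∑ n ∈ Ioc N (2 * N), ArithmeticFunction.vonMangoldt n * T ((n : ℝ) ^ d * α) := by
    have e1 : ∑ n ∈ Ioc N (2 * N), ArithmeticFunction.vonMangoldt n * T ((n : ℝ) ^ d * α) =
        (∑ j ∈ S, a j * ∑ n ∈ Ioc N (2 * N), ((ArithmeticFunction.vonMangoldt n : ℝ) : ℂ) *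
          ee ((j * α) * (n : ℝ) ^ d)).re := by
      have : ((∑ j ∈ S, a j * ∑ n ∈ Ioc N (2 * N), ((ArithmeticFunction.vonMangoldt n : ℝ) : ℂ) *
          ee ((j * α) * (n : ℝ) ^ d))) =
          ∑ n ∈ Ioc N (2 * N), ((ArithmeticFunction.vonMangoldt n : ℝ) : ℂ) * ∑ j ∈ S, a j * ee (j * ((n : ℝ) ^ d * α)) := by
        simp only [mul_sum]
        rw [sum_comm]
        refine sum_congr rfl fun n _ => sum_congr rfl fun j _ => ?_
        rw [show (j : ℝ) * ((n : ℝ) ^ d * α) = j * α * (n : ℝ) ^ d by ring]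
        ring
      rw [this, Complex.re_sum]
      refine sum_congr rfl fun n _ => ?_
      rw [Complex.re_ofReal_mul]
    rw [e1, Complex.re_sum, ← add_sum_erase S _ h0S]
    have e2 : (a 0 * ∑ n ∈ Ioc N (2 * N), ((ArithmeticFunction.vonMangoldt n : ℝ) : ℂ) *
        ee ((((0 : ℤ) : ℝ) * α) * (n : ℝ) ^ d)).re = (a 0).re * ∑ n ∈ Ioc N (2 * N), ArithmeticFunction.vonMangoldt n := by
      have e3 : ∑ n ∈ Ioc N (2 * N), ((ArithmeticFunction.vonMangoldt n : ℝ) : ℂ) *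
          ee ((((0 : ℤ) : ℝ) * α) * (n : ℝ) ^ d) = ((∑ n ∈ Ioc N (2 * N), ArithmeticFunction.vonMangoldt n : ℝ) : ℂ) := by
        push_cast
        refine sum_congr rfl fun n _ => ?_
        rw [zero_mul, zero_mul]
        have : ee 0 = 1 := by unfold ee; simp
        rw [this, mul_one]
      rw [e3, mul_comm, Complex.re_ofReal_mul, mul_comm]
    have e5 : -(A * ε₁ * N) ≤ ∑ j ∈ S.erase 0, (a j * ∑ n ∈ Ioc N (2 * N), ((ArithmeticFunction.vonMangoldt n : ℝ) : ℂ) *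
        ee ((j * α) * (n : ℝ) ^ d)).re := by
      rw [← neg_le_neg_iff, neg_neg, ← sum_neg_distrib]
      calc ∑ j ∈ S.erase 0, -(a j * ∑ n ∈ Ioc N (2 * N), ((ArithmeticFunction.vonMangoldt n : ℝ) : ℂ) *
            ee ((j * α) * (n : ℝ) ^ d)).re ≤ ∑ j ∈ S.erase 0, ‖a j‖ * (ε₁ * N) := by
            refine sum_le_sum fun j hj => ?_
            rw [mem_erase] at hj
            refine (neg_le_abs _).trans ((Complex.abs_re_le_norm _).trans ?_)
            rw [norm_mul]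
            exact mul_le_mul_of_nonneg_left (hS j hj.2 hj.1) (norm_nonneg _)
        _ ≤ A * (ε₁ * N) := by
            rw [← sum_mul]
            refine mul_le_mul_of_nonneg_right ?_ (by positivity)
            exact sum_le_sum_of_subset_of_nonneg (erase_subset _ _) fun _ _ _ => norm_nonneg _
        _ = A * ε₁ * N := by ring
    rw [e2]
    linarith
  rw [hsplit] at h1
  have h2 := hsplit (fun _ => 1)
  simp only [mul_one] at h2
  rw [h2, ← hPP] at h1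
  have h3 : ∑ n ∈ (Ioc N (2 * N)).filter (fun n => ¬ n.Prime), ArithmeticFunction.vonMangoldt n * T ((n : ℝ) ^ d * α) ≤
      A * PP := by
    rw [hPP, mul_sum]
    refine sum_le_sum fun n _ => ?_
    rw [mul_comm A]
    exact mul_le_mul_of_nonneg_left ((le_abs_self _).trans (hTA _)) ArithmeticFunction.vonMangoldt_nonneg
  have h4 : -(A * (ε₁ * N)) ≤ (a 0).re * PP := by
    have h5 : |(a 0).re * PP| ≤ A * (ε₁ * N) := by
      rw [abs_mul, abs_of_nonneg hPP0]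
      exact mul_le_mul ha0A hpp hPP0 hA0
    exact (abs_le.1 h5).1
  have h5 : A * PP ≤ A * (ε₁ * N) := mul_le_mul_of_nonneg_left hpp hA0
  simp only [mul_add] at h1
  nlinarith

/-- the weights of the primes -/
noncomputable def vw (p : ℕ) : ℝ := Real.log p / ((2 : ℝ) ^ (Nat.log 2 (p - 1)) * (Nat.log 2 (p - 1) : ℝ))

lemma log_block {k p : ℕ} (hp : p ∈ Ioc (2 ^ k) (2 ^ (k + 1))) : Nat.log 2 (p - 1) = k := by
  rw [mem_Ioc] at hp
  have h0 : 0 < 2 ^ k := by positivity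
  exact Nat.log_eq_of_pow_le_of_lt_pow (by omega) (by omega)

lemma vw_block {k p : ℕ} (hp : p ∈ Ioc (2 ^ k) (2 ^ (k + 1))) : vw p = Real.log p / ((2 : ℝ) ^ k * k) := by
  unfold vw
  rw [log_block hp]

lemma vw_le {k p : ℕ} (hk : 1 ≤ k) (hp : p ∈ Ioc (2 ^ k) (2 ^ (k + 1))) : 0 ≤ vw p ∧ vw p ≤ 4 * (1 / (p : ℝ)) := by
  rw [vw_block hp]
  rw [mem_Ioc] at hp
  have hkr : (1 : ℝ) ≤ k := by exact_mod_cast hk
  have h0 : 0 < 2 ^ k := by positivity
  have hp1 : (1 : ℝ) ≤ p := by exact_mod_cast (by omega : 1 ≤ p)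
  have hlog0 : 0 ≤ Real.log p := Real.log_nonneg hp1
  refine ⟨by positivity, ?_⟩
  have h1 : (p : ℝ) ≤ 2 * 2 ^ k := by
    have : (p : ℝ) ≤ ((2 ^ (k + 1) : ℕ) : ℝ) := by exact_mod_cast hp.2
    push_cast at this
    rw [pow_succ] at this
    linarith
  have h2 : Real.log p ≤ 2 * k := by
    calc Real.log p ≤ Real.log ((2 : ℝ) ^ (k + 1)) := by
          apply Real.log_le_log (by linarith)
          rw [pow_succ]; linarith
      _ = (k + 1) * Real.log 2 := by rw [Real.log_pow]; push_cast; ring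
      _ ≤ (k + 1) * 1 := by
          refine mul_le_mul_of_nonneg_left ?_ (by positivity)
          linarith [Real.log_two_lt_d9]
      _ ≤ 2 * k := by linarith
  rw [mul_one_div, div_le_div_iff₀ (by positivity) (by linarith)]
  calc Real.log p * p ≤ (2 * k) * (2 * 2 ^ k) := mul_le_mul h2 h1 (by linarith) (by positivity)
    _ = 4 * (2 ^ k * k) := by ring

open Classical in
open Pool.Agent.Helper44K9.FU.EqL in
/-- **a lower bound for the proportion of the primes `p` with `p^d α` in an open set** -/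
theorem eqw (hPW : S_PW) (hCH : S_CHB) {d : ℕ} (hd : 1 ≤ d) {U : Set UnitAddCircle} (hU : IsOpen U) (ε : ℝ)
    (hε : 0 < ε) : ∃ Q : ℕ, 1 ≤ Q ∧ ∀ κ : ℝ, 0 < κ → ∀ (z : ℕ) (A : ℝ), ∃ I : Finset ℕ,
      (∀ p ∈ I, p.Prime ∧ z < p ∧ 0 ≤ vw p ∧ vw p ≤ 4 * (1 / (p : ℝ))) ∧ A ≤ ∑ p ∈ I, vw p ∧
      ∀ α : ℝ, (∀ q : ℕ, 1 ≤ q → q ≤ Q → ∀ a : ℤ, κ ≤ |q * α - a|) →
        ((volume U).toReal - ε) * ∑ p ∈ I, vw p ≤
          ∑ p ∈ I.filter (fun p : ℕ => (((p : ℝ) ^ d * α : ℝ) : UnitAddCircle) ∈ U), vw p := by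
  obtain ⟨⟨b, hb, k₀, hk₀⟩, N₁, hN₁⟩ := hCH
  have hl2 : 0 < Real.log 2 := Real.log_pos (by norm_num)
  obtain ⟨S, a, h0S, ha0, hTout, hTone⟩ := minorant hU (ε / 2) (by positivity)
  set A₀ : ℝ := ∑ j ∈ S, ‖a j‖ with hA₀
  have hA₀0 : 0 ≤ A₀ := sum_nonneg fun _ _ => norm_nonneg _
  set ε₁ : ℝ := ε * (b * Real.log 2) / (6 * (A₀ + 1)) with hε₁
  have hε₁0 : 0 < ε₁ := by positivity
  obtain ⟨C, N₀, hC1, hPWN⟩ := hPW d hd ε₁ hε₁0
  obtain ⟨N₂, hN₂⟩ := pp_small ε₁ hε₁0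
  set D₀ : ℕ := ∑ j ∈ S, j.natAbs + 1 with hD₀
  set Q : ℕ := C * D₀ with hQ
  have hQ1 : 1 ≤ Q := Nat.mul_pos hC1 (by omega)
  refine ⟨Q, hQ1, fun κ hκ z A => ?_⟩
  obtain ⟨B, hB⟩ := exists_nat_ge ((C : ℝ) / κ)
  -- large k
  obtain ⟨k₁, hk₁0, hk₁1, hk₁N0, hk₁N2, hk₁z, hk₁B⟩ : ∃ k₁ : ℕ, k₀ ≤ k₁ ∧ 1 ≤ k₁ ∧ N₀ ≤ 2 ^ k₁ ∧ N₂ ≤ 2 ^ k₁ ∧
      z ≤ 2 ^ k₁ ∧ B < 2 ^ k₁ := by
    refine ⟨k₀ + N₀ + N₂ + z + B + 1, by omega, by omega, ?_, ?_, ?_, ?_⟩
    on_goal 4 => exact lt_of_le_of_lt (by omega) (Nat.lt_two_pow_self (n := k₀ + N₀ + N₂ + z + B + 1))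
    all_goals exact le_trans (by omega) (Nat.lt_two_pow_self (n := k₀ + N₀ + N₂ + z + B + 1)).le
  -- the mass of a block
  have hmass : ∀ k ≥ k₁, b * Real.log 2 * 2 ^ k ≤ ∑ p ∈ (Ioc (2 ^ k) (2 ^ (k + 1))).filter Nat.Prime, Real.log p := by
    intro k hk
    have hk1 : 1 ≤ k := by omega
    have hkr : (1 : ℝ) ≤ k := by exact_mod_cast hk1
    have h1 := hk₀ k (by omega)
    have h2 : (2 : ℝ) ^ k * (k * Real.log 2) * ∑ p ∈ (Ioc (2 ^ k) (2 ^ (k + 1))).filter Nat.Prime, 1 / (p : ℝ) ≤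
        ∑ p ∈ (Ioc (2 ^ k) (2 ^ (k + 1))).filter Nat.Prime, Real.log p := by
      rw [mul_sum]
      refine sum_le_sum fun p hp => ?_
      rw [mem_filter, mem_Ioc] at hp
      have h3 : ((2 : ℝ) ^ k) ≤ p := by exact_mod_cast hp.1.1.le
      have h4 : (0 : ℝ) < 2 ^ k := by positivity
      have h5 : k * Real.log 2 ≤ Real.log p := by
        rw [← Real.log_pow]
        exact Real.log_le_log h4 h3
      have h6 : (2 : ℝ) ^ k * (1 / (p : ℝ)) ≤ 1 := by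
        rw [mul_one_div, div_le_one (by linarith)]
        exact h3
      calc (2 : ℝ) ^ k * (k * Real.log 2) * (1 / (p : ℝ)) = (k * Real.log 2) * ((2 : ℝ) ^ k * (1 / (p : ℝ))) := by ring
        _ ≤ (k * Real.log 2) * 1 := mul_le_mul_of_nonneg_left h6 (by positivity)
        _ ≤ Real.log p := by rw [mul_one]; exact h5
    refine le_trans ?_ h2
    calc b * Real.log 2 * 2 ^ k = (2 : ℝ) ^ k * (k * Real.log 2) * (b / k) := by field_simp
      _ ≤ _ := mul_le_mul_of_nonneg_left h1 (by positivity)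
  -- divergence
  obtain ⟨k₂, hk₂, hdiv⟩ : ∃ k₂ : ℕ, k₁ ≤ k₂ ∧ A ≤ b * Real.log 2 * ∑ k ∈ Ico k₁ k₂, 1 / (k : ℝ) := by
    have h1 := Real.tendsto_sum_range_one_div_nat_succ_atTop
    obtain ⟨M, hM⟩ := (h1.eventually_ge_atTop (A / (b * Real.log 2) + ∑ k ∈ range k₁, 1 / ((k : ℝ)))).exists
    refine ⟨max k₁ (M + 1), le_max_left _ _, ?_⟩
    have h2 : ∑ i ∈ range M, 1 / ((i : ℝ) + 1) = ∑ k ∈ range (M + 1), 1 / (k : ℝ) := by
      rw [sum_range_succ' (fun k : ℕ => 1 / (k : ℝ)) M]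
      push_cast; simp
    rw [h2] at hM
    have h3 : ∑ k ∈ range (M + 1), 1 / (k : ℝ) ≤ ∑ k ∈ range (max k₁ (M + 1)), 1 / (k : ℝ) :=
      sum_le_sum_of_subset_of_nonneg (range_subset_range.2 (le_max_right _ _)) fun _ _ _ => by positivity
    rw [sum_Ico_eq_sub _ (le_max_left _ _)]
    have h5 : A / (b * Real.log 2) ≤ ∑ k ∈ range (max k₁ (M + 1)), 1 / (k : ℝ) - ∑ k ∈ range k₁, 1 / (k : ℝ) := by
      linarith
    rw [div_le_iff₀ (by positivity)] at h5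
    linarith
  set I : Finset ℕ := (Ioc (2 ^ k₁) (2 ^ k₂)).filter Nat.Prime with hI
  have hblkv : ∀ k ∈ Ico k₁ k₂, ∀ F : ℕ → ℝ, ∑ p ∈ (Ioc (2 ^ k) (2 ^ (k + 1))).filter Nat.Prime, vw p * F p =
      (1 / ((2 : ℝ) ^ k * k)) * ∑ p ∈ (Ioc (2 ^ k) (2 ^ (k + 1))).filter Nat.Prime, Real.log p * F p := by
    intro k hk F
    rw [mul_sum]
    refine sum_congr rfl fun p hp => ?_
    rw [mem_filter] at hp
    rw [vw_block hp.1]
    ring
  refine ⟨I, ?_, ?_, fun α hα => ?_⟩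
  · intro p hp
    rw [hI, mem_filter, mem_Ioc] at hp
    refine ⟨hp.2, lt_of_le_of_lt hk₁z hp.1.1, ?_⟩
    -- the block of p
    have hp1 : 1 ≤ p - 1 := by
      have : 2 ^ 1 ≤ 2 ^ k₁ := Nat.pow_le_pow_right (by norm_num) hk₁1
      omega
    have h1 := Nat.pow_log_le_self 2 (show p - 1 ≠ 0 by omega)
    have h2 := Nat.lt_pow_succ_log_self (b := 2) (by norm_num) (p - 1)
    refine vw_le (k := Nat.log 2 (p - 1)) ?_ ?_
    · have h3 : 2 ^ 1 ≤ 2 ^ k₁ := Nat.pow_le_pow_right (by norm_num) hk₁1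
      apply Nat.log_pos (by norm_num) (by omega)
    · rw [mem_Ioc]
      constructor
      · omega
      · rw [Nat.succ_eq_add_one] at h2
        omega
  · refine hdiv.trans ?_
    rw [hI, blocks _ k₁ k₂ hk₂, mul_sum]
    refine sum_le_sum fun k hk => ?_
    have hk' := mem_Ico.1 hk
    have hk0 : (0 : ℝ) < k := by exact_mod_cast (by omega : 0 < k)
    have h1 := hblkv k hk (fun _ => 1)
    simp only [mul_one] at h1
    rw [h1]
    calc b * Real.log 2 * (1 / (k : ℝ)) = (1 / ((2 : ℝ) ^ k * k)) * (b * Real.log 2 * 2 ^ k) := by field_simp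
      _ ≤ _ := mul_le_mul_of_nonneg_left (hmass k hk'.1) (by positivity)
  -- the main estimate
  set T : ℝ → ℝ := fun x => (∑ j ∈ S, a j * ee (j * x)).re with hT
  have h1 : ∑ p ∈ I, vw p * T ((p : ℝ) ^ d * α) ≤
      ∑ p ∈ I.filter (fun p : ℕ => (((p : ℝ) ^ d * α : ℝ) : UnitAddCircle) ∈ U), vw p := by
    conv_rhs => rw [sum_filter]
    refine sum_le_sum fun p hp => ?_
    have hv : 0 ≤ vw p := by
      unfold vw
      have : 0 ≤ Real.log p := Real.log_natCast_nonneg p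
      positivity
    split_ifs with h
    · calc vw p * T ((p : ℝ) ^ d * α) ≤ vw p * 1 := mul_le_mul_of_nonneg_left (hTone _) hv
        _ = vw p := mul_one _
    · exact mul_nonpos_of_nonneg_of_nonpos hv (hTout _ h)
  refine le_trans ?_ h1
  rw [hI, blocks _ k₁ k₂ hk₂, blocks _ k₁ k₂ hk₂, mul_sum]
  refine sum_le_sum fun k hk => ?_
  have hk' := mem_Ico.1 hk
  have hk0 : (0 : ℝ) < k := by exact_mod_cast (by omega : 0 < k)
  rw [hblkv k hk (fun p => T ((p : ℝ) ^ d * α))]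
  have h2 := hblkv k hk (fun _ => 1)
  simp only [mul_one] at h2
  rw [h2]
  have hm := hmass k hk'.1
  set θ : ℝ := ∑ p ∈ (Ioc (2 ^ k) (2 ^ (k + 1))).filter Nat.Prime, Real.log p with hθ
  have h2k : (2 : ℕ) ^ k₁ ≤ 2 ^ k := Nat.pow_le_pow_right (by norm_num) hk'.1
  have hN : (2 : ℕ) ^ (k + 1) = 2 * 2 ^ k := by rw [pow_succ]; ring
  have h3 := block_low (d := d) (α := α) (ε₁ := ε₁) (S := S) (a := a) h0S hε₁0.le (N := 2 ^ k)
    (hN₂ _ (hk₁N2.trans h2k)) (by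
    intro j hj hj0
    by_contra hcon
    push Not at hcon
    obtain ⟨q, hq1, hqC, a', ha'⟩ := hPWN (2 ^ k) (hk₁N0.trans h2k) (j * α) hcon.le
    have h4 := hα (q * j.natAbs) (Nat.mul_pos hq1 (Int.natAbs_pos.2 hj0)) (by
      rw [hQ]
      refine Nat.mul_le_mul hqC ?_
      have : j.natAbs ≤ ∑ j ∈ S, j.natAbs := single_le_sum (f := fun j : ℤ => j.natAbs) (fun _ _ => Nat.zero_le _) hj
      omega) (if 0 ≤ j then a' else -a')
    have h5 : |((q * j.natAbs : ℕ) : ℝ) * α - ((if 0 ≤ j then a' else -a' : ℤ) : ℝ)| = |q * (j * α) - a'| := by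
      have h6 : ((j.natAbs : ℕ) : ℝ) = ((|j| : ℤ) : ℝ) := by
        rw [Int.abs_eq_natAbs, Int.cast_natCast]
      split_ifs with hj1
      · push_cast
        rw [h6, abs_of_nonneg hj1]
        congr 1; ring
      · push Not at hj1
        push_cast
        rw [h6, abs_of_neg hj1]
        push_cast
        rw [show (q : ℝ) * -(j : ℝ) * α - -(a' : ℝ) = -(q * (j * α) - a') by ring, abs_neg]
    rw [h5] at h4
    have h6 : (C : ℝ) / ((2 ^ k : ℕ) : ℝ) ^ d < κ := by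
      have h7 : (1 : ℝ) ≤ ((2 ^ k : ℕ) : ℝ) := by exact_mod_cast Nat.one_le_two_pow
      have h8 : ((2 ^ k : ℕ) : ℝ) ≤ ((2 ^ k : ℕ) : ℝ) ^ d := le_self_pow₀ h7 (by omega)
      have h9 : (B : ℝ) < ((2 ^ k : ℕ) : ℝ) := by exact_mod_cast lt_of_lt_of_le hk₁B h2k
      rw [div_lt_iff₀ (by positivity)]
      rw [div_le_iff₀ hκ] at hB
      nlinarith
    linarith)
  rw [hN] at hθ
  simp only [hN]
  rw [← hθ] at h3
  calc ((volume U).toReal - ε) * (1 / ((2 : ℝ) ^ k * k) * θ) = 1 / ((2 : ℝ) ^ k * k) * (((volume U).toReal - ε) * θ) := by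
        ring
    _ ≤ _ := by
        refine mul_le_mul_of_nonneg_left ?_ (by positivity)
        refine le_trans ?_ h3
        have h7 : 3 * A₀ * ε₁ * ((2 ^ k : ℕ) : ℝ) ≤ ε / 2 * θ := by
          have h8 : 3 * A₀ * ε₁ ≤ ε / 2 * (b * Real.log 2) := by
            rw [hε₁, mul_div_assoc', div_le_iff₀ (by positivity)]
            have : 0 < ε * (b * Real.log 2) := by positivity
            nlinarith
          push_cast
          calc 3 * A₀ * ε₁ * (2 : ℝ) ^ k ≤ ε / 2 * (b * Real.log 2) * 2 ^ k :=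
                mul_le_mul_of_nonneg_right h8 (by positivity)
            _ = ε / 2 * (b * Real.log 2 * 2 ^ k) := by ring
            _ ≤ ε / 2 * θ := mul_le_mul_of_nonneg_left hm (by positivity)
        have hθ0 : 0 ≤ θ := le_trans (by positivity) hm
        have h8 : ((volume U).toReal - ε / 2) * θ ≤ (a 0).re * θ := mul_le_mul_of_nonneg_right ha0 hθ0
        linarith

end Pool.Agent.T9h55.MD
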