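import Pool.Agent.T9h55.MD.Ls3
import Pool.Agent.Helper44K9.FU.Fin

/-! Linear phases near rational points, and long sums of multiplicative functions against the linear phases with
frequency in a compact set (helper55). -/

set_option autoImplicit false

namespace Pool.Agent.T9h55.MD

open Finset Polynomial MeasureTheory
open Pool.Agent.Helper44K9.FU
open Pool.Agent.H807R2.Dav (ee norm_ee ee_add ee_int dd_le dd ee_zero)

/-- the linear polynomial `x T` -/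
noncomputable def lin (x : ℝ) : ℝ[X] := C x * X

lemma lin_eval (x y : ℝ) : (lin x).eval y = x * y := by simp [lin]

lemma eval_deg1 {P : ℝ[X]} (hP : P.natDegree ≤ 1) (y : ℝ) : P.eval y = P.coeff 0 + P.coeff 1 * y := by
  rw [eval_eq_sum_range' (Nat.lt_succ_of_le hP)]
  simp [sum_range_succ]

/-- `f` has small correlations with `e(x n)` in almost all short intervals, on logarithmic average -/
def ShortAt (f : ℕ → ℂ) (x : ℝ) : Prop := ∀ ε : ℝ, 0 < ε → ∃ H₀ : ℕ, ∀ N H : ℕ, H₀ ≤ H → H ≤ N →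
  ∑ n ∈ Icc 1 N, (1 / (n : ℝ)) * ‖W f (lin x) n H‖ ≤ ε * H * Real.log N

/-- `f` has small correlations with `e(r n)` for the rational points `r` of `E` of all denominators -/
def ShortRat (f : ℕ → ℂ) (E : Set UnitAddCircle) : Prop :=
  ∀ b q : ℕ, 1 ≤ q → (((b : ℝ) / q : ℝ) : UnitAddCircle) ∈ E → ShortAt f ((b : ℝ) / q)

/-- reduction of a nearby rational number modulo one -/
lemma red {q : ℕ} (hq : 1 ≤ q) {β κ : ℝ} {a : ℤ} (h : |q * β - a| ≤ κ) :
    ∃ b : ℕ, b < q ∧ ∃ k : ℤ, |β - (b : ℝ) / q - k| ≤ κ := by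
  have hqz : (0 : ℤ) < q := by exact_mod_cast hq
  have hqr : (0 : ℝ) < q := by exact_mod_cast hq
  have hq1 : (1 : ℝ) ≤ q := by exact_mod_cast hq
  obtain ⟨b, hb⟩ := Int.eq_ofNat_of_zero_le (Int.emod_nonneg a hqz.ne')
  have hbq : b < q := by
    have := Int.emod_lt_of_pos a hqz
    rw [hb] at this
    exact_mod_cast this
  refine ⟨b, hbq, a / q, ?_⟩
  have h1 := Int.emod_add_mul_ediv a q
  rw [hb] at h1
  have h2 : (b : ℝ) + q * ((a / q : ℤ) : ℝ) = a := by exact_mod_cast h1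
  have h3 : β - (b : ℝ) / q - ((a / q : ℤ) : ℝ) = (q * β - a) / q := by
    rw [← h2]; field_simp; ring
  rw [h3, abs_div, abs_of_pos hqr]
  exact (div_le_self (abs_nonneg _) hq1).trans h

/-- the phase near a rational point -/
lemma phase {P : ℝ[X]} (hP : P.natDegree ≤ 1) (x : ℝ) (k : ℤ) (m : ℕ) :
    ee (P.eval (m : ℝ)) = ee (P.coeff 0) * (ee (x * m) * ee ((P.coeff 1 - x - k) * m)) := by
  rw [eval_deg1 hP, ← ee_add, ← ee_add]
  have h1 : ee ((k * m : ℤ) : ℝ) = 1 := ee_int _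
  have h2 : P.coeff 0 + P.coeff 1 * m = (P.coeff 0 + (x * m + (P.coeff 1 - x - k) * m)) + ((k * m : ℤ) : ℝ) := by
    push_cast; ring
  rw [h2, ee_add, h1, mul_one]

/-- short windows near a rational point -/
lemma near_W {f : ℕ → ℂ} (hf : ∀ n, ‖f n‖ ≤ 1) {P : ℝ[X]} (hP : P.natDegree ≤ 1) {x κ : ℝ} {k : ℤ}
    (h : |P.coeff 1 - x - k| ≤ κ) (n M : ℕ) :
    ‖W f P n M‖ ≤ ‖W f (lin x) n M‖ + 2 * Real.pi * κ * (M : ℝ) ^ 2 := by
  set θ : ℝ := P.coeff 1 - x - k with hθ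
  have hκ : 0 ≤ κ := (abs_nonneg _).trans h
  have e1 : W f P n M = ee (P.coeff 0) * ee (θ * n) * (W f (lin x) n M +
      ∑ m ∈ Ioc n (n + M), f m * ee (x * m) * (ee (θ * ((m : ℝ) - n)) - 1)) := by
    unfold W
    rw [← sum_add_distrib, mul_sum]
    refine sum_congr rfl fun m _ => ?_
    rw [phase hP x k m, lin_eval, ← hθ]
    have e2 : ee (θ * m) = ee (θ * n) * ee (θ * ((m : ℝ) - n)) := by
      rw [← ee_add]; congr 1; ring
    rw [e2]
    ring
  rw [e1, norm_mul, norm_mul, norm_ee, norm_ee, one_mul, one_mul]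
  refine (norm_add_le _ _).trans (add_le_add le_rfl ?_)
  refine (norm_sum_le _ _).trans ?_
  calc ∑ m ∈ Ioc n (n + M), ‖f m * ee (x * m) * (ee (θ * ((m : ℝ) - n)) - 1)‖ ≤
      ∑ m ∈ Ioc n (n + M), 2 * Real.pi * κ * M := by
        refine sum_le_sum fun m hm => ?_
        rw [mem_Ioc] at hm
        rw [norm_mul, norm_mul, norm_ee, mul_one]
        have h1 : ‖ee (θ * ((m : ℝ) - n)) - 1‖ ≤ 2 * Real.pi * |θ * ((m : ℝ) - n)| := by
          have := dd_le (θ * ((m : ℝ) - n))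
          unfold dd at this
          rwa [norm_sub_rev] at this
        have h2 : |(m : ℝ) - n| ≤ M := by
          have h3 : (n : ℝ) < m := by exact_mod_cast hm.1
          have h4 : (m : ℝ) ≤ n + M := by exact_mod_cast hm.2
          rw [abs_le]; constructor <;> linarith
        have h5 : |θ * ((m : ℝ) - n)| ≤ κ * M := by
          rw [abs_mul]
          exact mul_le_mul h h2 (abs_nonneg _) hκ
        have hpi := Real.pi_pos
        calc ‖f m‖ * ‖ee (θ * ((m : ℝ) - n)) - 1‖ ≤ 1 * (2 * Real.pi * (κ * M)) := by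
              refine mul_le_mul (hf m) (h1.trans ?_) (norm_nonneg _) zero_le_one
              exact mul_le_mul_of_nonneg_left h5 (by positivity)
          _ = 2 * Real.pi * κ * M := by ring
    _ = 2 * Real.pi * κ * (M : ℝ) ^ 2 := by
        rw [sum_const, Nat.card_Ioc, nsmul_eq_mul]
        rw [Nat.add_sub_cancel_left]
        ring

/-- summation by parts -/
lemma parts (g : ℕ → ℂ) (θ B : ℝ) (hB : 0 ≤ B) (X : ℕ) (hS : ∀ Y ≤ X, ‖∑ m ∈ range Y, g (m + 1)‖ ≤ B) :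
    ‖∑ m ∈ range X, g (m + 1) * ee (θ * ((m + 1 : ℕ) : ℝ))‖ ≤ B * (1 + 2 * Real.pi * |θ| * X) := by
  have hpi := Real.pi_pos
  have key : ∀ Y ≤ X, ‖∑ m ∈ range Y, g (m + 1) * ee (θ * ((m + 1 : ℕ) : ℝ)) -
      (∑ m ∈ range Y, g (m + 1)) * ee (θ * (Y : ℝ))‖ ≤ B * (2 * Real.pi * |θ|) * Y := by
    intro Y
    induction Y with
    | zero => intro _; simp
    | succ Y ih =>
      intro hY
      have h1 := ih (by omega)
      have e1 : ∑ m ∈ range (Y + 1), g (m + 1) * ee (θ * ((m + 1 : ℕ) : ℝ)) -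
          (∑ m ∈ range (Y + 1), g (m + 1)) * ee (θ * ((Y + 1 : ℕ) : ℝ)) =
          (∑ m ∈ range Y, g (m + 1) * ee (θ * ((m + 1 : ℕ) : ℝ)) - (∑ m ∈ range Y, g (m + 1)) * ee (θ * (Y : ℝ))) +
          (∑ m ∈ range Y, g (m + 1)) * (ee (θ * Y) * (1 - ee θ)) := by
        rw [sum_range_succ, sum_range_succ]
        have e2 : ee (θ * ((Y + 1 : ℕ) : ℝ)) = ee (θ * Y) * ee θ := by
          rw [← ee_add]; congr 1; push_cast; ring
        rw [e2]; ring
      rw [e1]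
      refine (norm_add_le _ _).trans ?_
      have h2 : ‖(∑ m ∈ range Y, g (m + 1)) * (ee (θ * Y) * (1 - ee θ))‖ ≤ B * (2 * Real.pi * |θ|) := by
        rw [norm_mul, norm_mul, norm_ee, one_mul]
        have h3 := dd_le θ
        unfold dd at h3
        exact mul_le_mul (hS Y (by omega)) h3 (norm_nonneg _) hB
      calc _ ≤ B * (2 * Real.pi * |θ|) * Y + B * (2 * Real.pi * |θ|) := add_le_add h1 h2
        _ = B * (2 * Real.pi * |θ|) * ((Y + 1 : ℕ) : ℝ) := by push_cast; ring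
  have h1 := key X le_rfl
  have h2 : ‖(∑ m ∈ range X, g (m + 1)) * ee (θ * (X : ℝ))‖ ≤ B := by
    rw [norm_mul, norm_ee, mul_one]
    exact hS X le_rfl
  calc ‖∑ m ∈ range X, g (m + 1) * ee (θ * ((m + 1 : ℕ) : ℝ))‖ =
      ‖(∑ m ∈ range X, g (m + 1) * ee (θ * ((m + 1 : ℕ) : ℝ)) - (∑ m ∈ range X, g (m + 1)) * ee (θ * (X : ℝ))) +
        (∑ m ∈ range X, g (m + 1)) * ee (θ * (X : ℝ))‖ := by congr 1; ring
    _ ≤ B * (2 * Real.pi * |θ|) * X + B := (norm_add_le _ _).trans (add_le_add h1 h2)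
    _ = _ := by ring

lemma W_zero_range (f : ℕ → ℂ) (P : ℝ[X]) (X : ℕ) :
    W f P 0 X = ∑ m ∈ range X, f (m + 1) * ee (P.eval ((m + 1 : ℕ) : ℝ)) := by
  rw [FL.W_range]
  simp only [zero_add]

/-- long sums near a rational point -/
lemma near_long {f : ℕ → ℂ} {P : ℝ[X]} (hP : P.natDegree ≤ 1) {x κ B : ℝ} {k : ℤ} (hB : 0 ≤ B)
    (h : |P.coeff 1 - x - k| ≤ κ) (X : ℕ) (hS : ∀ Y ≤ X, ‖W f (lin x) 0 Y‖ ≤ B) :
    ‖W f P 0 X‖ ≤ B * (1 + 2 * Real.pi * κ * X) := by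
  set θ : ℝ := P.coeff 1 - x - k with hθ
  have e1 : W f P 0 X = ee (P.coeff 0) * ∑ m ∈ range X, (fun m : ℕ => f m * ee (x * m)) (m + 1) *
      ee (θ * ((m + 1 : ℕ) : ℝ)) := by
    rw [W_zero_range, mul_sum]
    refine sum_congr rfl fun m _ => ?_
    rw [phase hP x k (m + 1), ← hθ]
    ring
  rw [e1, norm_mul, norm_ee, one_mul]
  refine (parts (fun m : ℕ => f m * ee (x * m)) θ B hB X fun Y hY => ?_).trans ?_
  · have := hS Y hY
    rw [W_zero_range] at this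
    simp only [lin_eval] at this
    exact this
  · have hpi := Real.pi_pos
    gcongr

/-- a correlation which is small in almost all short intervals is small for long sums -/
lemma shortAt_long {f : ℕ → ℂ} (hf : ∀ n, ‖f n‖ ≤ 1) {x : ℝ} (hx : ShortAt f x) (ε : ℝ) (hε : 0 < ε) :
    ∃ X₀ : ℕ, ∀ X ≥ X₀, ‖W f (lin x) 0 X‖ ≤ ε * X := by
  obtain ⟨H₀, hH₀⟩ := hx (ε / 4) (by positivity)
  obtain ⟨A, hA⟩ := exists_nat_ge (8 / ε)
  refine ⟨H₀ + A * A + 9, fun X hX => ?_⟩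
  have h1 := hH₀ X X (by omega) le_rfl
  obtain ⟨y, hy⟩ : ∃ y, y = Nat.sqrt X := ⟨_, rfl⟩
  have hy2 : y * y ≤ X := by rw [hy]; exact Nat.sqrt_le X
  have hy3 : X < (y + 1) * (y + 1) := by rw [hy]; exact Nat.lt_succ_sqrt X
  have hyA : A ≤ y := by rw [hy, Nat.le_sqrt]; omega
  have hy1 : 1 ≤ y := by rw [hy, Nat.le_sqrt]; omega
  have hX9 : (9 : ℝ) ≤ X := by exact_mod_cast (by omega : 9 ≤ X)
  have hlog : 1 ≤ Real.log X := by
    rw [Real.le_log_iff_exp_le (by linarith)]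
    linarith [Real.exp_one_lt_d9]
  set w : ℝ := ‖W f (lin x) 0 X‖ with hw
  have hw0 : 0 ≤ w := norm_nonneg _
  set hh : ℝ := ∑ n ∈ Icc 1 y, 1 / (n : ℝ) with hhh
  have hharm : Real.log X ≤ 2 * hh := by
    have h2 := log_add_one_le_harmonic y
    have h3 : hh = ((harmonic y : ℚ) : ℝ) := by
      rw [hhh, harmonic_eq_sum_Icc]
      push_cast
      exact sum_congr rfl fun n _ => one_div _
    rw [← h3] at h2
    have h4 : Real.log X ≤ Real.log (((y : ℝ) + 1) * ((y : ℝ) + 1)) := by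
      apply Real.log_le_log (by linarith)
      exact_mod_cast hy3.le
    rw [Real.log_mul (by positivity) (by positivity)] at h4
    push_cast at h2
    linarith
  have hlow : w * hh - 2 * y ≤ ∑ n ∈ Icc 1 X, (1 / (n : ℝ)) * ‖W f (lin x) n X‖ := by
    have h2 : Icc 1 y ⊆ Icc 1 X := Icc_subset_Icc_right (by nlinarith)
    refine le_trans ?_ (sum_le_sum_of_subset_of_nonneg h2 fun _ _ _ => by positivity)
    have h3 : w * hh - 2 * y = ∑ n ∈ Icc 1 y, (w * (1 / (n : ℝ)) - 2) := by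
      rw [sum_sub_distrib, ← mul_sum, sum_const, Nat.card_Icc, nsmul_eq_mul]
      rw [Nat.add_sub_cancel, mul_comm (y : ℝ)]
    rw [h3]
    refine sum_le_sum fun n hn => ?_
    rw [mem_Icc] at hn
    have hn0 : (0 : ℝ) < n := by exact_mod_cast hn.1
    have h4 := FL.shift hf (lin x) 0 X n
    rw [zero_add] at h4
    have h5 : w - 2 * n ≤ ‖W f (lin x) n X‖ := by
      have h6 := norm_sub_norm_le (W f (lin x) 0 X) (W f (lin x) n X)
      linarith
    have h6 := mul_le_mul_of_nonneg_left h5 (show (0 : ℝ) ≤ 1 / n by positivity)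
    have h7 : (1 / (n : ℝ)) * (w - 2 * n) = w * (1 / (n : ℝ)) - 2 := by field_simp
    linarith
  have h2 : w * (Real.log X / 2) ≤ w * hh := mul_le_mul_of_nonneg_left (by linarith) hw0
  have h3 : (8 : ℝ) * y ≤ ε * X := by
    have h4 : 8 / ε ≤ y := hA.trans (by exact_mod_cast hyA)
    rw [div_le_iff₀ hε] at h4
    have h5 : (y : ℝ) * y ≤ X := by exact_mod_cast hy2
    have h6 : (0 : ℝ) ≤ y := Nat.cast_nonneg _
    nlinarith
  have h4 : w * Real.log X ≤ (ε * X) * Real.log X := by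
    have h5 : (0 : ℝ) ≤ ε * X := by positivity
    nlinarith
  exact le_of_mul_le_mul_right h4 (by linarith)

/-- **long sums over a compact set of frequencies** -/
theorem long_all (hwr : S_WR) (htk : S_TK) {f : ℕ → ℂ} (hf : Mul1 f) {E : Set UnitAddCircle} (hE : IsCompact E)
    (hR : ShortRat f E) (ε : ℝ) (hε : 0 < ε) :
    ∃ X₀ : ℕ, ∀ X ≥ X₀, ∀ P : ℝ[X], P.natDegree ≤ 1 → ((P.coeff 1 : ℝ) : UnitAddCircle) ∈ E →
      ‖W f P 0 X‖ ≤ ε * X := by
  classical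
  obtain ⟨Q, X₁, hQ1, hLS⟩ := ls3 hwr htk 1 le_rfl ε hε
  have hpi := Real.pi_pos
  have hQr : (1 : ℝ) ≤ Q := by exact_mod_cast hQ1
  set ε' : ℝ := ε / (2 * (1 + 2 * Real.pi * Q)) with hε'
  have hε'0 : 0 < ε' := by positivity
  -- one rational point
  have hone : ∀ r ∈ range (Q + 1) ×ˢ range (Q + 1), ∃ (Y₀ : ℕ) (δ : ℝ), 0 < δ ∧ (1 ≤ r.2 →
      ((((r.1 : ℝ) / r.2 : ℝ) : UnitAddCircle) ∈ E → ∀ X ≥ Y₀, ‖W f (lin ((r.1 : ℝ) / r.2)) 0 X‖ ≤ ε' * X) ∧
      ((((r.1 : ℝ) / r.2 : ℝ) : UnitAddCircle) ∉ E → ∀ (β : ℝ) (k : ℤ), (β : UnitAddCircle) ∈ E →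
        δ ≤ |β - (r.1 : ℝ) / r.2 - k|)) := by
    rintro ⟨b, q⟩ _
    by_cases hq : 1 ≤ q
    swap
    · exact ⟨0, 1, one_pos, fun h => absurd h hq⟩
    by_cases hbE : (((b : ℝ) / q : ℝ) : UnitAddCircle) ∈ E
    · obtain ⟨Y₀, hY₀⟩ := shortAt_long hf.1 (hR b q hq hbE) ε' hε'0
      exact ⟨Y₀, 1, one_pos, fun _ => ⟨fun _ => hY₀, fun h => absurd hbE h⟩⟩
    · have hop : IsOpen (Eᶜ) := hE.isClosed.isOpen_compl
      obtain ⟨δ, hδ, hδ2⟩ := Metric.isOpen_iff.1 hop _ hbE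
      refine ⟨0, δ, hδ, fun _ => ⟨fun h => absurd h hbE, fun _ β k hβ => ?_⟩⟩
      by_contra hcon
      push Not at hcon
      have h1 : (β : UnitAddCircle) ∈ Metric.ball (((b : ℝ) / q : ℝ) : UnitAddCircle) δ := by
        rw [Metric.mem_ball, dist_eq_norm, ← AddCircle.coe_sub, UnitAddCircle.norm_eq]
        exact (round_le _ k).trans_lt hcon
      exact hδ2 h1 hβ
  choose! Y₀ δ hδ hone2 using hone
  -- all rational points
  obtain ⟨YY, hYY⟩ : ∃ YY : ℕ, ∀ r ∈ range (Q + 1) ×ˢ range (Q + 1), Y₀ r ≤ YY :=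
    ⟨∑ r ∈ range (Q + 1) ×ˢ range (Q + 1), Y₀ r, fun r hr => single_le_sum (fun _ _ => Nat.zero_le _) hr⟩
  obtain ⟨D, hD⟩ : ∃ D : ℕ, ∀ r ∈ range (Q + 1) ×ˢ range (Q + 1), 1 / δ r ≤ D := by
    obtain ⟨D, hD⟩ := exists_nat_ge (∑ r ∈ range (Q + 1) ×ˢ range (Q + 1), |1 / δ r|)
    refine ⟨D, fun r hr => ?_⟩
    have h1 := single_le_sum (f := fun r => |1 / δ r|) (fun _ _ => abs_nonneg _) hr
    exact (le_abs_self _).trans (h1.trans hD)
  obtain ⟨Z, hZ⟩ := exists_nat_ge (2 * (1 + 2 * Real.pi * Q) * YY / ε)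
  refine ⟨X₁ + Q * D + Z + 1, fun X hX P hP hPE => ?_⟩
  have hX0 : (0 : ℝ) < X := by exact_mod_cast (by omega : 0 < X)
  by_cases hmaj : ∀ q : ℕ, 1 ≤ q → q ≤ Q → ∀ a : ℤ, (Q : ℝ) / (X : ℝ) ^ 1 < |q * P.coeff 1 - a|
  · exact hLS X (by omega) f hf P hP hmaj
  push Not at hmaj
  obtain ⟨q, hq1, hqQ, a, ha⟩ := hmaj
  rw [pow_one] at ha
  obtain ⟨b, hbq, k, hk⟩ := red hq1 ha
  have hmem : (b, q) ∈ range (Q + 1) ×ˢ range (Q + 1) := by
    rw [mem_product, mem_range, mem_range]; constructor <;> simp only <;> omega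
  obtain ⟨h1, h2⟩ := hone2 (b, q) hmem hq1
  by_cases hbE : (((b : ℝ) / q : ℝ) : UnitAddCircle) ∈ E
  · have h3 := h1 hbE
    have h4 : ∀ Y ≤ X, ‖W f (lin ((b : ℝ) / q)) 0 Y‖ ≤ ε' * X + YY := by
      intro Y hY
      have hYr : (Y : ℝ) ≤ X := by exact_mod_cast hY
      by_cases hYY0 : Y₀ (b, q) ≤ Y
      · refine (h3 Y hYY0).trans ?_
        have : (0 : ℝ) ≤ YY := Nat.cast_nonneg _
        nlinarith
      · push Not at hYY0
        refine (FL.W_le hf.1 _ 0 Y).trans ?_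
        have h5 : (Y : ℝ) ≤ YY := by exact_mod_cast (hYY0.le.trans (hYY _ hmem))
        have : (0 : ℝ) ≤ ε' * X := by positivity
        linarith
    have h5 := near_long (f := f) hP (B := ε' * X + YY) (by positivity) hk X h4
    have h6 : 2 * Real.pi * ((Q : ℝ) / X) * X = 2 * Real.pi * Q := by field_simp
    rw [h6] at h5
    refine h5.trans ?_
    have h7 : (YY : ℝ) ≤ ε' * X := by
      have h8 : 2 * (1 + 2 * Real.pi * Q) * YY / ε ≤ X := hZ.trans (by exact_mod_cast (by omega : Z ≤ X))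
      rw [div_le_iff₀ hε] at h8
      rw [hε', div_mul_eq_mul_div, le_div_iff₀ (by positivity)]
      linarith
    have h8 : ε' * (2 * (1 + 2 * Real.pi * Q)) = ε := by
      rw [hε']; field_simp
    have h9 : (0 : ℝ) ≤ 1 + 2 * Real.pi * Q := by positivity
    calc (ε' * X + YY) * (1 + 2 * Real.pi * Q) ≤ (ε' * X + ε' * X) * (1 + 2 * Real.pi * Q) :=
          mul_le_mul_of_nonneg_right (by linarith) h9
      _ = (ε' * (2 * (1 + 2 * Real.pi * Q))) * X := by ring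
      _ = ε * X := by rw [h8]
  · exfalso
    have h3 := h2 hbE (P.coeff 1) k hPE
    have h4 := hD (b, q) hmem
    have h5 := hδ (b, q) hmem
    rw [div_le_iff₀ h5] at h4
    have h6 : (Q : ℝ) / X < δ (b, q) := by
      rw [div_lt_iff₀ hX0]
      have h7 : (Q : ℝ) * D < X := by exact_mod_cast (by omega : Q * D < X)
      have h8 : (D : ℝ) * δ (b, q) ≥ 1 := h4
      nlinarith
    linarith

end Pool.Agent.T9h55.MD
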