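import Pool.Agent.Helper44K9.FU.Mone2
import Pool.Agent.T9h55.MD.Eq3

/-! The main estimate for the part of a small compact set away from the rational points of small denominator (helper55;
adapted from `Pool.Agent.Helper44K9.FU.Mone2`). -/

set_option autoImplicit false

namespace Pool.Agent.T9h55.MD

open Finset Polynomial MeasureTheory
open Pool.Agent.Helper44K9.FU
open Pool.Agent.H807R2.Dav (ee norm_ee)

open Pool.Agent.Helper44K9.FU.ML in
open Classical in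
/-- the main estimate -/
theorem mone3 (hBES : S_BES2) (hPUSH : S_PUSH) (hNR : S_NR2) (hEQ : S_EQ3) (hDIL : S_DIL) (hPIG : S_PIG) :
    ∀ d : ℕ, 1 ≤ d → ∃ A₀ : ℕ, 1 ≤ A₀ ∧ ∀ (T : ℕ) (ε : ℝ), 1 ≤ T → ε = 1 / T → ∀ E : Set UnitAddCircle, IsCompact E →
      volume E ≤ ENNReal.ofReal (1 / (A₀ * (T : ℝ) ^ A₀)) → ∃ Q₁ : ℕ, ∀ (E' : Set UnitAddCircle) (κ' : ℝ), E' ⊆ E →
      0 < κ' → Far Q₁ κ' E' → ∃ H₁ H₂ N₀ : ℕ, 1 ≤ H₁ ∧ ∀ N ≥ N₀,
      ∀ f : ℕ → ℂ, Mul1 f → ∃ H ∈ Ico H₁ H₂, ∑ n ∈ Icc 1 N, (1 / (n : ℝ)) *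
        (if ∃ P : ℝ[X], P.natDegree ≤ d ∧ ((P.coeff d : ℝ) : UnitAddCircle) ∈ E' ∧ ε * H ≤ ‖W f P n H‖ then 1 else 0) ≤
        ε * ∑ n ∈ Icc 1 N, 1 / (n : ℝ) := by
  intro d hd
  obtain ⟨b, hb, hEQb⟩ := hEQ
  obtain ⟨c₀, k₀, hc₀, hB₀⟩ := hBES d hd
  -- the exponent
  obtain ⟨b', hb'⟩ := exists_nat_ge (1 / b)
  refine ⟨7000 * (b' + 1) * (c₀ * 2 ^ k₀ + 66) ^ 2 + 2 * k₀ + 9, by omega, ?_⟩
  intro T ε hT hεT
  have hTr : (1 : ℝ) ≤ T := by exact_mod_cast hT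
  have hTr0 : (0 : ℝ) < T := by linarith
  have hε : 0 < ε := by rw [hεT]; positivity
  set K : ℕ := c₀ * (2 * T) ^ k₀ with hK
  have hK1 : 1 ≤ K := Nat.mul_pos hc₀ (by positivity)
  set R : ℕ := 2 * (2 * T) ^ 2 with hR
  have hB : ∀ f : ℕ → ℂ, (∀ n, ‖f n‖ ≤ 1) → ∀ (n H r : ℕ) (P : Fin r → ℝ[X]), 1 ≤ H → (∀ i, (P i).natDegree ≤ d) →
      (∀ i, ε / 2 * H ≤ ‖W f (P i) n H‖) →
      (∀ i j, i ≠ j → ¬ Rel d K H ((P i).coeff d) ((P j).coeff d)) → r ≤ R := by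
    intro f hf n H r P hH hP hPt hPr
    refine hB₀ (2 * T) (by omega) f hf n H r P hH hP (fun i => ?_) hPr
    refine le_trans (le_of_eq ?_) (hPt i)
    rw [hεT]; push_cast; field_simp
  -- the number of levels
  set J : ℕ := 64 * T ^ 3 with hJdef
  have hJ1 : 1 ≤ J := by
    have : 0 < T ^ 3 := by positivity
    omega
  have hJ : (R : ℝ) / J ≤ ε / 8 := by
    rw [hR, hJdef, hεT]
    push_cast
    apply le_of_eq
    field_simp
    norm_num
  have hJr : (0 : ℝ) < J := by exact_mod_cast hJ1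
  set η : ℝ := ε / (2 * J) with hη
  have hη0 : 0 < η := by positivity
  set t : ℕ → ℝ := fun j => ε - j * η with ht
  have ht_le : ∀ j ≤ J, ε / 2 ≤ t j := by
    intro j hj
    have h1 : (j : ℝ) * η ≤ J * η := mul_le_mul_of_nonneg_right (by exact_mod_cast hj) hη0.le
    have h2 : (J : ℝ) * η = ε / 2 := by rw [hη]; field_simp
    simp only [ht]
    linarith
  have ht_step : ∀ j, t j - η = t (j + 1) := by
    intro j; simp only [ht]; push_cast; ring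
  have ht_mono : ∀ j, t j ≤ ε := by
    intro j
    have : 0 ≤ (j : ℝ) * η := by positivity
    simp only [ht]; linarith
  set KK : ℕ → ℕ := fun j => K + (J - j) with hKK
  have hKK_step : ∀ j < J, KK j = KK (j + 1) + 1 := by
    intro j hj
    simp only [hKK]
    omega
  have hKK_le : ∀ j, KK j ≤ KK 0 := by
    intro j
    simp only [hKK]
    omega
  have hKK_ge : ∀ j, K ≤ KK j := by
    intro j
    simp only [hKK]
    omega
  have hKK1 : ∀ j, 1 ≤ KK j := fun j => hK1.trans (hKK_ge j)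
  set c : ℝ := ε / (8 * (R + 1)) with hc
  have hc0 : 0 < c := by positivity
  intro E hEc hEv
  have hE := hEQb d (KK 0) hd (hKK1 0) c hc0
  have hδ : (1 : ℝ) / (((7000 * (b' + 1) * (c₀ * 2 ^ k₀ + 66) ^ 2 + 2 * k₀ + 9 : ℕ) : ℝ) *
      (T : ℝ) ^ (7000 * (b' + 1) * (c₀ * 2 ^ k₀ + 66) ^ 2 + 2 * k₀ + 9)) ≤ c * b / 12 / (8 * (((KK 0 : ℕ) : ℝ) + 1) ^ 2) := by
    set M : ℝ := ((c₀ * 2 ^ k₀ + 66 : ℕ) : ℝ) with hM
    have hKK0 : (((KK 0 : ℕ) : ℝ) + 1) ≤ M * (T : ℝ) ^ (k₀ + 3) := by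
      have h1 : (T : ℝ) ^ k₀ ≤ (T : ℝ) ^ (k₀ + 3) := pow_le_pow_right₀ hTr (by omega)
      have h2 : (T : ℝ) ^ 3 ≤ (T : ℝ) ^ (k₀ + 3) := pow_le_pow_right₀ hTr (by omega)
      have h3 : (1 : ℝ) ≤ (T : ℝ) ^ (k₀ + 3) := one_le_pow₀ hTr
      have h4 : ((KK 0 : ℕ) : ℝ) = c₀ * 2 ^ k₀ * (T : ℝ) ^ k₀ + 64 * (T : ℝ) ^ 3 := by
        simp only [hKK, hK, hJdef]
        push_cast
        rw [Nat.sub_zero, mul_pow]
        push_cast
        ring
      rw [h4, hM]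
      push_cast
      have h5 : (c₀ : ℝ) * 2 ^ k₀ * (T : ℝ) ^ k₀ ≤ c₀ * 2 ^ k₀ * (T : ℝ) ^ (k₀ + 3) :=
        mul_le_mul_of_nonneg_left h1 (by positivity)
      nlinarith
    have hc' : 1 / (72 * (T : ℝ) ^ 3) ≤ c := by
      rw [hc, hεT, hR]
      push_cast
      rw [div_div, div_le_div_iff₀ (by positivity) (by positivity)]
      have h1 : (T : ℝ) ≤ (T : ℝ) ^ 3 := le_self_pow₀ hTr (by norm_num)
      nlinarith
    have hbb : 1 / ((b' : ℝ) + 1) ≤ b := by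
      rw [div_le_iff₀ (by positivity)]
      rw [div_le_iff₀ hb] at hb'
      nlinarith
    have hM0 : 0 < M := by rw [hM]; positivity
    have h6 : (((KK 0 : ℕ) : ℝ) + 1) ^ 2 ≤ M ^ 2 * (T : ℝ) ^ (2 * k₀ + 6) := by
      calc (((KK 0 : ℕ) : ℝ) + 1) ^ 2 ≤ (M * (T : ℝ) ^ (k₀ + 3)) ^ 2 := pow_le_pow_left₀ (by positivity) hKK0 2
        _ = M ^ 2 * (T : ℝ) ^ (2 * k₀ + 6) := by rw [mul_pow, ← pow_mul]; congr 2; ring
    calc (1 : ℝ) / (((7000 * (b' + 1) * (c₀ * 2 ^ k₀ + 66) ^ 2 + 2 * k₀ + 9 : ℕ) : ℝ) *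
      (T : ℝ) ^ (7000 * (b' + 1) * (c₀ * 2 ^ k₀ + 66) ^ 2 + 2 * k₀ + 9)) ≤
        1 / ((6912 * ((b' : ℝ) + 1) * M ^ 2) * (T : ℝ) ^ (2 * k₀ + 9)) := by
          refine one_div_le_one_div_of_le (by positivity) ?_
          refine mul_le_mul ?_ (pow_le_pow_right₀ hTr (by omega)) (by positivity) (by positivity)
          rw [hM]
          push_cast
          have : (0 : ℝ) ≤ ((b' : ℝ) + 1) * ((c₀ : ℝ) * 2 ^ k₀ + 66) ^ 2 := by positivity
          have h7 : (0 : ℝ) ≤ (k₀ : ℝ) := Nat.cast_nonneg _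
          nlinarith
      _ = (1 / (72 * (T : ℝ) ^ 3)) * (1 / ((b' : ℝ) + 1)) / 12 / (8 * (M ^ 2 * (T : ℝ) ^ (2 * k₀ + 6))) := by
          rw [show 2 * k₀ + 9 = 3 + (2 * k₀ + 6) by ring, pow_add]
          field_simp
          norm_num
      _ ≤ c * b / 12 / (8 * (((KK 0 : ℕ) : ℝ) + 1) ^ 2) := by
          gcongr
  replace hEv := hEv.trans (ENNReal.ofReal_le_ofReal hδ)
  obtain ⟨Q₁, hQ₁⟩ := hE E hEc hEv
  refine ⟨Q₁, ?_⟩
  intro E' κ' hsub hκ' hfar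
  -- the primes
  set κ₀ : ℝ := R * (100 / η ^ 2) + (R : ℝ) ^ 2 with hκ₀
  have hκ₀0 : 0 ≤ κ₀ := by positivity
  obtain ⟨I, hIp, hIA, τ, hτ, hEQ'⟩ := hQ₁ E' κ' hsub hκ' hfar (max (KK 0) ⌈8 / η⌉₊) (8 * (R + 2) * κ₀ / ε + 1)
  set L : ℝ := ∑ p ∈ I, 1 / (p : ℝ) with hL
  have hL0 : 0 < L := by
    have : 0 ≤ 8 * (R + 2) * κ₀ / ε := by positivity
    linarith
  set w : ℕ → ℝ := fun p => (1 / (p : ℝ)) / L with hw
  have hw0 : ∀ p ∈ I, 0 ≤ w p := fun p _ => by simp only [hw]; positivity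
  have hw1 : ∑ p ∈ I, w p = 1 := by
    simp only [hw]
    rw [← sum_div, ← hL, div_self hL0.ne']
  have hwsum : ∀ (s : Finset ℕ) (x : ℝ), ∑ p ∈ s, 1 / (p : ℝ) ≤ x → ∑ p ∈ s, w p ≤ x / L := by
    intro s x hx
    simp only [hw]
    rw [← sum_div]
    exact div_le_div_of_nonneg_right hx hL0.le
  set κ : ℝ := κ₀ / L with hκ
  have hκ0 : 0 ≤ κ := by positivity
  have hκ1 : (R + 2) * κ ≤ ε / 8 := by
    have h1 : 8 * (R + 2) * κ₀ / ε ≤ L := by linarith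
    rw [div_le_iff₀ hε] at h1
    rw [hκ, mul_div_assoc', div_le_iff₀ hL0]
    linarith
  obtain ⟨B, hB'⟩ : ∃ B : ℕ, ∀ p ∈ I, p ≤ B := ⟨I.sup id, fun p hp => le_sup (f := id) hp⟩
  have hIprime : ∀ p ∈ I, p.Prime := fun p hp => (hIp p hp).1
  have hIK : ∀ p ∈ I, ∀ j, KK j < p := fun p hp j =>
    lt_of_le_of_lt ((hKK_le j).trans (le_max_left _ _)) (hIp p hp).2
  obtain ⟨HP, hHP⟩ := hPUSH I η hη0 (fun p hp => ⟨hIprime p hp, by
    have h1 := (hIp p hp).2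
    have h2 : ⌈8 / η⌉₊ ≤ p := (le_max_right _ _).trans h1.le
    exact (Nat.le_ceil _).trans (by exact_mod_cast h2)⟩)
  choose HN hHN using fun j : ℕ => hNR d (KK j) B hd (hKK1 j)
  obtain ⟨M, hM⟩ : ∃ M : ℕ, (KK 0 : ℝ) / τ ≤ M := exists_nat_ge _
  -- the scales
  set H₁ : ℕ := HP + ∑ j ∈ range (J + 1), HN j + (M + 1) * (B + 1) + 2 * B + 1 with hH₁
  set Er : ℝ := (R + 1) * (4 + 2 * Real.log (B + 1)) with hEr
  have hlogB : 0 ≤ Real.log ((B : ℝ) + 1) := Real.log_nonneg (by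
    have : (0 : ℝ) ≤ B := Nat.cast_nonneg _
    linarith)
  have hEr0 : 0 < Er := by positivity
  set Λ : ℝ := 32 * Er / ε with hΛ
  have hΛ0 : 0 < Λ := by positivity
  have hdiv := Real.tendsto_sum_range_one_div_nat_succ_atTop
  obtain ⟨H₂, hH₂, hH₂Λ⟩ : ∃ H₂ : ℕ, H₁ ≤ H₂ ∧ Λ ≤ ∑ H ∈ Ico H₁ H₂, 1 / (H : ℝ) := by
    obtain ⟨M', hM'⟩ := (hdiv.eventually_ge_atTop (Λ + ∑ k ∈ range H₁, 1 / ((k : ℝ)))).exists
    refine ⟨max H₁ (M' + 1), le_max_left _ _, ?_⟩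
    have h2 : ∑ i ∈ range M', 1 / ((i : ℝ) + 1) = ∑ k ∈ range (M' + 1), 1 / (k : ℝ) := by
      rw [sum_range_succ' (fun k : ℕ => 1 / (k : ℝ)) M']
      push_cast; simp
    rw [h2] at hM'
    have h3 : ∑ k ∈ range (M' + 1), 1 / (k : ℝ) ≤ ∑ k ∈ range (max H₁ (M' + 1)), 1 / (k : ℝ) :=
      sum_le_sum_of_subset_of_nonneg (range_subset_range.2 (le_max_right _ _)) fun _ _ _ => by positivity
    rw [sum_Ico_eq_sub _ (le_max_left _ _)]
    linarith
  obtain ⟨N₀, hN₀⟩ : ∃ N₀ : ℕ, ∀ N ≥ N₀, Λ ≤ ∑ n ∈ Icc 1 N, 1 / (n : ℝ) := by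
    obtain ⟨N₀, hN₀⟩ := Filter.eventually_atTop.1 (hdiv.eventually_ge_atTop Λ)
    refine ⟨N₀, fun N hN => ?_⟩
    have h1 := hN₀ N hN
    have h2 : ∑ n ∈ Icc 1 N, 1 / (n : ℝ) = ∑ i ∈ range N, 1 / ((i : ℝ) + 1) := by
      rw [← Finset.Ico_succ_right_eq_Icc, sum_Ico_eq_sum_range]
      refine sum_congr (by simp) fun i _ => ?_
      push_cast; rw [add_comm (1 : ℝ)]
    rw [h2]; exact h1
  refine ⟨H₁, H₂, N₀, by omega, fun N hN f hf => ?_⟩
  have hhN := hN₀ N hN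
  set hn : ℝ := ∑ n ∈ Icc 1 N, 1 / (n : ℝ) with hhn
  set ℓ : ℝ := ∑ H ∈ Ico H₁ H₂, 1 / (H : ℝ) with hℓ
  set er : ℝ := Er * (ℓ + hn) with her
  have hmass : MM H₁ H₂ N (fun _ _ => 1) = ℓ * hn := MM_one H₁ H₂ N
  have hℓ0 : 0 < ℓ := lt_of_lt_of_le hΛ0 hH₂Λ
  have hhn0 : 0 < hn := lt_of_lt_of_le hΛ0 hhN
  have herm : er ≤ ε / 16 * (ℓ * hn) := by
    have h1 : Er * ℓ ≤ ε / 32 * (ℓ * hn) := by
      have h2 : 32 * Er ≤ hn * ε := by rw [hΛ, div_le_iff₀ hε] at hhN; exact hhN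
      nlinarith
    have h1' : Er * hn ≤ ε / 32 * (ℓ * hn) := by
      have h2 : 32 * Er ≤ ℓ * ε := by rw [hΛ, div_le_iff₀ hε] at hH₂Λ; exact hH₂Λ
      nlinarith
    rw [her]; nlinarith
  -- bounds for primes and scales
  have hscale : ∀ p ∈ I, ∀ H ∈ Ico H₁ H₂, 1 ≤ H / p ∧ (KK 0 : ℝ) / ((H / p : ℕ) : ℝ) ^ d ≤ τ := by
    intro p hp H hH
    have hpB := hB' p hp
    have hp0 := (hIprime p hp).pos
    rw [mem_Ico] at hH
    have h1 : M + 1 ≤ H / p := by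
      rw [Nat.le_div_iff_mul_le hp0]
      calc (M + 1) * p ≤ (M + 1) * (B + 1) := Nat.mul_le_mul_left _ (by omega)
        _ ≤ H₁ := by rw [hH₁]; omega
        _ ≤ H := hH.1
    refine ⟨by omega, ?_⟩
    have h2 : ((M : ℝ) + 1) ≤ ((H / p : ℕ) : ℝ) := by exact_mod_cast h1
    have h3 : (1 : ℝ) ≤ ((H / p : ℕ) : ℝ) := le_trans (by have : (0 : ℝ) ≤ M := Nat.cast_nonneg _; linarith) h2
    have h4 : ((H / p : ℕ) : ℝ) ≤ ((H / p : ℕ) : ℝ) ^ d := le_self_pow₀ h3 (by omega)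
    rw [div_le_iff₀ (by positivity)]
    rw [div_le_iff₀ hτ] at hM
    nlinarith
  -- the ranks
  set r : ℕ → ℕ → ℕ → ℕ := fun j n H => if j ≤ J then rk d f (KK j) (t j) n H else 0 with hr
  have hLR : ∀ j ≤ J, ∀ n H, 1 ≤ H → ∀ s, Lst d f (KK j) (t j) n H s → s ≤ R := by
    rintro j hj n H hH s ⟨P, h1, h2, h3⟩
    refine hB f hf.1 n H s P hH h1 (fun i => ?_) fun i i' hi h4 => h3 i i' hi (h4.mono (hKK_ge j))
    exact (mul_le_mul_of_nonneg_right (ht_le j hj) (Nat.cast_nonneg _)).trans (h2 i)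
  have hrR : ∀ j n H, r j n H ≤ R := by
    intro j n H
    simp only [hr]
    split_ifs with hj
    · exact rk_le (hLR j hj n H)
    · exact Nat.zero_le _
  have hDILr : ∀ (F : ℕ → ℕ → ℝ), (∀ n H, 0 ≤ F n H ∧ F n H ≤ R + 1) → ∀ p ∈ I,
      MM H₁ H₂ N (fun n H => F (n / p) (H / p)) ≤ MM H₁ H₂ N F + er := by
    intro F hF p hp
    have hpB := hB' p hp
    have hp1 := (hIprime p hp).one_le
    refine (hDIL p H₁ H₂ N (R + 1) F hp1 (by omega) hH₂ hF).trans ?_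
    have h1 : Real.log p ≤ Real.log (B + 1) := Real.log_le_log (by exact_mod_cast hp1) (by
      have : (p : ℝ) ≤ B := by exact_mod_cast hpB
      linarith)
    have h2 : ((R : ℝ) + 1) * (4 + 2 * Real.log p) * (ℓ + hn) ≤ er := by
      rw [her, hEr]
      gcongr
    linarith
  -- the data at (n, H)
  have hdata : ∀ j < J, ∀ H ∈ Ico H₁ H₂, ∀ n : ℕ, ∃ P : Fin (r j n H) → ℝ[X], (∀ i, (P i).natDegree ≤ d) ∧
      ∑ p ∈ I.filter (fun p => ¬ ((∀ i, t (j + 1) * ((H / p : ℕ) : ℝ) ≤ ‖W f (dil p (P i)) (n / p) (H / p)‖) ∧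
        ∀ i i', i ≠ i' → ¬ Rel d (KK (j + 1)) (H / p) ((p : ℝ) ^ d * (P i).coeff d) ((p : ℝ) ^ d * (P i').coeff d))),
        1 / (p : ℝ) ≤ κ₀ := by
    intro j hj H hH n
    have hH' := mem_Ico.1 hH
    have hH1 : 1 ≤ H := by omega
    have h1 := (rk_spec hH1 (hLR j hj.le n H hH1)).1
    have h2 : r j n H = rk d f (KK j) (t j) n H := by simp only [hr]; rw [if_pos hj.le]
    rw [← h2] at h1
    obtain ⟨P, hPd, hPt, hPr⟩ := h1
    refine ⟨P, hPd, ?_⟩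
    have h3 := exc_bound2 (K := KK (j + 1)) (R := R) (I := I) (η := η) (t := t j) (f := f) (n := n) (H := H)
      (P := P) (d := d) hIprime hη0 (hrR j n H) (by omega) hPt (by rw [← hKK_step j hj]; exact hPr)
      (fun Q => hHP H (by omega) f hf Q n) (fun α β p hp q hq hpq h4 h5 => by
        have h6 : HN (j + 1) ≤ ∑ j ∈ range (J + 1), HN j :=
          single_le_sum (f := HN) (fun _ _ => Nat.zero_le _) (mem_range.2 (by omega))
        exact hHN (j + 1) H (by omega) α β p q (hIprime p hp) (hIprime q hq) hpq (hIK p hp _) (hIK q hq _)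
          (hB' p hp) (hB' q hq) h4 h5)
    rw [ht_step] at h3
    exact h3
  -- saturation
  have hsat : ∀ j < J, ∀ H ∈ Ico H₁ H₂, ∀ n : ℕ, ∀ p ∈ I, ∀ P : Fin (r j n H) → ℝ[X],
      (∀ i, (P i).natDegree ≤ d) →
      ((∀ i, t (j + 1) * ((H / p : ℕ) : ℝ) ≤ ‖W f (dil p (P i)) (n / p) (H / p)‖) ∧
        ∀ i i', i ≠ i' → ¬ Rel d (KK (j + 1)) (H / p) ((p : ℝ) ^ d * (P i).coeff d) ((p : ℝ) ^ d * (P i').coeff d)) →
      r j n H ≤ r (j + 1) (n / p) (H / p) ∧ (r (j + 1) (n / p) (H / p) = r j n H → ∀ Q : ℝ[X], Q.natDegree ≤ d →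
        t (j + 1) * ((H / p : ℕ) : ℝ) ≤ ‖W f Q (n / p) (H / p)‖ →
        ∃ i, Rel d (KK (j + 1)) (H / p) (Q.coeff d) ((p : ℝ) ^ d * (P i).coeff d)) := by
    intro j hj H hH n p hp P hPd hg
    have h1 := (hscale p hp H hH).1
    have h2 : r (j + 1) (n / p) (H / p) = rk d f (KK (j + 1)) (t (j + 1)) (n / p) (H / p) := by
      simp only [hr]; rw [if_pos (by omega : j + 1 ≤ J)]
    rw [h2]
    exact saturated h1 (hLR (j + 1) (by omega) (n / p) (H / p) h1) hPd hg.1 hg.2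
  -- pigeonhole
  obtain ⟨j, hj, hpig⟩ := hPIG I w hw0 hw1 J R H₁ H₂ N κ er r hJ1 hrR
    (fun j _ p hp => hDILr (fun n H => (r (j + 1) n H : ℝ)) (fun n H => ⟨Nat.cast_nonneg _, by
      have : (r (j + 1) n H : ℝ) ≤ R := by exact_mod_cast hrR (j + 1) n H
      linarith⟩) p hp)
    (fun j hj H hH n _ => by
      obtain ⟨P, hPd, hexc⟩ := hdata j hj H hH n
      refine le_trans (sum_le_sum_of_subset_of_nonneg ?_ fun p hp _ => hw0 p (mem_filter.1 hp).1) (hwsum _ κ₀ hexc)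
      intro p hp
      rw [mem_filter] at hp ⊢
      refine ⟨hp.1, fun hg => ?_⟩
      have := (hsat j hj H hH n p hp.1 P hPd hg).1
      omega)
  -- the indicator of the windows with a large sum at level j
  set g : ℕ → ℕ → ℕ → ℝ := fun j n H =>
    if ∃ P : ℝ[X], P.natDegree ≤ d ∧ ((P.coeff d : ℝ) : UnitAddCircle) ∈ E' ∧ t j * H ≤ ‖W f P n H‖ then 1 else 0 with hg
  have hg01 : ∀ j n H, 0 ≤ g j n H ∧ g j n H ≤ 1 := by
    intro j n H
    simp only [hg]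
    split_ifs <;> norm_num
  -- pointwise estimate
  have hpt : ∀ H ∈ Ico H₁ H₂, ∀ n ∈ Icc 1 N, ∑ p ∈ I, w p * g (j + 1) (n / p) (H / p) ≤
      ∑ p ∈ I, w p * (if r (j + 1) (n / p) (H / p) ≠ r j n H then 1 else 0) + (κ + R * c) := by
    intro H hH n _
    obtain ⟨P, hPd, hexc⟩ := hdata j hj H hH n
    set G : ℕ → Prop := fun p => (∀ i, t (j + 1) * ((H / p : ℕ) : ℝ) ≤ ‖W f (dil p (P i)) (n / p) (H / p)‖) ∧
        ∀ i i', i ≠ i' → ¬ Rel d (KK (j + 1)) (H / p) ((p : ℝ) ^ d * (P i).coeff d) ((p : ℝ) ^ d * (P i').coeff d) with hG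
    set Bd : Fin (r j n H) → ℕ → Prop := fun i p => ∃ β : ℝ, (β : UnitAddCircle) ∈ E' ∧ ∃ m : ℕ, 1 ≤ m ∧ m ≤ KK 0 ∧
      ∃ a : ℤ, |m * (β - (p : ℝ) ^ d * (P i).coeff d) - a| ≤ τ with hBd
    have h1 : ∀ p ∈ I, w p * g (j + 1) (n / p) (H / p) ≤
        w p * (if r (j + 1) (n / p) (H / p) ≠ r j n H then 1 else 0) + ((if ¬ G p then w p else 0) +
          ∑ i, if Bd i p then w p else 0) := by
      intro p hp
      have hwp := hw0 p hp
      have hn1 : (0 : ℝ) ≤ w p * (if r (j + 1) (n / p) (H / p) ≠ r j n H then 1 else 0) := by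
        refine mul_nonneg hwp ?_
        split_ifs <;> norm_num
      have hn2 : (0 : ℝ) ≤ if ¬ G p then w p else 0 := by
        split_ifs
        · exact le_rfl
        · exact hwp
      have hn3 : ∀ i, (0 : ℝ) ≤ if Bd i p then w p else 0 := by
        intro i
        split_ifs
        · exact hwp
        · exact le_rfl
      have hn4 : (0 : ℝ) ≤ ∑ i, if Bd i p then w p else 0 := sum_nonneg fun i _ => hn3 i
      by_cases hgp : ∃ Q : ℝ[X], Q.natDegree ≤ d ∧ ((Q.coeff d : ℝ) : UnitAddCircle) ∈ E' ∧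
          t (j + 1) * ((H / p : ℕ) : ℝ) ≤ ‖W f Q (n / p) (H / p)‖
      · have e1 : g (j + 1) (n / p) (H / p) = 1 := by
          simp only [hg]
          rw [if_pos hgp]
        rw [e1, mul_one]
        by_cases hne : r (j + 1) (n / p) (H / p) = r j n H
        · by_cases hGp : G p
          · obtain ⟨Q, hQd, hQE, hQt⟩ := hgp
            obtain ⟨i, m, hm1, hmK, a, ha⟩ := (hsat j hj H hH n p hp P hPd hGp).2 hne Q hQd hQt
            have h2 : Bd i p := by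
              refine ⟨Q.coeff d, hQE, m, hm1, hmK.trans (hKK_le _), a, ha.trans ?_⟩
              refine le_trans ?_ (hscale p hp H hH).2
              have : ((KK (j + 1) : ℕ) : ℝ) ≤ KK 0 := by exact_mod_cast hKK_le (j + 1)
              gcongr
            have h3 := single_le_sum (f := fun i => if Bd i p then w p else 0) (fun i _ => hn3 i) (mem_univ i)
            simp only [if_pos h2] at h3
            linarith
          · rw [if_pos hGp]
            linarith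
        · rw [if_pos hne, mul_one]
          linarith
      · have e1 : g (j + 1) (n / p) (H / p) = 0 := by
          simp only [hg]
          rw [if_neg hgp]
        rw [e1, mul_zero]
        linarith
    refine (sum_le_sum h1).trans ?_
    rw [sum_add_distrib, sum_add_distrib]
    have h2 : ∑ p ∈ I, (if ¬ G p then w p else 0) ≤ κ := by
      rw [← sum_filter]
      exact hwsum _ κ₀ hexc
    have h3 : ∑ p ∈ I, ∑ i, (if Bd i p then w p else 0) ≤ R * c := by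
      rw [sum_comm]
      calc ∑ i, ∑ p ∈ I, (if Bd i p then w p else 0) ≤ ∑ i : Fin (r j n H), c := by
            refine sum_le_sum fun i _ => ?_
            rw [← sum_filter]
            have h4 := hwsum _ _ (hEQ' ((P i).coeff d))
            rw [mul_div_assoc, div_self hL0.ne', mul_one] at h4
            exact h4
        _ = r j n H * c := by simp
        _ ≤ R * c := mul_le_mul_of_nonneg_right (by exact_mod_cast hrR j n H) hc0.le
    linarith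
  -- assembly
  have hs1 : MM H₁ H₂ N (g (j + 1)) ≤ ∑ p ∈ I, w p * MM H₁ H₂ N (fun n H => g (j + 1) (n / p) (H / p)) + er := by
    refine le_of_MM hw1 hw0 fun p hp => hDILr (fun n H => 1 - g (j + 1) n H) (fun n H => ?_) p hp
    have := hg01 (j + 1) n H
    have hR0 : (0 : ℝ) ≤ R := Nat.cast_nonneg _
    constructor <;> linarith [this.1, this.2]
  have hs2 : ∑ p ∈ I, w p * MM H₁ H₂ N (fun n H => g (j + 1) (n / p) (H / p)) ≤
      ∑ p ∈ I, w p * MM H₁ H₂ N (fun n H => if r (j + 1) (n / p) (H / p) ≠ r j n H then 1 else 0) +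
        (κ + R * c) * MM H₁ H₂ N (fun _ _ => 1) := by
    have h1 := MM_mono (H₁ := H₁) (H₂ := H₂) (N := N) (F := fun n H => ∑ p ∈ I, w p * g (j + 1) (n / p) (H / p))
      (G := fun n H => ∑ p ∈ I, w p * (if r (j + 1) (n / p) (H / p) ≠ r j n H then 1 else 0) + (κ + R * c)) hpt
    rw [MM_add, MM_const] at h1
    rw [MM_sum I H₁ H₂ N (fun p n H => w p * g (j + 1) (n / p) (H / p)),
      MM_sum I H₁ H₂ N (fun p n H => w p * (if r (j + 1) (n / p) (H / p) ≠ r j n H then 1 else 0))] at h1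
    simp only [MM_smul] at h1
    exact h1
  have hs3 : MM H₁ H₂ N (g 0) ≤ MM H₁ H₂ N (g (j + 1)) := by
    refine MM_mono fun H _ n _ => ?_
    simp only [hg]
    by_cases h : ∃ P : ℝ[X], P.natDegree ≤ d ∧ ((P.coeff d : ℝ) : UnitAddCircle) ∈ E' ∧ t 0 * H ≤ ‖W f P n H‖
    · rw [if_pos h, if_pos]
      obtain ⟨P, h1, h2, h3⟩ := h
      refine ⟨P, h1, h2, le_trans (mul_le_mul_of_nonneg_right ?_ (Nat.cast_nonneg _)) h3⟩
      have e1 : t 0 = ε := by simp [ht]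
      rw [e1]
      exact ht_mono _
    · rw [if_neg h]
      split_ifs <;> norm_num
  have hRc : (R : ℝ) * c ≤ ε / 8 := by
    rw [hc, mul_div_assoc', div_le_div_iff₀ (by positivity) (by norm_num)]
    have hR0 : (0 : ℝ) ≤ R := Nat.cast_nonneg _
    nlinarith
  have hfin : MM H₁ H₂ N (g 0) ≤ ε * (ℓ * hn) := by
    rw [hmass] at hpig hs2
    have hm0 : 0 < ℓ * hn := by positivity
    have h1 : (R / J + (R + 1) * κ) * (ℓ * hn) + (κ + R * c) * (ℓ * hn) ≤ (3 * ε / 8) * (ℓ * hn) := by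
      have h2 : (R : ℝ) / J + (R + 1) * κ + (κ + R * c) ≤ 3 * ε / 8 := by
        have h3 : ((R : ℝ) + 1) * κ + κ = (R + 2) * κ := by ring
        linarith
      nlinarith
    nlinarith
  -- some H
  by_contra hcon
  push Not at hcon
  have h1 : ε * (ℓ * hn) < MM H₁ H₂ N (g 0) := by
    unfold MM
    rw [hℓ, sum_mul, mul_sum]
    have hne : (Ico H₁ H₂).Nonempty := by
      rw [nonempty_Ico]
      by_contra h
      have h2 : Ico H₁ H₂ = ∅ := Ico_eq_empty_of_le (by omega)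
      rw [hℓ, h2, sum_empty] at hℓ0
      exact lt_irrefl _ hℓ0
    refine sum_lt_sum_of_nonempty hne fun H hH => ?_
    have h2 := hcon H hH
    have hH0 : (0 : ℝ) < H := by
      have := (mem_Ico.1 hH).1
      exact_mod_cast (by omega : 0 < H)
    have e1 : t 0 = ε := by simp [ht]
    have h3 : ε * (1 / (H : ℝ) * hn) = 1 / (H : ℝ) * (ε * hn) := by ring
    rw [h3]
    refine mul_lt_mul_of_pos_left ?_ (by positivity)
    simp only [hg, e1]
    exact h2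
  linarith

end Pool.Agent.T9h55.MD
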