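import Pool.Agent.Helper44K9.FU.Fin2
import Pool.Agent.T9h55.MD.Mone3
import Pool.Agent.T9h55.MD.Long

/-! Short intervals and linear phases with frequency in a compact set (helper55; adapted from
`Pool.Agent.Helper44K9.FU.Fin2`). -/

set_option autoImplicit false

namespace Pool.Agent.T9h55.MD

open Finset Polynomial MeasureTheory
open Pool.Agent.Helper44K9.FU
open Pool.Agent.H807R2.Dav (ee norm_ee)

open Pool.Agent.Helper44K9.FU.FL in
/-- from the doubly logarithmic averages to all scales -/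
theorem fin_core3 (hSUB : S_SUB) (d : ℕ) (ε : ℝ) (hε : 0 < ε) (E : Set UnitAddCircle) {f : ℕ → ℂ} (hf : Mul1 f)
    (hLS : ∃ X₀ : ℕ, ∀ X ≥ X₀, ∀ P : ℝ[X], P.natDegree ≤ d → ((P.coeff d : ℝ) : UnitAddCircle) ∈ E →
      ‖W f P 0 X‖ ≤ ε / 32 * X)
    (hM : ∃ H₁ H₂ N₀ : ℕ, 1 ≤ H₁ ∧ ∀ N ≥ N₀, ∃ H ∈ Ico H₁ H₂,
      ∑ n ∈ Icc 1 N, (1 / (n : ℝ)) * (wSup d E f n H / H) ≤ ε / 8 * ∑ n ∈ Icc 1 N, 1 / (n : ℝ)) :
    ∃ H₀ : ℕ, ∀ N H : ℕ, H₀ ≤ H → H ≤ N →
        ∑ n ∈ Icc 1 N, (1 / (n : ℝ)) * wSup d E f n H ≤ ε * H * Real.log N := by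
  obtain ⟨H₁, H₂, N₁, hH₁, hmain⟩ := hM
  set ε₂ : ℝ := ε / 32 with hε₂
  have hε₂0 : 0 < ε₂ := by positivity
  obtain ⟨X₀, hX₀⟩ := hLS
  obtain ⟨A, hA⟩ := exists_nat_ge (16 * (H₂ : ℝ) / ε)
  obtain ⟨A', hA'⟩ := exists_nat_ge ((X₀ : ℝ) / ε₂)
  obtain ⟨A'', hA''⟩ := exists_nat_ge (Real.exp (1 + 4 / ε))
  refine ⟨N₁ + X₀ + A + A' + A'' + H₂ + 1, fun N H hH hN => ?_⟩
  have hH0 : (0 : ℝ) < H := by exact_mod_cast (by omega : 0 < H)
  have hHA : 16 * (H₂ : ℝ) / ε ≤ H := hA.trans (by exact_mod_cast (by omega : A ≤ H))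
  have hHA' : (X₀ : ℝ) / ε₂ ≤ H := hA'.trans (by exact_mod_cast (by omega : A' ≤ H))
  have hHA'' : Real.exp (1 + 4 / ε) ≤ N := hA''.trans (by exact_mod_cast (by omega : A'' ≤ N))
  obtain ⟨H', hH', hsm⟩ := hmain N (by omega)
  rw [mem_Ico] at hH'
  have hH'0 : (0 : ℝ) < H' := by exact_mod_cast (by omega : 0 < H')
  set hn : ℝ := ∑ n ∈ Icc 1 N, 1 / (n : ℝ) with hhn
  have hn0 : 0 ≤ hn := sum_nonneg fun _ _ => by positivity
  have hlog : hn ≤ 1 + Real.log N := by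
    have h1 := harmonic_le_one_add_log N
    refine le_trans (le_of_eq ?_) h1
    rw [harmonic_eq_sum_Icc]
    push_cast
    exact sum_congr rfl fun x _ => one_div _
  have hlogN : 1 + 4 / ε ≤ Real.log N := by
    rw [Real.le_log_iff_exp_le (lt_of_lt_of_le (Real.exp_pos _) hHA'')]
    exact hHA''
  -- normalized suprema
  set s : ℕ → ℕ → ℝ := fun H n => wSup d E f n H / H with hs
  have hs01 : ∀ H n, 0 ≤ s H n ∧ s H n ≤ 1 := by
    intro H n
    simp only [hs]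
    refine ⟨div_nonneg (wSup_nonneg n H) (Nat.cast_nonneg _), ?_⟩
    refine div_le_one_of_le₀ (wSup_le (Nat.cast_nonneg _) fun P _ _ => W_le hf.1 P n H) (Nat.cast_nonneg _)
  -- large n
  have hlarge : ∑ n ∈ Ioc (1 * H) N, (1 / (n : ℝ)) * s H n ≤
      (1 + 1 / ((1 : ℕ) : ℝ)) * (∑ n ∈ Icc 1 N, (1 / (n : ℝ)) * s H' n + 1) + ε / 8 * hn := by
    refine hSUB (s H) (s H') 1 H N (ε / 8) (fun n => hs01 H' n) le_rfl (by omega) (by omega) (by positivity) fun n => ?_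
    have h2 : ∀ P : ℝ[X], P.natDegree ≤ d → ((P.coeff d : ℝ) : UnitAddCircle) ∈ E →
        ‖W f P n H‖ ≤ ∑ i ∈ range H, s H' (n + i) + 2 * H' := by
      intro P hP hPE
      have h3 := sub_window hf.1 P n H H'
      have h4 : ∑ i ∈ range H, ‖W f P (n + i) H'‖ ≤ H' * ∑ i ∈ range H, s H' (n + i) := by
        rw [mul_sum]
        refine sum_le_sum fun i _ => ?_
        simp only [hs]
        rw [mul_div_cancel₀ _ hH'0.ne']
        exact le_wSup hf.1 (n + i) H' hP hPE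
      have h5 : (H' : ℝ) * ‖W f P n H‖ ≤ H' * (∑ i ∈ range H, s H' (n + i) + 2 * H') := by
        refine h3.trans ?_
        rw [mul_add]
        nlinarith
      exact le_of_mul_le_mul_left h5 hH'0
    have h6 : wSup d E f n H ≤ ∑ i ∈ range H, s H' (n + i) + 2 * H' :=
      wSup_le (add_nonneg (sum_nonneg fun i _ => (hs01 H' (n + i)).1) (by positivity)) h2
    show wSup d E f n H / H ≤ _
    rw [div_le_iff₀ hH0, add_mul, mul_comm (1 / (H : ℝ)), mul_assoc, one_div_mul_cancel hH0.ne', mul_one]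
    refine h6.trans (add_le_add le_rfl ?_)
    have h7 : (H' : ℝ) ≤ H₂ := by exact_mod_cast hH'.2.le
    rw [div_le_iff₀ hε] at hHA
    linarith
  -- small n
  have hsmalln : ∑ n ∈ Icc 1 H, (1 / (n : ℝ)) * s H n ≤ ε / 8 * hn := by
    have h1 : ∀ n ∈ Icc 1 H, s H n ≤ ε / 8 := by
      intro n hn'
      rw [mem_Icc] at hn'
      simp only [hs]
      rw [div_le_iff₀ hH0]
      refine wSup_le (by positivity) fun P hP hPE => ?_
      have h2 : W f P n H = W f P 0 (n + H) - W f P 0 n := by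
        unfold W
        rw [Nat.zero_add, Nat.zero_add, eq_sub_iff_add_eq, add_comm]
        rw [← sum_union]
        · congr 1
          ext m; simp only [mem_union, mem_Ioc]; omega
        · rw [Finset.disjoint_left]
          intro m hm hm'
          rw [mem_Ioc] at hm hm'
          omega
      have h3 : ‖W f P 0 (n + H)‖ ≤ ε₂ * ((n + H : ℕ) : ℝ) := hX₀ (n + H) (by omega) P hP hPE
      have h4 : ‖W f P 0 n‖ ≤ ε₂ * H := by
        by_cases hn2 : X₀ ≤ n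
        · refine (hX₀ n hn2 P hP hPE).trans ?_
          have : (n : ℝ) ≤ H := by exact_mod_cast hn'.2
          exact mul_le_mul_of_nonneg_left this hε₂0.le
        · push Not at hn2
          refine (W_le hf.1 P 0 n).trans ?_
          rw [div_le_iff₀ hε₂0] at hHA'
          have : (n : ℝ) ≤ X₀ := by exact_mod_cast hn2.le
          linarith
      rw [h2]
      refine (norm_sub_le _ _).trans ?_
      push_cast at h3
      have h5 : (n : ℝ) ≤ H := by exact_mod_cast hn'.2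
      have h6 : ε₂ * ((n : ℝ) + H) ≤ ε₂ * (2 * H) := mul_le_mul_of_nonneg_left (by linarith) hε₂0.le
      rw [hε₂] at h3 h4 h6
      nlinarith
    calc ∑ n ∈ Icc 1 H, (1 / (n : ℝ)) * s H n ≤ ∑ n ∈ Icc 1 H, (1 / (n : ℝ)) * (ε / 8) :=
          sum_le_sum fun n hn' => mul_le_mul_of_nonneg_left (h1 n hn') (by positivity)
      _ = ε / 8 * ∑ n ∈ Icc 1 H, 1 / (n : ℝ) := by rw [← sum_mul]; ring
      _ ≤ ε / 8 * hn := by
          refine mul_le_mul_of_nonneg_left ?_ (by positivity)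
          exact sum_le_sum_of_subset_of_nonneg (Icc_subset_Icc_right hN) fun _ _ _ => by positivity
  -- total
  have htot : ∑ n ∈ Icc 1 N, (1 / (n : ℝ)) * wSup d E f n H = H * (∑ n ∈ Icc 1 H, (1 / (n : ℝ)) * s H n +
      ∑ n ∈ Ioc (1 * H) N, (1 / (n : ℝ)) * s H n) := by
    rw [one_mul, ← sum_union]
    · rw [mul_sum]
      have h1 : Icc 1 H ∪ Ioc H N = Icc 1 N := by
        ext m; simp only [mem_union, mem_Icc, mem_Ioc]; omega
      rw [h1]
      refine sum_congr rfl fun n _ => ?_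
      simp only [hs]
      field_simp
    · rw [Finset.disjoint_left]
      intro m hm hm'
      rw [mem_Icc] at hm
      rw [mem_Ioc] at hm'
      omega
  rw [htot]
  have h9 : ∑ n ∈ Icc 1 H, (1 / (n : ℝ)) * s H n + ∑ n ∈ Ioc (1 * H) N, (1 / (n : ℝ)) * s H n ≤
      ε * Real.log N := by
    have h10 : (1 + 1 / ((1 : ℕ) : ℝ)) * (∑ n ∈ Icc 1 N, (1 / (n : ℝ)) * s H' n + 1) ≤ ε / 4 * hn + 2 := by
      rw [show (1 + 1 / ((1 : ℕ) : ℝ)) = 2 by norm_num]
      linarith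
    have h11 : ε / 4 * hn + 2 + ε / 8 * hn + ε / 8 * hn ≤ ε * Real.log N := by
      have h12 : ε / 4 * hn + 2 + ε / 8 * hn + ε / 8 * hn = ε / 2 * hn + 2 := by ring
      rw [h12]
      have h13 : ε / 2 * hn ≤ ε / 2 * (1 + Real.log N) := mul_le_mul_of_nonneg_left hlog (by positivity)
      have h14 : ε / 2 * (1 + 4 / ε) ≤ ε / 2 * Real.log N := mul_le_mul_of_nonneg_left hlogN (by positivity)
      have h15 : ε / 2 * (1 + 4 / ε) = ε / 2 + 2 := by field_simp; ring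
      linarith
    linarith
  calc (H : ℝ) * _ ≤ H * (ε * Real.log N) := mul_le_mul_of_nonneg_left h9 hH0.le
    _ = ε * H * Real.log N := by ring



/-- the points of `E` near the rational points of denominator at most `Q` -/
def nearSet (Q : ℕ) (κ : ℝ) (E : Set UnitAddCircle) : Set UnitAddCircle :=
  {x | x ∈ E ∧ ∃ q : ℕ, 1 ≤ q ∧ q ≤ Q ∧ ‖q • x‖ < κ}

lemma norm_nsmul (q : ℕ) (β : ℝ) : ‖q • (β : UnitAddCircle)‖ = |q * β - round (q * β)| := by
  rw [← AddCircle.coe_nsmul, nsmul_eq_mul, UnitAddCircle.norm_eq]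

lemma far_sdiff (Q : ℕ) (κ : ℝ) (E : Set UnitAddCircle) : Far Q κ (E \ nearSet Q κ E) := by
  intro β hβ q hq1 hqQ a
  by_contra hcon
  push Not at hcon
  apply hβ.2
  refine ⟨hβ.1, q, hq1, hqQ, ?_⟩
  rw [norm_nsmul]
  exact (round_le _ a).trans_lt hcon

lemma wSup_split {d : ℕ} {E E₁ E₂ : Set UnitAddCircle} (h : E ⊆ E₁ ∪ E₂) {f : ℕ → ℂ} (hf : ∀ n, ‖f n‖ ≤ 1) (n H : ℕ) :
    wSup d E f n H ≤ wSup d E₁ f n H + wSup d E₂ f n H := by
  refine FL.wSup_le (add_nonneg (FL.wSup_nonneg n H) (FL.wSup_nonneg n H)) fun P hP hPE => ?_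
  rcases h hPE with h1 | h1
  · have := FL.le_wSup hf n H hP h1
    have h2 := FL.wSup_nonneg (d := d) (E := E₂) (f := f) n H
    linarith
  · have := FL.le_wSup hf n H hP h1
    have h2 := FL.wSup_nonneg (d := d) (E := E₁) (f := f) n H
    linarith

lemma log_le_hn (N : ℕ) : Real.log N ≤ ∑ n ∈ Icc 1 N, 1 / (n : ℝ) := by
  have h2 := log_add_one_le_harmonic N
  have h3 : ∑ n ∈ Icc 1 N, 1 / (n : ℝ) = ((harmonic N : ℚ) : ℝ) := by
    rw [harmonic_eq_sum_Icc]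
    push_cast
    exact sum_congr rfl fun n _ => one_div _
  rw [h3]
  refine le_trans ?_ h2
  rcases Nat.eq_zero_or_pos N with h | h
  · subst h; simp
  · apply Real.log_le_log (by exact_mod_cast h)
    push_cast
    linarith

/-- **the scale for the frequencies near the rational points** -/
theorem near_scale {f : ℕ → ℂ} (hf : Mul1 f) {E : Set UnitAddCircle} (hE : IsCompact E) (hR : ShortRat f E) (Q : ℕ)
    (ε : ℝ) (hε : 0 < ε) : ∃ κ : ℝ, 0 < κ ∧ ∃ M : ℕ, 1 ≤ M ∧ ∀ N ≥ M,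
      ∑ n ∈ Icc 1 N, (1 / (n : ℝ)) * (wSup 1 (nearSet Q κ E) f n M / M) ≤ ε * ∑ n ∈ Icc 1 N, 1 / (n : ℝ) := by
  classical
  have hpi := Real.pi_pos
  set ε' : ℝ := ε / (2 * ((Q : ℝ) + 1) ^ 2) with hε'
  have hε'0 : 0 < ε' := by positivity
  have hone : ∀ r ∈ range (Q + 1) ×ˢ range (Q + 1), ∃ (Y₀ : ℕ) (δ : ℝ), 0 < δ ∧ (1 ≤ r.2 →
      ((((r.1 : ℝ) / r.2 : ℝ) : UnitAddCircle) ∈ E → ∀ N H : ℕ, Y₀ ≤ H → H ≤ N →
        ∑ n ∈ Icc 1 N, (1 / (n : ℝ)) * ‖W f (lin ((r.1 : ℝ) / r.2)) n H‖ ≤ ε' * H * Real.log N) ∧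
      ((((r.1 : ℝ) / r.2 : ℝ) : UnitAddCircle) ∉ E → ∀ (β : ℝ) (k : ℤ), (β : UnitAddCircle) ∈ E →
        δ ≤ |β - (r.1 : ℝ) / r.2 - k|)) := by
    rintro ⟨b, q⟩ _
    by_cases hq : 1 ≤ q
    swap
    · exact ⟨0, 1, one_pos, fun h => absurd h hq⟩
    by_cases hbE : (((b : ℝ) / q : ℝ) : UnitAddCircle) ∈ E
    · obtain ⟨Y₀, hY₀⟩ := hR b q hq hbE ε' hε'0
      exact ⟨Y₀, 1, one_pos, fun _ => ⟨fun _ => hY₀, fun h => absurd hbE h⟩⟩
    · have hop : IsOpen (Eᶜ) := hE.isClosed.isOpen_compl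
      obtain ⟨δ, hδ, hδ2⟩ := Metric.isOpen_iff.1 hop _ hbE
      refine ⟨0, δ, hδ, fun _ => ⟨fun h => absurd h hbE, fun _ β k hβ => ?_⟩⟩
      by_contra hcon
      push Not at hcon
      have h1 : (β : UnitAddCircle) ∈ Metric.ball (((b : ℝ) / q : ℝ) : UnitAddCircle) δ := by
        rw [Metric.mem_ball, dist_eq_norm, ← AddCircle.coe_sub, UnitAddCircle.norm_eq]
        exact (round_le _ k).trans_lt hcon
      exact hδ2 h1 hβ
  choose! Y₀ δ hδ hone2 using hone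
  obtain ⟨M, hM1, hM⟩ : ∃ M : ℕ, 1 ≤ M ∧ ∀ r ∈ range (Q + 1) ×ˢ range (Q + 1), Y₀ r ≤ M :=
    ⟨∑ r ∈ range (Q + 1) ×ˢ range (Q + 1), Y₀ r + 1, by omega, fun r hr =>
      (single_le_sum (fun _ _ => Nat.zero_le _) hr).trans (Nat.le_succ _)⟩
  obtain ⟨D, hD0, hD⟩ : ∃ D : ℝ, 0 ≤ D ∧ ∀ r ∈ range (Q + 1) ×ˢ range (Q + 1), 1 / δ r ≤ D := by
    refine ⟨∑ r ∈ range (Q + 1) ×ˢ range (Q + 1), |1 / δ r|, sum_nonneg fun _ _ => abs_nonneg _, fun r hr => ?_⟩
    have h1 := single_le_sum (f := fun r => |1 / δ r|) (fun _ _ => abs_nonneg _) hr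
    exact (le_abs_self _).trans h1
  have hMr : (1 : ℝ) ≤ M := by exact_mod_cast hM1
  set κ : ℝ := 1 / (D + 4 * Real.pi * M / ε + 1) with hκ
  have hκ0 : 0 < κ := by positivity
  have hκD : κ * D < 1 := by
    rw [hκ, div_mul_eq_mul_div, one_mul, div_lt_one (by positivity)]
    have : 0 ≤ 4 * Real.pi * M / ε := by positivity
    linarith
  have hκM : 2 * Real.pi * κ * M ≤ ε / 2 := by
    have h1 : κ * (4 * Real.pi * M / ε) ≤ 1 := by
      rw [hκ, div_mul_eq_mul_div, one_mul, div_le_one (by positivity)]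
      linarith
    have h2 : κ * (4 * Real.pi * M / ε) = (2 * Real.pi * κ * M) * 2 / ε := by ring
    rw [h2, div_le_one hε] at h1
    linarith
  refine ⟨κ, hκ0, M, hM1, fun N hN => ?_⟩
  have hM0 : (0 : ℝ) < M := by linarith
  set hn : ℝ := ∑ n ∈ Icc 1 N, 1 / (n : ℝ) with hhn
  set S : Finset (ℕ × ℕ) := (range (Q + 1) ×ˢ range (Q + 1)).filter
    (fun r => 1 ≤ r.2 ∧ (((r.1 : ℝ) / r.2 : ℝ) : UnitAddCircle) ∈ E) with hS
  have hpt : ∀ n, wSup 1 (nearSet Q κ E) f n M ≤ ∑ r ∈ S, ‖W f (lin ((r.1 : ℝ) / r.2)) n M‖ +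
      2 * Real.pi * κ * (M : ℝ) ^ 2 := by
    intro n
    have hnn : (0 : ℝ) ≤ ∑ r ∈ S, ‖W f (lin ((r.1 : ℝ) / r.2)) n M‖ := sum_nonneg fun _ _ => norm_nonneg _
    refine FL.wSup_le (by positivity) fun P hP hPE => ?_
    obtain ⟨hPE1, q, hq1, hqQ, hq⟩ := hPE
    rw [norm_nsmul] at hq
    obtain ⟨b, hbq, k, hk⟩ := red hq1 hq.le
    have hmem : (b, q) ∈ range (Q + 1) ×ˢ range (Q + 1) := by
      rw [mem_product, mem_range, mem_range]; constructor <;> simp only <;> omega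
    obtain ⟨h1, h2⟩ := hone2 (b, q) hmem hq1
    have hbE : (((b : ℝ) / q : ℝ) : UnitAddCircle) ∈ E := by
      by_contra hbE
      have h3 := h2 hbE (P.coeff 1) k hPE1
      have h4 := hD (b, q) hmem
      have h5 := hδ (b, q) hmem
      rw [div_le_iff₀ h5] at h4
      have h6 : δ (b, q) ≤ κ := h3.trans hk
      have h7 : D * δ (b, q) ≤ D * κ := mul_le_mul_of_nonneg_left h6 hD0
      linarith
    have hS1 : (b, q) ∈ S := by rw [hS, mem_filter]; exact ⟨hmem, hq1, hbE⟩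
    have h3 := near_W hf.1 hP hk n M
    have h4 := single_le_sum (f := fun r : ℕ × ℕ => ‖W f (lin ((r.1 : ℝ) / r.2)) n M‖) (fun _ _ => norm_nonneg _) hS1
    simp only at h4
    linarith
  have hlogN : Real.log N ≤ hn := log_le_hn N
  have hlog0 : 0 ≤ Real.log N := Real.log_natCast_nonneg N
  calc ∑ n ∈ Icc 1 N, (1 / (n : ℝ)) * (wSup 1 (nearSet Q κ E) f n M / M) ≤
      ∑ n ∈ Icc 1 N, (1 / (n : ℝ)) * ((∑ r ∈ S, ‖W f (lin ((r.1 : ℝ) / r.2)) n M‖ +
      2 * Real.pi * κ * (M : ℝ) ^ 2) / M) := by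
        refine sum_le_sum fun n _ => mul_le_mul_of_nonneg_left ?_ (by positivity)
        exact div_le_div_of_nonneg_right (hpt n) hM0.le
    _ = (∑ r ∈ S, ∑ n ∈ Icc 1 N, (1 / (n : ℝ)) * ‖W f (lin ((r.1 : ℝ) / r.2)) n M‖) / M +
        (2 * Real.pi * κ * M) * hn := by
        rw [sum_comm, hhn, mul_sum, sum_div, ← sum_add_distrib]
        refine sum_congr rfl fun n _ => ?_
        rw [← mul_sum]
        field_simp
    _ ≤ (∑ r ∈ S, ε' * M * Real.log N) / M + ε / 2 * hn := by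
        refine add_le_add (div_le_div_of_nonneg_right (sum_le_sum fun r hr => ?_) hM0.le)
          (mul_le_mul_of_nonneg_right hκM (hlog0.trans hlogN))
        rw [hS, mem_filter] at hr
        exact (hone2 r hr.1 hr.2.1).1 hr.2.2 N M (hM r hr.1) hN
    _ ≤ ε / 2 * hn + ε / 2 * hn := by
        refine add_le_add ?_ le_rfl
        rw [sum_const, nsmul_eq_mul]
        have h1 : (#S : ℝ) ≤ ((Q : ℝ) + 1) ^ 2 := by
          have h2 : #S ≤ (Q + 1) * (Q + 1) := by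
            refine (card_filter_le _ _).trans (le_of_eq ?_)
            rw [card_product, card_range]
          have h3 : (#S : ℝ) ≤ (((Q + 1) * (Q + 1) : ℕ) : ℝ) := by exact_mod_cast h2
          push_cast at h3
          rw [sq]; exact h3
        have h4 : (#S : ℝ) * (ε' * M * Real.log N) / M = #S * ε' * Real.log N := by field_simp
        rw [h4]
        have h5 : (#S : ℝ) * ε' ≤ ε / 2 := by
          calc (#S : ℝ) * ε' ≤ ((Q : ℝ) + 1) ^ 2 * ε' := mul_le_mul_of_nonneg_right h1 hε'0.le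
            _ = ε / 2 := by rw [hε']; field_simp
        calc (#S : ℝ) * ε' * Real.log N ≤ ε / 2 * Real.log N := mul_le_mul_of_nonneg_right h5 hlog0
          _ ≤ ε / 2 * hn := mul_le_mul_of_nonneg_left hlogN (by positivity)
    _ = ε * hn := by ring

open Pool.Agent.Helper44K9.FU.FL in
/-- **linear phases with frequency in a compact set** -/
theorem fin3 (hBES : S_BES2) (hPUSH : S_PUSH) (hNR : S_NR2) (hEQ : S_EQ3) (hDIL : S_DIL) (hPIG : S_PIG)
    (hSUB : S_SUB) (hWR : S_WR) (hTK : S_TK) :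
    ∃ A : ℕ, 1 ≤ A ∧ ∀ f : ℕ → ℂ, Mul1 f → ∀ E : Set UnitAddCircle, IsCompact E → ShortRat f E →
      ∀ ε : ℝ, 0 < ε → ∃ H₀ : ℕ, ∀ N H : ℕ, H₀ ≤ H → H ≤ N →
        ∑ n ∈ Icc 1 N, (1 / (n : ℝ)) * wSup 1 E f n H ≤
          (A * (volume E).toReal ^ (1 / (A : ℝ)) + ε) * H * Real.log N := by
  classical
  obtain ⟨A₀, hA₀, hM⟩ := mone3 hBES hPUSH hNR hEQ hDIL hPIG 1 le_rfl
  refine ⟨32 * A₀, by omega, fun f hf E hEc hR ε hε => ?_⟩
  set v : ℝ := (volume E).toReal with hv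
  have hv0 : 0 ≤ v := ENNReal.toReal_nonneg
  have hvE : volume E = ENNReal.ofReal v := by
    rw [hv, ENNReal.ofReal_toReal]
    exact ne_top_of_le_ne_top (measure_ne_top volume Set.univ) (measure_mono (Set.subset_univ E))
  have hv1 : v ≤ 1 := by
    rw [hv]
    have h1 : volume E ≤ 1 := by
      refine (measure_mono (Set.subset_univ E)).trans (le_of_eq ?_)
      exact UnitAddCircle.measure_univ
    exact ENNReal.toReal_le_of_le_ofReal zero_le_one (by simpa using h1)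
  have hA₀r : (1 : ℝ) ≤ A₀ := by exact_mod_cast hA₀
  have hApos : (0 : ℝ) < A₀ := by linarith
  -- any T with small measure
  have hT : ∀ T : ℕ, 1 ≤ T → v ≤ 1 / (A₀ * (T : ℝ) ^ A₀) → ∀ ε : ℝ, 0 < ε → ∃ H₀ : ℕ,
      ∀ N H : ℕ, H₀ ≤ H → H ≤ N → ∑ n ∈ Icc 1 N, (1 / (n : ℝ)) * wSup 1 E f n H ≤ (16 / T + ε) * H * Real.log N := by
    intro T hT1 hTv ε hε
    have hTr : (0 : ℝ) < T := by exact_mod_cast hT1
    obtain ⟨Q₁, hQ₁⟩ := hM T (1 / T) hT1 rfl E hEc (by rw [hvE]; exact ENNReal.ofReal_le_ofReal hTv)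
    obtain ⟨κ, hκ, M, hM1, hMN⟩ := near_scale hf hEc hR Q₁ (ε / 8) (by positivity)
    obtain ⟨H₁, h₁⟩ := fin_core3 hSUB 1 ε hε (nearSet Q₁ κ E) hf (by
      obtain ⟨X₀, hX₀⟩ := long_all hWR hTK hf hEc hR (ε / 32) (by positivity)
      exact ⟨X₀, fun X hX P hP hPE => hX₀ X hX P hP hPE.1⟩)
      ⟨M, M + 1, M, hM1, fun N hN => ⟨M, by simp, hMN N hN⟩⟩
    obtain ⟨H₂, h₂⟩ := fin_core3 hSUB 1 (16 / T) (by positivity) (E \ nearSet Q₁ κ E) hf (by
      obtain ⟨X₀, hX₀⟩ := long_all hWR hTK hf hEc hR ((16 / T) / 32) (by positivity)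
      exact ⟨X₀, fun X hX P hP hPE => hX₀ X hX P hP hPE.1⟩) (by
      obtain ⟨K₁, K₂, N₀, hK₁, hK⟩ := hQ₁ (E \ nearSet Q₁ κ E) κ Set.diff_subset hκ (far_sdiff Q₁ κ E)
      refine ⟨K₁, K₂, N₀, hK₁, fun N hN => ?_⟩
      obtain ⟨H, hH, hsum⟩ := hK N hN f hf
      refine ⟨H, hH, ?_⟩
      rw [mem_Ico] at hH
      have hH0 : (0 : ℝ) < H := by exact_mod_cast (by omega : 0 < H)
      have h1 : ∀ n, wSup 1 (E \ nearSet Q₁ κ E) f n H / H ≤ (if ∃ P : ℝ[X], P.natDegree ≤ 1 ∧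
          ((P.coeff 1 : ℝ) : UnitAddCircle) ∈ E \ nearSet Q₁ κ E ∧ 1 / T * H ≤ ‖W f P n H‖ then 1 else 0) + 1 / T := by
        intro n
        split_ifs with h
        · have h2 : wSup 1 (E \ nearSet Q₁ κ E) f n H / H ≤ 1 :=
            div_le_one_of_le₀ (wSup_le (Nat.cast_nonneg _) fun P _ _ => W_le hf.1 P n H) (Nat.cast_nonneg _)
          have : (0 : ℝ) ≤ 1 / T := by positivity
          linarith
        · push Not at h
          rw [zero_add, div_le_iff₀ hH0]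
          exact wSup_le (by positivity) fun P hP hPE => (h P hP hPE).le
      calc ∑ n ∈ Icc 1 N, (1 / (n : ℝ)) * (wSup 1 (E \ nearSet Q₁ κ E) f n H / H) ≤ ∑ n ∈ Icc 1 N, (1 / (n : ℝ)) *
          ((if ∃ P : ℝ[X], P.natDegree ≤ 1 ∧
          ((P.coeff 1 : ℝ) : UnitAddCircle) ∈ E \ nearSet Q₁ κ E ∧ 1 / T * H ≤ ‖W f P n H‖ then 1 else 0) + 1 / T) :=
            sum_le_sum fun n _ => mul_le_mul_of_nonneg_left (h1 n) (by positivity)
        _ = ∑ n ∈ Icc 1 N, (1 / (n : ℝ)) *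
          (if ∃ P : ℝ[X], P.natDegree ≤ 1 ∧
          ((P.coeff 1 : ℝ) : UnitAddCircle) ∈ E \ nearSet Q₁ κ E ∧ 1 / T * H ≤ ‖W f P n H‖ then 1 else 0) +
            (∑ n ∈ Icc 1 N, (1 / (n : ℝ))) * (1 / T) := by
            simp only [mul_add]
            rw [sum_add_distrib, sum_mul]
        _ ≤ 1 / T * ∑ n ∈ Icc 1 N, 1 / (n : ℝ) + (∑ n ∈ Icc 1 N, (1 / (n : ℝ))) * (1 / T) :=
            add_le_add hsum le_rfl
        _ = (16 / T) / 8 * ∑ n ∈ Icc 1 N, 1 / (n : ℝ) := by ring)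
    refine ⟨H₁ + H₂, fun N H hH hN => ?_⟩
    have e1 := h₁ N H (by omega) hN
    have e2 := h₂ N H (by omega) hN
    calc ∑ n ∈ Icc 1 N, (1 / (n : ℝ)) * wSup 1 E f n H ≤ ∑ n ∈ Icc 1 N, ((1 / (n : ℝ)) *
        wSup 1 (nearSet Q₁ κ E) f n H + (1 / (n : ℝ)) * wSup 1 (E \ nearSet Q₁ κ E) f n H) := by
          refine sum_le_sum fun n _ => ?_
          rw [← mul_add]
          refine mul_le_mul_of_nonneg_left (wSup_split ?_ hf.1 n H) (by positivity)
          intro x hx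
          by_cases hx' : x ∈ nearSet Q₁ κ E
          · exact Or.inl hx'
          · exact Or.inr ⟨hx, hx'⟩
      _ ≤ ε * H * Real.log N + 16 / T * H * Real.log N := by
          rw [sum_add_distrib]; exact add_le_add e1 e2
      _ = _ := by ring
  have hweak : ∀ (x y : ℝ), x ≤ y → (∃ H₀ : ℕ,
      ∀ N H : ℕ, H₀ ≤ H → H ≤ N → ∑ n ∈ Icc 1 N, (1 / (n : ℝ)) * wSup 1 E f n H ≤ x * H * Real.log N) →
      ∃ H₀ : ℕ,
      ∀ N H : ℕ, H₀ ≤ H → H ≤ N → ∑ n ∈ Icc 1 N, (1 / (n : ℝ)) * wSup 1 E f n H ≤ y * H * Real.log N := by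
    rintro x y hxy ⟨H₀, h⟩
    refine ⟨H₀ + 1, fun N H hH hN => (h N H (by omega) hN).trans ?_⟩
    have h1 : (0 : ℝ) ≤ H := Nat.cast_nonneg _
    have h2 : 0 ≤ Real.log N := Real.log_natCast_nonneg N
    gcongr
  rcases hv0.eq_or_lt with hz | hpos
  · -- measure zero
    obtain ⟨T, hT'⟩ := exists_nat_ge (16 / (ε / 2))
    refine hweak (16 / ((T + 1 : ℕ) : ℝ) + ε / 2) _ ?_ (hT (T + 1) (by omega) (by rw [← hz]; positivity) (ε / 2)
      (by positivity))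
    have h1 : 16 / ((T + 1 : ℕ) : ℝ) ≤ ε / 2 := by
      rw [div_le_iff₀ (by positivity)]
      rw [div_le_iff₀ (by positivity)] at hT'
      push_cast
      nlinarith
    have h2 : (0 : ℝ) ≤ ((32 * A₀ : ℕ) : ℝ) * v ^ (1 / ((32 * A₀ : ℕ) : ℝ)) := by positivity
    linarith
  -- positive measure
  have hroot : v ^ (1 / (A₀ : ℝ)) ≤ v ^ (1 / ((32 * A₀ : ℕ) : ℝ)) := by
    apply Real.rpow_le_rpow_of_exponent_ge hpos hv1
    push_cast
    apply one_div_le_one_div_of_le hApos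
    linarith
  by_cases hbig : A₀ * v ≤ 1
  · -- the largest T
    set x : ℝ := (1 / (A₀ * v)) ^ (1 / (A₀ : ℝ)) with hx
    have hx1 : 1 ≤ x := by
      rw [hx]
      apply Real.one_le_rpow
      · rw [le_div_iff₀ (by positivity)]
        linarith
      · positivity
    set T : ℕ := ⌊x⌋₊ with hTdef
    have hT1 : 1 ≤ T := Nat.le_floor (by exact_mod_cast hx1)
    have hTx : (T : ℝ) ≤ x := Nat.floor_le (by linarith)
    have hTr : (0 : ℝ) < T := by exact_mod_cast hT1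
    have hxT : x ≤ 2 * T := by
      have h1 := Nat.lt_floor_add_one x
      have h2 : (1 : ℝ) ≤ T := by exact_mod_cast hT1
      rw [← hTdef] at h1
      linarith
    have hxA : x ^ A₀ = 1 / (A₀ * v) := by
      rw [hx, ← Real.rpow_natCast, ← Real.rpow_mul (by positivity), one_div_mul_cancel hApos.ne', Real.rpow_one]
    have hTv : v ≤ 1 / (A₀ * (T : ℝ) ^ A₀) := by
      rw [le_div_iff₀ (by positivity)]
      have h1 : (T : ℝ) ^ A₀ ≤ x ^ A₀ := pow_le_pow_left₀ hTr.le hTx _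
      rw [hxA, le_div_iff₀ (by positivity)] at h1
      linarith
    refine hweak (16 / T + ε) _ ?_ (hT T hT1 hTv ε hε)
    have h1 : 16 / (T : ℝ) ≤ 32 / x := by
      rw [div_le_div_iff₀ hTr (by linarith)]
      linarith
    have h2 : 1 / x = (A₀ * v) ^ (1 / (A₀ : ℝ)) := by
      rw [hx, Real.div_rpow zero_le_one (by positivity), Real.one_rpow, one_div_one_div]
    have h3 : (A₀ * v) ^ (1 / (A₀ : ℝ)) ≤ A₀ * v ^ (1 / (A₀ : ℝ)) := by
      rw [Real.mul_rpow hApos.le hv0]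
      refine mul_le_mul_of_nonneg_right ?_ (by positivity)
      calc (A₀ : ℝ) ^ (1 / (A₀ : ℝ)) ≤ (A₀ : ℝ) ^ (1 : ℝ) := by
            apply Real.rpow_le_rpow_of_exponent_le hA₀r
            rw [div_le_one hApos]; exact hA₀r
        _ = A₀ := Real.rpow_one _
    have h4 : 32 / x = 32 * (1 / x) := by ring
    have h5 : (A₀ : ℝ) * v ^ (1 / (A₀ : ℝ)) ≤ A₀ * v ^ (1 / ((32 * A₀ : ℕ) : ℝ)) :=
      mul_le_mul_of_nonneg_left hroot hApos.le
    rw [h4, h2] at h1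
    push_cast at h5 ⊢
    linarith
  · -- trivial bound
    push Not at hbig
    refine ⟨3, fun N H hH hN => ?_⟩
    have hNr : (3 : ℝ) ≤ N := by exact_mod_cast hH.trans hN
    have hlog : 1 ≤ Real.log N := by
      rw [Real.le_log_iff_exp_le (by linarith)]
      linarith [Real.exp_one_lt_d9]
    have h1 : ∑ n ∈ Icc 1 N, (1 / (n : ℝ)) * wSup 1 E f n H ≤ (1 + Real.log N) * H := by
      calc ∑ n ∈ Icc 1 N, (1 / (n : ℝ)) * wSup 1 E f n H ≤ ∑ n ∈ Icc 1 N, (1 / (n : ℝ)) * H :=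
            sum_le_sum fun n _ => mul_le_mul_of_nonneg_left
              (wSup_le (Nat.cast_nonneg _) fun P _ _ => W_le hf.1 P n H) (by positivity)
        _ = (∑ n ∈ Icc 1 N, 1 / (n : ℝ)) * H := by rw [sum_mul]
        _ ≤ (1 + Real.log N) * H := by
            refine mul_le_mul_of_nonneg_right ?_ (Nat.cast_nonneg _)
            have h2 := harmonic_le_one_add_log N
            refine le_trans (le_of_eq ?_) h2
            rw [harmonic_eq_sum_Icc]
            push_cast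
            exact sum_congr rfl fun x _ => one_div _
    refine h1.trans ?_
    have h2 : 1 / (A₀ : ℝ) ≤ v ^ (1 / (A₀ : ℝ)) := by
      have h3 : 1 / (A₀ : ℝ) ≤ v := by rw [div_le_iff₀ hApos]; linarith
      refine h3.trans ?_
      calc v = v ^ (1 : ℝ) := (Real.rpow_one v).symm
        _ ≤ v ^ (1 / (A₀ : ℝ)) := by
            apply Real.rpow_le_rpow_of_exponent_ge hpos hv1
            rw [div_le_one hApos]; exact hA₀r
    have h3 : (32 : ℝ) ≤ ((32 * A₀ : ℕ) : ℝ) * v ^ (1 / ((32 * A₀ : ℕ) : ℝ)) := by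
      push_cast
      have h4 : 1 / (A₀ : ℝ) ≤ v ^ (1 / (32 * (A₀ : ℝ))) := by
        have := hroot
        push_cast at this
        exact h2.trans this
      calc (32 : ℝ) = 32 * A₀ * (1 / A₀) := by field_simp
        _ ≤ 32 * A₀ * v ^ (1 / (32 * (A₀ : ℝ))) := mul_le_mul_of_nonneg_left h4 (by positivity)
    have hH0 : (0 : ℝ) ≤ H := Nat.cast_nonneg _
    calc (1 + Real.log N) * H ≤ (2 * Real.log N) * H := mul_le_mul_of_nonneg_right (by linarith) hH0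
      _ = 2 * (H * Real.log N) := by ring
      _ ≤ (((32 * A₀ : ℕ) : ℝ) * v ^ (1 / ((32 * A₀ : ℕ) : ℝ)) + ε) * (H * Real.log N) := by
          refine mul_le_mul_of_nonneg_right (by linarith) (by positivity)
      _ = _ := by ring

end Pool.Agent.T9h55.MD
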