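import Pool.Agent.T9h55.MD.LocThm

/-! Leading coefficients in small compact sets, rational points allowed, degree at least two (helper55). -/

set_option autoImplicit false

namespace Pool.Agent.T9h55.MD

open Finset Polynomial MeasureTheory
open Pool.Agent.Helper44K9.FU
open Pool.Agent.H807R2.Dav (ee norm_ee ee_add)

open Pool.Agent.Helper44K9.FU.FL in
/-- **polynomial phases with leading coefficient in a compact set** -/
theorem fin3_gen (hBES : S_BES2) (hPUSH : S_PUSH) (hNR : S_NR2) (hEQ : S_EQ3) (hDIL : S_DIL) (hPIG : S_PIG)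
    (hSUB : S_SUB) {d : ℕ} (hd : 1 ≤ d) :
    ∃ A : ℕ, 1 ≤ A ∧ ∀ f : ℕ → ℂ, Mul1 f →
      (∀ ε' : ℝ, 0 < ε' → ∃ X₀ : ℕ, ∀ X ≥ X₀, ∀ P : ℝ[X], P.natDegree ≤ d → ‖W f P 0 X‖ ≤ ε' * X) →
      (∀ (Q : ℕ) (ε : ℝ), 0 < ε → ∃ κ : ℝ, 0 < κ ∧ ∃ M : ℕ, 1 ≤ M ∧ ∀ N ≥ M,
        ∑ n ∈ Icc 1 N, (1 / (n : ℝ)) * (wSup d (nearSet Q κ Set.univ) f n M / M) ≤
          ε * ∑ n ∈ Icc 1 N, 1 / (n : ℝ)) → ∀ E : Set UnitAddCircle, IsCompact E →
      ∀ ε : ℝ, 0 < ε → ∃ H₀ : ℕ, ∀ N H : ℕ, H₀ ≤ H → H ≤ N →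
        ∑ n ∈ Icc 1 N, (1 / (n : ℝ)) * wSup d E f n H ≤
          (A * (volume E).toReal ^ (1 / (A : ℝ)) + ε) * H * Real.log N := by
  classical
  obtain ⟨A₀, hA₀, hM⟩ := mone3 hBES hPUSH hNR hEQ hDIL hPIG d hd
  refine ⟨32 * A₀, by omega, fun f hf hLS hNS E hEc ε hε => ?_⟩
  set v : ℝ := (volume E).toReal with hv
  have hv0 : 0 ≤ v := ENNReal.toReal_nonneg
  have hvE : volume E = ENNReal.ofReal v := by
    rw [hv, ENNReal.ofReal_toReal]
    exact ne_top_of_le_ne_top (measure_ne_top volume Set.univ) (measure_mono (Set.subset_univ E))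
  have hv1 : v ≤ 1 := by
    rw [hv]
    have h1 : volume E ≤ 1 := by
      refine (measure_mono (Set.subset_univ E)).trans (le_of_eq ?_)
      exact UnitAddCircle.measure_univ
    exact ENNReal.toReal_le_of_le_ofReal zero_le_one (by simpa using h1)
  have hA₀r : (1 : ℝ) ≤ A₀ := by exact_mod_cast hA₀
  have hApos : (0 : ℝ) < A₀ := by linarith
  -- any T with small measure
  have hT : ∀ T : ℕ, 1 ≤ T → v ≤ 1 / (A₀ * (T : ℝ) ^ A₀) → ∀ ε : ℝ, 0 < ε → ∃ H₀ : ℕ,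
      ∀ N H : ℕ, H₀ ≤ H → H ≤ N → ∑ n ∈ Icc 1 N, (1 / (n : ℝ)) * wSup d E f n H ≤ (16 / T + ε) * H * Real.log N := by
    intro T hT1 hTv ε hε
    have hTr : (0 : ℝ) < T := by exact_mod_cast hT1
    obtain ⟨Q₁, hQ₁⟩ := hM T (1 / T) hT1 rfl E hEc (by rw [hvE]; exact ENNReal.ofReal_le_ofReal hTv)
    obtain ⟨κ, hκ, M, hM1, hMN⟩ := hNS Q₁ (ε / 8) (by positivity)
    obtain ⟨H₁, h₁⟩ := fin_core3 hSUB d ε hε (nearSet Q₁ κ Set.univ) hf (by
      obtain ⟨X₀, hX₀⟩ := hLS (ε / 32) (by positivity)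
      exact ⟨X₀, fun X hX P hP _ => hX₀ X hX P hP⟩)
      ⟨M, M + 1, M, hM1, fun N hN => ⟨M, by simp, hMN N hN⟩⟩
    obtain ⟨H₂, h₂⟩ := fin_core3 hSUB d (16 / T) (by positivity) (E \ nearSet Q₁ κ Set.univ) hf (by
      obtain ⟨X₀, hX₀⟩ := hLS ((16 / T) / 32) (by positivity)
      exact ⟨X₀, fun X hX P hP _ => hX₀ X hX P hP⟩) (by
      obtain ⟨K₁, K₂, N₀, hK₁, hK⟩ := hQ₁ (E \ nearSet Q₁ κ Set.univ) κ Set.diff_subset hκ
        (fun β hβ => far_sdiff Q₁ κ Set.univ β ⟨Set.mem_univ _, hβ.2⟩)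
      refine ⟨K₁, K₂, N₀, hK₁, fun N hN => ?_⟩
      obtain ⟨H, hH, hsum⟩ := hK N hN f hf
      refine ⟨H, hH, ?_⟩
      rw [mem_Ico] at hH
      have hH0 : (0 : ℝ) < H := by exact_mod_cast (by omega : 0 < H)
      have h1 : ∀ n, wSup d (E \ nearSet Q₁ κ Set.univ) f n H / H ≤ (if ∃ P : ℝ[X], P.natDegree ≤ d ∧
          ((P.coeff d : ℝ) : UnitAddCircle) ∈ E \ nearSet Q₁ κ Set.univ ∧ 1 / T * H ≤ ‖W f P n H‖ then 1 else 0) + 1 / T := by
        intro n
        split_ifs with h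
        · have h2 : wSup d (E \ nearSet Q₁ κ Set.univ) f n H / H ≤ 1 :=
            div_le_one_of_le₀ (wSup_le (Nat.cast_nonneg _) fun P _ _ => W_le hf.1 P n H) (Nat.cast_nonneg _)
          have : (0 : ℝ) ≤ 1 / T := by positivity
          linarith
        · push Not at h
          rw [zero_add, div_le_iff₀ hH0]
          exact wSup_le (by positivity) fun P hP hPE => (h P hP hPE).le
      calc ∑ n ∈ Icc 1 N, (1 / (n : ℝ)) * (wSup d (E \ nearSet Q₁ κ Set.univ) f n H / H) ≤ ∑ n ∈ Icc 1 N, (1 / (n : ℝ)) *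
          ((if ∃ P : ℝ[X], P.natDegree ≤ d ∧
          ((P.coeff d : ℝ) : UnitAddCircle) ∈ E \ nearSet Q₁ κ Set.univ ∧ 1 / T * H ≤ ‖W f P n H‖ then 1 else 0) + 1 / T) :=
            sum_le_sum fun n _ => mul_le_mul_of_nonneg_left (h1 n) (by positivity)
        _ = ∑ n ∈ Icc 1 N, (1 / (n : ℝ)) *
          (if ∃ P : ℝ[X], P.natDegree ≤ d ∧
          ((P.coeff d : ℝ) : UnitAddCircle) ∈ E \ nearSet Q₁ κ Set.univ ∧ 1 / T * H ≤ ‖W f P n H‖ then 1 else 0) +
            (∑ n ∈ Icc 1 N, (1 / (n : ℝ))) * (1 / T) := by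
            simp only [mul_add]
            rw [sum_add_distrib, sum_mul]
        _ ≤ 1 / T * ∑ n ∈ Icc 1 N, 1 / (n : ℝ) + (∑ n ∈ Icc 1 N, (1 / (n : ℝ))) * (1 / T) :=
            add_le_add hsum le_rfl
        _ = (16 / T) / 8 * ∑ n ∈ Icc 1 N, 1 / (n : ℝ) := by ring)
    refine ⟨H₁ + H₂, fun N H hH hN => ?_⟩
    have e1 := h₁ N H (by omega) hN
    have e2 := h₂ N H (by omega) hN
    calc ∑ n ∈ Icc 1 N, (1 / (n : ℝ)) * wSup d E f n H ≤ ∑ n ∈ Icc 1 N, ((1 / (n : ℝ)) *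
        wSup d (nearSet Q₁ κ Set.univ) f n H + (1 / (n : ℝ)) * wSup d (E \ nearSet Q₁ κ Set.univ) f n H) := by
          refine sum_le_sum fun n _ => ?_
          rw [← mul_add]
          refine mul_le_mul_of_nonneg_left (wSup_split ?_ hf.1 n H) (by positivity)
          intro x hx
          by_cases hx' : x ∈ nearSet Q₁ κ Set.univ
          · exact Or.inl hx'
          · exact Or.inr ⟨hx, hx'⟩
      _ ≤ ε * H * Real.log N + 16 / T * H * Real.log N := by
          rw [sum_add_distrib]; exact add_le_add e1 e2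
      _ = _ := by ring
  have hweak : ∀ (x y : ℝ), x ≤ y → (∃ H₀ : ℕ,
      ∀ N H : ℕ, H₀ ≤ H → H ≤ N → ∑ n ∈ Icc 1 N, (1 / (n : ℝ)) * wSup d E f n H ≤ x * H * Real.log N) →
      ∃ H₀ : ℕ,
      ∀ N H : ℕ, H₀ ≤ H → H ≤ N → ∑ n ∈ Icc 1 N, (1 / (n : ℝ)) * wSup d E f n H ≤ y * H * Real.log N := by
    rintro x y hxy ⟨H₀, h⟩
    refine ⟨H₀ + 1, fun N H hH hN => (h N H (by omega) hN).trans ?_⟩
    have h1 : (0 : ℝ) ≤ H := Nat.cast_nonneg _
    have h2 : 0 ≤ Real.log N := Real.log_natCast_nonneg N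
    gcongr
  rcases hv0.eq_or_lt with hz | hpos
  · -- measure zero
    obtain ⟨T, hT'⟩ := exists_nat_ge (16 / (ε / 2))
    refine hweak (16 / ((T + 1 : ℕ) : ℝ) + ε / 2) _ ?_ (hT (T + 1) (by omega) (by rw [← hz]; positivity) (ε / 2)
      (by positivity))
    have h1 : 16 / ((T + 1 : ℕ) : ℝ) ≤ ε / 2 := by
      rw [div_le_iff₀ (by positivity)]
      rw [div_le_iff₀ (by positivity)] at hT'
      push_cast
      nlinarith
    have h2 : (0 : ℝ) ≤ ((32 * A₀ : ℕ) : ℝ) * v ^ (1 / ((32 * A₀ : ℕ) : ℝ)) := by positivity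
    linarith
  -- positive measure
  have hroot : v ^ (1 / (A₀ : ℝ)) ≤ v ^ (1 / ((32 * A₀ : ℕ) : ℝ)) := by
    apply Real.rpow_le_rpow_of_exponent_ge hpos hv1
    push_cast
    apply one_div_le_one_div_of_le hApos
    linarith
  by_cases hbig : A₀ * v ≤ 1
  · -- the largest T
    set x : ℝ := (1 / (A₀ * v)) ^ (1 / (A₀ : ℝ)) with hx
    have hx1 : 1 ≤ x := by
      rw [hx]
      apply Real.one_le_rpow
      · rw [le_div_iff₀ (by positivity)]
        linarith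
      · positivity
    set T : ℕ := ⌊x⌋₊ with hTdef
    have hT1 : 1 ≤ T := Nat.le_floor (by exact_mod_cast hx1)
    have hTx : (T : ℝ) ≤ x := Nat.floor_le (by linarith)
    have hTr : (0 : ℝ) < T := by exact_mod_cast hT1
    have hxT : x ≤ 2 * T := by
      have h1 := Nat.lt_floor_add_one x
      have h2 : (1 : ℝ) ≤ T := by exact_mod_cast hT1
      rw [← hTdef] at h1
      linarith
    have hxA : x ^ A₀ = 1 / (A₀ * v) := by
      rw [hx, ← Real.rpow_natCast, ← Real.rpow_mul (by positivity), one_div_mul_cancel hApos.ne', Real.rpow_one]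
    have hTv : v ≤ 1 / (A₀ * (T : ℝ) ^ A₀) := by
      rw [le_div_iff₀ (by positivity)]
      have h1 : (T : ℝ) ^ A₀ ≤ x ^ A₀ := pow_le_pow_left₀ hTr.le hTx _
      rw [hxA, le_div_iff₀ (by positivity)] at h1
      linarith
    refine hweak (16 / T + ε) _ ?_ (hT T hT1 hTv ε hε)
    have h1 : 16 / (T : ℝ) ≤ 32 / x := by
      rw [div_le_div_iff₀ hTr (by linarith)]
      linarith
    have h2 : 1 / x = (A₀ * v) ^ (1 / (A₀ : ℝ)) := by
      rw [hx, Real.div_rpow zero_le_one (by positivity), Real.one_rpow, one_div_one_div]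
    have h3 : (A₀ * v) ^ (1 / (A₀ : ℝ)) ≤ A₀ * v ^ (1 / (A₀ : ℝ)) := by
      rw [Real.mul_rpow hApos.le hv0]
      refine mul_le_mul_of_nonneg_right ?_ (by positivity)
      calc (A₀ : ℝ) ^ (1 / (A₀ : ℝ)) ≤ (A₀ : ℝ) ^ (1 : ℝ) := by
            apply Real.rpow_le_rpow_of_exponent_le hA₀r
            rw [div_le_one hApos]; exact hA₀r
        _ = A₀ := Real.rpow_one _
    have h4 : 32 / x = 32 * (1 / x) := by ring
    have h5 : (A₀ : ℝ) * v ^ (1 / (A₀ : ℝ)) ≤ A₀ * v ^ (1 / ((32 * A₀ : ℕ) : ℝ)) :=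
      mul_le_mul_of_nonneg_left hroot hApos.le
    rw [h4, h2] at h1
    push_cast at h5 ⊢
    linarith
  · -- trivial bound
    push Not at hbig
    refine ⟨3, fun N H hH hN => ?_⟩
    have hNr : (3 : ℝ) ≤ N := by exact_mod_cast hH.trans hN
    have hlog : 1 ≤ Real.log N := by
      rw [Real.le_log_iff_exp_le (by linarith)]
      linarith [Real.exp_one_lt_d9]
    have h1 : ∑ n ∈ Icc 1 N, (1 / (n : ℝ)) * wSup d E f n H ≤ (1 + Real.log N) * H := by
      calc ∑ n ∈ Icc 1 N, (1 / (n : ℝ)) * wSup d E f n H ≤ ∑ n ∈ Icc 1 N, (1 / (n : ℝ)) * H :=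
            sum_le_sum fun n _ => mul_le_mul_of_nonneg_left
              (wSup_le (Nat.cast_nonneg _) fun P _ _ => W_le hf.1 P n H) (by positivity)
        _ = (∑ n ∈ Icc 1 N, 1 / (n : ℝ)) * H := by rw [sum_mul]
        _ ≤ (1 + Real.log N) * H := by
            refine mul_le_mul_of_nonneg_right ?_ (Nat.cast_nonneg _)
            have h2 := harmonic_le_one_add_log N
            refine le_trans (le_of_eq ?_) h2
            rw [harmonic_eq_sum_Icc]
            push_cast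
            exact sum_congr rfl fun x _ => one_div _
    refine h1.trans ?_
    have h2 : 1 / (A₀ : ℝ) ≤ v ^ (1 / (A₀ : ℝ)) := by
      have h3 : 1 / (A₀ : ℝ) ≤ v := by rw [div_le_iff₀ hApos]; linarith
      refine h3.trans ?_
      calc v = v ^ (1 : ℝ) := (Real.rpow_one v).symm
        _ ≤ v ^ (1 / (A₀ : ℝ)) := by
            apply Real.rpow_le_rpow_of_exponent_ge hpos hv1
            rw [div_le_one hApos]; exact hA₀r
    have h3 : (32 : ℝ) ≤ ((32 * A₀ : ℕ) : ℝ) * v ^ (1 / ((32 * A₀ : ℕ) : ℝ)) := by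
      push_cast
      have h4 : 1 / (A₀ : ℝ) ≤ v ^ (1 / (32 * (A₀ : ℝ))) := by
        have := hroot
        push_cast at this
        exact h2.trans this
      calc (32 : ℝ) = 32 * A₀ * (1 / A₀) := by field_simp
        _ ≤ 32 * A₀ * v ^ (1 / (32 * (A₀ : ℝ))) := mul_le_mul_of_nonneg_left h4 (by positivity)
    have hH0 : (0 : ℝ) ≤ H := Nat.cast_nonneg _
    calc (1 + Real.log N) * H ≤ (2 * Real.log N) * H := mul_le_mul_of_nonneg_right (by linarith) hH0
      _ = 2 * (H * Real.log N) := by ring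
      _ ≤ (((32 * A₀ : ℕ) : ℝ) * v ^ (1 / ((32 * A₀ : ℕ) : ℝ)) + ε) * (H * Real.log N) := by
          refine mul_le_mul_of_nonneg_right (by linarith) (by positivity)
      _ = _ := by ring



/-- **leading coefficients in a compact set, from the phases of smaller degree** -/
theorem null_deg {d : ℕ} (hd : 1 ≤ d) : ∃ A : ℕ, 1 ≤ A ∧ ∀ f : ℕ → ℂ, Mul1 f → Full d f → ∀ E : Set UnitAddCircle,
    IsCompact E → BddF f (d + 1) E (A * (volume E).toReal ^ (1 / (A : ℝ))) := by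
  obtain ⟨A, hA, h⟩ := fin3_gen (bes2 wr2) (push tk) nr2 (eq3 pw trig2 chb) dil_ pig sub (d := d + 1) (by omega)
  refine ⟨A, hA, fun f hf hF E hE ε hε => ?_⟩
  exact h f hf (fun ε' hε' => long_deg wr tk hf hd hF ε' hε') (fun Q ε' hε' => near_scale_deg hf hd hF Q ε' hε') E hE
    ε hε

/-- **a rational leading coefficient controls all phases of smaller degree** -/
theorem lower_le {f : ℕ → ℂ} (hf : ∀ n, ‖f n‖ ≤ 1) {d : ℕ} (hd : 1 ≤ d) {b q : ℕ} (hq : 1 ≤ q)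
    {E : Set UnitAddCircle} (hE : (((b : ℝ) / q : ℝ) : UnitAddCircle) ∈ E) (n H : ℕ) :
    wSup d Set.univ f n H ≤ q * wSup (d + 1) E f n H := by
  refine FL.wSup_le (mul_nonneg (Nat.cast_nonneg _) (FL.wSup_nonneg n H)) fun P hP _ => ?_
  set R : ℝ[X] := C ((b : ℝ) / q) * X ^ (d + 1) + P with hR
  have e1 : W f P n H = ∑ m ∈ Ioc n (n + H), ee (-((b : ℝ) / q * (m : ℝ) ^ (d + 1))) * (f m * ee (R.eval (m : ℝ))) := by
    unfold W
    refine sum_congr rfl fun m _ => ?_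
    have h1 : ee (P.eval (m : ℝ)) = ee (-((b : ℝ) / q * (m : ℝ) ^ (d + 1))) * ee (R.eval (m : ℝ)) := by
      rw [← ee_add, hR]
      congr 1
      simp only [eval_add, eval_mul, eval_C, eval_pow, eval_X]
      ring
    rw [h1]; ring
  rw [e1]
  refine periodic_sum hq _ _ (fun m => (norm_ee _).le) (fun m m' hm => ?_) _ _ ?_
  · have h1 := per_fac hq b (d + 1) m m' hm
    have h2 : ∀ x : ℝ, ee (-x) = (ee x)⁻¹ := by
      intro x
      have h3 : ee (-x) * ee x = 1 := by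
        rw [← ee_add, neg_add_cancel]
        exact Pool.Agent.H807R2.Dav.ee_zero
      exact eq_inv_of_mul_eq_one_left h3
    rw [h2, h2, h1]
  · intro c _
    rw [add_lin]
    refine FL.le_wSup hf n H ?_ ?_
    · have hRd : R.natDegree ≤ d + 1 := by
        rw [hR]
        exact (natDegree_add_le _ _).trans (max_le (natDegree_C_mul_X_pow_le _ _) (by omega))
      exact deg_add_lin (by omega) hRd _
    · have h1 : (R + C ((c : ℝ) / q) * X).coeff (d + 1) = (b : ℝ) / q := by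
        rw [hR, coeff_add, coeff_add, coeff_C_mul, coeff_X_pow, if_pos rfl, mul_one,
          coeff_eq_zero_of_natDegree_lt (by omega : P.natDegree < d + 1), coeff_C_mul, coeff_X,
          if_neg (by omega), mul_zero, add_zero, add_zero]
      rw [h1]
      exact hE

end Pool.Agent.T9h55.MD
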