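import Pool.Agent.T9h55.MD.Eqw
import Pool.Agent.T9h55.MD.Deg
import Pool.Agent.Helper44K9.FU.Mone

/-! Localisation of the frequencies in an open set (helper55). -/

set_option autoImplicit false

namespace Pool.Agent.T9h55.MD

open Finset Polynomial MeasureTheory
open Pool.Agent.Helper44K9.FU
open Pool.Agent.H807R2.Dav (ee norm_ee)

/-- normalized suprema are at most one -/
lemma nsup01 {d : ℕ} {E : Set UnitAddCircle} {f : ℕ → ℂ} (hf : ∀ n, ‖f n‖ ≤ 1) (n H : ℕ) :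
    0 ≤ wSup d E f n H / H ∧ wSup d E f n H / H ≤ 1 :=
  ⟨div_nonneg (FL.wSup_nonneg n H) (Nat.cast_nonneg _),
    div_le_one_of_le₀ (FL.wSup_le (Nat.cast_nonneg _) fun P _ _ => FL.W_le hf P n H) (Nat.cast_nonneg _)⟩

open Classical in
/-- the pointwise inequality: one polynomial with leading coefficient `α` such that many `p^d α` are in `U` -/
lemma loc_point {d : ℕ} {U : Set UnitAddCircle} {f : ℕ → ℂ} (hf : ∀ n, ‖f n‖ ≤ 1) {P : ℝ[X]} (hP : P.natDegree ≤ d)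
    {I : Finset ℕ} {n H : ℕ} (hH : 0 < H) (hI : ∀ p ∈ I, p.Prime ∧ 0 ≤ vw p ∧ vw p ≤ 4 * (1 / (p : ℝ)) ∧ 1 ≤ H / p)
    {u η : ℝ} (hu : u ≤ 1) (hη : 0 < η)
    (hU : u * ∑ p ∈ I, vw p ≤
      ∑ p ∈ I.filter (fun p : ℕ => (((p : ℝ) ^ d * P.coeff d : ℝ) : UnitAddCircle) ∈ U), vw p)
    (hbig : 400 / η ^ 2 ≤ η * ∑ p ∈ I, vw p)
    (hpush : ∑ p ∈ I.filter (fun p => ‖W f (dil p P) (n / p) (H / p)‖ <
      (‖W f P n H‖ / H - η) * ((H / p : ℕ) : ℝ)), 1 / (p : ℝ) ≤ 100 / η ^ 2) :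
    u * (‖W f P n H‖ / H) * ∑ p ∈ I, vw p ≤
      ∑ p ∈ I, vw p * (wSup d U f (n / p) (H / p) / ((H / p : ℕ) : ℝ)) + 2 * η * ∑ p ∈ I, vw p := by
  set V : ℝ := ∑ p ∈ I, vw p with hV
  set x : ℝ := ‖W f P n H‖ / H with hx
  have hHr : (0 : ℝ) < H := by exact_mod_cast hH
  have hx0 : 0 ≤ x := by positivity
  have hx1 : x ≤ 1 := by
    rw [hx, div_le_one hHr]
    exact FL.W_le hf P n H
  have hV0 : 0 ≤ V := sum_nonneg fun p hp => (hI p hp).2.1
  have hs0 : 0 ≤ ∑ p ∈ I, vw p * (wSup d U f (n / p) (H / p) / ((H / p : ℕ) : ℝ)) :=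
    sum_nonneg fun p hp => mul_nonneg (hI p hp).2.1 (nsup01 hf _ _).1
  by_cases hxη : x < η
  · have h1 : u * x * V ≤ 2 * η * V := by
      refine mul_le_mul_of_nonneg_right ?_ hV0
      have : u * x ≤ 1 * x := mul_le_mul_of_nonneg_right hu hx0
      linarith
    linarith
  push Not at hxη
  have key : ∀ p ∈ I, (x - η) * (if (((p : ℝ) ^ d * P.coeff d : ℝ) : UnitAddCircle) ∈ U then vw p else 0) ≤
      vw p * (wSup d U f (n / p) (H / p) / ((H / p : ℕ) : ℝ)) +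
      (if ‖W f (dil p P) (n / p) (H / p)‖ < (x - η) * ((H / p : ℕ) : ℝ) then vw p else 0) := by
    intro p hp
    obtain ⟨hpp, hv0, hv4, hHp⟩ := hI p hp
    have hs := (nsup01 (d := d) (E := U) hf (n / p) (H / p)).1
    have hHp0 : (0 : ℝ) < ((H / p : ℕ) : ℝ) := by exact_mod_cast (by omega : 0 < H / p)
    have hsv : 0 ≤ vw p * (wSup d U f (n / p) (H / p) / ((H / p : ℕ) : ℝ)) := mul_nonneg hv0 hs
    by_cases hpU : (((p : ℝ) ^ d * P.coeff d : ℝ) : UnitAddCircle) ∈ U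
    · rw [if_pos hpU]
      by_cases hbad : ‖W f (dil p P) (n / p) (H / p)‖ < (x - η) * ((H / p : ℕ) : ℝ)
      · rw [if_pos hbad]
        have : (x - η) * vw p ≤ 1 * vw p := mul_le_mul_of_nonneg_right (by linarith) hv0
        linarith
      · rw [if_neg hbad, add_zero]
        push Not at hbad
        have h1 : ‖W f (dil p P) (n / p) (H / p)‖ ≤ wSup d U f (n / p) (H / p) := by
          refine FL.le_wSup hf _ _ (dil_natDegree hP) ?_
          rw [dil_coeff]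
          exact hpU
        have h2 : x - η ≤ wSup d U f (n / p) (H / p) / ((H / p : ℕ) : ℝ) := by
          rw [le_div_iff₀ hHp0]
          exact hbad.trans h1
        rw [mul_comm]
        exact mul_le_mul_of_nonneg_left h2 hv0
    · rw [if_neg hpU, mul_zero]
      have : (0 : ℝ) ≤ if ‖W f (dil p P) (n / p) (H / p)‖ < (x - η) * ((H / p : ℕ) : ℝ) then vw p else 0 := by
        split_ifs
        · exact hv0
        · exact le_rfl
      linarith
  have h1 := sum_le_sum key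
  rw [← mul_sum, sum_add_distrib, ← sum_filter, ← sum_filter] at h1
  have h2 : ∑ p ∈ I.filter (fun p => ‖W f (dil p P) (n / p) (H / p)‖ < (x - η) * ((H / p : ℕ) : ℝ)), vw p ≤ η * V := by
    calc ∑ p ∈ I.filter (fun p => ‖W f (dil p P) (n / p) (H / p)‖ < (x - η) * ((H / p : ℕ) : ℝ)), vw p ≤
        ∑ p ∈ I.filter (fun p => ‖W f (dil p P) (n / p) (H / p)‖ < (x - η) * ((H / p : ℕ) : ℝ)), 4 * (1 / (p : ℝ)) :=
          sum_le_sum fun p hp => (hI p (mem_filter.1 hp).1).2.2.1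
      _ ≤ 4 * (100 / η ^ 2) := by
          rw [← mul_sum]
          exact mul_le_mul_of_nonneg_left hpush (by norm_num)
      _ = 400 / η ^ 2 := by ring
      _ ≤ η * V := hbig
  have h3 : (x - η) * (u * V) ≤ (x - η) *
      ∑ p ∈ I.filter (fun p : ℕ => (((p : ℝ) ^ d * P.coeff d : ℝ) : UnitAddCircle) ∈ U), vw p :=
    mul_le_mul_of_nonneg_left hU (by linarith)
  have h4 : η * (u * V) ≤ η * V := by
    refine mul_le_mul_of_nonneg_left ?_ hη.le
    calc u * V ≤ 1 * V := mul_le_mul_of_nonneg_right hu hV0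
      _ = V := one_mul V
  nlinarith

open ML in
/-- **localisation for the leading coefficients away from the rational points** -/
theorem far_loc (hPUSH : S_PUSH) (hDIL : S_DIL) (hPW : S_PW) (hCH : S_CHB) {d : ℕ} (hd : 1 ≤ d) {f : ℕ → ℂ}
    (hf : Mul1 f) {U : Set UnitAddCircle} (hU : IsOpen U) (hUv : 0 < (volume U).toReal) {σ : ℝ} (hσ : 0 ≤ σ)
    (hs : ∃ H₀ : ℕ, ∀ N H : ℕ, H₀ ≤ H → H ≤ N →
      ∑ n ∈ Icc 1 N, (1 / (n : ℝ)) * wSup d U f n H ≤ σ * H * Real.log N) (ε : ℝ) (hε : 0 < ε) :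
    ∃ Q : ℕ, 1 ≤ Q ∧ ∀ κ : ℝ, 0 < κ → ∀ E' : Set UnitAddCircle, Far Q κ E' → ∃ H₁ H₂ N₀ : ℕ, 1 ≤ H₁ ∧ ∀ N ≥ N₀,
      ∃ H ∈ Ico H₁ H₂, ∑ n ∈ Icc 1 N, (1 / (n : ℝ)) * (wSup d E' f n H / H) ≤
        (σ / (volume U).toReal + ε) * ∑ n ∈ Icc 1 N, 1 / (n : ℝ) := by
  classical
  set v : ℝ := (volume U).toReal with hv
  have hv1 : v ≤ 1 := by
    have h1 : volume U ≤ 1 := by
      refine (measure_mono (Set.subset_univ U)).trans (le_of_eq ?_)
      exact UnitAddCircle.measure_univ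
    exact ENNReal.toReal_le_of_le_ofReal zero_le_one (by simpa using h1)
  obtain ⟨H₀, hH₀⟩ := hs
  set ρ : ℝ := σ / v + ε with hρ
  have hρ0 : 0 < ρ := by positivity
  set ε₁ : ℝ := min (v / 2) (ε * v / (2 * ρ)) with hε₁
  have hε₁0 : 0 < ε₁ := lt_min (by positivity) (by positivity)
  set η : ℝ := ε * v / 8 with hη
  have hη0 : 0 < η := by positivity
  obtain ⟨Q, hQ1, hQ⟩ := eqw hPW hCH hd hU ε₁ hε₁0
  refine ⟨Q, hQ1, fun κ hκ E' hE' => ?_⟩
  obtain ⟨I, hI, hIA, hIU⟩ := hQ κ hκ ⌈8 / η⌉₊ (400 / η ^ 2 / η + 1)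
  set V : ℝ := ∑ p ∈ I, vw p with hV
  have hVbig : 400 / η ^ 2 ≤ η * V := by
    have h1 : 400 / η ^ 2 / η ≤ V := by linarith
    rw [div_le_iff₀ hη0] at h1
    linarith
  have hV0 : 0 < V := by
    have : 0 ≤ 400 / η ^ 2 / η := by positivity
    linarith
  set w : ℕ → ℝ := fun p => vw p / V with hw
  have hw0 : ∀ p ∈ I, 0 ≤ w p := fun p hp => div_nonneg (hI p hp).2.2.1 hV0.le
  have hw1 : ∑ p ∈ I, w p = 1 := by
    simp only [hw]
    rw [← sum_div, ← hV, div_self hV0.ne']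
  obtain ⟨B, hB⟩ : ∃ B : ℕ, ∀ p ∈ I, p ≤ B := ⟨I.sup id, fun p hp => le_sup (f := id) hp⟩
  obtain ⟨HP, hHP⟩ := hPUSH I η hη0 (fun p hp => ⟨(hI p hp).1, by
    have h1 := (hI p hp).2.1
    exact (Nat.le_ceil _).trans (by exact_mod_cast h1.le)⟩)
  set H₁ : ℕ := HP + H₀ + 2 * B + 1 with hH₁
  set Er : ℝ := 4 + 2 * Real.log (B + 1) with hEr
  have hlogB : 0 ≤ Real.log ((B : ℝ) + 1) := Real.log_nonneg (by
    have : (0 : ℝ) ≤ B := Nat.cast_nonneg _
    linarith)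
  have hEr0 : 0 < Er := by positivity
  set Λ : ℝ := 2 * Er / η with hΛ
  have hΛ0 : 0 < Λ := by positivity
  have hdiv := Real.tendsto_sum_range_one_div_nat_succ_atTop
  obtain ⟨H₂, hH₂, hH₂Λ⟩ : ∃ H₂ : ℕ, H₁ ≤ H₂ ∧ Λ ≤ ∑ H ∈ Ico H₁ H₂, 1 / (H : ℝ) := by
    obtain ⟨M', hM'⟩ := (hdiv.eventually_ge_atTop (Λ + ∑ k ∈ range H₁, 1 / ((k : ℝ)))).exists
    refine ⟨max H₁ (M' + 1), le_max_left _ _, ?_⟩
    have h2 : ∑ i ∈ range M', 1 / ((i : ℝ) + 1) = ∑ k ∈ range (M' + 1), 1 / (k : ℝ) := by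
      rw [sum_range_succ' (fun k : ℕ => 1 / (k : ℝ)) M']
      push_cast; simp
    rw [h2] at hM'
    have h3 : ∑ k ∈ range (M' + 1), 1 / (k : ℝ) ≤ ∑ k ∈ range (max H₁ (M' + 1)), 1 / (k : ℝ) :=
      sum_le_sum_of_subset_of_nonneg (range_subset_range.2 (le_max_right _ _)) fun _ _ _ => by positivity
    rw [sum_Ico_eq_sub _ (le_max_left _ _)]
    linarith
  obtain ⟨N₀, hN₀⟩ : ∃ N₀ : ℕ, ∀ N ≥ N₀, Λ ≤ ∑ n ∈ Icc 1 N, 1 / (n : ℝ) := by
    obtain ⟨N₀, hN₀⟩ := Filter.eventually_atTop.1 (hdiv.eventually_ge_atTop Λ)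
    refine ⟨N₀, fun N hN => ?_⟩
    have h1 := hN₀ N hN
    have h2 : ∑ n ∈ Icc 1 N, 1 / (n : ℝ) = ∑ i ∈ range N, 1 / ((i : ℝ) + 1) := by
      rw [← Finset.Ico_succ_right_eq_Icc, sum_Ico_eq_sum_range]
      refine sum_congr (by simp) fun i _ => ?_
      push_cast; rw [add_comm (1 : ℝ)]
    rw [h2]; exact h1
  refine ⟨H₁, H₂, N₀ + H₂, by omega, fun N hN => ?_⟩
  have hhN := hN₀ N (by omega)
  set hn : ℝ := ∑ n ∈ Icc 1 N, 1 / (n : ℝ) with hhn
  set ℓ : ℝ := ∑ H ∈ Ico H₁ H₂, 1 / (H : ℝ) with hℓ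
  have hmass : MM H₁ H₂ N (fun _ _ => 1) = ℓ * hn := MM_one H₁ H₂ N
  have hℓ0 : 0 < ℓ := lt_of_lt_of_le hΛ0 hH₂Λ
  have hhn0 : 0 < hn := lt_of_lt_of_le hΛ0 hhN
  set er : ℝ := Er * (ℓ + hn) with her
  have herm : er ≤ η * (ℓ * hn) := by
    have h1 : Er * ℓ ≤ η / 2 * (ℓ * hn) := by
      have h2 : 2 * Er ≤ hn * η := by rw [hΛ, div_le_iff₀ hη0] at hhN; exact hhN
      nlinarith
    have h1' : Er * hn ≤ η / 2 * (ℓ * hn) := by
      have h2 : 2 * Er ≤ ℓ * η := by rw [hΛ, div_le_iff₀ hη0] at hH₂Λ; exact hH₂Λ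
      nlinarith
    rw [her]; nlinarith
  set s : ℕ → ℕ → ℝ := fun n H => wSup d U f n H / H with hsdef
  set s' : ℕ → ℕ → ℝ := fun n H => wSup d E' f n H / H with hs'def
  -- the pointwise inequality
  have hpt : ∀ H ∈ Ico H₁ H₂, ∀ n ∈ Icc 1 N, (v - ε₁) * s' n H ≤ ∑ p ∈ I, w p * s (n / p) (H / p) + 2 * η := by
    intro H hH n _
    rw [mem_Ico] at hH
    have hHpos : 0 < H := by omega
    have hHr : (0 : ℝ) < H := by exact_mod_cast hHpos
    have hvε : 0 < v - ε₁ := by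
      have : ε₁ ≤ v / 2 := min_le_left _ _
      linarith
    have hR0 : 0 ≤ ∑ p ∈ I, w p * s (n / p) (H / p) + 2 * η := by
      have : 0 ≤ ∑ p ∈ I, w p * s (n / p) (H / p) :=
        sum_nonneg fun p hp => mul_nonneg (hw0 p hp) (nsup01 hf.1 _ _).1
      positivity
    have h1 : wSup d E' f n H ≤ (∑ p ∈ I, w p * s (n / p) (H / p) + 2 * η) / (v - ε₁) * H := by
      refine FL.wSup_le (by positivity) fun P hP hPE => ?_
      have h2 := loc_point (U := U) hf.1 hP (I := I) (n := n) (H := H) (u := v - ε₁) (η := η) hHpos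
        (fun p hp => ⟨(hI p hp).1, (hI p hp).2.2.1, (hI p hp).2.2.2, by
          rw [Nat.one_le_div_iff (hI p hp).1.pos]
          have := hB p hp
          omega⟩) (by linarith) hη0 (hIU (P.coeff d) (hE' _ hPE)) hVbig (hHP H (by omega) f hf P n)
      have h3 : ∑ p ∈ I, w p * s (n / p) (H / p) =
          (∑ p ∈ I, vw p * (wSup d U f (n / p) (H / p) / ((H / p : ℕ) : ℝ))) / V := by
        rw [sum_div]
        refine sum_congr rfl fun p _ => ?_
        simp only [hw, hsdef]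
        ring
      rw [← hV] at h2
      have h4 : (v - ε₁) * (‖W f P n H‖ / H) ≤ ∑ p ∈ I, w p * s (n / p) (H / p) + 2 * η := by
        rw [h3]
        have h5 : ((∑ p ∈ I, vw p * (wSup d U f (n / p) (H / p) / ((H / p : ℕ) : ℝ))) / V + 2 * η) * V =
            ∑ p ∈ I, vw p * (wSup d U f (n / p) (H / p) / ((H / p : ℕ) : ℝ)) + 2 * η * V := by
          field_simp
        exact le_of_mul_le_mul_right (by rw [h5]; exact h2) hV0
      rw [← div_le_iff₀ hHr, le_div_iff₀ hvε]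
      linarith
    simp only [hs'def]
    rw [← le_div_iff₀' hvε, div_le_iff₀ hHr]
    exact h1
  -- averages
  have hs1 : (v - ε₁) * MM H₁ H₂ N s' ≤ ∑ p ∈ I, w p * MM H₁ H₂ N (fun n H => s (n / p) (H / p)) + 2 * η * (ℓ * hn) := by
    have h1 := MM_mono (H₁ := H₁) (H₂ := H₂) (N := N) (F := fun n H => (v - ε₁) * s' n H)
      (G := fun n H => ∑ p ∈ I, w p * s (n / p) (H / p) + 2 * η) hpt
    rw [MM_add, MM_const, MM_smul, MM_sum I H₁ H₂ N (fun p n H => w p * s (n / p) (H / p)), hmass] at h1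
    simp only [MM_smul] at h1
    exact h1
  have hs2 : ∑ p ∈ I, w p * MM H₁ H₂ N (fun n H => s (n / p) (H / p)) ≤ MM H₁ H₂ N s + er := by
    have h1 : ∀ p ∈ I, w p * MM H₁ H₂ N (fun n H => s (n / p) (H / p)) ≤ w p * (MM H₁ H₂ N s + er) := by
      intro p hp
      refine mul_le_mul_of_nonneg_left ?_ (hw0 p hp)
      have hpB := hB p hp
      have hp1 := (hI p hp).1.one_le
      refine (hDIL p H₁ H₂ N 1 s hp1 (by omega) hH₂ (fun n H => nsup01 hf.1 n H)).trans ?_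
      have h2 : Real.log p ≤ Real.log (B + 1) := Real.log_le_log (by exact_mod_cast hp1) (by
        have : (p : ℝ) ≤ B := by exact_mod_cast hpB
        linarith)
      have h3 : (1 : ℝ) * (4 + 2 * Real.log p) * (ℓ + hn) ≤ er := by
        rw [her, hEr, one_mul]
        gcongr
      linarith
    refine (sum_le_sum h1).trans ?_
    rw [← sum_mul, hw1, one_mul]
  have hs3 : MM H₁ H₂ N s ≤ σ * (ℓ * hn) := by
    unfold MM
    rw [hℓ, sum_mul, mul_sum]
    refine sum_le_sum fun H hH => ?_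
    rw [mem_Ico] at hH
    have hHr : (0 : ℝ) < H := by exact_mod_cast (by omega : 0 < H)
    have h1 := hH₀ N H (by omega) (by omega)
    have h2 : ∑ n ∈ Icc 1 N, 1 / (n : ℝ) * s n H = (∑ n ∈ Icc 1 N, 1 / (n : ℝ) * wSup d U f n H) / H := by
      rw [sum_div]
      refine sum_congr rfl fun n _ => ?_
      simp only [hsdef]
      ring
    rw [h2]
    have h3 : (∑ n ∈ Icc 1 N, 1 / (n : ℝ) * wSup d U f n H) / H ≤ σ * hn := by
      rw [div_le_iff₀ hHr]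
      refine h1.trans ?_
      have h4 : Real.log N ≤ hn := log_le_hn N
      have h5 : σ * H * Real.log N ≤ σ * H * hn := mul_le_mul_of_nonneg_left h4 (by positivity)
      linarith
    calc 1 / (H : ℝ) * ((∑ n ∈ Icc 1 N, 1 / (n : ℝ) * wSup d U f n H) / H) ≤ 1 / (H : ℝ) * (σ * hn) :=
          mul_le_mul_of_nonneg_left h3 (by positivity)
      _ = σ * (1 / (H : ℝ) * hn) := by ring
  have hvε : 0 < v - ε₁ := by
    have : ε₁ ≤ v / 2 := min_le_left _ _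
    linarith
  have hm0 : 0 < ℓ * hn := by positivity
  have htot : MM H₁ H₂ N s' ≤ ρ * (ℓ * hn) := by
    have h1 : (v - ε₁) * MM H₁ H₂ N s' ≤ (σ + 3 * η) * (ℓ * hn) := by nlinarith
    have h2 : σ + 3 * η ≤ (v - ε₁) * ρ := by
      have h3 : v * ρ = σ + ε * v := by rw [hρ]; field_simp
      have h4 : ε₁ * ρ ≤ ε * v / 2 := by
        have : ε₁ ≤ ε * v / (2 * ρ) := min_le_right _ _
        rw [le_div_iff₀ (by positivity)] at this
        linarith
      rw [hη]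
      nlinarith
    have h3 : (σ + 3 * η) * (ℓ * hn) ≤ (v - ε₁) * ρ * (ℓ * hn) := mul_le_mul_of_nonneg_right h2 hm0.le
    have h4 : (v - ε₁) * MM H₁ H₂ N s' ≤ (v - ε₁) * (ρ * (ℓ * hn)) := by linarith
    exact le_of_mul_le_mul_left h4 hvε
  -- some H
  by_contra hcon
  push Not at hcon
  have h1 : ρ * (ℓ * hn) < MM H₁ H₂ N s' := by
    unfold MM
    rw [hℓ, sum_mul, mul_sum]
    have hne : (Ico H₁ H₂).Nonempty := by
      rw [nonempty_Ico]
      by_contra h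
      have h2 : Ico H₁ H₂ = ∅ := Ico_eq_empty_of_le (by omega)
      rw [hℓ, h2, sum_empty] at hℓ0
      exact lt_irrefl _ hℓ0
    refine sum_lt_sum_of_nonempty hne fun H hH => ?_
    have h2 := hcon H hH
    have hH0 : (0 : ℝ) < H := by
      have := (mem_Ico.1 hH).1
      exact_mod_cast (by omega : 0 < H)
    have h3 : ρ * (1 / (H : ℝ) * hn) = 1 / (H : ℝ) * (ρ * hn) := by ring
    rw [h3]
    exact mul_lt_mul_of_pos_left h2 (by positivity)
  linarith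

end Pool.Agent.T9h55.MD
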