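import Pool.Agent.T9h55.MD.Loc

/-! Localisation of the frequencies in an open set: all scales (helper55). -/

set_option autoImplicit false

namespace Pool.Agent.T9h55.MD

open Finset Polynomial MeasureTheory
open Pool.Agent.Helper44K9.FU
open Pool.Agent.H807R2.Dav (ee norm_ee)

open Pool.Agent.Helper44K9.FU.FL in
/-- from one good scale to all scales, with almost the same constant -/
theorem fin_core4 (hSUB : S_SUB) (d : ℕ) (E : Set UnitAddCircle) {f : ℕ → ℂ} (hf : Mul1 f) (σ : ℝ) (hσ : 0 ≤ σ)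
    (ε : ℝ) (hε : 0 < ε)
    (hLS : ∀ ε' : ℝ, 0 < ε' → ∃ X₀ : ℕ, ∀ X ≥ X₀, ∀ P : ℝ[X], P.natDegree ≤ d →
      ((P.coeff d : ℝ) : UnitAddCircle) ∈ E → ‖W f P 0 X‖ ≤ ε' * X)
    (hM : ∃ H₁ H₂ N₀ : ℕ, 1 ≤ H₁ ∧ ∀ N ≥ N₀, ∃ H ∈ Ico H₁ H₂,
      ∑ n ∈ Icc 1 N, (1 / (n : ℝ)) * (wSup d E f n H / H) ≤ σ * ∑ n ∈ Icc 1 N, 1 / (n : ℝ)) :
    ∃ H₀ : ℕ, ∀ N H : ℕ, H₀ ≤ H → H ≤ N →
        ∑ n ∈ Icc 1 N, (1 / (n : ℝ)) * wSup d E f n H ≤ (σ + ε) * H * Real.log N := by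
  obtain ⟨H₁, H₂, N₁, hH₁, hmain⟩ := hM
  obtain ⟨C₀, hC₀⟩ := exists_nat_ge (8 * σ / ε)
  set C : ℕ := C₀ + 1 with hC
  have hC1 : 1 ≤ C := by omega
  have hCr : (1 : ℝ) ≤ C := by exact_mod_cast hC1
  have hσC : σ / C ≤ ε / 8 := by
    rw [div_le_iff₀ (by linarith)]
    rw [div_le_iff₀ hε] at hC₀
    rw [hC]; push_cast
    nlinarith
  set ε₂ : ℝ := ε / (16 * (C + 1)) with hε₂
  have hε₂0 : 0 < ε₂ := by positivity
  obtain ⟨X₀, hX₀⟩ := hLS ε₂ hε₂0
  obtain ⟨A, hA⟩ := exists_nat_ge (16 * (H₂ : ℝ) / ε)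
  obtain ⟨A', hA'⟩ := exists_nat_ge ((X₀ : ℝ) / ε₂)
  obtain ⟨A'', hA''⟩ := exists_nat_ge (Real.exp ((σ + ε + 2) / (ε / 2)))
  refine ⟨N₁ + X₀ + A + A' + A'' + H₂ + 1, fun N H hH hN => ?_⟩
  have hH0 : (0 : ℝ) < H := by exact_mod_cast (by omega : 0 < H)
  have hHA : 16 * (H₂ : ℝ) / ε ≤ H := hA.trans (by exact_mod_cast (by omega : A ≤ H))
  have hHA' : (X₀ : ℝ) / ε₂ ≤ H := hA'.trans (by exact_mod_cast (by omega : A' ≤ H))
  have hHA'' : Real.exp ((σ + ε + 2) / (ε / 2)) ≤ N := hA''.trans (by exact_mod_cast (by omega : A'' ≤ N))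
  obtain ⟨H', hH', hsm⟩ := hmain N (by omega)
  rw [mem_Ico] at hH'
  have hH'0 : (0 : ℝ) < H' := by exact_mod_cast (by omega : 0 < H')
  set hn : ℝ := ∑ n ∈ Icc 1 N, 1 / (n : ℝ) with hhn
  have hn0 : 0 ≤ hn := sum_nonneg fun _ _ => by positivity
  have hlog : hn ≤ 1 + Real.log N := by
    have h1 := harmonic_le_one_add_log N
    refine le_trans (le_of_eq ?_) h1
    rw [harmonic_eq_sum_Icc]
    push_cast
    exact sum_congr rfl fun x _ => one_div _
  have hlogN : (σ + ε + 2) / (ε / 2) ≤ Real.log N := by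
    rw [Real.le_log_iff_exp_le (lt_of_lt_of_le (Real.exp_pos _) hHA'')]
    exact hHA''
  -- normalized suprema
  set s : ℕ → ℕ → ℝ := fun H n => wSup d E f n H / H with hs
  have hs01 : ∀ H n, 0 ≤ s H n ∧ s H n ≤ 1 := fun H n => nsup01 hf.1 n H
  -- small n
  have hsm1 : ∀ n : ℕ, n ≤ C * H → s H n ≤ ε / 8 := by
    intro n hn'
    simp only [hs]
    rw [div_le_iff₀ hH0]
    refine wSup_le (by positivity) fun P hP hPE => ?_
    have h2 : W f P n H = W f P 0 (n + H) - W f P 0 n := by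
      unfold W
      rw [Nat.zero_add, Nat.zero_add, eq_sub_iff_add_eq, add_comm]
      rw [← sum_union]
      · congr 1
        ext m; simp only [mem_union, mem_Ioc]; omega
      · rw [Finset.disjoint_left]
        intro m hm hm'
        rw [mem_Ioc] at hm hm'
        omega
    have h3 : ‖W f P 0 (n + H)‖ ≤ ε₂ * ((n + H : ℕ) : ℝ) := hX₀ (n + H) (by omega) P hP hPE
    have h5 : (n : ℝ) ≤ C * H := by exact_mod_cast hn'
    have h4 : ‖W f P 0 n‖ ≤ ε₂ * (C * H) := by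
      by_cases hn2 : X₀ ≤ n
      · exact (hX₀ n hn2 P hP hPE).trans (mul_le_mul_of_nonneg_left h5 hε₂0.le)
      · push Not at hn2
        refine (W_le hf.1 P 0 n).trans ?_
        rw [div_le_iff₀ hε₂0] at hHA'
        have : (n : ℝ) ≤ X₀ := by exact_mod_cast hn2.le
        have h6 : (H : ℝ) ≤ C * H := by nlinarith
        nlinarith
    rw [h2]
    refine (norm_sub_le _ _).trans ?_
    push_cast at h3
    have h6 : ε₂ * ((n : ℝ) + H) ≤ ε₂ * ((C + 1) * H) := mul_le_mul_of_nonneg_left (by linarith) hε₂0.le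
    have h7 : ε₂ * ((C + 1) * H) = ε / 16 * H := by rw [hε₂]; field_simp
    have h8 : ε₂ * (C * H) ≤ ε₂ * ((C + 1) * H) := mul_le_mul_of_nonneg_left (by nlinarith) hε₂0.le
    linarith
  have hsmalln : ∀ M : ℕ, M ≤ C * H → M ≤ N → ∑ n ∈ Icc 1 M, (1 / (n : ℝ)) * s H n ≤ ε / 8 * hn := by
    intro M hM1 hM2
    calc ∑ n ∈ Icc 1 M, (1 / (n : ℝ)) * s H n ≤ ∑ n ∈ Icc 1 M, (1 / (n : ℝ)) * (ε / 8) :=
          sum_le_sum fun n hn' => mul_le_mul_of_nonneg_left (hsm1 n ((mem_Icc.1 hn').2.trans hM1)) (by positivity)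
      _ = ε / 8 * ∑ n ∈ Icc 1 M, 1 / (n : ℝ) := by rw [← sum_mul]; ring
      _ ≤ ε / 8 * hn := by
          refine mul_le_mul_of_nonneg_left ?_ (by positivity)
          exact sum_le_sum_of_subset_of_nonneg (Icc_subset_Icc_right hM2) fun _ _ _ => by positivity
  have htot : ∑ n ∈ Icc 1 N, (1 / (n : ℝ)) * wSup d E f n H = H * ∑ n ∈ Icc 1 N, (1 / (n : ℝ)) * s H n := by
    rw [mul_sum]
    refine sum_congr rfl fun n _ => ?_
    simp only [hs]
    field_simp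
  rw [htot]
  have h9 : ∑ n ∈ Icc 1 N, (1 / (n : ℝ)) * s H n ≤ (σ + ε) * Real.log N := by
    have hfin : (σ + 3 * ε / 8) * hn + 2 ≤ (σ + ε) * Real.log N := by
      have h13 : (σ + 3 * ε / 8) * hn ≤ (σ + 3 * ε / 8) * (1 + Real.log N) :=
        mul_le_mul_of_nonneg_left hlog (by positivity)
      rw [div_le_iff₀ (by positivity)] at hlogN
      have h14 : 0 ≤ Real.log N := Real.log_natCast_nonneg N
      nlinarith
    by_cases hCN : C * H ≤ N
    · have hlarge : ∑ n ∈ Ioc (C * H) N, (1 / (n : ℝ)) * s H n ≤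
          (1 + 1 / (C : ℝ)) * (∑ n ∈ Icc 1 N, (1 / (n : ℝ)) * s H' n + 1) + ε / 8 * hn := by
        refine hSUB (s H) (s H') C H N (ε / 8) (fun n => hs01 H' n) hC1 (by omega) hCN (by positivity) fun n => ?_
        have h2 : ∀ P : ℝ[X], P.natDegree ≤ d → ((P.coeff d : ℝ) : UnitAddCircle) ∈ E →
            ‖W f P n H‖ ≤ ∑ i ∈ range H, s H' (n + i) + 2 * H' := by
          intro P hP hPE
          have h3 := sub_window hf.1 P n H H'
          have h4 : ∑ i ∈ range H, ‖W f P (n + i) H'‖ ≤ H' * ∑ i ∈ range H, s H' (n + i) := by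
            rw [mul_sum]
            refine sum_le_sum fun i _ => ?_
            simp only [hs]
            rw [mul_div_cancel₀ _ hH'0.ne']
            exact le_wSup hf.1 (n + i) H' hP hPE
          have h5 : (H' : ℝ) * ‖W f P n H‖ ≤ H' * (∑ i ∈ range H, s H' (n + i) + 2 * H') := by
            refine h3.trans ?_
            rw [mul_add]
            nlinarith
          exact le_of_mul_le_mul_left h5 hH'0
        have h6 : wSup d E f n H ≤ ∑ i ∈ range H, s H' (n + i) + 2 * H' :=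
          wSup_le (add_nonneg (sum_nonneg fun i _ => (hs01 H' (n + i)).1) (by positivity)) h2
        show wSup d E f n H / H ≤ _
        rw [div_le_iff₀ hH0, add_mul, mul_comm (1 / (H : ℝ)), mul_assoc, one_div_mul_cancel hH0.ne', mul_one]
        refine h6.trans (add_le_add le_rfl ?_)
        have h7 : (H' : ℝ) ≤ H₂ := by exact_mod_cast hH'.2.le
        rw [div_le_iff₀ hε] at hHA
        linarith
      have h1 : ∑ n ∈ Icc 1 N, (1 / (n : ℝ)) * s H n = ∑ n ∈ Icc 1 (C * H), (1 / (n : ℝ)) * s H n +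
          ∑ n ∈ Ioc (C * H) N, (1 / (n : ℝ)) * s H n := by
        rw [← sum_union]
        · congr 1
          have : 1 ≤ C * H := Nat.mul_pos hC1 (by omega)
          ext m; simp only [mem_union, mem_Icc, mem_Ioc]; omega
        · rw [Finset.disjoint_left]
          intro m hm hm'
          rw [mem_Icc] at hm
          rw [mem_Ioc] at hm'
          omega
      rw [h1]
      have h2 := hsmalln (C * H) le_rfl hCN
      have h3 : (1 + 1 / (C : ℝ)) * (∑ n ∈ Icc 1 N, (1 / (n : ℝ)) * s H' n + 1) ≤ (σ + ε / 8) * hn + 2 := by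
        have h4 : 1 / (C : ℝ) ≤ 1 := by rw [div_le_one (by linarith)]; exact hCr
        have h5 : 0 ≤ 1 / (C : ℝ) := by positivity
        calc (1 + 1 / (C : ℝ)) * (∑ n ∈ Icc 1 N, (1 / (n : ℝ)) * s H' n + 1) ≤ (1 + 1 / (C : ℝ)) * (σ * hn + 1) :=
              mul_le_mul_of_nonneg_left (by linarith) (by positivity)
          _ = σ * hn + (σ / C) * hn + (1 + 1 / C) := by ring
          _ ≤ σ * hn + (ε / 8) * hn + 2 := by
              have := mul_le_mul_of_nonneg_right hσC hn0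
              linarith
          _ = _ := by ring
      linarith
    · push Not at hCN
      have h2 := hsmalln N hCN.le le_rfl
      have h3 : 0 ≤ (σ + 2 * ε / 8) * hn := by positivity
      linarith
  calc (H : ℝ) * _ ≤ H * ((σ + ε) * Real.log N) := mul_le_mul_of_nonneg_left h9 hH0.le
    _ = (σ + ε) * H * Real.log N := by ring

/-- the localisation theorem from the estimate near the rational points and long sums -/
theorem loc_gen (hPUSH : S_PUSH) (hDIL : S_DIL) (hPW : S_PW) (hCH : S_CHB) (hSUB : S_SUB) {d : ℕ} (hd : 1 ≤ d)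
    {f : ℕ → ℂ} (hf : Mul1 f)
    (hLS : ∀ ε' : ℝ, 0 < ε' → ∃ X₀ : ℕ, ∀ X ≥ X₀, ∀ P : ℝ[X], P.natDegree ≤ d → ‖W f P 0 X‖ ≤ ε' * X)
    (hNS : ∀ (Q : ℕ) (ε : ℝ), 0 < ε → ∃ κ : ℝ, 0 < κ ∧ ∃ M : ℕ, 1 ≤ M ∧ ∀ N ≥ M,
      ∑ n ∈ Icc 1 N, (1 / (n : ℝ)) * (wSup d (nearSet Q κ Set.univ) f n M / M) ≤ ε * ∑ n ∈ Icc 1 N, 1 / (n : ℝ))
    {U : Set UnitAddCircle} (hU : IsOpen U) (hUv : 0 < (volume U).toReal) {σ : ℝ} (hσ : 0 ≤ σ)
    (hs : ∃ H₀ : ℕ, ∀ N H : ℕ, H₀ ≤ H → H ≤ N →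
      ∑ n ∈ Icc 1 N, (1 / (n : ℝ)) * wSup d U f n H ≤ σ * H * Real.log N) (ε : ℝ) (hε : 0 < ε) :
    ∃ H₀ : ℕ, ∀ N H : ℕ, H₀ ≤ H → H ≤ N →
      ∑ n ∈ Icc 1 N, (1 / (n : ℝ)) * wSup d Set.univ f n H ≤ (σ / (volume U).toReal + ε) * H * Real.log N := by
  obtain ⟨Q, hQ1, hQ⟩ := far_loc hPUSH hDIL hPW hCH hd hf hU hUv hσ hs (ε / 4) (by positivity)
  obtain ⟨κ, hκ, M, hM1, hM⟩ := hNS Q (ε / 8) (by positivity)
  obtain ⟨H₁, h₁⟩ := fin_core4 hSUB d (nearSet Q κ Set.univ) hf (ε / 8) (by positivity) (ε / 8) (by positivity)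
    (fun ε' hε' => by
      obtain ⟨X₀, hX₀⟩ := hLS ε' hε'
      exact ⟨X₀, fun X hX P hP _ => hX₀ X hX P hP⟩)
    ⟨M, M + 1, M, hM1, fun N hN => ⟨M, by simp, hM N hN⟩⟩
  obtain ⟨H₂, h₂⟩ := fin_core4 hSUB d (Set.univ \ nearSet Q κ Set.univ) hf (σ / (volume U).toReal + ε / 4)
    (by positivity) (ε / 4) (by positivity)
    (fun ε' hε' => by
      obtain ⟨X₀, hX₀⟩ := hLS ε' hε'
      exact ⟨X₀, fun X hX P hP _ => hX₀ X hX P hP⟩)
    (hQ κ hκ (Set.univ \ nearSet Q κ Set.univ) (far_sdiff Q κ Set.univ))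
  refine ⟨H₁ + H₂, fun N H hH hN => ?_⟩
  have e1 := h₁ N H (by omega) hN
  have e2 := h₂ N H (by omega) hN
  have hlog : 0 ≤ Real.log N := Real.log_natCast_nonneg N
  calc ∑ n ∈ Icc 1 N, (1 / (n : ℝ)) * wSup d Set.univ f n H ≤ ∑ n ∈ Icc 1 N, ((1 / (n : ℝ)) *
      wSup d (nearSet Q κ Set.univ) f n H + (1 / (n : ℝ)) * wSup d (Set.univ \ nearSet Q κ Set.univ) f n H) := by
        refine sum_le_sum fun n _ => ?_
        rw [← mul_add]
        refine mul_le_mul_of_nonneg_left (wSup_split ?_ hf.1 n H) (by positivity)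
        intro x hx
        by_cases hx' : x ∈ nearSet Q κ Set.univ
        · exact Or.inl hx'
        · exact Or.inr ⟨hx, hx'⟩
    _ ≤ (ε / 8 + ε / 8) * H * Real.log N + (σ / (volume U).toReal + ε / 4 + ε / 4) * H * Real.log N := by
        rw [sum_add_distrib]; exact add_le_add e1 e2
    _ ≤ (σ / (volume U).toReal + ε) * H * Real.log N := by
        have : 0 ≤ ε / 4 * (H * Real.log N) := by positivity
        nlinarith

end Pool.Agent.T9h55.MD
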