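import Pool.Agent.T9h55.MD.Deg

/-! Long sums of multiplicative functions against all polynomial phases of a given degree, from the short averages for
the polynomial phases of smaller degree (helper55). -/

set_option autoImplicit false

namespace Pool.Agent.T9h55.MD

open Finset Polynomial MeasureTheory
open Pool.Agent.Helper44K9.FU
open Pool.Agent.H807R2.Dav (ee norm_ee ee_add ee_int dd_le dd ee_zero ee_pow)

/-- summation by parts, power phase -/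
lemma parts_pow (g : ℕ → ℂ) (θ B : ℝ) (hB : 0 ≤ B) {D : ℕ} (hD : 1 ≤ D) (X : ℕ)
    (hS : ∀ Y ≤ X, ‖∑ m ∈ range Y, g (m + 1)‖ ≤ B) :
    ‖∑ m ∈ range X, g (m + 1) * ee (θ * ((m + 1 : ℕ) : ℝ) ^ D)‖ ≤ B * (1 + 2 * Real.pi * |θ| * (X : ℝ) ^ D) := by
  have hpi := Real.pi_pos
  have key : ∀ Y ≤ X, ‖∑ m ∈ range Y, g (m + 1) * ee (θ * ((m + 1 : ℕ) : ℝ) ^ D) -
      (∑ m ∈ range Y, g (m + 1)) * ee (θ * (Y : ℝ) ^ D)‖ ≤ B * (2 * Real.pi * |θ|) * (Y : ℝ) ^ D := by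
    intro Y
    induction Y with
    | zero => intro _; simp [show D ≠ 0 by omega]
    | succ Y ih =>
      intro hY
      have h1 := ih (by omega)
      have e1 : ∑ m ∈ range (Y + 1), g (m + 1) * ee (θ * ((m + 1 : ℕ) : ℝ) ^ D) -
          (∑ m ∈ range (Y + 1), g (m + 1)) * ee (θ * ((Y + 1 : ℕ) : ℝ) ^ D) =
          (∑ m ∈ range Y, g (m + 1) * ee (θ * ((m + 1 : ℕ) : ℝ) ^ D) -
            (∑ m ∈ range Y, g (m + 1)) * ee (θ * (Y : ℝ) ^ D)) +
          (∑ m ∈ range Y, g (m + 1)) * (ee (θ * (Y : ℝ) ^ D) *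
            (1 - ee (θ * (((Y + 1 : ℕ) : ℝ) ^ D - (Y : ℝ) ^ D)))) := by
        rw [sum_range_succ, sum_range_succ]
        have e2 : ee (θ * ((Y + 1 : ℕ) : ℝ) ^ D) = ee (θ * (Y : ℝ) ^ D) *
            ee (θ * (((Y + 1 : ℕ) : ℝ) ^ D - (Y : ℝ) ^ D)) := by
          rw [← ee_add]; congr 1; ring
        rw [e2]; ring
      rw [e1]
      refine (norm_add_le _ _).trans ?_
      have hmono : (0 : ℝ) ≤ ((Y + 1 : ℕ) : ℝ) ^ D - (Y : ℝ) ^ D := by
        rw [sub_nonneg]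
        apply pow_le_pow_left₀ (Nat.cast_nonneg _)
        push_cast; linarith
      have h2 : ‖(∑ m ∈ range Y, g (m + 1)) * (ee (θ * (Y : ℝ) ^ D) *
            (1 - ee (θ * (((Y + 1 : ℕ) : ℝ) ^ D - (Y : ℝ) ^ D))))‖ ≤
          B * (2 * Real.pi * |θ| * (((Y + 1 : ℕ) : ℝ) ^ D - (Y : ℝ) ^ D)) := by
        rw [norm_mul, norm_mul, norm_ee, one_mul]
        have h3 := dd_le (θ * (((Y + 1 : ℕ) : ℝ) ^ D - (Y : ℝ) ^ D))
        unfold dd at h3
        rw [abs_mul, abs_of_nonneg hmono, ← mul_assoc] at h3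
        exact mul_le_mul (hS Y (by omega)) h3 (norm_nonneg _) hB
      calc _ ≤ B * (2 * Real.pi * |θ|) * (Y : ℝ) ^ D +
            B * (2 * Real.pi * |θ| * (((Y + 1 : ℕ) : ℝ) ^ D - (Y : ℝ) ^ D)) := add_le_add h1 h2
        _ = B * (2 * Real.pi * |θ|) * ((Y + 1 : ℕ) : ℝ) ^ D := by ring
  have h1 := key X le_rfl
  have h2 : ‖(∑ m ∈ range X, g (m + 1)) * ee (θ * (X : ℝ) ^ D)‖ ≤ B := by
    rw [norm_mul, norm_ee, mul_one]
    exact hS X le_rfl
  calc ‖∑ m ∈ range X, g (m + 1) * ee (θ * ((m + 1 : ℕ) : ℝ) ^ D)‖ =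
      ‖(∑ m ∈ range X, g (m + 1) * ee (θ * ((m + 1 : ℕ) : ℝ) ^ D) -
        (∑ m ∈ range X, g (m + 1)) * ee (θ * (X : ℝ) ^ D)) +
        (∑ m ∈ range X, g (m + 1)) * ee (θ * (X : ℝ) ^ D)‖ := by congr 1; ring
    _ ≤ B * (2 * Real.pi * |θ|) * (X : ℝ) ^ D + B := (norm_add_le _ _).trans (add_le_add h1 h2)
    _ = _ := by ring

/-- long sums near a rational point, degree `d + 1` -/
lemma near_long_deg {f : ℕ → ℂ} (hf : ∀ n, ‖f n‖ ≤ 1) {d : ℕ} (hd : 1 ≤ d) {P : ℝ[X]} (hP : P.natDegree ≤ d + 1)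
    {b q : ℕ} (hq : 1 ≤ q) {κ B : ℝ} {k : ℤ} (hB : 0 ≤ B) (h : |P.coeff (d + 1) - (b : ℝ) / q - k| ≤ κ) (X : ℕ)
    (hS : ∀ Y ≤ X, wSup d Set.univ f 0 Y ≤ B) :
    ‖W f P 0 X‖ ≤ q * B * (1 + 2 * Real.pi * κ * (X : ℝ) ^ (d + 1)) := by
  set θ : ℝ := P.coeff (d + 1) - (b : ℝ) / q - k with hθ
  set R : ℝ[X] := low (d + 1) P + C θ * dif (d + 1) 0 with hR
  have hRd : R.natDegree ≤ d :=
    (natDegree_add_le _ _).trans (max_le (low_deg hP) ((natDegree_C_mul_le _ _).trans (dif_deg d 0)))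
  set g : ℕ → ℂ := fun m => ee ((b : ℝ) / q * (m : ℝ) ^ (d + 1)) * (f m * ee (R.eval (m : ℝ))) with hg
  have e1 : W f P 0 X = ∑ m ∈ range X, g (m + 1) * ee (θ * ((m + 1 : ℕ) : ℝ) ^ (d + 1)) := by
    rw [W_zero_range]
    refine sum_congr rfl fun m _ => ?_
    have h1 := phase_deg d P b q k 0 (m + 1)
    rw [Nat.cast_zero, sub_zero, ← hθ, ← hR] at h1
    rw [h1]
    simp only [hg]
    ring
  rw [e1]
  refine (parts_pow g θ (q * B) (by positivity) (by omega) X fun Y hY => ?_).trans ?_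
  · have h2 : ∑ m ∈ range Y, g (m + 1) = ∑ m ∈ Ioc 0 Y, g m := by
      have h3 : Ioc 0 Y = (range Y).image (fun m => m + 1) := by
        ext m
        simp only [mem_Ioc, mem_image, mem_range]
        constructor
        · intro h; exact ⟨m - 1, by omega, by omega⟩
        · rintro ⟨j, hj, rfl⟩; omega
      rw [h3, sum_image fun a _ b _ hab => by omega]
    rw [h2]
    simp only [hg]
    refine periodic_sum hq _ _ (fun m => (norm_ee _).le) (fun m m' hm => per_fac hq b (d + 1) m m' hm) _ _ ?_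
    intro c _
    rw [add_lin]
    have h3 := FL.le_wSup hf 0 Y (deg_add_lin hd hRd (c / q)) (Set.mem_univ (((R + C ((c : ℝ) / q) * Polynomial.X).coeff d : ℝ) : UnitAddCircle))
    unfold W at h3
    rw [zero_add] at h3
    exact h3.trans (hS Y hY)
  · have hpi := Real.pi_pos
    gcongr

/-- long sums, from the short averages -/
lemma full_long {f : ℕ → ℂ} (hf : ∀ n, ‖f n‖ ≤ 1) {d : ℕ} (hF : Full d f) (ε : ℝ) (hε : 0 < ε) :
    ∃ X₀ : ℕ, ∀ X ≥ X₀, wSup d Set.univ f 0 X ≤ ε * X := by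
  obtain ⟨H₀, hH₀⟩ := hF (ε / 4) (by positivity)
  obtain ⟨A, hA⟩ := exists_nat_ge (8 / ε)
  refine ⟨H₀ + A * A + 9, fun X hX => ?_⟩
  have h1 := hH₀ X X (by omega) le_rfl
  obtain ⟨y, hy⟩ : ∃ y, y = Nat.sqrt X := ⟨_, rfl⟩
  have hy2 : y * y ≤ X := by rw [hy]; exact Nat.sqrt_le X
  have hy3 : X < (y + 1) * (y + 1) := by rw [hy]; exact Nat.lt_succ_sqrt X
  have hyA : A ≤ y := by rw [hy, Nat.le_sqrt]; omega
  have hy1 : 1 ≤ y := by rw [hy, Nat.le_sqrt]; omega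
  have hX9 : (9 : ℝ) ≤ X := by exact_mod_cast (by omega : 9 ≤ X)
  have hlog : 1 ≤ Real.log X := by
    rw [Real.le_log_iff_exp_le (by linarith)]
    linarith [Real.exp_one_lt_d9]
  set w : ℝ := wSup d Set.univ f 0 X with hw
  have hw0 : 0 ≤ w := FL.wSup_nonneg 0 X
  set hh : ℝ := ∑ n ∈ Icc 1 y, 1 / (n : ℝ) with hhh
  have hharm : Real.log X ≤ 2 * hh := by
    have h2 := log_add_one_le_harmonic y
    have h3 : hh = ((harmonic y : ℚ) : ℝ) := by
      rw [hhh, harmonic_eq_sum_Icc]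
      push_cast
      exact sum_congr rfl fun n _ => one_div _
    rw [← h3] at h2
    have h4 : Real.log X ≤ Real.log (((y : ℝ) + 1) * ((y : ℝ) + 1)) := by
      apply Real.log_le_log (by linarith)
      exact_mod_cast hy3.le
    rw [Real.log_mul (by positivity) (by positivity)] at h4
    push_cast at h2
    linarith
  have hlow : w * hh - 2 * y ≤ ∑ n ∈ Icc 1 X, (1 / (n : ℝ)) * wSup d Set.univ f n X := by
    have h2 : Icc 1 y ⊆ Icc 1 X := Icc_subset_Icc_right (by nlinarith)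
    refine le_trans ?_ (sum_le_sum_of_subset_of_nonneg h2 fun n _ _ =>
      mul_nonneg (by positivity) (FL.wSup_nonneg n X))
    have h3 : w * hh - 2 * y = ∑ n ∈ Icc 1 y, (w * (1 / (n : ℝ)) - 2) := by
      rw [sum_sub_distrib, ← mul_sum, sum_const, Nat.card_Icc, nsmul_eq_mul]
      rw [Nat.add_sub_cancel, mul_comm (y : ℝ)]
    rw [h3]
    refine sum_le_sum fun n hn => ?_
    rw [mem_Icc] at hn
    have hn0 : (0 : ℝ) < n := by exact_mod_cast hn.1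
    have h5 : w ≤ wSup d Set.univ f n X + 2 * n := by
      refine FL.wSup_le (add_nonneg (FL.wSup_nonneg n X) (by positivity)) fun P hP hPE => ?_
      have h4 := FL.shift hf P 0 X n
      rw [zero_add] at h4
      have h6 := norm_sub_norm_le (W f P 0 X) (W f P n X)
      have h7 := FL.le_wSup hf n X hP hPE
      linarith
    have h6 := mul_le_mul_of_nonneg_left h5 (show (0 : ℝ) ≤ 1 / n by positivity)
    have h7 : (1 / (n : ℝ)) * (wSup d Set.univ f n X + 2 * n) = (1 / (n : ℝ)) * wSup d Set.univ f n X + 2 := by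
      field_simp
    linarith
  have h2 : w * (Real.log X / 2) ≤ w * hh := mul_le_mul_of_nonneg_left (by linarith) hw0
  have h3 : (8 : ℝ) * y ≤ ε * X := by
    have h4 : 8 / ε ≤ y := hA.trans (by exact_mod_cast hyA)
    rw [div_le_iff₀ hε] at h4
    have h5 : (y : ℝ) * y ≤ X := by exact_mod_cast hy2
    have h6 : (0 : ℝ) ≤ y := Nat.cast_nonneg _
    nlinarith
  have h4 : w * Real.log X ≤ (ε * X) * Real.log X := by
    have h5 : (0 : ℝ) ≤ ε * X := by positivity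
    nlinarith
  exact le_of_mul_le_mul_right h4 (by linarith)

/-- **long sums of degree `d + 1` from the short averages of degree `d`** -/
theorem long_deg (hwr : S_WR) (htk : S_TK) {f : ℕ → ℂ} (hf : Mul1 f) {d : ℕ} (hd : 1 ≤ d) (hF : Full d f)
    (ε : ℝ) (hε : 0 < ε) : ∃ X₀ : ℕ, ∀ X ≥ X₀, ∀ P : ℝ[X], P.natDegree ≤ d + 1 → ‖W f P 0 X‖ ≤ ε * X := by
  obtain ⟨Q, X₁, hQ1, hLS⟩ := ls3 hwr htk (d + 1) (by omega) ε hε
  have hpi := Real.pi_pos
  have hQr : (1 : ℝ) ≤ Q := by exact_mod_cast hQ1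
  set ε' : ℝ := ε / (2 * Q * (1 + 2 * Real.pi * Q)) with hε'
  have hε'0 : 0 < ε' := by positivity
  obtain ⟨YY, hYY⟩ := full_long hf.1 hF ε' hε'0
  obtain ⟨Z, hZ⟩ := exists_nat_ge ((YY : ℝ) / ε')
  refine ⟨X₁ + Z + 1, fun X hX P hP => ?_⟩
  have hX0 : (0 : ℝ) < X := by exact_mod_cast (by omega : 0 < X)
  by_cases hmaj : ∀ q : ℕ, 1 ≤ q → q ≤ Q → ∀ a : ℤ, (Q : ℝ) / (X : ℝ) ^ (d + 1) < |q * P.coeff (d + 1) - a|
  · exact hLS X (by omega) f hf P hP hmaj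
  push Not at hmaj
  obtain ⟨q, hq1, hqQ, a, ha⟩ := hmaj
  obtain ⟨b, hbq, k, hk⟩ := red hq1 ha
  have h4 : ∀ Y ≤ X, wSup d Set.univ f 0 Y ≤ ε' * X + YY := by
    intro Y hY
    have hYr : (Y : ℝ) ≤ X := by exact_mod_cast hY
    by_cases hYY0 : YY ≤ Y
    · refine (hYY Y hYY0).trans ?_
      have : (0 : ℝ) ≤ YY := Nat.cast_nonneg _
      nlinarith
    · push Not at hYY0
      refine (FL.wSup_le (Nat.cast_nonneg _) fun P _ _ => FL.W_le hf.1 P 0 Y).trans ?_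
      have h5 : (Y : ℝ) ≤ YY := by exact_mod_cast hYY0.le
      have : (0 : ℝ) ≤ ε' * X := by positivity
      linarith
  have h5 := near_long_deg hf.1 hd hP hq1 (B := ε' * X + YY) (by positivity) hk X h4
  have h6 : 2 * Real.pi * ((Q : ℝ) / (X : ℝ) ^ (d + 1)) * (X : ℝ) ^ (d + 1) = 2 * Real.pi * Q := by field_simp
  rw [h6] at h5
  refine h5.trans ?_
  have h7 : (YY : ℝ) ≤ ε' * X := by
    have h8 : (YY : ℝ) / ε' ≤ X := hZ.trans (by exact_mod_cast (by omega : Z ≤ X))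
    rw [div_le_iff₀ hε'0] at h8
    linarith
  have h8 : ε' * (2 * Q * (1 + 2 * Real.pi * Q)) = ε := by
    rw [hε']; field_simp
  have hqr : (q : ℝ) ≤ Q := by exact_mod_cast hqQ
  calc (q : ℝ) * (ε' * X + YY) * (1 + 2 * Real.pi * Q) ≤ Q * (ε' * X + ε' * X) * (1 + 2 * Real.pi * Q) := by
        gcongr
    _ = (ε' * (2 * Q * (1 + 2 * Real.pi * Q))) * X := by ring
    _ = ε * X := by rw [h8]

end Pool.Agent.T9h55.MD
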