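import Pool.Agent.T9h55.MD.Torus
import Pool.Agent.Results.MP_663568_nt.SmallFrequencySets

/-! The Möbius function and the rational frequencies (helper55). -/

set_option autoImplicit false

namespace Pool.Agent.T9h55.MD

open Finset MeasureTheory Polynomial
open Pool.Agent.H807R2.Dav (ee norm_ee)
open Pool.Agent.Helper44K9.FU
open Pool.Agent.Helper44K9.FB (fourier_real norm_fourier Ioc_image)

/-- the Möbius function -/
noncomputable def mu (n : ℕ) : ℂ := ((ArithmeticFunction.moebius n : ℤ) : ℂ)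

lemma mu_mult : Mul1 mu := by
  constructor
  · intro n
    unfold mu
    rw [Complex.norm_intCast]
    have h1 := ArithmeticFunction.abs_moebius_le_one (n := n)
    exact_mod_cast h1
  · intro a b hab
    unfold mu
    rw [ArithmeticFunction.isMultiplicative_moebius.map_mul_of_coprime hab]
    push_cast
    ring

/-- single frequencies -/
theorem mu_shortAt (x : ℝ) : ShortAt mu x := by
  intro ε hε
  set F : C(Fin 1 → UnitAddCircle, ℂ) := ⟨fun y => (fourier 1 (y 0) : ℂ), by
    exact (fourier 1).continuous.comp (continuous_apply 0)⟩ with hF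
  set E : Set (Fin 1 → UnitAddCircle) := {fun _ => (x : UnitAddCircle)} with hE
  obtain ⟨H₀, h⟩ := Pool.Agent.Results.MP_663568_nt.SmallFrequencySets.result 1 F 1 0 (by norm_num) ε hε
  refine ⟨H₀, fun N H hH hN => ?_⟩
  have h1 := (h N H hH hN E (fun n hn => ⟨{fun _ => (x : UnitAddCircle)}, by simp, fun g hg => by
    rw [hE, Set.mem_singleton_iff] at hg
    exact ⟨_, mem_singleton_self _, by rw [hg, dist_self]; positivity⟩⟩)).1
  refine le_trans (sum_le_sum fun n _ => mul_le_mul_of_nonneg_left ?_ (by positivity)) h1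
  unfold Pool.Agent.Results.MP_663568_nt.SmallFrequencySets.windowSup
  have hbdd : BddAbove (Set.range fun p : E × (Fin 1 → UnitAddCircle) =>
      ‖∑ h ∈ Icc 1 H, F (p.2 + (h + n) • (p.1 : Fin 1 → UnitAddCircle)) *
        ((ArithmeticFunction.moebius (n + h) : ℤ) : ℂ)‖) := by
    refine ⟨∑ h ∈ Icc 1 H, (1 : ℝ), ?_⟩
    rintro _ ⟨p, rfl⟩
    refine (norm_sum_le _ _).trans (sum_le_sum fun h _ => ?_)
    rw [norm_mul]
    have e1 := mu_mult.1 (n + h)
    have e2 : ‖F (p.2 + (h + n) • (p.1 : Fin 1 → UnitAddCircle))‖ = 1 := norm_fourier _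
    rw [e2, one_mul]
    exact e1
  refine le_trans (le_of_eq ?_) (le_ciSup hbdd (⟨⟨fun _ => (x : UnitAddCircle), rfl⟩, 0⟩ : E × (Fin 1 → UnitAddCircle)))
  congr 1
  unfold W
  rw [Ioc_image, sum_image fun a _ b _ hab => by omega]
  refine sum_congr rfl fun h _ => ?_
  have e3 : F (0 + (h + n) • (fun _ : Fin 1 => (x : UnitAddCircle))) = ee ((lin x).eval ((n + h : ℕ) : ℝ)) := by
    show (fourier 1 ((0 + (h + n) • (fun _ : Fin 1 => (x : UnitAddCircle))) 0) : ℂ) = _
    rw [zero_add]
    show (fourier 1 ((h + n) • (x : UnitAddCircle)) : ℂ) = _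
    rw [← AddCircle.coe_nsmul, fourier_real, lin_eval, nsmul_eq_mul, mul_comm, add_comm h n]
  rw [e3]
  unfold mu
  ring

end Pool.Agent.T9h55.MD
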