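import Pool.Agent.T9h55.MD.LocFin
import Pool.Agent.T9h55.MD.LongDeg
import Pool.Agent.T9h55.MD.Mu

/-! The localisation theorems and polynomial orbits on tori (helper55). -/

set_option autoImplicit false

namespace Pool.Agent.T9h55.MD

open Finset Polynomial MeasureTheory
open Pool.Agent.Helper44K9.FU
open Pool.Agent.H807R2.Dav (ee norm_ee)
open Pool.Agent.Helper44K9.FB (lf lf_add lf_cont norm_fourier fourier_real trigm Ioc_image)
open Pool.Agent.Helper44K9.FU.FL (le_wSup wSup_nonneg)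

/-- the upper limit is at most `σ` -/
def BddF (f : ℕ → ℂ) (d : ℕ) (U : Set UnitAddCircle) (σ : ℝ) : Prop := ∀ ε : ℝ, 0 < ε → ∃ H₀ : ℕ, ∀ N H : ℕ,
  H₀ ≤ H → H ≤ N → ∑ n ∈ Icc 1 N, (1 / (n : ℝ)) * wSup d U f n H ≤ (σ + ε) * H * Real.log N

lemma full_iff {f : ℕ → ℂ} {d : ℕ} : Full d f ↔ BddF f d Set.univ 0 := by
  unfold Full BddF
  simp only [zero_add]

lemma bdd_of_eps {f : ℕ → ℂ} {d : ℕ} {U : Set UnitAddCircle} {σ : ℝ} (h : ∀ δ : ℝ, 0 < δ → BddF f d U (σ + δ)) :
    BddF f d U σ := by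
  intro ε hε
  obtain ⟨H₀, h₀⟩ := h (ε / 2) (by positivity) (ε / 2) (by positivity)
  refine ⟨H₀, fun N H hH hN => (h₀ N H hH hN).trans (le_of_eq ?_)⟩
  ring

/-- **localisation, linear phases** -/
theorem loc_one {f : ℕ → ℂ} (hf : Mul1 f) (hR : ShortRat f Set.univ) {U : Set UnitAddCircle} (hU : IsOpen U)
    (hUv : 0 < (volume U).toReal) {σ : ℝ} (hσ : 0 ≤ σ) (hs : BddF f 1 U σ) :
    BddF f 1 Set.univ (σ / (volume U).toReal) := by
  intro ε hε
  obtain ⟨H₀, h₀⟩ := loc_gen (push tk) dil_ pw chb sub (d := 1) le_rfl hf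
    (fun ε' hε' => by
      obtain ⟨X₀, hX₀⟩ := long_all wr tk hf isCompact_univ hR ε' hε'
      exact ⟨X₀, fun X hX P hP => hX₀ X hX P hP (Set.mem_univ _)⟩)
    (fun Q ε' hε' => near_scale hf isCompact_univ hR Q ε' hε') hU hUv
    (σ := σ + ε * (volume U).toReal / 2) (by positivity) (hs _ (by positivity)) (ε / 2) (by positivity)
  refine ⟨H₀, fun N H hH hN => (h₀ N H hH hN).trans (le_of_eq ?_)⟩
  rw [add_div]
  have : ε * (volume U).toReal / 2 / (volume U).toReal = ε / 2 := by field_simp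
  rw [this]
  ring

/-- **localisation, polynomial phases of degree at least two** -/
theorem loc_deg {f : ℕ → ℂ} (hf : Mul1 f) {d : ℕ} (hd : 1 ≤ d) (hF : Full d f) {U : Set UnitAddCircle} (hU : IsOpen U)
    (hUv : 0 < (volume U).toReal) {σ : ℝ} (hσ : 0 ≤ σ) (hs : BddF f (d + 1) U σ) :
    BddF f (d + 1) Set.univ (σ / (volume U).toReal) := by
  intro ε hε
  obtain ⟨H₀, h₀⟩ := loc_gen (push tk) dil_ pw chb sub (d := d + 1) (by omega) hf
    (fun ε' hε' => long_deg wr tk hf hd hF ε' hε')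
    (fun Q ε' hε' => near_scale_deg hf hd hF Q ε' hε') hU hUv
    (σ := σ + ε * (volume U).toReal / 2) (by positivity) (hs _ (by positivity)) (ε / 2) (by positivity)
  refine ⟨H₀, fun N H hH hN => (h₀ N H hH hN).trans (le_of_eq ?_)⟩
  rw [add_div]
  have : ε * (volume U).toReal / 2 / (volume U).toReal = ε / 2 := by field_simp
  rw [this]
  ring

lemma vol_pos {U : Set UnitAddCircle} (hU : IsOpen U) (hne : U.Nonempty) : 0 < (volume U).toReal :=
  ENNReal.toReal_pos (hU.measure_pos volume hne).ne'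
    (ne_top_of_le_ne_top (measure_ne_top volume Set.univ) (measure_mono (Set.subset_univ U)))

/-- **the criterion** -/
theorem full_of_local {f : ℕ → ℂ} (hf : Mul1 f) (hR : ShortRat f Set.univ) {d : ℕ}
    (h : ∀ j : ℕ, 1 ≤ j → j ≤ d → ∀ η : ℝ, 0 < η → ∃ U : Set UnitAddCircle, IsOpen U ∧ U.Nonempty ∧
      BddF f j U (η * (volume U).toReal)) : ∀ j : ℕ, 1 ≤ j → j ≤ d → Full j f := by
  intro j hj hjd
  induction j, hj using Nat.le_induction with
  | base =>
    rw [full_iff]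
    refine bdd_of_eps fun δ hδ => ?_
    obtain ⟨U, hU, hne, hb⟩ := h 1 le_rfl hjd δ hδ
    have hv := vol_pos hU hne
    have h1 := loc_one hf hR hU hv (by positivity) hb
    rwa [mul_div_cancel_right₀ _ hv.ne', ← zero_add δ] at h1
  | succ j hj ih =>
    have hF := ih (by omega)
    rw [full_iff]
    refine bdd_of_eps fun δ hδ => ?_
    obtain ⟨U, hU, hne, hb⟩ := h (j + 1) (by omega) hjd δ hδ
    have hv := vol_pos hU hne
    have h1 := loc_deg hf hj hF hU hv (by positivity) hb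
    rwa [mul_div_cancel_right₀ _ hv.ne', ← zero_add δ] at h1

/-- the supremum over all polynomial orbits of degree at most `d` on the torus -/
noncomputable def oSup {m : ℕ} (d : ℕ) (F : (Fin m → UnitAddCircle) → ℂ) (f : ℕ → ℂ) (n H : ℕ) : ℝ :=
  ⨆ P : {P : Fin m → ℝ[X] // ∀ i, (P i).natDegree ≤ d}, ‖∑ h ∈ Icc 1 H, f (n + h) *
    F (fun i => (((P.1 i).eval ((n + h : ℕ) : ℝ) : ℝ) : UnitAddCircle))‖

lemma lf_coe {m : ℕ} (k : Fin m → ℤ) (x : Fin m → ℝ) : lf k (fun i => (x i : UnitAddCircle)) =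
    ((∑ i, (k i : ℝ) * x i : ℝ) : UnitAddCircle) := by
  unfold lf
  have h1 : ((∑ i, (k i : ℝ) * x i : ℝ) : UnitAddCircle) = ∑ i, (((k i : ℝ) * x i : ℝ) : UnitAddCircle) :=
    map_sum (QuotientAddGroup.mk' (AddSubgroup.zmultiples (1 : ℝ))) _ _
  rw [h1]
  refine sum_congr rfl fun i _ => ?_
  rw [← AddCircle.coe_zsmul, zsmul_eq_mul]

/-- one character along a polynomial orbit -/
theorem char_orb {m d : ℕ} (k : Fin m → ℤ) {f : ℕ → ℂ} (hf : ∀ n, ‖f n‖ ≤ 1) (n H : ℕ) (P : Fin m → ℝ[X])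
    (hP : ∀ i, (P i).natDegree ≤ d) :
    ‖∑ h ∈ Icc 1 H, f (n + h) * (fourier 1 (lf k (fun i => (((P i).eval ((n + h : ℕ) : ℝ) : ℝ) : UnitAddCircle))) : ℂ)‖ ≤
      wSup d Set.univ f n H := by
  set R : ℝ[X] := ∑ i, C (k i : ℝ) * P i with hR
  have hdeg : R.natDegree ≤ d := by
    rw [hR]
    exact natDegree_sum_le_of_forall_le _ _ fun i _ => (natDegree_C_mul_le _ _).trans (hP i)
  have h4 : ∑ h ∈ Icc 1 H, f (n + h) * (fourier 1 (lf k (fun i => (((P i).eval ((n + h : ℕ) : ℝ) : ℝ) : UnitAddCircle))) : ℂ)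
      = W f R n H := by
    unfold W
    rw [Ioc_image, sum_image fun a _ b _ hab => by omega]
    refine sum_congr rfl fun h _ => ?_
    rw [lf_coe, fourier_real]
    congr 2
    rw [hR, eval_finset_sum]
    refine sum_congr rfl fun i _ => ?_
    rw [eval_mul, eval_C]
  rw [h4]
  exact le_wSup hf n H hdeg (Set.mem_univ _)

/-- **polynomial orbits on tori** -/
theorem orbits {m d : ℕ} (F : C(Fin m → UnitAddCircle, ℂ)) {f : ℕ → ℂ} (hf : Mul1 f)
    (hF : Full d f) (ε : ℝ) (hε : 0 < ε) :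
    ∃ H₀ : ℕ, ∀ N H : ℕ, H₀ ≤ H → H ≤ N →
      ∑ n ∈ Icc 1 N, (1 / (n : ℝ)) * oSup d F f n H ≤ ε * H * Real.log N := by
  classical
  obtain ⟨S, a, hSa⟩ := trigm m F (ε / 8) (by positivity)
  set A : ℝ := ∑ k ∈ S, ‖a k‖ with hA
  have hA0 : 0 ≤ A := sum_nonneg fun _ _ => norm_nonneg _
  obtain ⟨H₀, h₀⟩ := hF (ε / (4 * (A + 1))) (by positivity)
  refine ⟨H₀ + 3, fun N H hH hN => ?_⟩
  have hHr : (0 : ℝ) < H := by exact_mod_cast (by omega : 0 < H)
  have hNr : (3 : ℝ) ≤ N := by exact_mod_cast (by omega : 3 ≤ N)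
  have hlog : 1 ≤ Real.log N := by
    rw [Real.le_log_iff_exp_le (by linarith)]
    linarith [Real.exp_one_lt_d9]
  have hharm : ∑ n ∈ Icc 1 N, 1 / (n : ℝ) ≤ 1 + Real.log N := by
    have h1 := harmonic_le_one_add_log N
    refine le_trans (le_of_eq ?_) h1
    rw [harmonic_eq_sum_Icc]
    push_cast
    exact sum_congr rfl fun x _ => one_div _
  -- pointwise
  have hpt : ∀ n, oSup d F f n H ≤ A * wSup d Set.univ f n H + ε / 8 * H := by
    intro n
    have hnn : 0 ≤ A * wSup d Set.univ f n H + ε / 8 * H :=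
      add_nonneg (mul_nonneg hA0 (wSup_nonneg n H)) (by positivity)
    refine Real.iSup_le (fun p => ?_) hnn
    obtain ⟨P, hP⟩ := p
    set z : ℕ → (Fin m → UnitAddCircle) := fun h => fun i => (((P i).eval ((n + h : ℕ) : ℝ) : ℝ) : UnitAddCircle) with hz
    show ‖∑ h ∈ Icc 1 H, f (n + h) * F (z h)‖ ≤ _
    calc ‖∑ h ∈ Icc 1 H, f (n + h) * F (z h)‖ =
        ‖∑ k ∈ S, a k * ∑ h ∈ Icc 1 H, f (n + h) * (fourier 1 (lf k (z h)) : ℂ) +
          ∑ h ∈ Icc 1 H, f (n + h) * (F (z h) - ∑ k ∈ S, a k * (fourier 1 (lf k (z h)) : ℂ))‖ := by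
          congr 1
          simp only [mul_sum]
          rw [sum_comm, ← sum_add_distrib]
          refine sum_congr rfl fun h _ => ?_
          rw [mul_sub, mul_sum]
          have h1 : ∑ k ∈ S, a k * (f (n + h) * (fourier 1 (lf k (z h)) : ℂ)) =
              ∑ k ∈ S, f (n + h) * (a k * (fourier 1 (lf k (z h)) : ℂ)) :=
            sum_congr rfl fun k _ => by ring
          rw [h1]
          ring
      _ ≤ A * wSup d Set.univ f n H + ε / 8 * H := by
          refine (norm_add_le _ _).trans (add_le_add ?_ ?_)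
          · refine (norm_sum_le _ _).trans ?_
            rw [hA, sum_mul]
            refine sum_le_sum fun k hk => ?_
            rw [norm_mul]
            exact mul_le_mul_of_nonneg_left (char_orb k hf.1 n H P hP) (norm_nonneg _)
          · refine (norm_sum_le _ _).trans ?_
            calc ∑ h ∈ Icc 1 H, ‖f (n + h) * (F (z h) - ∑ k ∈ S, a k * (fourier 1 (lf k (z h)) : ℂ))‖ ≤
                  ∑ h ∈ Icc 1 H, ε / 8 := by
                  refine sum_le_sum fun h _ => ?_
                  rw [norm_mul]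
                  have h2 := hSa (z h)
                  have h3 := hf.1 (n + h)
                  calc _ ≤ 1 * ‖F (z h) - ∑ k ∈ S, a k * (fourier 1 (lf k (z h)) : ℂ)‖ :=
                        mul_le_mul_of_nonneg_right h3 (norm_nonneg _)
                    _ ≤ ε / 8 := by rw [one_mul]; linarith
              _ = ε / 8 * H := by rw [sum_const, Nat.card_Icc, nsmul_eq_mul]; simp [mul_comm]
  calc ∑ n ∈ Icc 1 N, (1 / (n : ℝ)) * oSup d F f n H ≤
      ∑ n ∈ Icc 1 N, (1 / (n : ℝ)) * (A * wSup d Set.univ f n H + ε / 8 * H) :=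
        sum_le_sum fun n _ => mul_le_mul_of_nonneg_left (hpt n) (by positivity)
    _ = A * ∑ n ∈ Icc 1 N, (1 / (n : ℝ)) * wSup d Set.univ f n H + ε / 8 * H * ∑ n ∈ Icc 1 N, 1 / (n : ℝ) := by
        simp only [mul_add, sum_add_distrib, mul_sum]
        congr 1
        · refine sum_congr rfl fun n _ => ?_
          ring
        · refine sum_congr rfl fun n _ => ?_
          ring
    _ ≤ A * ((ε / (4 * (A + 1))) * H * Real.log N) + ε / 8 * H * (1 + Real.log N) := by
        refine add_le_add (mul_le_mul_of_nonneg_left (h₀ N H (by omega) hN) hA0)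
          (mul_le_mul_of_nonneg_left hharm (by positivity))
    _ ≤ ε / 4 * H * Real.log N + ε / 8 * H * (1 + Real.log N) := by
        refine add_le_add ?_ le_rfl
        have h1 : A * (ε / (4 * (A + 1)) * H * Real.log N) = (A * (ε / (4 * (A + 1)))) * (H * Real.log N) := by
          ring
        rw [h1, mul_assoc (ε / 4)]
        refine mul_le_mul_of_nonneg_right ?_ (by positivity)
        rw [mul_div_assoc', div_le_div_iff₀ (by positivity) (by norm_num)]
        nlinarith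
    _ ≤ ε * H * Real.log N := by
        have h1 : 0 < ε * H := by positivity
        nlinarith

end Pool.Agent.T9h55.MD
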