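import Pool.Agent.Helper44K9.FU.Ls

/-! Long sums: correlations with polynomial phases whose leading coefficient is not on a major arc at the scale of the
sum (helper55; adapted from `Pool.Agent.Helper44K9.FU.Ls`). -/

set_option autoImplicit false

namespace Pool.Agent.T9h55.MD

open Finset Polynomial
open Pool.Agent.Helper44K9.FU
open Pool.Agent.H807R2.Dav (ee)

open Pool.Agent.Helper44K9.FU.LsL in
/-- [LS] long sums are small unless the leading coefficient is on a major arc -/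
theorem ls3 (hwr : S_WR) (htk : S_TK) : ∀ d : ℕ, 1 ≤ d → ∀ ε : ℝ, 0 < ε → ∃ Q X₀ : ℕ, 1 ≤ Q ∧ ∀ X ≥ X₀,
    ∀ f : ℕ → ℂ, Mul1 f → ∀ P : ℝ[X], P.natDegree ≤ d →
      (∀ q : ℕ, 1 ≤ q → q ≤ Q → ∀ a : ℤ, (Q : ℝ) / (X : ℝ) ^ d < |q * P.coeff d - a|) → ‖W f P 0 X‖ ≤ ε * X := by
  intro d hd ε hε
  -- constants
  have hsum : Summable fun n : ℕ => 1 / (n : ℝ) ^ 2 := Real.summable_one_div_nat_pow.2 (by norm_num)
  set Z : ℝ := ∑' n : ℕ, 1 / (n : ℝ) ^ 2 with hZ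
  have hZ0 : 0 ≤ Z := tsum_nonneg fun n => by positivity
  obtain ⟨I, hI, hIA⟩ := exists_primes ((24 + 100 * Z) / ε ^ 2)
  set u : ℝ := (I.card : ℝ) ^ 2 + 1 with hu
  have hu1 : 1 ≤ u := by
    rw [hu]
    have : (0 : ℝ) ≤ (I.card : ℝ) ^ 2 := by positivity
    linarith
  obtain ⟨K, hK, hWR⟩ := hwr d hd u hu1
  obtain ⟨B, hB⟩ : ∃ B : ℕ, ∀ p ∈ I, p ≤ B := ⟨I.sup id, fun p hp => le_sup (f := id) hp⟩
  obtain ⟨H₀, hTK⟩ := htk I hI
  refine ⟨K * (2 * B) ^ d + 1, max H₀ (max (2 * B + 1) (B ^ 2)), by omega, fun X hX f hf P hP hPE => ?_⟩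
  have hX0 : H₀ ≤ X := (le_max_left _ _).trans hX
  have hX1 : 2 * B + 1 ≤ X := ((le_max_left _ _).trans (le_max_right _ _)).trans hX
  have hX2 : B ^ 2 ≤ X := ((le_max_right _ _).trans (le_max_right _ _)).trans hX
  -- the second moment
  have hT := second I hI P f hf.1 X u (by rw [hu]; linarith) (by linarith) (by
    intro p hp q hq hpq
    have hdiv : ∀ r ∈ I, 1 ≤ X / r ∧ X ≤ 2 * B * (X / r) := by
      intro r hr
      have hr0 := (hI r hr).pos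
      have hrB := hB r hr
      have h1 : 1 ≤ X / r := by
        rw [Nat.le_div_iff_mul_le hr0]
        omega
      refine ⟨h1, ?_⟩
      have h2 := Nat.lt_mul_div_succ X hr0
      have h3 : r * (X / r + 1) ≤ r * (2 * (X / r)) := Nat.mul_le_mul_left _ (by omega)
      have h4 : r * (2 * (X / r)) ≤ B * (2 * (X / r)) := Nat.mul_le_mul_right _ hrB
      have h5 : B * (2 * (X / r)) = 2 * B * (X / r) := by ring
      omega
    obtain ⟨H, hH⟩ : ∃ H, H = min (X / p) (X / q) := ⟨_, rfl⟩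
    have hH1 : 1 ≤ H := by
      rw [hH]
      exact le_min (hdiv p hp).1 (hdiv q hq).1
    have hH2 : X ≤ 2 * B * H := by
      rw [hH]
      rcases min_choice (X / p) (X / q) with h | h
      · rw [h]; exact (hdiv p hp).2
      · rw [h]; exact (hdiv q hq).2
    have hHX : H ≤ X := by
      rw [hH]
      exact (min_le_left _ _).trans (Nat.div_le_self _ _)
    rw [← hH]
    by_contra hcon
    push Not at hcon
    have hHX' : (H : ℝ) ≤ X := by exact_mod_cast hHX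
    obtain ⟨m, hm1, hm2, a, ha⟩ := hWR (dil p P - dil q P) 0 H (natDegree_dil d p q P hP) (by omega)
      (by linarith)
    rw [coeff_dil] at ha
    have hH0 : (1 : ℝ) ≤ H := by exact_mod_cast hH1
    have hX00 : (0 : ℝ) < X := by linarith
    have hsmall : (K : ℝ) / (H : ℝ) ^ d ≤ ((K * (2 * B) ^ d + 1 : ℕ) : ℝ) / (X : ℝ) ^ d := by
      rw [div_le_div_iff₀ (by positivity) (by positivity)]
      have h1 : (X : ℝ) ^ d ≤ (2 * B * H) ^ d := by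
        apply pow_le_pow_left₀ hX00.le
        exact_mod_cast hH2
      push_cast
      have h2 : (0 : ℝ) ≤ (H : ℝ) ^ d := by positivity
      calc (K : ℝ) * (X : ℝ) ^ d ≤ K * (2 * B * H) ^ d := mul_le_mul_of_nonneg_left h1 (Nat.cast_nonneg _)
        _ = (K * (2 * B) ^ d) * (H : ℝ) ^ d := by rw [mul_pow (2 * (B : ℝ))]; ring
        _ ≤ (K * (2 * B) ^ d + 1) * (H : ℝ) ^ d := mul_le_mul_of_nonneg_right (by linarith) h2
    -- the multiplier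
    have hkey : ∀ p q : ℕ, q < p → p ≤ B → ∀ a : ℤ, ((K * (2 * B) ^ d + 1 : ℕ) : ℝ) / (X : ℝ) ^ d <
        |(m : ℝ) * (((p : ℝ) ^ d - (q : ℝ) ^ d) * P.coeff d) - a| := by
      intro p q hqp hpB a
      have h1 : q ^ d < p ^ d := Nat.pow_lt_pow_left hqp (by omega)
      have h2 := hPE (m * (p ^ d - q ^ d)) (Nat.mul_pos hm1 (Nat.sub_pos_of_lt h1))
        (by
          have h3 : m * (p ^ d - q ^ d) ≤ K * (2 * B) ^ d := by
            apply Nat.mul_le_mul hm2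
            exact (Nat.sub_le _ _).trans (Nat.pow_le_pow_left (by omega) d)
          omega) a
      rw [Nat.cast_mul, Nat.cast_sub h1.le, Nat.cast_pow, Nat.cast_pow] at h2
      rwa [mul_assoc] at h2
    rcases lt_or_gt_of_ne hpq with h | h
    · have h1 := hkey q p h (hB q hq) (-a)
      have h2 : |(m : ℝ) * (((q : ℝ) ^ d - (p : ℝ) ^ d) * P.coeff d) - ((-a : ℤ) : ℝ)| =
          |(m : ℝ) * (((p : ℝ) ^ d - (q : ℝ) ^ d) * P.coeff d) - a| := by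
        rw [← abs_neg]
        congr 1
        push_cast
        ring
      rw [h2] at h1
      linarith
    · have h1 := hkey p q h (hB p hp) a
      linarith)
  -- Turan-Kubilius
  have hee : ∀ x : ℝ, ‖ee x‖ = 1 := fun x => Pool.Agent.H807R2.Dav.norm_ee x
  have h1 := hTK X hX0 0 (fun m => f m * ee (P.eval (m : ℝ))) (fun m => by
    rw [norm_mul, hee, mul_one]
    exact hf.1 m)
  obtain ⟨A, hA⟩ : ∃ A, A = W f P 0 X := ⟨_, rfl⟩
  have hA' : ∑ m ∈ Ioc 0 (0 + X), f m * ee (P.eval (m : ℝ)) = A := by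
    rw [hA]
    rfl
  rw [hA'] at h1
  rw [← hA]
  obtain ⟨D, hD⟩ : ∃ D : ℕ → ℂ, D = fun p => ∑ m ∈ (Ioc 0 (0 + X)).filter (fun m => p ∣ m),
    f m * ee (P.eval (m : ℝ)) := ⟨_, rfl⟩
  have h1' : ∑ p ∈ I, (1 / (p : ℝ)) * ‖(p : ℂ) * D p - A‖ ^ 2 ≤ 8 * (X : ℝ) ^ 2 := by
    rw [hD]
    exact h1
  have hDp : ∀ p ∈ I, (1 / (p : ℝ)) * ‖(p : ℂ) * D p‖ ^ 2 ≤
      2 * ((p : ℝ) * ‖W f (dil p P) 0 (X / p)‖ ^ 2) + 50 * (X : ℝ) ^ 2 * (1 / (p : ℝ) ^ 2) := by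
    intro p hp
    have hp1 : (1 : ℝ) ≤ p := by exact_mod_cast (hI p hp).one_lt.le
    have hp0 : (0 : ℝ) < p := by linarith
    have h2 := PushL.main hf P 0 X p (hI p hp)
    rw [Nat.zero_div] at h2
    have h2' : ‖D p‖ ≤ ‖W f (dil p P) 0 (X / p)‖ + 3 + 2 * ((X : ℝ) / (p * p)) := by
      rw [hD]
      exact h2
    have hpX : (p : ℝ) * p ≤ X := by
      have h3 : p * p ≤ X := by
        calc p * p ≤ B * B := Nat.mul_le_mul (hB p hp) (hB p hp)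
          _ = B ^ 2 := by ring
          _ ≤ X := hX2
      exact_mod_cast h3
    have h3 : (1 : ℝ) ≤ (X : ℝ) / (p * p) := by
      rw [le_div_iff₀ (by positivity)]
      linarith
    obtain ⟨w, hw⟩ : ∃ w, w = ‖W f (dil p P) 0 (X / p)‖ := ⟨_, rfl⟩
    have hw0 : 0 ≤ w := by rw [hw]; exact norm_nonneg _
    rw [← hw] at h2' ⊢
    have h4 : ‖D p‖ ≤ w + 5 * ((X : ℝ) / (p * p)) := by linarith
    rw [norm_mul, Complex.norm_natCast]
    have h5 : ‖D p‖ ^ 2 ≤ 2 * w ^ 2 + 50 * ((X : ℝ) / (p * p)) ^ 2 := by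
      have h6 : ‖D p‖ ^ 2 ≤ (w + 5 * ((X : ℝ) / (p * p))) ^ 2 := pow_le_pow_left₀ (norm_nonneg _) h4 2
      nlinarith [sq_nonneg (w - 5 * ((X : ℝ) / (p * p)))]
    calc (1 / (p : ℝ)) * ((p : ℝ) * ‖D p‖) ^ 2 = p * ‖D p‖ ^ 2 := by field_simp
      _ ≤ p * (2 * w ^ 2 + 50 * ((X : ℝ) / (p * p)) ^ 2) := mul_le_mul_of_nonneg_left h5 hp0.le
      _ = 2 * (p * w ^ 2) + 50 * (X : ℝ) ^ 2 * (1 / (p : ℝ) ^ 3) := by
          field_simp
      _ ≤ 2 * (p * w ^ 2) + 50 * (X : ℝ) ^ 2 * (1 / (p : ℝ) ^ 2) := by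
          have h6 : 1 / (p : ℝ) ^ 3 ≤ 1 / (p : ℝ) ^ 2 := by
            apply one_div_le_one_div_of_le (by positivity)
            exact pow_le_pow_right₀ hp1 (by norm_num)
          have h7 : (0 : ℝ) ≤ 50 * (X : ℝ) ^ 2 := by positivity
          nlinarith [mul_le_mul_of_nonneg_left h6 h7]
  have hZle : ∑ p ∈ I, 1 / (p : ℝ) ^ 2 ≤ Z := hsum.sum_le_tsum I (fun n _ => by positivity)
  have h3 : ∑ p ∈ I, (1 / (p : ℝ)) * ‖(p : ℂ) * D p‖ ^ 2 ≤ 4 * (X : ℝ) ^ 2 + 50 * (X : ℝ) ^ 2 * Z := by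
    refine (sum_le_sum hDp).trans ?_
    rw [sum_add_distrib, ← mul_sum, ← mul_sum]
    have h4 : 50 * (X : ℝ) ^ 2 * ∑ p ∈ I, 1 / (p : ℝ) ^ 2 ≤ 50 * (X : ℝ) ^ 2 * Z :=
      mul_le_mul_of_nonneg_left hZle (by positivity)
    linarith
  have h4 : (∑ p ∈ I, 1 / (p : ℝ)) * ‖A‖ ^ 2 ≤ (24 + 100 * Z) * (X : ℝ) ^ 2 := by
    have h5 : ∀ p ∈ I, (1 / (p : ℝ)) * ‖A‖ ^ 2 ≤
        2 * ((1 / (p : ℝ)) * ‖(p : ℂ) * D p - A‖ ^ 2) + 2 * ((1 / (p : ℝ)) * ‖(p : ℂ) * D p‖ ^ 2) := by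
      intro p _
      have h6 : ‖A‖ ≤ ‖(p : ℂ) * D p - A‖ + ‖(p : ℂ) * D p‖ := by
        have : A = (p : ℂ) * D p - ((p : ℂ) * D p - A) := by ring
        calc ‖A‖ = ‖(p : ℂ) * D p - ((p : ℂ) * D p - A)‖ := by rw [← this]
          _ ≤ ‖(p : ℂ) * D p‖ + ‖(p : ℂ) * D p - A‖ := norm_sub_le _ _
          _ = _ := add_comm _ _
      have h7 : ‖A‖ ^ 2 ≤ 2 * ‖(p : ℂ) * D p - A‖ ^ 2 + 2 * ‖(p : ℂ) * D p‖ ^ 2 := by
        have h8 : ‖A‖ ^ 2 ≤ (‖(p : ℂ) * D p - A‖ + ‖(p : ℂ) * D p‖) ^ 2 :=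
          pow_le_pow_left₀ (norm_nonneg _) h6 2
        nlinarith [sq_nonneg (‖(p : ℂ) * D p - A‖ - ‖(p : ℂ) * D p‖)]
      have h9 : (0 : ℝ) ≤ 1 / (p : ℝ) := by positivity
      nlinarith [mul_le_mul_of_nonneg_left h7 h9]
    rw [sum_mul]
    refine (sum_le_sum h5).trans ?_
    rw [sum_add_distrib, ← mul_sum, ← mul_sum]
    nlinarith
  -- the conclusion
  have hε2 : 0 < ε ^ 2 := by positivity
  have h5 : (24 + 100 * Z) ≤ (∑ p ∈ I, 1 / (p : ℝ)) * ε ^ 2 := (div_le_iff₀ hε2).1 hIA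
  have h6 : 0 < ∑ p ∈ I, 1 / (p : ℝ) := by
    by_contra hcon
    push Not at hcon
    have : (∑ p ∈ I, 1 / (p : ℝ)) * ε ^ 2 ≤ 0 := mul_nonpos_of_nonpos_of_nonneg hcon hε2.le
    linarith
  have h7 : (∑ p ∈ I, 1 / (p : ℝ)) * ‖A‖ ^ 2 ≤ (∑ p ∈ I, 1 / (p : ℝ)) * (ε * X) ^ 2 := by
    calc (∑ p ∈ I, 1 / (p : ℝ)) * ‖A‖ ^ 2 ≤ (24 + 100 * Z) * (X : ℝ) ^ 2 := h4
      _ ≤ ((∑ p ∈ I, 1 / (p : ℝ)) * ε ^ 2) * (X : ℝ) ^ 2 :=
          mul_le_mul_of_nonneg_right h5 (by positivity)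
      _ = _ := by ring
  have h8 : ‖A‖ ^ 2 ≤ (ε * X) ^ 2 := le_of_mul_le_mul_left h7 h6
  exact (pow_le_pow_iff_left₀ (norm_nonneg _) (by positivity) (by norm_num)).1 h8

end Pool.Agent.T9h55.MD
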