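import Pool.Agent.Helper44K9.FU.Bes
import Pool.Agent.T9h55.MD.Long
import Pool.Agent.Helper44K9.FU.Mone

/-! Linear phases: separated frequencies, the inequality of Bessel with a sharp constant, lists and saturation
(helper55). -/

set_option autoImplicit false

namespace Pool.Agent.T9h55.MD

open Finset Polynomial MeasureTheory
open Pool.Agent.Helper44K9.FU
open Pool.Agent.H807R2.Dav (ee norm_ee ee_add ee_int dd_le dd ee_zero dd_ge dd_add_int)

/-- the sum of `f(m) e(α m)` over `n < m ≤ n + H` -/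
noncomputable def WL (f : ℕ → ℂ) (α : ℝ) (n H : ℕ) : ℂ := W f (lin α) n H

lemma WL_le {f : ℕ → ℂ} (hf : ∀ n, ‖f n‖ ≤ 1) (α : ℝ) (n H : ℕ) : ‖WL f α n H‖ ≤ H := FL.W_le hf _ n H

/-- a linear polynomial -/
lemma W_lin {f : ℕ → ℂ} {P : ℝ[X]} (hP : P.natDegree ≤ 1) (n H : ℕ) : ‖W f P n H‖ = ‖WL f (P.coeff 1) n H‖ := by
  have h1 : W f P n H = ee (P.coeff 0) * WL f (P.coeff 1) n H := by
    unfold WL W
    rw [mul_sum]
    refine sum_congr rfl fun m _ => ?_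
    rw [eval_deg1 hP, lin_eval, ee_add]
    ring
  rw [h1, norm_mul, norm_ee, one_mul]

lemma lin_deg (α : ℝ) : (lin α).natDegree ≤ 1 := (natDegree_C_mul_le _ _).trans natDegree_X_le

lemma lin_coeff (α : ℝ) : (lin α).coeff 1 = α := by simp [lin]

lemma dil_lin (f : ℕ → ℂ) (p : ℕ) (α : ℝ) (n H : ℕ) : ‖W f (dil p (lin α)) n H‖ = ‖WL f (p * α) n H‖ := by
  rw [W_lin (dil_natDegree (lin_deg α)), dil_coeff, lin_coeff, pow_one]

/-- frequencies which are equal up to `K / H` -/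
def Rl (K H : ℕ) (α β : ℝ) : Prop := ∃ a : ℤ, |α - β - a| ≤ K / (H : ℝ)

lemma Rl.symm' {K H : ℕ} {α β : ℝ} (h : Rl K H α β) : Rl K H β α := by
  obtain ⟨a, ha⟩ := h
  refine ⟨-a, ?_⟩
  push_cast
  rw [show β - α - -(a : ℝ) = -(α - β - a) by ring, abs_neg]
  exact ha

lemma Rl.mono {K K' H : ℕ} {α β : ℝ} (h : Rl K H α β) (hK : K ≤ K') : Rl K' H α β := by
  obtain ⟨a, ha⟩ := h
  refine ⟨a, ha.trans ?_⟩
  have : (K : ℝ) ≤ K' := by exact_mod_cast hK
  gcongr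

/-- geometric sums -/
lemma geo {θ δ : ℝ} (hδ : 0 < δ) (h : ∀ a : ℤ, δ < |θ - a|) (n H : ℕ) :
    ‖∑ m ∈ Ioc n (n + H), ee (θ * (m : ℝ))‖ ≤ 1 / (2 * δ) := by
  have h1 : 4 * δ ≤ dd θ := by
    have e1 : dd θ = dd (Int.fract θ) := by
      rw [← Int.floor_add_fract θ, add_comm, dd_add_int]
      simp
    rw [e1]
    refine le_trans ?_ (dd_ge (Int.fract_nonneg θ) (Int.fract_lt_one θ).le)
    have e2 := h ⌊θ⌋
    have e3 := h (⌊θ⌋ + 1)
    have e4 : θ - ⌊θ⌋ = Int.fract θ := Int.self_sub_floor θ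
    rw [e4, abs_of_nonneg (Int.fract_nonneg θ)] at e2
    push_cast at e3
    have e5 : θ - (⌊θ⌋ + 1) = -(1 - Int.fract θ) := by rw [← e4]; ring
    rw [e5, abs_neg, abs_of_nonneg (by linarith [Int.fract_lt_one θ])] at e3
    have : δ ≤ min (Int.fract θ) (1 - Int.fract θ) := le_min e2.le e3.le
    linarith
  have h2 : ∀ H : ℕ, (1 - ee θ) * ∑ m ∈ Ioc n (n + H), ee (θ * (m : ℝ)) =
      ee (θ * ((n + 1 : ℕ) : ℝ)) - ee (θ * ((n + H + 1 : ℕ) : ℝ)) := by
    intro H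
    induction H with
    | zero => simp
    | succ H ih =>
      have e1 : Ioc n (n + (H + 1)) = insert (n + (H + 1)) (Ioc n (n + H)) := by
        ext m; simp only [mem_Ioc, mem_insert]; omega
      rw [e1, sum_insert (by simp), mul_add, ih]
      have e2 : ee (θ * ((n + (H + 1) + 1 : ℕ) : ℝ)) = ee θ * ee (θ * ((n + (H + 1) : ℕ) : ℝ)) := by
        rw [← ee_add]; congr 1; push_cast; ring
      have e3 : ((n + H + 1 : ℕ) : ℝ) = ((n + (H + 1) : ℕ) : ℝ) := by push_cast; ring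
      rw [e2, e3]
      ring
  have h3 : dd θ * ‖∑ m ∈ Ioc n (n + H), ee (θ * (m : ℝ))‖ ≤ 2 := by
    unfold dd
    rw [← norm_mul, h2 H]
    refine (norm_sub_le _ _).trans ?_
    rw [norm_ee, norm_ee]
    norm_num
  rw [le_div_iff₀ (by positivity)]
  have h4 := mul_le_mul_of_nonneg_right h1 (norm_nonneg (∑ m ∈ Ioc n (n + H), ee (θ * (m : ℝ))))
  nlinarith

/-- a list of `r` separated frequencies which correlate with `f` -/
def L1 (f : ℕ → ℂ) (K : ℕ) (t : ℝ) (n H r : ℕ) : Prop :=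
  ∃ α : Fin r → ℝ, (∀ i, t * H ≤ ‖WL f (α i) n H‖) ∧ ∀ i j, i ≠ j → ¬ Rl K H (α i) (α j)

open BesL in
/-- the inequality of Bessel -/
theorem bes1 {f : ℕ → ℂ} (hf : ∀ n, ‖f n‖ ≤ 1) {K n H r : ℕ} {t : ℝ} (hK : 1 ≤ K) (hH : 1 ≤ H) (ht : 0 < t)
    (h : L1 f K t n H r) : (r : ℝ) * (t ^ 2 - 1 / (2 * K)) ≤ 1 := by
  obtain ⟨α, hW, hrel⟩ := h
  have hH0 : (0 : ℝ) < H := by exact_mod_cast hH
  have hKr : (0 : ℝ) < K := by exact_mod_cast hK
  set P : Fin r → ℝ[X] := fun i => lin (α i) with hP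
  -- off the diagonal
  have hoff : ∀ i j, i ≠ j → ‖∑ m ∈ Ioc n (n + H), ee ((P i).eval (m : ℝ) - (P j).eval (m : ℝ))‖ ≤
      1 / (2 * K) * H := by
    intro i j hij
    have h1 := geo (θ := α i - α j) (δ := K / H) (by positivity) (fun a => by
      by_contra hcon
      push Not at hcon
      exact hrel i j hij ⟨a, hcon⟩) n H
    have h2 : ∀ m : ℕ, (P i).eval (m : ℝ) - (P j).eval (m : ℝ) = (α i - α j) * m := by
      intro m
      simp only [hP, lin_eval]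
      ring
    simp only [h2]
    refine h1.trans (le_of_eq ?_)
    field_simp
  have hdiag : ∀ i, ‖∑ m ∈ Ioc n (n + H), ee ((P i).eval (m : ℝ) - (P i).eval (m : ℝ))‖ ≤ H := by
    intro i
    refine (norm_sum_le _ _).trans ?_
    simp [norm_ee]
  have hgram : ∑ i, ∑ j, ‖∑ m ∈ Ioc n (n + H), ee ((P i).eval (m : ℝ) - (P j).eval (m : ℝ))‖ ≤
      r * H + (r : ℝ) ^ 2 * (1 / (2 * K) * H) := by
    calc _ ≤ ∑ i : Fin r, ∑ j : Fin r, ((if i = j then (H : ℝ) else 0) + 1 / (2 * K) * H) := by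
          refine sum_le_sum fun i _ => sum_le_sum fun j _ => ?_
          have h0 : (0 : ℝ) ≤ 1 / (2 * K) * H := by positivity
          by_cases hij : i = j
          · subst hij
            rw [if_pos rfl]
            linarith [hdiag i]
          · rw [if_neg hij, zero_add]
            exact hoff i j hij
      _ = _ := by
          simp only [sum_add_distrib, sum_ite_eq, mem_univ, if_true, sum_const, card_univ,
            Fintype.card_fin, nsmul_eq_mul]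
          ring
  obtain ⟨c, hc⟩ : ∃ c : Fin r → ℂ, c = fun i => (starRingEnd ℂ) (W f (P i) n H) /
    (‖W f (P i) n H‖ : ℂ) := ⟨_, rfl⟩
  have hWpos : ∀ i, 0 < ‖W f (P i) n H‖ := fun i => lt_of_lt_of_le (by positivity) (hW i)
  have hc1 : ∀ i, ‖c i‖ ≤ 1 := by
    intro i
    rw [hc]
    simp only [norm_div, RCLike.norm_conj, Complex.norm_real, norm_norm]
    rw [div_self (hWpos i).ne']
  have hcW : ∀ i, c i * W f (P i) n H = (‖W f (P i) n H‖ : ℂ) := by
    intro i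
    rw [hc]
    have h1 : (‖W f (P i) n H‖ : ℂ) ≠ 0 := by
      exact_mod_cast (hWpos i).ne'
    simp only
    rw [div_mul_eq_mul_div, div_eq_iff h1, mul_comm, Complex.mul_conj', pow_two]
  have hsum : ∑ m ∈ Ioc n (n + H), f m * (∑ i, c i * ee ((P i).eval (m : ℝ))) =
      ((∑ i, ‖W f (P i) n H‖ : ℝ) : ℂ) := by
    push_cast
    rw [sum_congr rfl fun i _ => (hcW i).symm]
    simp only [mul_sum]
    rw [sum_comm]
    refine sum_congr rfl fun i _ => ?_
    unfold W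
    rw [mul_sum]
    refine sum_congr rfl fun m _ => ?_
    ring
  have h5 := cs (Ioc n (n + H)) f (fun m => ∑ i, c i * ee ((P i).eval (m : ℝ))) hf
  rw [hsum, Complex.norm_real, Real.norm_eq_abs, sq_abs, Nat.card_Ioc, Nat.add_sub_cancel_left]
    at h5
  have h6 := gram (Ioc n (n + H)) r c hc1 (fun i m => (P i).eval (m : ℝ))
  have h7 : (r : ℝ) * (t * H) ≤ ∑ i, ‖W f (P i) n H‖ := by
    calc (r : ℝ) * (t * H) = ∑ _i : Fin r, t * H := by
          rw [sum_const, card_univ, Fintype.card_fin, nsmul_eq_mul]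
      _ ≤ _ := sum_le_sum fun i _ => hW i
  have h8 : ((r : ℝ) * (t * H)) ^ 2 ≤ H * (r * H + (r : ℝ) ^ 2 * (1 / (2 * K) * H)) := by
    calc ((r : ℝ) * (t * H)) ^ 2 ≤ (∑ i, ‖W f (P i) n H‖) ^ 2 :=
          pow_le_pow_left₀ (by positivity) h7 2
      _ ≤ _ := h5
      _ ≤ _ := mul_le_mul_of_nonneg_left (h6.trans hgram) hH0.le
  rcases Nat.eq_zero_or_pos r with h0 | h0
  · rw [h0, Nat.cast_zero, zero_mul]
    exact zero_le_one
  · have hr0 : (0 : ℝ) < r := by exact_mod_cast h0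
    have h10 : (r : ℝ) * (t ^ 2 - 1 / (2 * K)) * (r * (H : ℝ) ^ 2) ≤ 1 * (r * (H : ℝ) ^ 2) := by
      have e1 : (r : ℝ) * (t ^ 2 - 1 / (2 * K)) * (r * (H : ℝ) ^ 2) =
          ((r : ℝ) * (t * H)) ^ 2 - (r : ℝ) ^ 2 * (1 / (2 * K) * H) * H := by ring
      rw [e1]
      nlinarith
    exact le_of_mul_le_mul_right h10 (by positivity)

/-- relations after dilation by two primes come from a relation -/
theorem nr1 (K B : ℕ) : ∃ H₀ : ℕ, ∀ H ≥ H₀, ∀ (α β : ℝ) (p q : ℕ), p.Prime → q.Prime →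
    p ≠ q → p ≤ B → q ≤ B → Rl K (H / p) (p * α) (p * β) → Rl K (H / q) (q * α) (q * β) → Rl (K + 1) H α β := by
  refine ⟨2 * K * B ^ 2 + (K + 1) * B + 2 * B + 1, ?_⟩
  intro H hH α β p q hp hq hpq hpB hqB h1 h2
  obtain ⟨a, ha⟩ := h1
  obtain ⟨b, hb⟩ := h2
  have hH0 : (0 : ℝ) < H := by exact_mod_cast (by omega : 0 < H)
  have hBr : (0 : ℝ) ≤ B := Nat.cast_nonneg _
  have hKr : (0 : ℝ) ≤ K := Nat.cast_nonneg _
  have hHB : (B : ℝ) < H := by exact_mod_cast (by omega : B < H)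
  have key : ∀ (p : ℕ) (a : ℤ), p.Prime → p ≤ B → |(p : ℝ) * α - p * β - a| ≤ K / ((H / p : ℕ) : ℝ) →
      |(p : ℝ) * (α - β) - a| ≤ K * p / ((H : ℝ) - B) := by
    intro p a hp hpB h
    have hp0 : 0 < p := hp.pos
    have hp0' : (0 : ℝ) < p := by exact_mod_cast hp0
    have hpB' : (p : ℝ) ≤ B := by exact_mod_cast hpB
    have h3 : ((H : ℝ) - B) / p ≤ ((H / p : ℕ) : ℝ) := by
      have h4 : H < (H / p + 1) * p := by
        nlinarith [Nat.div_mul_le_self H p, Nat.mod_lt H hp0, Nat.div_add_mod H p]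
      have h5 : (H : ℝ) < (((H / p : ℕ) : ℝ) + 1) * p := by exact_mod_cast h4
      rw [div_le_iff₀ hp0']
      linarith
    have h8 : (0 : ℝ) < ((H : ℝ) - B) / p := div_pos (by linarith) hp0'
    have e1 : (p : ℝ) * (α - β) - a = p * α - p * β - a := by ring
    rw [e1]
    refine h.trans ?_
    calc (K : ℝ) / ((H / p : ℕ) : ℝ) ≤ K / (((H : ℝ) - B) / p) := by gcongr
      _ = K * p / ((H : ℝ) - B) := by rw [div_div_eq_mul_div]
  have ka := key p a hp hpB ha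
  have kb := key q b hq hqB hb
  have hp0' : (0 : ℝ) < p := by exact_mod_cast hp.pos
  have hq0' : (0 : ℝ) < q := by exact_mod_cast hq.pos
  have hpB' : (p : ℝ) ≤ B := by exact_mod_cast hpB
  have hqB' : (q : ℝ) ≤ B := by exact_mod_cast hqB
  have hd0 : (0 : ℝ) < (H : ℝ) - B := by linarith
  -- the fractions agree
  have h3 : |(q : ℝ) * a - p * b| < 1 := by
    have e1 : (q : ℝ) * a - p * b = p * (q * (α - β) - b) - q * (p * (α - β) - a) := by ring
    rw [e1]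
    refine (abs_sub _ _).trans_lt ?_
    rw [abs_mul, abs_mul, abs_of_pos hp0', abs_of_pos hq0']
    have f1 : (p : ℝ) * |(q : ℝ) * (α - β) - b| ≤ K * B ^ 2 / ((H : ℝ) - B) := by
      calc (p : ℝ) * |(q : ℝ) * (α - β) - b| ≤ p * (K * q / ((H : ℝ) - B)) := mul_le_mul_of_nonneg_left kb hp0'.le
        _ = K * (p * q) / ((H : ℝ) - B) := by ring
        _ ≤ K * (B * B) / ((H : ℝ) - B) := by gcongr
        _ = _ := by ring
    have f2 : (q : ℝ) * |(p : ℝ) * (α - β) - a| ≤ K * B ^ 2 / ((H : ℝ) - B) := by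
      calc (q : ℝ) * |(p : ℝ) * (α - β) - a| ≤ q * (K * p / ((H : ℝ) - B)) := mul_le_mul_of_nonneg_left ka hq0'.le
        _ = K * (q * p) / ((H : ℝ) - B) := by ring
        _ ≤ K * (B * B) / ((H : ℝ) - B) := by gcongr
        _ = _ := by ring
    have f4 : 2 * (K : ℝ) * B ^ 2 + B < H := by
      have : 2 * K * B ^ 2 + B < H := by
        have : 0 ≤ (K + 1) * B := Nat.zero_le _
        omega
      exact_mod_cast this
    refine (add_le_add f1 f2).trans_lt ?_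
    rw [← add_div, div_lt_one hd0]
    linarith
  have h4 : (q : ℤ) * a = (p : ℤ) * b := by
    have h5 : |((q : ℤ) * a - (p : ℤ) * b : ℤ)| < 1 := by
      have h6 : ((|((q : ℤ) * a - (p : ℤ) * b : ℤ)| : ℤ) : ℝ) < 1 := by
        push_cast
        exact h3
      exact_mod_cast h6
    have := Int.abs_lt_one_iff.1 h5
    omega
  have h5 : (p : ℤ) ∣ a := by
    have h6 : (p : ℤ) ∣ (q : ℤ) * a := ⟨b, h4⟩
    have h7 : IsCoprime (p : ℤ) (q : ℤ) := by
      rw [Nat.isCoprime_iff_coprime]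
      exact (Nat.coprime_primes hp hq).2 hpq
    exact h7.dvd_of_dvd_mul_left h6
  obtain ⟨a', rfl⟩ := h5
  refine ⟨a', ?_⟩
  have h6 : (p : ℝ) * (α - β) - (((p : ℤ) * a' : ℤ) : ℝ) = p * (α - β - a') := by
    push_cast
    ring
  rw [h6, abs_mul, abs_of_pos hp0'] at ka
  have h7 : (p : ℝ) * |α - β - a'| ≤ p * (K / ((H : ℝ) - B)) := by
    refine ka.trans (le_of_eq ?_)
    ring
  have h8 := le_of_mul_le_mul_left h7 hp0'
  refine h8.trans ?_
  push_cast
  rw [div_le_div_iff₀ hd0 hH0]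
  have h9 : ((K : ℝ) + 1) * B ≤ H := by
    have : (K + 1) * B ≤ H := by
      have : 0 ≤ 2 * K * B ^ 2 := Nat.zero_le _
      omega
    exact_mod_cast this
  nlinarith

/-- the maximal length of a list -/
noncomputable def rk1 (f : ℕ → ℂ) (K : ℕ) (t : ℝ) (n H : ℕ) : ℕ :=
  if 1 ≤ H then sSup {r | L1 f K t n H r} else 0

lemma L1.zero (f : ℕ → ℂ) (K : ℕ) (t : ℝ) (n H : ℕ) : L1 f K t n H 0 :=
  ⟨fun i => i.elim0, fun i => i.elim0, fun i => i.elim0⟩

lemma rk1_spec {f : ℕ → ℂ} {K : ℕ} {t : ℝ} {n H R : ℕ} (hH : 1 ≤ H)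
    (hR : ∀ r, L1 f K t n H r → r ≤ R) :
    L1 f K t n H (rk1 f K t n H) ∧ ∀ r, L1 f K t n H r → r ≤ rk1 f K t n H := by
  unfold rk1
  rw [if_pos hH]
  have hb : BddAbove {r | L1 f K t n H r} := ⟨R, fun r hr => hR r hr⟩
  exact ⟨Nat.sSup_mem ⟨0, L1.zero f K t n H⟩ hb, fun r hr => le_csSup hb hr⟩

lemma rk1_le {f : ℕ → ℂ} {K : ℕ} {t : ℝ} {n H R : ℕ}
    (hR : 1 ≤ H → ∀ r, L1 f K t n H r → r ≤ R) : rk1 f K t n H ≤ R := by
  by_cases hH : 1 ≤ H
  · exact hR hH _ (rk1_spec hH (hR hH)).1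
  · unfold rk1
    rw [if_neg hH]
    exact Nat.zero_le _

/-- saturation -/
lemma saturated1 {f : ℕ → ℂ} {K : ℕ} {t : ℝ} {n H r : ℕ} {α : Fin r → ℝ} {p : ℕ} {R : ℕ}
    (hH : 1 ≤ H / p) (hR : ∀ r, L1 f K t (n / p) (H / p) r → r ≤ R)
    (h1 : ∀ i, t * ((H / p : ℕ) : ℝ) ≤ ‖WL f (p * α i) (n / p) (H / p)‖)
    (h2 : ∀ i j, i ≠ j → ¬ Rl K (H / p) (p * α i) (p * α j)) :
    r ≤ rk1 f K t (n / p) (H / p) ∧ (rk1 f K t (n / p) (H / p) = r → ∀ β : ℝ,
      t * ((H / p : ℕ) : ℝ) ≤ ‖WL f β (n / p) (H / p)‖ → ∃ i, Rl K (H / p) β (p * α i)) := by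
  have hs := rk1_spec hH hR
  refine ⟨hs.2 r ⟨fun i => p * α i, h1, h2⟩, ?_⟩
  intro hr β hβ
  by_contra hcon
  push Not at hcon
  have h3 : L1 f K t (n / p) (H / p) (r + 1) := by
    refine ⟨Fin.cons β (fun i => p * α i), ?_, ?_⟩
    · intro i
      refine Fin.cases ?_ (fun i => ?_) i
      · simpa using hβ
      · simpa using h1 i
    · intro i j
      refine Fin.cases ?_ (fun i => ?_) i
      · refine Fin.cases (fun h => absurd rfl h) (fun j _ => ?_) j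
        rw [Fin.cons_zero, Fin.cons_succ]
        exact hcon j
      · refine Fin.cases (fun _ => ?_) (fun j hij => ?_) j
        · rw [Fin.cons_zero, Fin.cons_succ]
          exact fun h => hcon i h.symm'
        · rw [Fin.cons_succ, Fin.cons_succ]
          exact h2 i j fun h => hij (by rw [h])
  have := hs.2 _ h3
  omega

end Pool.Agent.T9h55.MD
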