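import Pool.Agent.T9h55.MD.Hier
import Pool.Agent.T9h55.MD.Cantor

/-! Rotations and polynomial orbits on tori, and linear and polynomial phases (helper55). -/

set_option autoImplicit false

namespace Pool.Agent.T9h55.MD

open Finset Polynomial MeasureTheory
open Pool.Agent.Helper44K9.FU
open Pool.Agent.H807R2.Dav (ee norm_ee)

/-- the supremum over all rotations in `V` and all starting points -/
noncomputable def rSup {m : ℕ} (F : C(Fin m → UnitAddCircle, ℂ)) (V : Set (Fin m → UnitAddCircle)) (f : ℕ → ℂ)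
    (n H : ℕ) : ℝ :=
  ⨆ p : V × (Fin m → UnitAddCircle), ‖∑ h ∈ Icc 1 H, f (n + h) * F (p.2 + (n + h) • (p.1 : Fin m → UnitAddCircle))‖

/-- uniform smallness -/
def SmallS (s : ℕ → ℕ → ℝ) : Prop := ∀ ε : ℝ, 0 < ε → ∃ H₀ : ℕ, ∀ N H : ℕ, H₀ ≤ H → H ≤ N →
  ∑ n ∈ Icc 1 N, (1 / (n : ℝ)) * s n H ≤ ε * H * Real.log N

/-- the supremum over all rotations is at most the one over the polynomial orbits of degree one -/
lemma rSup_le {m : ℕ} (F : C(Fin m → UnitAddCircle, ℂ)) {f : ℕ → ℂ} (hf : ∀ n, ‖f n‖ ≤ 1) (n H : ℕ) :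
    rSup F Set.univ f n H ≤ oSup 1 F f n H := by
  have hbdd : BddAbove (Set.range fun P : {P : Fin m → ℝ[X] // ∀ i, (P i).natDegree ≤ 1} =>
      ‖∑ h ∈ Icc 1 H, f (n + h) * F (fun i => (((P.1 i).eval ((n + h : ℕ) : ℝ) : ℝ) : UnitAddCircle))‖) := by
    refine ⟨∑ h ∈ Icc 1 H, ‖F‖, ?_⟩
    rintro _ ⟨p, rfl⟩
    refine (norm_sum_le _ _).trans (sum_le_sum fun h _ => ?_)
    rw [norm_mul]
    calc _ ≤ 1 * ‖F‖ := mul_le_mul (hf (n + h)) (F.norm_coe_le_norm _) (norm_nonneg _) zero_le_one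
      _ = ‖F‖ := one_mul _
  refine Real.iSup_le (fun p => ?_) (Real.iSup_nonneg fun _ => norm_nonneg _)
  obtain ⟨⟨g, hg⟩, x⟩ := p
  choose c hc using fun i => QuotientAddGroup.mk_surjective (x i)
  choose β hβ using fun i => QuotientAddGroup.mk_surjective (g i)
  have hdeg : ∀ i, (C (c i) + C (β i) * X : ℝ[X]).natDegree ≤ 1 := by
    intro i
    refine (natDegree_add_le _ _).trans (max_le ?_ ?_)
    · rw [natDegree_C]; omega
    · exact (natDegree_C_mul_le _ _).trans natDegree_X_le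
  have h1 : ∀ h : ℕ, (x + (n + h) • g) = fun i => ((((C (c i) + C (β i) * X : ℝ[X])).eval ((n + h : ℕ) : ℝ) : ℝ) :
      UnitAddCircle) := by
    intro h
    funext i
    have hc' : ((c i : ℝ) : UnitAddCircle) = x i := hc i
    have hβ' : ((β i : ℝ) : UnitAddCircle) = g i := hβ i
    rw [Pi.add_apply, Pi.smul_apply, ← hc', ← hβ']
    simp only [eval_add, eval_mul, eval_C, eval_X]
    rw [AddCircle.coe_add, ← AddCircle.coe_nsmul, nsmul_eq_mul, mul_comm]
  simp only [h1]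
  exact le_ciSup hbdd (⟨fun i => C (c i) + C (β i) * X, hdeg⟩ : {P : Fin m → ℝ[X] // ∀ i, (P i).natDegree ≤ 1})

/-- the projection of a set of rotations -/
lemma bdd_of_rotations {m : ℕ} {V : Set (Fin (m + 1) → UnitAddCircle)} {f : ℕ → ℂ} (hf : ∀ n, ‖f n‖ ≤ 1)
    (h : ∀ F : C(Fin (m + 1) → UnitAddCircle, ℂ), SmallS (rSup F V f)) :
    BddF f 1 ((fun g : Fin (m + 1) → UnitAddCircle => g 0) '' V) 0 := by
  intro ε hε
  set F : C(Fin (m + 1) → UnitAddCircle, ℂ) := ⟨fun y => (fourier 1 (y 0) : ℂ), by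
    exact (fourier 1).continuous.comp (continuous_apply 0)⟩ with hF
  obtain ⟨H₀, hH₀⟩ := h F ε hε
  refine ⟨H₀, fun N H hH hN => le_trans (sum_le_sum fun n _ => ?_) ((hH₀ N H hH hN).trans (le_of_eq (by ring)))⟩
  refine mul_le_mul_of_nonneg_left ?_ (by positivity)
  refine FL.wSup_le (Real.iSup_nonneg fun _ => norm_nonneg _) fun P hP hPE => ?_
  obtain ⟨g, hgV, hg⟩ := hPE
  simp only at hg
  have hbdd : BddAbove (Set.range fun p : V × (Fin (m + 1) → UnitAddCircle) =>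
      ‖∑ h ∈ Icc 1 H, f (n + h) * F (p.2 + (n + h) • (p.1 : Fin (m + 1) → UnitAddCircle))‖) := by
    refine ⟨∑ h ∈ Icc 1 H, (1 : ℝ), ?_⟩
    rintro _ ⟨p, rfl⟩
    refine (norm_sum_le _ _).trans (sum_le_sum fun h _ => ?_)
    rw [norm_mul]
    have e2 : ‖F (p.2 + (n + h) • (p.1 : Fin (m + 1) → UnitAddCircle))‖ = 1 :=
      Pool.Agent.Helper44K9.FB.norm_fourier _
    rw [e2, mul_one]
    exact hf (n + h)
  refine le_trans (le_of_eq ?_) (le_ciSup hbdd (⟨⟨g, hgV⟩, fun _ => ((P.coeff 0 : ℝ) : UnitAddCircle)⟩ :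
    V × (Fin (m + 1) → UnitAddCircle)))
  congr 1
  unfold W
  rw [Pool.Agent.Helper44K9.FB.Ioc_image, sum_image fun a _ b _ hab => by omega]
  refine sum_congr rfl fun h _ => ?_
  have e3 : F ((fun _ => ((P.coeff 0 : ℝ) : UnitAddCircle)) + (n + h) • g) =
      Pool.Agent.H807R2.Dav.ee (P.eval ((n + h : ℕ) : ℝ)) := by
    show (fourier 1 (((fun _ : Fin (m + 1) => ((P.coeff 0 : ℝ) : UnitAddCircle)) + (n + h) • g) 0) : ℂ) = _
    rw [Pi.add_apply, Pi.smul_apply, hg, ← AddCircle.coe_nsmul, ← AddCircle.coe_add,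
      Pool.Agent.Helper44K9.FB.fourier_real, eval_deg1 hP, nsmul_eq_mul, mul_comm (P.coeff 1)]
  rw [e3]

/-- all rotations of all tori, and all linear phases -/
theorem rot_iff {f : ℕ → ℂ} (hf : Mul1 f) :
    (∀ (k : ℕ) (F : C(Fin k → UnitAddCircle, ℂ)), SmallS (rSup F Set.univ f)) ↔ Full 1 f := by
  constructor
  · intro h
    have h1 := bdd_of_rotations (m := 0) (V := Set.univ) hf.1 (fun F => h 1 F)
    have h2 : (fun g : Fin (0 + 1) → UnitAddCircle => g 0) '' Set.univ = Set.univ := by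
      rw [Set.image_univ]
      exact Set.range_eq_univ.2 fun x => ⟨fun _ => x, rfl⟩
    rw [h2] at h1
    exact full_iff.2 h1
  · intro h k F ε hε
    obtain ⟨H₀, hH₀⟩ := orbits F hf h ε hε
    refine ⟨H₀, fun N H hH hN => le_trans (sum_le_sum fun n _ => ?_) (hH₀ N H hH hN)⟩
    exact mul_le_mul_of_nonneg_left (rSup_le F hf.1 n H) (by positivity)

/-- all polynomial orbits on all tori, and all polynomial phases -/
theorem orb_iff {f : ℕ → ℂ} (hf : Mul1 f) (d : ℕ) :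
    (∀ (m : ℕ) (F : C(Fin m → UnitAddCircle, ℂ)), SmallS (oSup d F f)) ↔ Full d f := by
  constructor
  · intro h ε hε
    set F : C(Fin 1 → UnitAddCircle, ℂ) := ⟨fun y => (fourier 1 (y 0) : ℂ), by
      exact (fourier 1).continuous.comp (continuous_apply 0)⟩ with hF
    obtain ⟨H₀, hH₀⟩ := h 1 F ε hε
    refine ⟨H₀, fun N H hH hN => ?_⟩
    refine le_trans (sum_le_sum fun n _ => ?_) (hH₀ N H hH hN)
    refine mul_le_mul_of_nonneg_left ?_ (by positivity)
    refine FL.wSup_le (Real.iSup_nonneg fun _ => norm_nonneg _) fun P hP _ => ?_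
    have hbdd : BddAbove (Set.range fun P : {P : Fin 1 → ℝ[X] // ∀ i, (P i).natDegree ≤ d} =>
        ‖∑ h ∈ Icc 1 H, f (n + h) * F (fun i => (((P.1 i).eval ((n + h : ℕ) : ℝ) : ℝ) : UnitAddCircle))‖) := by
      refine ⟨∑ h ∈ Icc 1 H, (1 : ℝ), ?_⟩
      rintro _ ⟨p, rfl⟩
      refine (norm_sum_le _ _).trans (sum_le_sum fun h _ => ?_)
      rw [norm_mul]
      have e2 : ‖F (fun i => (((p.1 i).eval ((n + h : ℕ) : ℝ) : ℝ) : UnitAddCircle))‖ = 1 :=
        Pool.Agent.Helper44K9.FB.norm_fourier _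
      rw [e2, mul_one]
      exact hf.1 (n + h)
    refine le_trans (le_of_eq ?_) (le_ciSup hbdd
      (⟨fun _ => P, fun _ => hP⟩ : {P : Fin 1 → ℝ[X] // ∀ i, (P i).natDegree ≤ d}))
    congr 1
    unfold W
    rw [Pool.Agent.Helper44K9.FB.Ioc_image, sum_image fun a _ b _ hab => by omega]
    refine sum_congr rfl fun h _ => ?_
    have e3 : F (fun _ => ((P.eval ((n + h : ℕ) : ℝ) : ℝ) : UnitAddCircle)) =
        Pool.Agent.H807R2.Dav.ee (P.eval ((n + h : ℕ) : ℝ)) := Pool.Agent.Helper44K9.FB.fourier_real _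
    rw [e3]
  · intro h m F ε hε
    exact orbits F hf h ε hε

/-- a set without rational points -/
lemma torsion_free {E : Set UnitAddCircle} (hE : ¬ ∃ b q : ℕ, 1 ≤ q ∧ (((b : ℝ) / q : ℝ) : UnitAddCircle) ∈ E) :
    ∀ x ∈ E, addOrderOf x = 0 := by
  intro x hx
  induction x using QuotientAddGroup.induction_on with
  | H t =>
    by_contra hne
    apply hE
    have h1 : 0 < addOrderOf (t : UnitAddCircle) := Nat.pos_of_ne_zero hne
    have h2 := addOrderOf_nsmul_eq_zero (t : UnitAddCircle)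
    rw [← AddCircle.coe_nsmul, AddCircle.coe_eq_zero_iff] at h2
    obtain ⟨k, hk⟩ := h2
    rw [zsmul_eq_mul, mul_one, nsmul_eq_mul] at hk
    obtain ⟨b, _, j, hj⟩ := red (β := t) (κ := 0) (a := k) h1 (by rw [hk, sub_self, abs_zero])
    refine ⟨b, addOrderOf (t : UnitAddCircle), h1, ?_⟩
    have h3 : t - (b : ℝ) / (addOrderOf (t : UnitAddCircle) : ℕ) = j := by
      have := abs_nonpos_iff.1 hj
      linarith
    have h4 : ((((b : ℝ) / (addOrderOf (t : UnitAddCircle) : ℕ) : ℝ)) : UnitAddCircle) = (t : UnitAddCircle) := by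
      have h5 : ((t - (b : ℝ) / (addOrderOf (t : UnitAddCircle) : ℕ) : ℝ) : UnitAddCircle) = 0 := by
        rw [h3, AddCircle.coe_eq_zero_iff]
        exact ⟨j, by simp⟩
      rw [AddCircle.coe_sub, sub_eq_zero] at h5
      exact h5.symm
    rw [h4]
    exact hx

/-- **compact null sets of leading coefficients** -/
theorem null_iff {d : ℕ} (hd : 1 ≤ d) {f : ℕ → ℂ} (hf : Mul1 f) {E : Set UnitAddCircle} (hE : IsCompact E)
    (hv : volume E = 0) : BddF f (d + 1) E 0 ↔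
      ((¬ ∃ b q : ℕ, 1 ≤ q ∧ (((b : ℝ) / q : ℝ) : UnitAddCircle) ∈ E) ∨ BddF f d Set.univ 0) := by
  have hz : ∀ A : ℕ, 1 ≤ A → (A : ℝ) * (volume E).toReal ^ (1 / (A : ℝ)) = 0 := by
    intro A hA
    have h2 : (0 : ℝ) ^ (1 / (A : ℝ)) = 0 := by
      apply Real.zero_rpow
      have : (0 : ℝ) < A := by exact_mod_cast hA
      positivity
    rw [hv, ENNReal.toReal_zero, h2, mul_zero]
  constructor
  · intro h
    by_cases hr : ∃ b q : ℕ, 1 ≤ q ∧ (((b : ℝ) / q : ℝ) : UnitAddCircle) ∈ E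
    · right
      obtain ⟨b, q, hq, hbE⟩ := hr
      intro ε hε
      have hqr : (0 : ℝ) < q := by exact_mod_cast hq
      obtain ⟨H₀, h₀⟩ := h (ε / q) (by positivity)
      refine ⟨H₀, fun N H hH hN => ?_⟩
      calc ∑ n ∈ Icc 1 N, (1 / (n : ℝ)) * wSup d Set.univ f n H ≤
          ∑ n ∈ Icc 1 N, (1 / (n : ℝ)) * (q * wSup (d + 1) E f n H) :=
            sum_le_sum fun n _ => mul_le_mul_of_nonneg_left (lower_le hf.1 hd hq hbE n H) (by positivity)
        _ = q * ∑ n ∈ Icc 1 N, (1 / (n : ℝ)) * wSup (d + 1) E f n H := by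
            rw [mul_sum]
            exact sum_congr rfl fun n _ => by ring
        _ ≤ q * ((0 + ε / q) * H * Real.log N) := mul_le_mul_of_nonneg_left (h₀ N H hH hN) hqr.le
        _ = (0 + ε) * H * Real.log N := by field_simp; ring
    · exact Or.inl hr
  · rintro (h | h)
    · intro ε hε
      obtain ⟨A, hA, h1⟩ := fin2 (bes2 wr2) (push tk) nr2 (eq2 pw trig2 kap chb) dil_ pig sub (ls wr tk kap) (d + 1)
        (by omega)
      obtain ⟨H₀, h₀⟩ := h1 E hE (torsion_free h) ε hε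
      refine ⟨H₀, fun N H hH hN => ?_⟩
      have h2 := h₀ f hf N H hH hN
      rwa [hz A hA] at h2
    · obtain ⟨A, hA, h1⟩ := null_deg hd
      have h2 := h1 f hf (full_iff.2 h) E hE
      rwa [hz A hA] at h2

end Pool.Agent.T9h55.MD
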