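import Pool.Agent.T9h55.MD.Rel1

/-! Linear phases: the inequality of Bessel in mean square and the potential of a window (helper55). -/

set_option autoImplicit false

namespace Pool.Agent.T9h55.MD

open Finset Polynomial MeasureTheory
open Pool.Agent.Helper44K9.FU
open Pool.Agent.H807R2.Dav (ee norm_ee ee_add ee_int dd_le dd ee_zero dd_ge dd_add_int)

/-- a set of pairwise separated frequencies -/
def Sep (K H : ℕ) (A : Finset ℝ) : Prop := ∀ α ∈ A, ∀ β ∈ A, α ≠ β → ¬ Rl K H α β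

lemma Sep.subset {K H : ℕ} {A B : Finset ℝ} (h : Sep K H A) (hB : B ⊆ A) : Sep K H B :=
  fun α hα β hβ => h α (hB hα) β (hB hβ)

lemma Sep.anti {K K' H : ℕ} {A : Finset ℝ} (h : Sep K' H A) (hK : K ≤ K') : Sep K H A :=
  fun α hα β hβ hne hr => h α hα β hβ hne (hr.mono hK)

lemma ee_conj' (x : ℝ) : (starRingEnd ℂ) (ee x) = ee (-x) := by
  have h1 : ee (-x) * ee x = 1 := by rw [← ee_add]; simp [ee_zero]
  have h2 : (starRingEnd ℂ) (ee x) * ee x = 1 := by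
    rw [mul_comm, Complex.mul_conj', norm_ee]; norm_num
  have h3 : ee x ≠ 0 := by
    intro h; rw [h, mul_zero] at h1; exact zero_ne_one h1
  exact mul_right_cancel₀ h3 (h2.trans h1.symm)

lemma WL_eq (f : ℕ → ℂ) (α : ℝ) (n H : ℕ) : WL f α n H = ∑ m ∈ Ioc n (n + H), f m * ee (α * m) := by
  unfold WL W
  exact sum_congr rfl fun m _ => by rw [lin_eval]

/-- the weighted form of the dual inequality -/
lemma gramw (s : Finset ℕ) (A : Finset ℝ) (c : ℝ → ℂ) (G : ℝ → ℝ → ℝ)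
    (hG : ∀ α ∈ A, ∀ β ∈ A, ‖∑ m ∈ s, ee ((α - β) * (m : ℝ))‖ ≤ G α β) :
    ∑ m ∈ s, ‖∑ α ∈ A, c α * ee (α * (m : ℝ))‖ ^ 2 ≤ ∑ α ∈ A, ∑ β ∈ A, ‖c α‖ * ‖c β‖ * G α β := by
  have h1 : ((∑ m ∈ s, ‖∑ α ∈ A, c α * ee (α * (m : ℝ))‖ ^ 2 : ℝ) : ℂ) =
      ∑ α ∈ A, ∑ β ∈ A, c α * (starRingEnd ℂ) (c β) * ∑ m ∈ s, ee ((α - β) * (m : ℝ)) := by
    push_cast
    have h2 : ∀ m : ℕ, ((‖∑ α ∈ A, c α * ee (α * (m : ℝ))‖ : ℝ) : ℂ) ^ 2 =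
        ∑ α ∈ A, ∑ β ∈ A, c α * (starRingEnd ℂ) (c β) * ee ((α - β) * (m : ℝ)) := by
      intro m
      rw [← Complex.mul_conj', map_sum, sum_mul_sum]
      refine sum_congr rfl fun i _ => sum_congr rfl fun j _ => ?_
      rw [map_mul, ee_conj', sub_mul, sub_eq_add_neg, ee_add]
      ring
    rw [sum_congr rfl fun m _ => h2 m, sum_comm]
    refine sum_congr rfl fun i _ => ?_
    rw [sum_comm]
    refine sum_congr rfl fun j _ => ?_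
    rw [mul_sum]
  have h3 : ∑ m ∈ s, ‖∑ α ∈ A, c α * ee (α * (m : ℝ))‖ ^ 2 =
      ‖((∑ m ∈ s, ‖∑ α ∈ A, c α * ee (α * (m : ℝ))‖ ^ 2 : ℝ) : ℂ)‖ := by
    rw [Complex.norm_real, Real.norm_eq_abs, abs_of_nonneg]
    positivity
  rw [h3, h1]
  refine (norm_sum_le _ _).trans (sum_le_sum fun i hi => ?_)
  refine (norm_sum_le _ _).trans (sum_le_sum fun j hj => ?_)
  rw [norm_mul, norm_mul, RCLike.norm_conj]
  exact mul_le_mul_of_nonneg_left (hG i hi j hj) (by positivity)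

/-- **the inequality of Bessel in mean square** -/
theorem besL2 {f : ℕ → ℂ} {K n H : ℕ} (hK : 1 ≤ K) (hH : 1 ≤ H) {A : Finset ℝ}
    (hA : Sep K H A) : ∑ α ∈ A, (‖WL f α n H‖ / H) ^ 2 ≤
      ((∑ m ∈ Ioc n (n + H), ‖f m‖ ^ 2) / H) * (1 + (#A : ℝ) / (2 * K)) := by
  classical
  have hH0 : (0 : ℝ) < H := by exact_mod_cast hH
  have hKr : (0 : ℝ) < K := by exact_mod_cast hK
  obtain ⟨S, hS⟩ : ∃ S, S = ∑ α ∈ A, ‖WL f α n H‖ ^ 2 := ⟨_, rfl⟩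
  obtain ⟨q, hq⟩ : ∃ q, q = ∑ m ∈ Ioc n (n + H), ‖f m‖ ^ 2 := ⟨_, rfl⟩
  have hS0 : 0 ≤ S := by rw [hS]; exact sum_nonneg fun _ _ => by positivity
  have hq0 : 0 ≤ q := by rw [hq]; exact sum_nonneg fun _ _ => by positivity
  set c : ℝ → ℂ := fun α => (starRingEnd ℂ) (WL f α n H) with hc
  have hsum : ∑ m ∈ Ioc n (n + H), f m * (∑ α ∈ A, c α * ee (α * (m : ℝ))) = (S : ℂ) := by
    rw [hS]
    push_cast
    simp only [mul_sum]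
    rw [sum_comm]
    refine sum_congr rfl fun α _ => ?_
    rw [← Complex.mul_conj']
    conv_rhs => rw [WL_eq]
    rw [sum_mul]
    refine sum_congr rfl fun m _ => ?_
    simp only [hc]
    rw [← WL_eq]
    ring
  have hcs : S ^ 2 ≤ q * ∑ m ∈ Ioc n (n + H), ‖∑ α ∈ A, c α * ee (α * (m : ℝ))‖ ^ 2 := by
    have h1 : S ≤ ∑ m ∈ Ioc n (n + H), ‖f m‖ * ‖∑ α ∈ A, c α * ee (α * (m : ℝ))‖ := by
      have e1 : S = ‖∑ m ∈ Ioc n (n + H), f m * (∑ α ∈ A, c α * ee (α * (m : ℝ)))‖ := by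
        rw [hsum, Complex.norm_real, Real.norm_eq_abs, abs_of_nonneg hS0]
      rw [e1]
      refine (norm_sum_le _ _).trans (sum_le_sum fun m _ => ?_)
      rw [norm_mul]
    refine (pow_le_pow_left₀ hS0 h1 2).trans ?_
    rw [hq]
    exact sum_mul_sq_le_sq_mul_sq _ _ _
  have hoff : ∀ α ∈ A, ∀ β ∈ A, ‖∑ m ∈ Ioc n (n + H), ee ((α - β) * (m : ℝ))‖ ≤
      (if α = β then (H : ℝ) else 0) + 1 / (2 * K) * H := by
    intro α hα β hβ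
    by_cases h : α = β
    · rw [if_pos h]
      have h1 : ‖∑ m ∈ Ioc n (n + H), ee ((α - β) * (m : ℝ))‖ ≤ H := by
        refine (norm_sum_le _ _).trans ?_
        simp [norm_ee]
      have h2 : 0 ≤ 1 / (2 * (K : ℝ)) * H := by positivity
      linarith
    · rw [if_neg h, zero_add]
      have h1 := geo (θ := α - β) (δ := K / H) (by positivity) (fun a => by
        by_contra hcon
        push Not at hcon
        exact hA α hα β hβ h ⟨a, hcon⟩) n H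
      refine h1.trans (le_of_eq ?_)
      field_simp
  have hgram := gramw (Ioc n (n + H)) A c _ hoff
  have hbd : ∑ α ∈ A, ∑ β ∈ A, ‖c α‖ * ‖c β‖ * ((if α = β then (H : ℝ) else 0) + 1 / (2 * K) * H) ≤
      S * (H * (1 + (#A : ℝ) / (2 * K))) := by
    have h1 : ∀ α ∈ A, ∀ β ∈ A, ‖c α‖ * ‖c β‖ * ((if α = β then (H : ℝ) else 0) + 1 / (2 * K) * H) ≤
        (if α = β then ‖c α‖ ^ 2 * H else 0) + (‖c α‖ ^ 2 / 2 + ‖c β‖ ^ 2 / 2) * (1 / (2 * K) * H) := by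
      intro α _ β _
      rw [mul_add]
      refine add_le_add ?_ ?_
      · split_ifs with h
        · subst h; rw [sq]
        · simp
      · refine mul_le_mul_of_nonneg_right ?_ (by positivity)
        nlinarith [sq_nonneg (‖c α‖ - ‖c β‖)]
    refine (sum_le_sum fun α hα => sum_le_sum fun β hβ => h1 α hα β hβ).trans (le_of_eq ?_)
    have h2 : ∀ α ∈ A, ∑ β ∈ A, ((if α = β then ‖c α‖ ^ 2 * (H : ℝ) else 0) +
        (‖c α‖ ^ 2 / 2 + ‖c β‖ ^ 2 / 2) * (1 / (2 * K) * H)) =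
        ‖c α‖ ^ 2 * H + (#A * (‖c α‖ ^ 2 / 2) + (∑ β ∈ A, ‖c β‖ ^ 2) / 2) * (1 / (2 * K) * H) := by
      intro α hα
      rw [sum_add_distrib, sum_ite_eq, if_pos hα, ← sum_mul, sum_add_distrib, sum_const, nsmul_eq_mul, sum_div]
    rw [sum_congr rfl h2, sum_add_distrib, ← sum_mul, ← sum_mul, sum_add_distrib, sum_const, nsmul_eq_mul]
    have e1 : ∑ α ∈ A, ‖c α‖ ^ 2 = S := by
      rw [hS]
      refine sum_congr rfl fun α _ => ?_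
      simp only [hc, RCLike.norm_conj]
    have e2 : ∑ α ∈ A, (#A : ℝ) * (‖c α‖ ^ 2 / 2) = #A * (S / 2) := by
      rw [← mul_sum, ← sum_div, e1]
    rw [e1, e2]
    field_simp
    ring
  have hfin : S * S ≤ S * (q * (H * (1 + (#A : ℝ) / (2 * K)))) := by
    have h1 := hcs.trans (mul_le_mul_of_nonneg_left (hgram.trans hbd) hq0)
    linarith [h1, sq S, mul_comm q (S * (H * (1 + (#A : ℝ) / (2 * K)))),
      mul_assoc S (H * (1 + (#A : ℝ) / (2 * K))) q, mul_comm (H * (1 + (#A : ℝ) / (2 * K))) q]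
  have hSle : S ≤ q * (H * (1 + (#A : ℝ) / (2 * K))) := by
    rcases hS0.eq_or_lt with h | h
    · rw [← h]; positivity
    · exact le_of_mul_le_mul_left hfin h
  have e1 : ∑ α ∈ A, (‖WL f α n H‖ / H) ^ 2 = S / (H : ℝ) ^ 2 := by
    rw [hS, sum_div]
    exact sum_congr rfl fun α _ => div_pow _ _ _
  rw [e1, ← hq, div_le_iff₀ (by positivity)]
  refine hSle.trans (le_of_eq ?_)
  field_simp

/-- the number of separated large frequencies -/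
theorem card_le {f : ℕ → ℂ} (hf : ∀ n, ‖f n‖ ≤ 1) {K n H : ℕ} {t : ℝ} (hK : 1 ≤ K) (hH : 1 ≤ H) (ht : 0 < t)
    {A : Finset ℝ} (hA : Sep K H A) (hL : ∀ α ∈ A, t * H ≤ ‖WL f α n H‖) :
    (#A : ℝ) * (t ^ 2 - 1 / (2 * K)) ≤ 1 := by
  have hH0 : (0 : ℝ) < H := by exact_mod_cast hH
  have hKr : (0 : ℝ) < K := by exact_mod_cast hK
  have h1 := besL2 (f := f) (n := n) hK hH hA
  have h2 : (#A : ℝ) * t ^ 2 ≤ ∑ α ∈ A, (‖WL f α n H‖ / H) ^ 2 := by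
    calc (#A : ℝ) * t ^ 2 = ∑ _α ∈ A, t ^ 2 := by rw [sum_const, nsmul_eq_mul]
      _ ≤ _ := by
        refine sum_le_sum fun α hα => pow_le_pow_left₀ ht.le ?_ 2
        rw [le_div_iff₀ hH0]
        exact hL α hα
  have h3 : (∑ m ∈ Ioc n (n + H), ‖f m‖ ^ 2) / H ≤ 1 := by
    rw [div_le_one hH0]
    calc ∑ m ∈ Ioc n (n + H), ‖f m‖ ^ 2 ≤ ∑ _m ∈ Ioc n (n + H), (1 : ℝ) :=
          sum_le_sum fun m _ => by
            have := hf m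
            have h0 := norm_nonneg (f m)
            nlinarith
      _ = H := by simp
  have h4 : (0 : ℝ) ≤ 1 + (#A : ℝ) / (2 * K) := by positivity
  have h5 := mul_le_mul_of_nonneg_right h3 h4
  have h6 : (#A : ℝ) * (t ^ 2 - 1 / (2 * K)) = #A * t ^ 2 - #A / (2 * K) := by ring
  rw [h6]
  linarith

/-- functions of the size of a sum -/
structure Pot (φ : ℝ → ℝ) (t Λ : ℝ) : Prop where
  mono : Monotone φ
  zero : ∀ x ≤ t, φ x = 0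
  one : ∀ x ≤ 1, φ x ≤ 1
  lip : ∀ x y, y ≤ x → x ≤ 1 → φ x ≤ φ y + Λ * (x - y)

lemma Pot.nonneg {φ : ℝ → ℝ} {t Λ : ℝ} (h : Pot φ t Λ) (x : ℝ) : 0 ≤ φ x := by
  rcases le_total x t with hx | hx
  · rw [h.zero x hx]
  · rw [← h.zero t le_rfl]; exact h.mono hx

/-- the lists of separated frequencies with large sums -/
def Lst1 (f : ℕ → ℂ) (t : ℝ) (K n H : ℕ) (A : Finset ℝ) : Prop := Sep K H A ∧ ∀ α ∈ A, t * H ≤ ‖WL f α n H‖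

/-- the sum over a list -/
noncomputable def sm (φ : ℝ → ℝ) (f : ℕ → ℂ) (n H : ℕ) (A : Finset ℝ) : ℝ := ∑ α ∈ A, φ (‖WL f α n H‖ / H)

/-- the potential of a window -/
noncomputable def Phi (φ : ℝ → ℝ) (f : ℕ → ℂ) (t : ℝ) (K n H : ℕ) : ℝ :=
  sSup {x | ∃ A : Finset ℝ, Lst1 f t K n H A ∧ x = sm φ f n H A}

lemma WLH_le {f : ℕ → ℂ} (hf : ∀ n, ‖f n‖ ≤ 1) (α : ℝ) (n H : ℕ) : ‖WL f α n H‖ / H ≤ 1 :=
  div_le_one_of_le₀ (WL_le hf α n H) (Nat.cast_nonneg _)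

lemma sm_nonneg {φ : ℝ → ℝ} {t Λ : ℝ} (h : Pot φ t Λ) (f : ℕ → ℂ) (n H : ℕ) (A : Finset ℝ) : 0 ≤ sm φ f n H A :=
  sum_nonneg fun _ _ => h.nonneg _

/-- the bound for the potential -/
lemma sm_le_R {φ : ℝ → ℝ} {t Λ : ℝ} (h : Pot φ t Λ) (ht : 0 < t) {f : ℕ → ℂ} (hf : ∀ n, ‖f n‖ ≤ 1) {K n H R : ℕ}
    (hK : 1 ≤ K) (hR : ∀ r : ℝ, r * (t ^ 2 - 1 / (2 * K)) ≤ 1 → r ≤ R) {A : Finset ℝ}
    (hA : Lst1 f t K n H A) : sm φ f n H A ≤ R ∧ (1 ≤ H → (#A : ℝ) ≤ R) := by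
  rcases Nat.eq_zero_or_pos H with hH | hH
  · subst hH
    refine ⟨?_, fun h => absurd h (by norm_num)⟩
    unfold sm
    refine le_trans (le_of_eq ?_) (Nat.cast_nonneg R)
    refine sum_eq_zero fun α _ => ?_
    rw [Nat.cast_zero, div_zero]
    exact h.zero 0 ht.le
  · have h1 := hR _ (card_le hf hK hH ht hA.1 hA.2)
    refine ⟨?_, fun _ => h1⟩
    refine le_trans ?_ h1
    unfold sm
    calc ∑ α ∈ A, φ (‖WL f α n H‖ / H) ≤ ∑ _α ∈ A, (1 : ℝ) :=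
          sum_le_sum fun α _ => h.one _ (WLH_le hf α n H)
      _ = #A := by simp

lemma Phi_bdd {φ : ℝ → ℝ} {t Λ : ℝ} (h : Pot φ t Λ) (ht : 0 < t) {f : ℕ → ℂ} (hf : ∀ n, ‖f n‖ ≤ 1) {K n H R : ℕ}
    (hK : 1 ≤ K) (hR : ∀ r : ℝ, r * (t ^ 2 - 1 / (2 * K)) ≤ 1 → r ≤ R) :
    BddAbove {x | ∃ A : Finset ℝ, Lst1 f t K n H A ∧ x = sm φ f n H A} := by
  refine ⟨R, ?_⟩
  rintro x ⟨A, hA, rfl⟩
  exact (sm_le_R h ht hf hK hR hA).1

lemma Lst1.empty (f : ℕ → ℂ) (t : ℝ) (K n H : ℕ) : Lst1 f t K n H ∅ := by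
  constructor
  · intro α hα
    simp at hα
  · intro α hα
    simp at hα

lemma Phi_ne (φ : ℝ → ℝ) (f : ℕ → ℂ) (t : ℝ) (K n H : ℕ) :
    {x | ∃ A : Finset ℝ, Lst1 f t K n H A ∧ x = sm φ f n H A}.Nonempty :=
  ⟨_, ∅, Lst1.empty f t K n H, rfl⟩

lemma le_Phi {φ : ℝ → ℝ} {t Λ : ℝ} (h : Pot φ t Λ) (ht : 0 < t) {f : ℕ → ℂ} (hf : ∀ n, ‖f n‖ ≤ 1) {K n H R : ℕ}
    (hK : 1 ≤ K) (hR : ∀ r : ℝ, r * (t ^ 2 - 1 / (2 * K)) ≤ 1 → r ≤ R) {A : Finset ℝ}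
    (hA : Lst1 f t K n H A) : sm φ f n H A ≤ Phi φ f t K n H :=
  le_csSup (Phi_bdd h ht hf hK hR) ⟨A, hA, rfl⟩

lemma Phi_le {φ : ℝ → ℝ} {f : ℕ → ℂ} {t : ℝ} {K n H : ℕ} {x : ℝ}
    (hx : ∀ A : Finset ℝ, Lst1 f t K n H A → sm φ f n H A ≤ x) : Phi φ f t K n H ≤ x := by
  refine csSup_le (Phi_ne φ f t K n H) ?_
  rintro y ⟨A, hA, rfl⟩
  exact hx A hA

lemma Phi_near {φ : ℝ → ℝ} {f : ℕ → ℂ} {t : ℝ} {K n H : ℕ} {δ : ℝ} (hδ : 0 < δ) :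
    ∃ A : Finset ℝ, Lst1 f t K n H A ∧ Phi φ f t K n H - δ ≤ sm φ f n H A := by
  obtain ⟨x, ⟨A, hA, rfl⟩, h2⟩ := exists_lt_of_lt_csSup (Phi_ne φ f t K n H) (sub_lt_self _ hδ)
  exact ⟨A, hA, h2.le⟩

lemma Phi_nonneg {φ : ℝ → ℝ} {t Λ : ℝ} (h : Pot φ t Λ) (ht : 0 < t) {f : ℕ → ℂ} (hf : ∀ n, ‖f n‖ ≤ 1) {K n H R : ℕ}
    (hK : 1 ≤ K) (hR : ∀ r : ℝ, r * (t ^ 2 - 1 / (2 * K)) ≤ 1 → r ≤ R) : 0 ≤ Phi φ f t K n H := by
  have := le_Phi h ht hf hK hR (Lst1.empty f t K n H)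
  simpa [sm] using this

lemma Lst1.anti {f : ℕ → ℂ} {t : ℝ} {K K' n H : ℕ} {A : Finset ℝ} (h : Lst1 f t K' n H A) (hK : K ≤ K') :
    Lst1 f t K n H A := ⟨h.1.anti hK, h.2⟩

end Pool.Agent.T9h55.MD
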