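import Pool.Agent.T9h55.MD.Sq1
import Pool.Agent.T9h55.MD.EqU

/-! Linear phases: the potential of a window and dilations (helper55). -/

set_option autoImplicit false

namespace Pool.Agent.T9h55.MD

open Finset Polynomial MeasureTheory
open Pool.Agent.Helper44K9.FU
open Pool.Agent.H807R2.Dav (ee norm_ee)

/-- the good primes for a list -/
def Gd (f : ℕ → ℂ) (K n H : ℕ) (η : ℝ) (A : Finset ℝ) (p : ℕ) : Prop :=
  (∀ α ∈ A, (‖WL f α n H‖ / H - η) * ((H / p : ℕ) : ℝ) ≤ ‖WL f (p * α) (n / p) (H / p)‖) ∧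
  ∀ α ∈ A, ∀ β ∈ A, α ≠ β → ¬ Rl K (H / p) (p * α) (p * β)

open Classical in
/-- most primes are good -/
lemma exc_le {K R : ℕ} {I : Finset ℕ} {η : ℝ} {f : ℕ → ℂ} {n H : ℕ} {A : Finset ℝ}
    (hI : ∀ p ∈ I, p.Prime ∧ 0 ≤ vw p ∧ vw p ≤ 4 * (1 / (p : ℝ))) (hη : 0 < η) (hr : (#A : ℝ) ≤ R)
    (hsep : Sep (K + 1) H A)
    (hpush : ∀ α : ℝ, ∑ p ∈ I.filter (fun p : ℕ => ‖WL f (p * α) (n / p) (H / p)‖ <
      (‖WL f α n H‖ / H - η) * ((H / p : ℕ) : ℝ)), 1 / (p : ℝ) ≤ 100 / η ^ 2)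
    (hnr : ∀ α β : ℝ, ∀ p ∈ I, ∀ q ∈ I, p ≠ q → Rl K (H / p) (p * α) (p * β) →
      Rl K (H / q) (q * α) (q * β) → Rl (K + 1) H α β) :
    ∑ p ∈ I.filter (fun p : ℕ => ¬ Gd f K n H η A p), vw p ≤ 4 * (R * (100 / η ^ 2) + (R : ℝ) ^ 2) := by
  have h0 : ∑ p ∈ I.filter (fun p : ℕ => ¬ Gd f K n H η A p), vw p ≤
      4 * ∑ p ∈ I.filter (fun p : ℕ => ¬ Gd f K n H η A p), 1 / (p : ℝ) := by
    rw [mul_sum]
    exact sum_le_sum fun p hp => (hI p (mem_filter.1 hp).1).2.2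
  refine h0.trans (mul_le_mul_of_nonneg_left ?_ (by norm_num))
  rw [sum_filter]
  have h1 : ∀ p ∈ I, (if ¬ Gd f K n H η A p then 1 / (p : ℝ) else 0) ≤
      ∑ α ∈ A, (if ‖WL f (p * α) (n / p) (H / p)‖ < (‖WL f α n H‖ / H - η) * ((H / p : ℕ) : ℝ) then
        1 / (p : ℝ) else 0) +
      ∑ α ∈ A, ∑ β ∈ A, (if α ≠ β ∧ Rl K (H / p) (p * α) (p * β) then 1 / (p : ℝ) else 0) := by
    intro p hp
    have hnn : ∀ (Q : Prop) [Decidable Q], (0 : ℝ) ≤ if Q then 1 / (p : ℝ) else 0 := by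
      intro Q _; split_ifs <;> positivity
    have hn1 : 0 ≤ ∑ α ∈ A, (if ‖WL f (p * α) (n / p) (H / p)‖ < (‖WL f α n H‖ / H - η) * ((H / p : ℕ) : ℝ) then
        1 / (p : ℝ) else 0) := sum_nonneg fun _ _ => hnn _
    have hn2 : 0 ≤ ∑ α ∈ A, ∑ β ∈ A, (if α ≠ β ∧ Rl K (H / p) (p * α) (p * β) then 1 / (p : ℝ) else 0) :=
      sum_nonneg fun _ _ => sum_nonneg fun _ _ => hnn _
    by_cases hc : Gd f K n H η A p
    · rw [if_neg (not_not.2 hc)]
      linarith
    · rw [if_pos hc]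
      unfold Gd at hc
      rw [not_and_or] at hc
      rcases hc with hc | hc
      · push Not at hc
        obtain ⟨α, hα, h2⟩ := hc
        have h3 := single_le_sum (f := fun α => (if ‖WL f (p * α) (n / p) (H / p)‖ <
          (‖WL f α n H‖ / H - η) * ((H / p : ℕ) : ℝ) then 1 / (p : ℝ) else 0)) (fun _ _ => hnn _) hα
        simp only [if_pos h2] at h3
        linarith
      · push Not at hc
        obtain ⟨α, hα, β, hβ, hij, hR⟩ := hc
        have h3 := single_le_sum (f := fun α => ∑ β ∈ A, (if α ≠ β ∧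
          Rl K (H / p) (p * α) (p * β) then 1 / (p : ℝ) else 0))
          (fun _ _ => sum_nonneg fun _ _ => hnn _) hα
        have h4 := single_le_sum (f := fun β => (if α ≠ β ∧
          Rl K (H / p) (p * α) (p * β) then 1 / (p : ℝ) else 0))
          (fun _ _ => hnn _) hβ
        have h5 : (if α ≠ β ∧ Rl K (H / p) (p * α) (p * β) then
          1 / (p : ℝ) else 0) = 1 / (p : ℝ) := if_pos ⟨hij, hR⟩
        simp only [h5] at h4
        linarith
  refine (sum_le_sum h1).trans ?_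
  rw [sum_add_distrib]
  apply add_le_add
  · rw [sum_comm]
    calc ∑ α ∈ A, ∑ p ∈ I, (if ‖WL f (p * α) (n / p) (H / p)‖ < (‖WL f α n H‖ / H - η) * ((H / p : ℕ) : ℝ) then
        1 / (p : ℝ) else 0) ≤ ∑ _α ∈ A, 100 / η ^ 2 := by
          refine sum_le_sum fun i _ => ?_
          rw [← sum_filter]
          exact hpush i
      _ = #A * (100 / η ^ 2) := by rw [sum_const, nsmul_eq_mul]
      _ ≤ R * (100 / η ^ 2) := mul_le_mul_of_nonneg_right hr (by positivity)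
  · rw [sum_comm]
    have h6 : ∀ α ∈ A, ∀ β ∈ A, ∑ p ∈ I, (if α ≠ β ∧
        Rl K (H / p) (p * α) (p * β) then 1 / (p : ℝ) else 0) ≤ 1 := by
      intro α hα β hβ
      rw [← sum_filter]
      have h7 : #(I.filter (fun p : ℕ => α ≠ β ∧ Rl K (H / p) (p * α) (p * β))) ≤ 1 := by
        rw [card_le_one]
        intro p hp q hq
        rw [mem_filter] at hp hq
        by_contra hpq
        exact hsep α hα β hβ hp.2.1 (hnr _ _ p hp.1 q hq.1 hpq hp.2.2 hq.2.2)
      calc ∑ p ∈ I.filter (fun p : ℕ => α ≠ β ∧ Rl K (H / p) (p * α) (p * β)), 1 / (p : ℝ) ≤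
          ∑ p ∈ I.filter (fun p : ℕ => α ≠ β ∧ Rl K (H / p) (p * α) (p * β)), (1 : ℝ) := by
            refine sum_le_sum fun p hp => ?_
            have h8 : (1 : ℝ) ≤ p := by exact_mod_cast (hI p (mem_filter.1 hp).1).1.one_le
            rw [div_le_one (by linarith)]
            exact h8
        _ ≤ 1 := by
            rw [sum_const, nsmul_eq_mul, mul_one]
            exact_mod_cast h7
    calc ∑ α ∈ A, ∑ p ∈ I, ∑ β ∈ A, (if α ≠ β ∧
        Rl K (H / p) (p * α) (p * β) then 1 / (p : ℝ) else 0) ≤ ∑ _α ∈ A, (#A : ℝ) := by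
          refine sum_le_sum fun α hα => ?_
          rw [sum_comm]
          refine (sum_le_sum fun β hβ => h6 α hα β hβ).trans ?_
          simp
      _ = (#A : ℝ) * #A := by rw [sum_const, nsmul_eq_mul]
      _ ≤ (R : ℝ) ^ 2 := by
          rw [sq]
          exact mul_le_mul hr hr (Nat.cast_nonneg _) (Nat.cast_nonneg _)

open Classical in
/-- a part of the list after dilation by a good prime -/
lemma push_list {φ : ℝ → ℝ} {t Λ : ℝ} (h : Pot φ t Λ) {f : ℕ → ℂ} (hf : ∀ n, ‖f n‖ ≤ 1)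
    {K n H p : ℕ} {η : ℝ} (hη : 0 < η) {A : Finset ℝ} (hp : 0 < p) (hHp : 1 ≤ H / p) (hg : Gd f K n H η A p)
    {B : Finset ℝ} (hB : B ⊆ A) : ∃ C : Finset ℝ, Lst1 f t K (n / p) (H / p) C ∧
      (∀ γ ∈ C, ∃ α ∈ B, γ = p * α) ∧ sm φ f n H B - #B * (Λ * η) ≤ sm φ f (n / p) (H / p) C := by
  have hpr : (p : ℝ) ≠ 0 := by exact_mod_cast hp.ne'
  have hHr : (0 : ℝ) < ((H / p : ℕ) : ℝ) := by exact_mod_cast (by omega : 0 < H / p)
  set D : Finset ℝ := B.filter (fun α => t * ((H / p : ℕ) : ℝ) ≤ ‖WL f (p * α) (n / p) (H / p)‖) with hD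
  have hinj : Function.Injective (fun α : ℝ => (p : ℝ) * α) := mul_right_injective₀ hpr
  refine ⟨D.image (fun α => (p : ℝ) * α), ⟨?_, ?_⟩, ?_, ?_⟩
  · intro α hα β hβ hne
    rw [mem_image] at hα hβ
    obtain ⟨α', hα', rfl⟩ := hα
    obtain ⟨β', hβ', rfl⟩ := hβ
    rw [hD, mem_filter] at hα' hβ'
    exact hg.2 α' (hB hα'.1) β' (hB hβ'.1) fun h => hne (by rw [h])
  · intro α hα
    rw [mem_image] at hα
    obtain ⟨α', hα', rfl⟩ := hα
    rw [hD, mem_filter] at hα'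
    exact hα'.2
  · intro γ hγ
    rw [mem_image] at hγ
    obtain ⟨α', hα', rfl⟩ := hγ
    rw [hD, mem_filter] at hα'
    exact ⟨α', hα'.1, rfl⟩
  · have e1 : sm φ f (n / p) (H / p) (D.image (fun α => (p : ℝ) * α)) =
        ∑ α ∈ B, if t * ((H / p : ℕ) : ℝ) ≤ ‖WL f (p * α) (n / p) (H / p)‖ then
          φ (‖WL f (p * α) (n / p) (H / p)‖ / ((H / p : ℕ) : ℝ)) else 0 := by
      unfold sm
      rw [sum_image (fun x _ y _ hxy => hinj hxy), hD, sum_filter]
    rw [e1]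
    unfold sm
    have e2 : (#B : ℝ) * (Λ * η) = ∑ _α ∈ B, Λ * η := by rw [sum_const, nsmul_eq_mul]
    rw [e2, ← sum_sub_distrib]
    refine sum_le_sum fun α hα => ?_
    have h1 := hg.1 α (hB hα)
    have h2 : ‖WL f α n H‖ / H - η ≤ ‖WL f (p * α) (n / p) (H / p)‖ / ((H / p : ℕ) : ℝ) := by
      rw [le_div_iff₀ hHr]
      exact h1
    have h3 := h.lip (‖WL f α n H‖ / H) (‖WL f α n H‖ / H - η) (by linarith) (WLH_le hf α n H)
    have h4 : Λ * (‖WL f α n H‖ / H - (‖WL f α n H‖ / H - η)) = Λ * η := by ring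
    rw [h4] at h3
    split_ifs with hc
    · have := h.mono h2
      linarith
    · push Not at hc
      rw [← div_lt_iff₀ hHr] at hc
      have h5 := h.zero (‖WL f α n H‖ / H - η) (h2.trans hc.le)
      linarith

open Classical in
/-- **the potential after dilation by a good prime** -/
lemma phi_step {φ : ℝ → ℝ} {t Λ : ℝ} (h : Pot φ t Λ) (ht : 0 < t) (hΛ : 0 ≤ Λ) {f : ℕ → ℂ} (hf : ∀ n, ‖f n‖ ≤ 1)
    {K R n H p : ℕ} (hK : 1 ≤ K) (hR : ∀ r : ℝ, r * (t ^ 2 - 1 / (2 * K)) ≤ 1 → r ≤ R) {η : ℝ} (hη : 0 < η)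
    {A : Finset ℝ} (hp : 0 < p) (hHp : 1 ≤ H / p) (hg : Gd f K n H η A p) (hr : (#A : ℝ) ≤ R)
    (β : ℝ) : φ (‖WL f β (n / p) (H / p)‖ / ((H / p : ℕ) : ℝ)) ≤
      Phi φ f t K (n / p) (H / p) - sm φ f n H A + R * (Λ * η) +
      ∑ α ∈ A.filter (fun α => Rl K (H / p) β (p * α)), φ (‖WL f α n H‖ / H) := by
  have hHr : (0 : ℝ) < ((H / p : ℕ) : ℝ) := by exact_mod_cast (by omega : 0 < H / p)
  have hΛη : 0 ≤ Λ * η := by positivity
  have hS0 : 0 ≤ ∑ α ∈ A.filter (fun α => Rl K (H / p) β (p * α)), φ (‖WL f α n H‖ / H) :=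
    sum_nonneg fun _ _ => h.nonneg _
  by_cases hb : ‖WL f β (n / p) (H / p)‖ / ((H / p : ℕ) : ℝ) < t
  · rw [h.zero _ hb.le]
    obtain ⟨C, hC, _, hC2⟩ := push_list h hf hη hp hHp hg (subset_refl A)
    have h1 := le_Phi h ht hf hK hR hC
    have h2 : (#A : ℝ) * (Λ * η) ≤ R * (Λ * η) := mul_le_mul_of_nonneg_right hr hΛη
    linarith
  · push Not at hb
    rw [le_div_iff₀ hHr] at hb
    set B : Finset ℝ := A.filter (fun α => ¬ Rl K (H / p) β (p * α)) with hB
    obtain ⟨C, hC, hC1, hC2⟩ := push_list h hf hη hp hHp hg (filter_subset (fun α => ¬ Rl K (H / p) β (p * α)) A)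
    have hβC : β ∉ C := by
      intro hβ
      obtain ⟨α, hα, h1⟩ := hC1 β hβ
      rw [mem_filter] at hα
      apply hα.2
      rw [← h1]
      exact ⟨0, by simp; positivity⟩
    have hC' : Lst1 f t K (n / p) (H / p) (insert β C) := by
      constructor
      · intro x hx y hy hne
        rw [mem_insert] at hx hy
        rcases hx with rfl | hx
        · rcases hy with rfl | hy
          · exact absurd rfl hne
          · obtain ⟨α, hα, rfl⟩ := hC1 y hy
            rw [mem_filter] at hα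
            exact hα.2
        · rcases hy with rfl | hy
          · obtain ⟨α, hα, rfl⟩ := hC1 x hx
            rw [mem_filter] at hα
            exact fun h => hα.2 h.symm'
          · exact hC.1 x hx y hy hne
      · intro x hx
        rw [mem_insert] at hx
        rcases hx with rfl | hx
        · exact hb
        · exact hC.2 x hx
    have h1 := le_Phi h ht hf hK hR hC'
    have h2 : sm φ f (n / p) (H / p) (insert β C) = φ (‖WL f β (n / p) (H / p)‖ / ((H / p : ℕ) : ℝ)) +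
        sm φ f (n / p) (H / p) C := by
      unfold sm
      rw [sum_insert hβC]
    have h3 : sm φ f n H A = ∑ α ∈ A.filter (fun α => Rl K (H / p) β (p * α)), φ (‖WL f α n H‖ / H) +
        sm φ f n H B := by
      unfold sm
      rw [hB, sum_filter_add_sum_filter_not]
    have h4 : (#B : ℝ) * (Λ * η) ≤ R * (Λ * η) := by
      refine mul_le_mul_of_nonneg_right ?_ hΛη
      refine le_trans ?_ hr
      exact_mod_cast card_le_card (filter_subset _ A)
    rw [← hB] at hC2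
    linarith

end Pool.Agent.T9h55.MD
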