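import Pool.Agent.T9h55.MD.Sq2
import Pool.Agent.T9h55.MD.Loc

/-! Linear phases: the averages of a function of the supremum over a compact set (helper55). -/

set_option autoImplicit false

namespace Pool.Agent.T9h55.MD

open Finset Polynomial MeasureTheory
open Pool.Agent.Helper44K9.FU
open Pool.Agent.H807R2.Dav (ee norm_ee)

lemma phi_wSup {φ : ℝ → ℝ} {t Λ : ℝ} (h : Pot φ t Λ) (ht : 0 < t) (hΛ : 0 ≤ Λ) {f : ℕ → ℂ} (hf : ∀ n, ‖f n‖ ≤ 1)
    {E : Set UnitAddCircle} {n H : ℕ} {x : ℝ} (hx : 0 ≤ x)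
    (hβ : ∀ β : ℝ, (β : UnitAddCircle) ∈ E → φ (‖WL f β n H‖ / H) ≤ x) : φ (wSup 1 E f n H / H) ≤ x := by
  by_contra hcon
  push Not at hcon
  set S : ℝ := wSup 1 E f n H / H with hS
  have hSt : t < S := by
    by_contra h1
    push Not at h1
    rw [h.zero S h1] at hcon
    linarith
  have hS1 : S ≤ 1 := (nsup01 hf n H).2
  have hH0 : (0 : ℝ) < H := by
    rcases Nat.eq_zero_or_pos H with h1 | h1
    · rw [hS, h1] at hSt
      simp at hSt
      linarith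
    · exact_mod_cast h1
  set e : ℝ := min t ((φ S - x) / (Λ + 1)) with he
  have he0 : 0 < e := lt_min ht (div_pos (by linarith) (by linarith))
  have het : e ≤ t := min_le_left _ _
  have heΛ : Λ * e < φ S - x := by
    have h1 : e ≤ (φ S - x) / (Λ + 1) := min_le_right _ _
    rw [le_div_iff₀ (by linarith)] at h1
    linarith
  have h1 : wSup 1 E f n H ≤ (S - e) * H := by
    refine FL.wSup_le (mul_nonneg (by linarith) hH0.le) fun P hP hPE => ?_
    by_contra h2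
    push Not at h2
    rw [W_lin hP, ← lt_div_iff₀ hH0] at h2
    have h3 := hβ (P.coeff 1) hPE
    have h4 := h.lip S (S - e) (by linarith) hS1
    have h5 := h.mono h2.le
    have h6 : Λ * (S - (S - e)) = Λ * e := by ring
    rw [h6] at h4
    linarith
  rw [← div_le_iff₀ hH0, ← hS] at h1
  linarith

lemma phi_le_one {φ : ℝ → ℝ} {t Λ : ℝ} (h : Pot φ t Λ) {f : ℕ → ℂ} (hf : ∀ n, ‖f n‖ ≤ 1) (E : Set UnitAddCircle)
    (n H : ℕ) : φ (wSup 1 E f n H / H) ≤ 1 := h.one _ (nsup01 hf n H).2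

open ML in
open Classical in
/-- **the doubly logarithmic average of a function of the supremum over a compact set** -/
theorem master (hPUSH : S_PUSH) (hDIL : S_DIL) (hPW : S_PW) (hCH : S_CHB) {φ : ℝ → ℝ} {t Λ : ℝ} (hφ : Pot φ t Λ)
    (ht : 0 < t) (hΛ : 0 ≤ Λ) {K R : ℕ} (hK : 1 ≤ K)
    (hR : ∀ K' : ℕ, K ≤ K' → ∀ r : ℝ, r * (t ^ 2 - 1 / (2 * K')) ≤ 1 → r ≤ R)
    {E : Set UnitAddCircle} (hE : IsCompact E) (ε : ℝ) (hε : 0 < ε) (hε1 : ε ≤ 1) :
    ∃ Q : ℕ, 1 ≤ Q ∧ ∀ (E' : Set UnitAddCircle) (κ' : ℝ), E' ⊆ E → 0 < κ' → Far Q κ' E' → ∀ H₀ : ℕ,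
      ∃ H₁ : ℕ, H₀ ≤ H₁ ∧ 1 ≤ H₁ ∧ ∃ L₀ : ℝ, 0 < L₀ ∧ ∀ H₂ N : ℕ, H₁ ≤ H₂ → L₀ ≤ ∑ H ∈ Ico H₁ H₂, 1 / (H : ℝ) →
      L₀ ≤ ∑ n ∈ Icc 1 N, 1 / (n : ℝ) → ∀ f : ℕ → ℂ, Mul1 f →
      MM H₁ H₂ N (fun n H => φ (wSup 1 E' f n H / H)) ≤
        ((volume E).toReal + ε) * MM H₁ H₂ N (fun n H => Phi φ f t K n H) +
        ε * ((∑ H ∈ Ico H₁ H₂, 1 / (H : ℝ)) * ∑ n ∈ Icc 1 N, 1 / (n : ℝ)) := by
  obtain ⟨Q, hQ1, hQ⟩ := equ hPW hCH hE ε hε hε1
  refine ⟨Q, hQ1, fun E' κ' hsub hκ' hfar H₀ => ?_⟩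
  have hE0 : 0 ≤ (volume E).toReal := ENNReal.toReal_nonneg
  have hR0 : (0 : ℝ) ≤ R := Nat.cast_nonneg _
  -- the parameters
  obtain ⟨J, hJ1, hJ⟩ : ∃ J : ℕ, 1 ≤ J ∧ (R : ℝ) / J ≤ ε / 8 := by
    obtain ⟨J, hJ⟩ := exists_nat_ge (8 * R / ε)
    refine ⟨J + 1, by omega, ?_⟩
    have h1 : (0 : ℝ) < ((J + 1 : ℕ) : ℝ) := by positivity
    rw [div_le_iff₀ h1]
    rw [div_le_iff₀ hε] at hJ
    push_cast
    nlinarith
  have hJr : (0 : ℝ) < J := by exact_mod_cast hJ1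
  set η : ℝ := ε / (16 * ((R + 1) * (Λ + 1))) with hη
  have hη0 : 0 < η := by positivity
  have hηR : R * (Λ * η) ≤ ε / 16 := by
    have h1 : (R : ℝ) * (Λ * η) ≤ (R + 1) * ((Λ + 1) * η) := by
      refine mul_le_mul (by linarith) (mul_le_mul_of_nonneg_right (by linarith) hη0.le) (by positivity) (by positivity)
    have h2 : ((R : ℝ) + 1) * ((Λ + 1) * η) = ε / 16 := by rw [hη]; field_simp
    linarith
  set δ : ℝ := ε / 16 with hδ
  have hδ0 : 0 < δ := by positivity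
  set KK : ℕ → ℕ := fun j => K + (J - j) with hKK
  have hKK_step : ∀ j < J, KK j = KK (j + 1) + 1 := by
    intro j hj
    simp only [hKK]
    omega
  have hKK_le : ∀ j, KK j ≤ KK 0 := by
    intro j
    simp only [hKK]
    omega
  have hKK_ge : ∀ j, K ≤ KK j := by
    intro j
    simp only [hKK]
    omega
  have hKK1 : ∀ j, 1 ≤ KK j := fun j => hK.trans (hKK_ge j)
  -- the primes
  set κ₀ : ℝ := 4 * (R * (100 / η ^ 2) + (R : ℝ) ^ 2) with hκ₀
  have hκ₀0 : 0 ≤ κ₀ := by positivity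
  obtain ⟨I, hIp, hIA, τ, hτ, hEQ'⟩ := hQ E' κ' hsub hκ' hfar (max (KK 0) ⌈8 / η⌉₊) (8 * (R + 1) * κ₀ / ε + 1)
  set L : ℝ := ∑ p ∈ I, vw p with hL
  have hL0 : 0 < L := by
    have : 0 ≤ 8 * (R + 1) * κ₀ / ε := by positivity
    linarith
  set w : ℕ → ℝ := fun p => vw p / L with hw
  have hw0 : ∀ p ∈ I, 0 ≤ w p := fun p hp => div_nonneg (hIp p hp).2.2.1 hL0.le
  have hw1 : ∑ p ∈ I, w p = 1 := by
    simp only [hw]
    rw [← sum_div, ← hL, div_self hL0.ne']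
  have hwsum : ∀ (s : Finset ℕ) (x : ℝ), ∑ p ∈ s, vw p ≤ x → ∑ p ∈ s, w p ≤ x / L := by
    intro s x hx
    simp only [hw]
    rw [← sum_div]
    exact div_le_div_of_nonneg_right hx hL0.le
  set κ : ℝ := κ₀ / L with hκ
  have hκ0 : 0 ≤ κ := by positivity
  have hκ1 : (R + 1) * κ ≤ ε / 8 := by
    have h1 : 8 * (R + 1) * κ₀ / ε ≤ L := by linarith
    rw [div_le_iff₀ hε] at h1
    rw [hκ, mul_div_assoc', div_le_iff₀ hL0]
    linarith
  obtain ⟨B, hB'⟩ : ∃ B : ℕ, ∀ p ∈ I, p ≤ B := ⟨I.sup id, fun p hp => le_sup (f := id) hp⟩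
  have hIprime : ∀ p ∈ I, p.Prime := fun p hp => (hIp p hp).1
  obtain ⟨HP, hHP⟩ := hPUSH I η hη0 (fun p hp => ⟨hIprime p hp, by
    have h1 := (hIp p hp).2.1
    have h2 : ⌈8 / η⌉₊ ≤ p := (le_max_right _ _).trans h1.le
    exact (Nat.le_ceil _).trans (by exact_mod_cast h2)⟩)
  choose HN hHN using fun j : ℕ => nr1 (KK j) B
  obtain ⟨M, hM⟩ : ∃ M : ℕ, (KK 0 : ℝ) / τ ≤ M := exists_nat_ge _
  -- the scales
  set H₁ : ℕ := H₀ + HP + ∑ j ∈ range (J + 1), HN j + (M + 1) * (B + 1) + 2 * B + 1 with hH₁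
  set Er : ℝ := (R + 1) * (4 + 2 * Real.log (B + 1)) with hEr
  have hlogB : 0 ≤ Real.log ((B : ℝ) + 1) := Real.log_nonneg (by
    have : (0 : ℝ) ≤ B := Nat.cast_nonneg _
    linarith)
  have hEr0 : 0 < Er := by positivity
  set L₀ : ℝ := 32 * Er / ε with hL₀
  have hL₀0 : 0 < L₀ := by positivity
  refine ⟨H₁, by omega, by omega, L₀, hL₀0, fun H₂ N hH₂ hH₂Λ hhN f hf => ?_⟩
  set hn : ℝ := ∑ n ∈ Icc 1 N, 1 / (n : ℝ) with hhn
  set ℓ : ℝ := ∑ H ∈ Ico H₁ H₂, 1 / (H : ℝ) with hℓ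
  set er : ℝ := Er * (ℓ + hn) with her
  have hmass : MM H₁ H₂ N (fun _ _ => 1) = ℓ * hn := MM_one H₁ H₂ N
  have hℓ0 : 0 < ℓ := lt_of_lt_of_le hL₀0 hH₂Λ
  have hhn0 : 0 < hn := lt_of_lt_of_le hL₀0 hhN
  have hm0 : 0 < ℓ * hn := by positivity
  have herm : er ≤ ε / 16 * (ℓ * hn) := by
    have h1 : Er * ℓ ≤ ε / 32 * (ℓ * hn) := by
      have h2 : 32 * Er ≤ hn * ε := by rw [hL₀, div_le_iff₀ hε] at hhN; exact hhN
      nlinarith
    have h1' : Er * hn ≤ ε / 32 * (ℓ * hn) := by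
      have h2 : 32 * Er ≤ ℓ * ε := by rw [hL₀, div_le_iff₀ hε] at hH₂Λ; exact hH₂Λ
      nlinarith
    rw [her]; nlinarith
  have her0 : 0 ≤ er := by rw [her]; positivity
  -- bounds for primes and scales
  have hscale : ∀ p ∈ I, ∀ H ∈ Ico H₁ H₂, 1 ≤ H / p ∧ (KK 0 : ℝ) / ((H / p : ℕ) : ℝ) ≤ τ := by
    intro p hp H hH
    have hpB := hB' p hp
    have hp0 := (hIprime p hp).pos
    rw [mem_Ico] at hH
    have h1 : M + 1 ≤ H / p := by
      rw [Nat.le_div_iff_mul_le hp0]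
      calc (M + 1) * p ≤ (M + 1) * (B + 1) := Nat.mul_le_mul_left _ (by omega)
        _ ≤ H₁ := by rw [hH₁]; omega
        _ ≤ H := hH.1
    refine ⟨by omega, ?_⟩
    have h2 : ((M : ℝ) + 1) ≤ ((H / p : ℕ) : ℝ) := by exact_mod_cast h1
    have h3 : (0 : ℝ) < ((H / p : ℕ) : ℝ) := lt_of_lt_of_le (by positivity) h2
    rw [div_le_iff₀ h3]
    rw [div_le_iff₀ hτ] at hM
    nlinarith
  -- the potentials
  set Ph : ℕ → ℕ → ℕ → ℝ := fun j n H => Phi φ f t (KK j) n H with hPh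
  have hPh0 : ∀ j n H, 0 ≤ Ph j n H := fun j n H => Phi_nonneg hφ ht hf.1 (hKK1 j) (hR (KK j) (hKK_ge j))
  have hPhR : ∀ j n H, Ph j n H ≤ R := fun j n H =>
    Phi_le fun A hA => (sm_le_R hφ ht hf.1 (hKK1 j) (hR (KK j) (hKK_ge j)) hA).1
  have hDILr : ∀ (F : ℕ → ℕ → ℝ), (∀ n H, 0 ≤ F n H ∧ F n H ≤ R + 1) → ∀ p ∈ I,
      MM H₁ H₂ N (fun n H => F (n / p) (H / p)) ≤ MM H₁ H₂ N F + er := by
    intro F hF p hp
    have hpB := hB' p hp
    have hp1 := (hIprime p hp).one_le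
    refine (hDIL p H₁ H₂ N (R + 1) F hp1 (by omega) hH₂ hF).trans ?_
    have h1 : Real.log p ≤ Real.log (B + 1) := Real.log_le_log (by exact_mod_cast hp1) (by
      have : (p : ℝ) ≤ B := by exact_mod_cast hpB
      linarith)
    have h2 : ((R : ℝ) + 1) * (4 + 2 * Real.log p) * (ℓ + hn) ≤ er := by
      rw [her, hEr]
      gcongr
    linarith
  set s : ℕ → ℕ → ℝ := fun n H => φ (wSup 1 E' f n H / H) with hs
  have hs01 : ∀ n H, 0 ≤ s n H ∧ s n H ≤ 1 := fun n H => ⟨hφ.nonneg _, phi_le_one hφ hf.1 E' n H⟩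
  -- the pointwise inequality
  have hpt : ∀ j < J, ∀ H ∈ Ico H₁ H₂, ∀ n ∈ Icc 1 N, ∑ p ∈ I, w p * s (n / p) (H / p) ≤
      ∑ p ∈ I, w p * Ph (j + 1) (n / p) (H / p) + ((-1) * Ph j n H + ((ε / 8 + ε / 8) +
        ((volume E).toReal + ε) * Phi φ f t K n H)) := by
    intro j hj H hH n _
    have hH' := mem_Ico.1 hH
    have hH1 : 1 ≤ H := by omega
    obtain ⟨A, hA, hA2⟩ := Phi_near (φ := φ) (f := f) (t := t) (K := KK j) (n := n) (H := H) hδ0
    have hcard : (#A : ℝ) ≤ R := (sm_le_R hφ ht hf.1 (hKK1 j) (hR (KK j) (hKK_ge j)) hA).2 hH1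
    have hexc := exc_le (K := KK (j + 1)) (R := R) (I := I) (η := η) (f := f) (n := n) (H := H) (A := A)
      (fun p hp => ⟨hIprime p hp, (hIp p hp).2.2.1, (hIp p hp).2.2.2⟩) hη0 hcard
      (by rw [← hKK_step j hj]; exact hA.1)
      (fun α => by
        have h1 := hHP H (by omega) f hf (lin α) n
        simp only [dil_lin] at h1
        exact h1)
      (fun α β p hp q hq hpq h4 h5 => by
        have h6 : HN (j + 1) ≤ ∑ j ∈ range (J + 1), HN j :=
          single_le_sum (f := HN) (fun _ _ => Nat.zero_le _) (mem_range.2 (by omega))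
        exact hHN (j + 1) H (by omega) α β p q (hIprime p hp) (hIprime q hq) hpq
          (hB' p hp) (hB' q hq) h4 h5)
    set G : ℕ → Prop := fun p => Gd f (KK (j + 1)) n H η A p with hG
    set Bd : ℝ → ℕ → Prop := fun α p => ∃ β : ℝ, (β : UnitAddCircle) ∈ E' ∧ ∃ b : ℤ, |β - p * α - b| ≤ τ with hBd
    have h1 : ∀ p ∈ I, w p * s (n / p) (H / p) ≤ w p * Ph (j + 1) (n / p) (H / p) + w p * (δ + R * (Λ * η) - Ph j n H) +
        (R + 1) * (if ¬ G p then w p else 0) + ∑ α ∈ A, φ (‖WL f α n H‖ / H) * (if Bd α p then w p else 0) := by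
      intro p hp
      have hwp := hw0 p hp
      have hp0 := (hIprime p hp).pos
      obtain ⟨hsc1, hsc2⟩ := hscale p hp H hH
      have hn3 : ∀ α ∈ A, (0 : ℝ) ≤ φ (‖WL f α n H‖ / H) * (if Bd α p then w p else 0) := by
        intro α _
        refine mul_nonneg (hφ.nonneg _) ?_
        split_ifs
        · exact hwp
        · exact le_rfl
      have hn4 := sum_nonneg hn3
      by_cases hGp : G p
      · rw [if_neg (not_not.2 hGp), mul_zero, add_zero]
        have h2 : s (n / p) (H / p) ≤ Ph (j + 1) (n / p) (H / p) - sm φ f n H A + R * (Λ * η) +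
            ∑ α ∈ A, φ (‖WL f α n H‖ / H) * (if Bd α p then 1 else 0) := by
          have hX0 : 0 ≤ Ph (j + 1) (n / p) (H / p) - sm φ f n H A + R * (Λ * η) := by
            obtain ⟨C, hC, _, hC2⟩ := push_list hφ hf.1 hη0 hp0 hsc1 hGp (subset_refl A)
            have h3 := le_Phi hφ ht hf.1 (hKK1 (j + 1)) (hR (KK (j + 1)) (hKK_ge (j + 1))) hC
            have h4 : (#A : ℝ) * (Λ * η) ≤ R * (Λ * η) := mul_le_mul_of_nonneg_right hcard (by positivity)
            simp only [hPh]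
            linarith
          have hX1 : 0 ≤ ∑ α ∈ A, φ (‖WL f α n H‖ / H) * (if Bd α p then 1 else 0) := by
            refine sum_nonneg fun α _ => mul_nonneg (hφ.nonneg _) ?_
            split_ifs <;> norm_num
          refine phi_wSup hφ ht hΛ hf.1 (by linarith) fun β hβ => ?_
          refine (phi_step hφ ht hΛ hf.1 (hKK1 (j + 1)) (hR (KK (j + 1)) (hKK_ge (j + 1))) hη0 hp0 hsc1 hGp hcard β).trans ?_
          refine add_le_add le_rfl ?_
          rw [sum_filter]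
          refine sum_le_sum fun α _ => ?_
          split_ifs with h5 h6 h6
          · rw [mul_one]
          · exfalso
            apply h6
            obtain ⟨b, hb⟩ := h5
            refine ⟨β, hβ, b, hb.trans (le_trans ?_ hsc2)⟩
            have : ((KK (j + 1) : ℕ) : ℝ) ≤ KK 0 := by exact_mod_cast hKK_le (j + 1)
            gcongr
          · rw [mul_one]; exact hφ.nonneg _
          · rw [mul_zero]
        have h3 := mul_le_mul_of_nonneg_left h2 hwp
        have h4 : w p * ∑ α ∈ A, φ (‖WL f α n H‖ / H) * (if Bd α p then 1 else 0) =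
            ∑ α ∈ A, φ (‖WL f α n H‖ / H) * (if Bd α p then w p else 0) := by
          rw [mul_sum]
          refine sum_congr rfl fun α _ => ?_
          split_ifs <;> ring
        rw [mul_add, h4] at h3
        have h5 : w p * (Ph (j + 1) (n / p) (H / p) - sm φ f n H A + R * (Λ * η)) ≤
            w p * Ph (j + 1) (n / p) (H / p) + w p * (δ + R * (Λ * η) - Ph j n H) := by
          rw [← mul_add]
          refine mul_le_mul_of_nonneg_left ?_ hwp
          simp only [hPh]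
          linarith
        linarith
      · rw [if_pos hGp]
        have h2 := (hs01 (n / p) (H / p)).2
        have h3 : w p * s (n / p) (H / p) ≤ w p * 1 := mul_le_mul_of_nonneg_left h2 hwp
        have h4 := hPh0 (j + 1) (n / p) (H / p)
        have h5 := hPhR j n H
        have h6 : 0 ≤ w p * Ph (j + 1) (n / p) (H / p) := mul_nonneg hwp h4
        have h7 : w p * (-R) ≤ w p * (δ + R * (Λ * η) - Ph j n H) := by
          refine mul_le_mul_of_nonneg_left ?_ hwp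
          have : 0 ≤ (R : ℝ) * (Λ * η) := by positivity
          linarith
        linarith
    refine (sum_le_sum h1).trans ?_
    rw [sum_add_distrib, sum_add_distrib, sum_add_distrib, ← sum_mul, hw1, one_mul, ← mul_sum, sum_comm]
    have h2 : ∑ p ∈ I, (if ¬ G p then w p else 0) ≤ κ := by
      rw [← sum_filter]
      exact hwsum _ κ₀ hexc
    have h3 : ∑ α ∈ A, ∑ p ∈ I, φ (‖WL f α n H‖ / H) * (if Bd α p then w p else 0) ≤
        ((volume E).toReal + ε) * sm φ f n H A := by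
      unfold sm
      rw [mul_sum]
      refine sum_le_sum fun α _ => ?_
      rw [← mul_sum, mul_comm]
      refine mul_le_mul_of_nonneg_right ?_ (hφ.nonneg _)
      rw [← sum_filter]
      have h4 := hwsum _ _ (hEQ' α)
      rw [mul_div_assoc, div_self hL0.ne', mul_one] at h4
      exact h4
    have h4 : sm φ f n H A ≤ Phi φ f t K n H := le_Phi hφ ht hf.1 hK (hR K le_rfl) (hA.anti (hKK_ge j))
    have h5 : ((volume E).toReal + ε) * sm φ f n H A ≤ ((volume E).toReal + ε) * Phi φ f t K n H :=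
      mul_le_mul_of_nonneg_left h4 (by positivity)
    have h6 : ((R : ℝ) + 1) * ∑ p ∈ I, (if ¬ G p then w p else 0) ≤ ε / 8 :=
      (mul_le_mul_of_nonneg_left h2 (by positivity)).trans hκ1
    linarith
  -- averages
  have hstep : ∀ j < J, MM H₁ H₂ N s ≤ MM H₁ H₂ N (Ph (j + 1)) - MM H₁ H₂ N (Ph j) + 2 * er +
      ε / 4 * (ℓ * hn) + ((volume E).toReal + ε) * MM H₁ H₂ N (fun n H => Phi φ f t K n H) := by
    intro j hj
    have hs1 : MM H₁ H₂ N s ≤ ∑ p ∈ I, w p * MM H₁ H₂ N (fun n H => s (n / p) (H / p)) + er := by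
      refine le_of_MM hw1 hw0 fun p hp => hDILr (fun n H => 1 - s n H) (fun n H => ?_) p hp
      have := hs01 n H
      constructor <;> linarith [this.1, this.2]
    have h1 := MM_mono (H₁ := H₁) (H₂ := H₂) (N := N) (F := fun n H => ∑ p ∈ I, w p * s (n / p) (H / p))
      (G := fun n H => ∑ p ∈ I, w p * Ph (j + 1) (n / p) (H / p) + ((-1) * Ph j n H + ((ε / 8 + ε / 8) +
        ((volume E).toReal + ε) * Phi φ f t K n H))) (hpt j hj)
    rw [MM_add, MM_add H₁ H₂ N (fun n H => (-1) * Ph j n H), MM_smul, MM_add H₁ H₂ N (fun _ _ => ε / 8 + ε / 8),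
      MM_const, MM_smul, hmass,
      MM_sum I H₁ H₂ N (fun p n H => w p * s (n / p) (H / p)),
      MM_sum I H₁ H₂ N (fun p n H => w p * Ph (j + 1) (n / p) (H / p))] at h1
    simp only [MM_smul] at h1
    have h2 : ∑ p ∈ I, w p * MM H₁ H₂ N (fun n H => Ph (j + 1) (n / p) (H / p)) ≤ MM H₁ H₂ N (Ph (j + 1)) + er := by
      calc ∑ p ∈ I, w p * MM H₁ H₂ N (fun n H => Ph (j + 1) (n / p) (H / p)) ≤
          ∑ p ∈ I, w p * (MM H₁ H₂ N (Ph (j + 1)) + er) := by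
            refine sum_le_sum fun p hp => mul_le_mul_of_nonneg_left ?_ (hw0 p hp)
            refine hDILr (Ph (j + 1)) (fun n H => ⟨hPh0 _ _ _, ?_⟩) p hp
            linarith [hPhR (j + 1) n H]
        _ = _ := by rw [← sum_mul, hw1, one_mul]
    linarith
  have htel : J * MM H₁ H₂ N s ≤ R * (ℓ * hn) + J * (2 * er + ε / 4 * (ℓ * hn) +
      ((volume E).toReal + ε) * MM H₁ H₂ N (fun n H => Phi φ f t K n H)) := by
    have h1 : ∑ _j ∈ range J, MM H₁ H₂ N s ≤ ∑ j ∈ range J, ((MM H₁ H₂ N (Ph (j + 1)) - MM H₁ H₂ N (Ph j)) +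
        (2 * er + ε / 4 * (ℓ * hn) + ((volume E).toReal + ε) * MM H₁ H₂ N (fun n H => Phi φ f t K n H))) := by
      refine sum_le_sum fun j hj => ?_
      have := hstep j (mem_range.1 hj)
      linarith
    rw [sum_add_distrib, sum_range_sub (fun j => MM H₁ H₂ N (Ph j)), sum_const, sum_const, card_range, nsmul_eq_mul,
      nsmul_eq_mul] at h1
    have h2 : 0 ≤ MM H₁ H₂ N (Ph 0) := by
      have := MM_mono (H₁ := H₁) (H₂ := H₂) (N := N) (F := fun _ _ => (0 : ℝ)) (G := Ph 0)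
        (fun H _ n _ => hPh0 0 n H)
      rw [MM_const, zero_mul] at this
      exact this
    have h3 : MM H₁ H₂ N (Ph J) ≤ R * (ℓ * hn) := by
      have := MM_mono (H₁ := H₁) (H₂ := H₂) (N := N) (F := Ph J) (G := fun _ _ => (R : ℝ))
        (fun H _ n _ => hPhR J n H)
      rw [MM_const, hmass] at this
      exact this
    linarith
  have hdivJ : R * (ℓ * hn) ≤ J * (ε / 8 * (ℓ * hn)) := by
    rw [div_le_iff₀ hJr] at hJ
    have := mul_le_mul_of_nonneg_right hJ hm0.le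
    linarith
  have h9 : (J : ℝ) * MM H₁ H₂ N s ≤ J * (ε / 8 * (ℓ * hn) + 2 * er + ε / 4 * (ℓ * hn) +
      ((volume E).toReal + ε) * MM H₁ H₂ N (fun n H => Phi φ f t K n H)) := by linarith
  have h10 := le_of_mul_le_mul_left h9 hJr
  have h11 : 0 ≤ ε * (ℓ * hn) := by positivity
  linarith

end Pool.Agent.T9h55.MD
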