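import Pool.Agent.T9h55.MD.Sq3
import Pool.Agent.T9h55.MD.Fin3

/-! Linear phases: from one scale to all scales for convex functions of the supremum (helper55). -/

set_option autoImplicit false

namespace Pool.Agent.T9h55.MD

open Finset Polynomial MeasureTheory
open Pool.Agent.Helper44K9.FU
open Pool.Agent.H807R2.Dav (ee norm_ee)

/-- the logarithmic averages of `F` are at most `σ` in the limit -/
def AvgB (F : ℕ → ℕ → ℝ) (σ : ℝ) : Prop :=
  ∀ ε : ℝ, 0 < ε → ∃ H₀ : ℕ, ∀ N H : ℕ, H₀ ≤ H → H ≤ N →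
    ∑ n ∈ Icc 1 N, (1 / (n : ℝ)) * F n H ≤ (σ + ε) * Real.log N

lemma hn_le (N : ℕ) : ∑ n ∈ Icc 1 N, 1 / (n : ℝ) ≤ 1 + Real.log N := by
  have h1 := harmonic_le_one_add_log N
  refine le_trans (le_of_eq ?_) h1
  rw [harmonic_eq_sum_Icc]
  push_cast
  exact sum_congr rfl fun x _ => one_div _

/-- bounds by the harmonic sum -/
lemma avgB_of {F : ℕ → ℕ → ℝ} {σ : ℝ} (hσ : 0 ≤ σ)
    (h : ∀ ε : ℝ, 0 < ε → ∃ H₀ : ℕ, ∀ N H : ℕ, H₀ ≤ H → H ≤ N →
      ∑ n ∈ Icc 1 N, (1 / (n : ℝ)) * F n H ≤ (σ + ε) * ∑ n ∈ Icc 1 N, 1 / (n : ℝ)) : AvgB F σ := by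
  intro ε hε
  obtain ⟨H₀, h₀⟩ := h (ε / 2) (by positivity)
  obtain ⟨A, hA⟩ := exists_nat_ge (Real.exp ((σ + ε / 2) / (ε / 2)))
  refine ⟨H₀ + A + 1, fun N H hH hN => ?_⟩
  have h1 := h₀ N H (by omega) hN
  have h2 : (σ + ε / 2) / (ε / 2) ≤ Real.log N := by
    have h3 : Real.exp ((σ + ε / 2) / (ε / 2)) ≤ N := hA.trans (by exact_mod_cast (by omega : A ≤ N))
    rw [Real.le_log_iff_exp_le (lt_of_lt_of_le (Real.exp_pos _) h3)]
    exact h3
  rw [div_le_iff₀ (by positivity)] at h2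
  have h3 := mul_le_mul_of_nonneg_left (hn_le N) (by positivity : 0 ≤ σ + ε / 2)
  linarith

lemma AvgB.mono {F G : ℕ → ℕ → ℝ} {σ σ' : ℝ} (h : AvgB G σ) (hσ : σ ≤ σ') (hFG : ∀ n H, 1 ≤ H → F n H ≤ G n H) :
    AvgB F σ' := by
  intro ε hε
  obtain ⟨H₀, h₀⟩ := h ε hε
  refine ⟨H₀ + 1, fun N H hH hN => ?_⟩
  have h1 := h₀ N H (by omega) hN
  have h2 : ∑ n ∈ Icc 1 N, (1 / (n : ℝ)) * F n H ≤ ∑ n ∈ Icc 1 N, (1 / (n : ℝ)) * G n H :=
    sum_le_sum fun n _ => mul_le_mul_of_nonneg_left (hFG n H (by omega)) (by positivity)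
  have h3 : 0 ≤ Real.log N := Real.log_natCast_nonneg N
  have h4 : (σ + ε) * Real.log N ≤ (σ' + ε) * Real.log N := mul_le_mul_of_nonneg_right (by linarith) h3
  linarith

lemma AvgB.add {F G : ℕ → ℕ → ℝ} {σ σ' : ℝ} (h : AvgB F σ) (h' : AvgB G σ') :
    AvgB (fun n H => F n H + G n H) (σ + σ') := by
  intro ε hε
  obtain ⟨H₀, h₀⟩ := h (ε / 2) (by positivity)
  obtain ⟨H₁, h₁⟩ := h' (ε / 2) (by positivity)
  refine ⟨H₀ + H₁, fun N H hH hN => ?_⟩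
  have e1 := h₀ N H (by omega) hN
  have e2 := h₁ N H (by omega) hN
  simp only [mul_add]
  rw [sum_add_distrib]
  linarith

lemma AvgB.smul {F : ℕ → ℕ → ℝ} {σ c : ℝ} (h : AvgB F σ) (hc : 0 ≤ c) : AvgB (fun n H => c * F n H) (c * σ) := by
  intro ε hε
  obtain ⟨H₀, h₀⟩ := h (ε / (c + 1)) (by positivity)
  refine ⟨H₀, fun N H hH hN => ?_⟩
  have e1 := mul_le_mul_of_nonneg_left (h₀ N H hH hN) hc
  have e2 : ∑ n ∈ Icc 1 N, (1 / (n : ℝ)) * (c * F n H) = c * ∑ n ∈ Icc 1 N, (1 / (n : ℝ)) * F n H := by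
    rw [mul_sum]
    exact sum_congr rfl fun n _ => by ring
  rw [e2]
  refine e1.trans ?_
  have h3 : 0 ≤ Real.log N := Real.log_natCast_nonneg N
  have h4 : c * (ε / (c + 1)) ≤ ε := by
    rw [mul_div_assoc', div_le_iff₀ (by positivity)]
    nlinarith
  nlinarith [mul_le_mul_of_nonneg_right h4 h3]

lemma avgB_of_eps {F : ℕ → ℕ → ℝ} {σ : ℝ} (h : ∀ ε : ℝ, 0 < ε → AvgB F (σ + ε)) : AvgB F σ := by
  intro ε hε
  obtain ⟨H₀, h₀⟩ := h (ε / 2) (by positivity) (ε / 2) (by positivity)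
  refine ⟨H₀, fun N H hH hN => (h₀ N H hH hN).trans (le_of_eq ?_)⟩
  ring

open Pool.Agent.Helper44K9.FU.FL in
/-- from one good scale to all scales for a convex function -/
theorem fin_core5 (hSUB : S_SUB) (E : Set UnitAddCircle) {f : ℕ → ℂ} (hf : Mul1 f) {φ : ℝ → ℝ} {t Λ : ℝ}
    (hφ : Pot φ t Λ) (hcv : ConvexOn ℝ Set.univ φ) (ht : 0 < t) (hΛ : 0 ≤ Λ) (σ : ℝ) (hσ : 0 ≤ σ)
    (ε : ℝ) (hε : 0 < ε)
    (hLS : ∀ ε' : ℝ, 0 < ε' → ∃ X₀ : ℕ, ∀ X ≥ X₀, ∀ P : ℝ[X], P.natDegree ≤ 1 →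
      ((P.coeff 1 : ℝ) : UnitAddCircle) ∈ E → ‖W f P 0 X‖ ≤ ε' * X)
    (hM : ∃ H₁ H₂ N₀ : ℕ, 1 ≤ H₁ ∧ ∀ N ≥ N₀, ∃ H ∈ Ico H₁ H₂,
      ∑ n ∈ Icc 1 N, (1 / (n : ℝ)) * φ (wSup 1 E f n H / H) ≤ σ * ∑ n ∈ Icc 1 N, 1 / (n : ℝ)) :
    ∃ H₀ : ℕ, ∀ N H : ℕ, H₀ ≤ H → H ≤ N →
        ∑ n ∈ Icc 1 N, (1 / (n : ℝ)) * φ (wSup 1 E f n H / H) ≤ (σ + ε) * Real.log N := by
  obtain ⟨H₁, H₂, N₁, hH₁, hmain⟩ := hM
  obtain ⟨C₀, hC₀⟩ := exists_nat_ge (8 * σ / ε)
  set C : ℕ := C₀ + 1 with hC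
  have hC1 : 1 ≤ C := by omega
  have hCr : (1 : ℝ) ≤ C := by exact_mod_cast hC1
  have hσC : σ / C ≤ ε / 8 := by
    rw [div_le_iff₀ (by linarith)]
    rw [div_le_iff₀ hε] at hC₀
    rw [hC]; push_cast
    nlinarith
  set ε₂ : ℝ := t / (4 * (C + 1)) with hε₂
  have hε₂0 : 0 < ε₂ := by positivity
  obtain ⟨X₀, hX₀⟩ := hLS ε₂ hε₂0
  obtain ⟨A, hA⟩ := exists_nat_ge (16 * ((Λ + 1) * (H₂ : ℝ)) / ε)
  obtain ⟨A', hA'⟩ := exists_nat_ge ((X₀ : ℝ) / ε₂)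
  obtain ⟨A'', hA''⟩ := exists_nat_ge (Real.exp ((σ + ε + 2) / (ε / 2)))
  refine ⟨N₁ + X₀ + A + A' + A'' + H₂ + 1, fun N H hH hN => ?_⟩
  have hH0 : (0 : ℝ) < H := by exact_mod_cast (by omega : 0 < H)
  have hHA : 16 * ((Λ + 1) * (H₂ : ℝ)) / ε ≤ H := hA.trans (by exact_mod_cast (by omega : A ≤ H))
  have hHA' : (X₀ : ℝ) / ε₂ ≤ H := hA'.trans (by exact_mod_cast (by omega : A' ≤ H))
  have hHA'' : Real.exp ((σ + ε + 2) / (ε / 2)) ≤ N := hA''.trans (by exact_mod_cast (by omega : A'' ≤ N))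
  obtain ⟨H', hH', hsm⟩ := hmain N (by omega)
  rw [mem_Ico] at hH'
  have hH'0 : (0 : ℝ) < H' := by exact_mod_cast (by omega : 0 < H')
  set hn : ℝ := ∑ n ∈ Icc 1 N, 1 / (n : ℝ) with hhn
  have hn0 : 0 ≤ hn := sum_nonneg fun _ _ => by positivity
  have hlog : hn ≤ 1 + Real.log N := hn_le N
  have hlogN : (σ + ε + 2) / (ε / 2) ≤ Real.log N := by
    rw [Real.le_log_iff_exp_le (lt_of_lt_of_le (Real.exp_pos _) hHA'')]
    exact hHA''
  -- normalized suprema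
  set s : ℕ → ℕ → ℝ := fun H n => wSup 1 E f n H / H with hs
  have hs01 : ∀ H n, 0 ≤ s H n ∧ s H n ≤ 1 := fun H n => nsup01 hf.1 n H
  set u : ℕ → ℕ → ℝ := fun H n => φ (s H n) with hu
  have hu01 : ∀ H n, 0 ≤ u H n ∧ u H n ≤ 1 := fun H n => ⟨hφ.nonneg _, hφ.one _ (hs01 H n).2⟩
  -- small n
  have hsm1 : ∀ n : ℕ, n ≤ C * H → u H n = 0 := by
    intro n hn'
    simp only [hu]
    apply hφ.zero
    simp only [hs]
    rw [div_le_iff₀ hH0]
    refine wSup_le (by positivity) fun P hP hPE => ?_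
    have h2 : W f P n H = W f P 0 (n + H) - W f P 0 n := by
      unfold W
      rw [Nat.zero_add, Nat.zero_add, eq_sub_iff_add_eq, add_comm]
      rw [← sum_union]
      · congr 1
        ext m; simp only [mem_union, mem_Ioc]; omega
      · rw [Finset.disjoint_left]
        intro m hm hm'
        rw [mem_Ioc] at hm hm'
        omega
    have h3 : ‖W f P 0 (n + H)‖ ≤ ε₂ * ((n + H : ℕ) : ℝ) := hX₀ (n + H) (by omega) P hP hPE
    have h5 : (n : ℝ) ≤ C * H := by exact_mod_cast hn'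
    have h4 : ‖W f P 0 n‖ ≤ ε₂ * (C * H) := by
      by_cases hn2 : X₀ ≤ n
      · exact (hX₀ n hn2 P hP hPE).trans (mul_le_mul_of_nonneg_left h5 hε₂0.le)
      · push Not at hn2
        refine (W_le hf.1 P 0 n).trans ?_
        rw [div_le_iff₀ hε₂0] at hHA'
        have : (n : ℝ) ≤ X₀ := by exact_mod_cast hn2.le
        have h6 : (H : ℝ) ≤ C * H := by nlinarith
        nlinarith
    rw [h2]
    refine (norm_sub_le _ _).trans ?_
    push_cast at h3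
    have h6 : ε₂ * ((n : ℝ) + H) ≤ ε₂ * ((C + 1) * H) := mul_le_mul_of_nonneg_left (by linarith) hε₂0.le
    have h7 : ε₂ * ((C + 1) * H) = t / 4 * H := by rw [hε₂]; field_simp
    have h8 : ε₂ * (C * H) ≤ ε₂ * ((C + 1) * H) := mul_le_mul_of_nonneg_left (by nlinarith) hε₂0.le
    have h9 : 0 ≤ t * H := by positivity
    linarith
  have hsmalln : ∀ M : ℕ, M ≤ C * H → ∑ n ∈ Icc 1 M, (1 / (n : ℝ)) * u H n ≤ 0 := by
    intro M hM1
    refine le_of_eq (sum_eq_zero fun n hn' => ?_)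
    rw [hsm1 n ((mem_Icc.1 hn').2.trans hM1), mul_zero]
  have h9 : ∑ n ∈ Icc 1 N, (1 / (n : ℝ)) * u H n ≤ (σ + ε) * Real.log N := by
    have hfin : (σ + 3 * ε / 8) * hn + 2 ≤ (σ + ε) * Real.log N := by
      have h13 : (σ + 3 * ε / 8) * hn ≤ (σ + 3 * ε / 8) * (1 + Real.log N) :=
        mul_le_mul_of_nonneg_left hlog (by positivity)
      rw [div_le_iff₀ (by positivity)] at hlogN
      have h14 : 0 ≤ Real.log N := Real.log_natCast_nonneg N
      nlinarith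
    by_cases hCN : C * H ≤ N
    · have hlarge : ∑ n ∈ Ioc (C * H) N, (1 / (n : ℝ)) * u H n ≤
          (1 + 1 / (C : ℝ)) * (∑ n ∈ Icc 1 N, (1 / (n : ℝ)) * u H' n + 1) + ε / 8 * hn := by
        refine hSUB (u H) (u H') C H N (ε / 8) (fun n => hu01 H' n) hC1 (by omega) hCN (by positivity) fun n => ?_
        have h2 : ∀ P : ℝ[X], P.natDegree ≤ 1 → ((P.coeff 1 : ℝ) : UnitAddCircle) ∈ E →
            ‖W f P n H‖ ≤ ∑ i ∈ range H, s H' (n + i) + 2 * H' := by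
          intro P hP hPE
          have h3 := sub_window hf.1 P n H H'
          have h4 : ∑ i ∈ range H, ‖W f P (n + i) H'‖ ≤ H' * ∑ i ∈ range H, s H' (n + i) := by
            rw [mul_sum]
            refine sum_le_sum fun i _ => ?_
            simp only [hs]
            rw [mul_div_cancel₀ _ hH'0.ne']
            exact le_wSup hf.1 (n + i) H' hP hPE
          have h5 : (H' : ℝ) * ‖W f P n H‖ ≤ H' * (∑ i ∈ range H, s H' (n + i) + 2 * H') := by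
            refine h3.trans ?_
            rw [mul_add]
            nlinarith
          exact le_of_mul_le_mul_left h5 hH'0
        have h6 : wSup 1 E f n H ≤ ∑ i ∈ range H, s H' (n + i) + 2 * H' :=
          wSup_le (add_nonneg (sum_nonneg fun i _ => (hs01 H' (n + i)).1) (by positivity)) h2
        set a : ℝ := (1 / (H : ℝ)) * ∑ i ∈ range H, s H' (n + i) with ha
        have h7 : s H n ≤ a + 2 * H' / H := by
          show wSup 1 E f n H / H ≤ _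
          rw [div_le_iff₀ hH0, add_mul, ha, mul_comm (1 / (H : ℝ)), mul_assoc, one_div_mul_cancel hH0.ne', mul_one,
            div_mul_cancel₀ _ hH0.ne']
          exact h6
        have hjen : φ a ≤ (1 / (H : ℝ)) * ∑ i ∈ range H, u H' (n + i) := by
          have h8 := hcv.map_sum_le (t := range H) (w := fun _ => 1 / (H : ℝ)) (p := fun i => s H' (n + i))
            (fun _ _ => by positivity) (by rw [sum_const, card_range, nsmul_eq_mul, mul_one_div_cancel hH0.ne'])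
            (fun _ _ => Set.mem_univ _)
          simp only [smul_eq_mul, ← mul_sum] at h8
          exact h8
        have h10 : Λ * (2 * H' / H) ≤ ε / 8 := by
          have h7 : (H' : ℝ) ≤ H₂ := by exact_mod_cast hH'.2.le
          rw [div_le_iff₀ hε] at hHA
          rw [mul_div_assoc', div_le_iff₀ hH0]
          have h11 : (Λ + 1) * (H' : ℝ) ≤ (Λ + 1) * H₂ := mul_le_mul_of_nonneg_left h7 (by linarith)
          nlinarith
        have h12 : u H n ≤ φ a + Λ * (2 * H' / H) := by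
          simp only [hu]
          rcases le_total (s H n) a with h13 | h13
          · have := hφ.mono h13
            have h14 : 0 ≤ Λ * (2 * (H' : ℝ) / H) := by positivity
            linarith
          · have h14 := hφ.lip (s H n) a h13 (hs01 H n).2
            have h15 : Λ * (s H n - a) ≤ Λ * (2 * H' / H) := mul_le_mul_of_nonneg_left (by linarith) hΛ
            linarith
        linarith
      have h1 : ∑ n ∈ Icc 1 N, (1 / (n : ℝ)) * u H n = ∑ n ∈ Icc 1 (C * H), (1 / (n : ℝ)) * u H n +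
          ∑ n ∈ Ioc (C * H) N, (1 / (n : ℝ)) * u H n := by
        rw [← sum_union]
        · congr 1
          have : 1 ≤ C * H := Nat.mul_pos hC1 (by omega)
          ext m; simp only [mem_union, mem_Icc, mem_Ioc]; omega
        · rw [Finset.disjoint_left]
          intro m hm hm'
          rw [mem_Icc] at hm
          rw [mem_Ioc] at hm'
          omega
      rw [h1]
      have h2 := hsmalln (C * H) le_rfl
      have h3 : (1 + 1 / (C : ℝ)) * (∑ n ∈ Icc 1 N, (1 / (n : ℝ)) * u H' n + 1) ≤ (σ + ε / 8) * hn + 2 := by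
        have h4 : 1 / (C : ℝ) ≤ 1 := by rw [div_le_one (by linarith)]; exact hCr
        have h5 : 0 ≤ 1 / (C : ℝ) := by positivity
        calc (1 + 1 / (C : ℝ)) * (∑ n ∈ Icc 1 N, (1 / (n : ℝ)) * u H' n + 1) ≤ (1 + 1 / (C : ℝ)) * (σ * hn + 1) :=
              mul_le_mul_of_nonneg_left (by linarith) (by positivity)
          _ = σ * hn + (σ / C) * hn + (1 + 1 / C) := by ring
          _ ≤ σ * hn + (ε / 8) * hn + 2 := by
              have := mul_le_mul_of_nonneg_right hσC hn0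
              linarith
          _ = _ := by ring
      have h4 : 0 ≤ ε * hn := by positivity
      linarith
    · push Not at hCN
      have h2 := hsmalln N hCN.le
      have h3 : 0 ≤ (σ + 3 * ε / 8) * hn := by positivity
      linarith
  exact h9

/-- a scale in a range with a small average, from the doubly logarithmic average -/
lemma some_scale {H₁ H₂ N : ℕ} (hH₁ : 1 ≤ H₁) {F : ℕ → ℕ → ℝ} {ρ : ℝ} (hℓ : 0 < ∑ H ∈ Ico H₁ H₂, 1 / (H : ℝ))
    (h : MM H₁ H₂ N F ≤ ρ * ((∑ H ∈ Ico H₁ H₂, 1 / (H : ℝ)) * ∑ n ∈ Icc 1 N, 1 / (n : ℝ))) :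
    ∃ H ∈ Ico H₁ H₂, ∑ n ∈ Icc 1 N, (1 / (n : ℝ)) * F n H ≤ ρ * ∑ n ∈ Icc 1 N, 1 / (n : ℝ) := by
  by_contra hcon
  push Not at hcon
  have h1 : ρ * ((∑ H ∈ Ico H₁ H₂, 1 / (H : ℝ)) * ∑ n ∈ Icc 1 N, 1 / (n : ℝ)) < MM H₁ H₂ N F := by
    unfold MM
    rw [sum_mul, mul_sum]
    have hne : (Ico H₁ H₂).Nonempty := by
      by_contra h
      rw [not_nonempty_iff_eq_empty] at h
      rw [h, sum_empty] at hℓ
      exact lt_irrefl _ hℓ
    refine sum_lt_sum_of_nonempty hne fun H hH => ?_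
    have h2 := hcon H hH
    have hH0 : (0 : ℝ) < H := by
      have := (mem_Ico.1 hH).1
      exact_mod_cast (by omega : 0 < H)
    have h3 : ρ * (1 / (H : ℝ) * ∑ n ∈ Icc 1 N, 1 / (n : ℝ)) = 1 / (H : ℝ) * (ρ * ∑ n ∈ Icc 1 N, 1 / (n : ℝ)) := by ring
    rw [h3]
    exact mul_lt_mul_of_pos_left h2 (by positivity)
  linarith

/-- the harmonic sums over scales -/
lemma exists_H₂ (H₁ : ℕ) (L : ℝ) : ∃ H₂ : ℕ, H₁ ≤ H₂ ∧ L ≤ ∑ H ∈ Ico H₁ H₂, 1 / (H : ℝ) := by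
  have hdiv := Real.tendsto_sum_range_one_div_nat_succ_atTop
  obtain ⟨M', hM'⟩ := (hdiv.eventually_ge_atTop (L + ∑ k ∈ range H₁, 1 / ((k : ℝ)))).exists
  refine ⟨max H₁ (M' + 1), le_max_left _ _, ?_⟩
  have h2 : ∑ i ∈ range M', 1 / ((i : ℝ) + 1) = ∑ k ∈ range (M' + 1), 1 / (k : ℝ) := by
    rw [sum_range_succ' (fun k : ℕ => 1 / (k : ℝ)) M']
    push_cast; simp
  rw [h2] at hM'
  have h3 : ∑ k ∈ range (M' + 1), 1 / (k : ℝ) ≤ ∑ k ∈ range (max H₁ (M' + 1)), 1 / (k : ℝ) :=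
    sum_le_sum_of_subset_of_nonneg (range_subset_range.2 (le_max_right _ _)) fun _ _ _ => by positivity
  rw [sum_Ico_eq_sub _ (le_max_left _ _)]
  linarith

lemma exists_N₀ (L : ℝ) : ∃ N₀ : ℕ, ∀ N ≥ N₀, L ≤ ∑ n ∈ Icc 1 N, 1 / (n : ℝ) := by
  have hdiv := Real.tendsto_sum_range_one_div_nat_succ_atTop
  obtain ⟨N₀, hN₀⟩ := Filter.eventually_atTop.1 (hdiv.eventually_ge_atTop L)
  refine ⟨N₀, fun N hN => ?_⟩
  have h1 := hN₀ N hN
  have h2 : ∑ n ∈ Icc 1 N, 1 / (n : ℝ) = ∑ i ∈ range N, 1 / ((i : ℝ) + 1) := by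
    rw [← Finset.Ico_succ_right_eq_Icc, sum_Ico_eq_sum_range]
    refine sum_congr (by simp) fun i _ => ?_
    push_cast; rw [add_comm (1 : ℝ)]
  rw [h2]; exact h1

/-- doubly logarithmic averages from averages at large scales -/
lemma MM_of_avg {B : ℕ → ℕ → ℝ} {σ : ℝ} {H₁ H₂ N : ℕ}
    (hB : ∀ H ∈ Ico H₁ H₂, ∑ n ∈ Icc 1 N, (1 / (n : ℝ)) * B n H ≤ σ * Real.log N) (hσ : 0 ≤ σ) :
    MM H₁ H₂ N B ≤ σ * ((∑ H ∈ Ico H₁ H₂, 1 / (H : ℝ)) * ∑ n ∈ Icc 1 N, 1 / (n : ℝ)) := by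
  unfold MM
  rw [sum_mul, mul_sum]
  refine sum_le_sum fun H hH => ?_
  have h1 := (hB H hH).trans (mul_le_mul_of_nonneg_left (log_le_hn N) hσ)
  calc 1 / (H : ℝ) * ∑ n ∈ Icc 1 N, 1 / (n : ℝ) * B n H ≤ 1 / (H : ℝ) * (σ * ∑ n ∈ Icc 1 N, 1 / (n : ℝ)) :=
        mul_le_mul_of_nonneg_left h1 (by positivity)
    _ = σ * (1 / (H : ℝ) * ∑ n ∈ Icc 1 N, 1 / (n : ℝ)) := by ring

/-- **the upper bound for compact sets** -/
theorem upper_gen (hPUSH : S_PUSH) (hDIL : S_DIL) (hPW : S_PW) (hCH : S_CHB) (hSUB : S_SUB) (hWR : S_WR) (hTK : S_TK)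
    {φ : ℝ → ℝ} {t Λ : ℝ} (hφ : Pot φ t Λ) (hcv : ConvexOn ℝ Set.univ φ)
    (ht : 0 < t) (hΛ : 0 ≤ Λ) {K R : ℕ} (hK : 1 ≤ K)
    (hR : ∀ K' : ℕ, K ≤ K' → ∀ r : ℝ, r * (t ^ 2 - 1 / (2 * K')) ≤ 1 → r ≤ R)
    {E : Set UnitAddCircle} (hE : IsCompact E) {f : ℕ → ℂ} (hf : Mul1 f) (hRat : ShortRat f E)
    {B : ℕ → ℕ → ℝ} {m : ℝ} (hm : 0 ≤ m) (hBP : ∀ n H, 1 ≤ H → Phi φ f t K n H ≤ B n H) (hB : AvgB B m) :
    AvgB (fun n H => φ (wSup 1 E f n H / H)) ((volume E).toReal * m) := by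
  have hE0 : 0 ≤ (volume E).toReal := ENNReal.toReal_nonneg
  have hE1 : (volume E).toReal ≤ 1 := by
    have h1 : volume E ≤ 1 := by
      refine (measure_mono (Set.subset_univ E)).trans (le_of_eq ?_)
      exact UnitAddCircle.measure_univ
    exact ENNReal.toReal_le_of_le_ofReal zero_le_one (by simpa using h1)
  intro ε hε
  set ε₁ : ℝ := min 1 (ε / (8 * (m + 3))) with hε₁
  have hε₁0 : 0 < ε₁ := lt_min one_pos (by positivity)
  have hε₁1 : ε₁ ≤ 1 := min_le_left _ _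
  have hε₁2 : ε₁ * (m + 3) ≤ ε / 8 := by
    have : ε₁ ≤ ε / (8 * (m + 3)) := min_le_right _ _
    rw [le_div_iff₀ (by positivity)] at this
    linarith
  obtain ⟨Q, hQ1, hQ⟩ := master hPUSH hDIL hPW hCH hφ ht hΛ hK hR hE ε₁ hε₁0 hε₁1
  obtain ⟨κ, hκ, M, hM1, hMN⟩ := near_scale hf hE hRat Q (ε / (16 * (Λ + 1))) (by positivity)
  have hlong := long_all hWR hTK hf hE hRat
  -- the near part
  obtain ⟨H₁, h₁⟩ := fin_core5 hSUB (nearSet Q κ E) hf hφ hcv ht hΛ (ε / 16) (by positivity) (ε / 16) (by positivity)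
    (fun ε' hε' => by
      obtain ⟨X₀, hX₀⟩ := hlong ε' hε'
      exact ⟨X₀, fun X hX P hP hPE => hX₀ X hX P hP hPE.1⟩)
    ⟨M, M + 1, M, hM1, fun N hN => ⟨M, by simp, by
      refine le_trans (sum_le_sum fun n _ => mul_le_mul_of_nonneg_left (?_ : _ ≤ Λ * (wSup 1 (nearSet Q κ E) f n M / M))
        (by positivity)) ?_
      · have h1 := nsup01 (d := 1) (E := nearSet Q κ E) hf.1 n M
        have h2 := hφ.lip _ 0 h1.1 h1.2
        rw [hφ.zero 0 ht.le, zero_add, sub_zero] at h2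
        exact h2
      · have h3 : ∑ n ∈ Icc 1 N, (1 / (n : ℝ)) * (Λ * (wSup 1 (nearSet Q κ E) f n M / M)) =
            Λ * ∑ n ∈ Icc 1 N, (1 / (n : ℝ)) * (wSup 1 (nearSet Q κ E) f n M / M) := by
          rw [mul_sum]
          exact sum_congr rfl fun n _ => by ring
        rw [h3]
        have hn0 : 0 ≤ ∑ n ∈ Icc 1 N, 1 / (n : ℝ) := sum_nonneg fun _ _ => by positivity
        refine (mul_le_mul_of_nonneg_left (hMN N hN) hΛ).trans ?_
        rw [← mul_assoc]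
        refine mul_le_mul_of_nonneg_right ?_ hn0
        rw [mul_div_assoc', div_le_div_iff₀ (by positivity) (by norm_num)]
        nlinarith⟩⟩
  -- the far part
  obtain ⟨H₂, h₂⟩ := fin_core5 hSUB (E \ nearSet Q κ E) hf hφ hcv ht hΛ ((volume E).toReal * m + ε / 8)
    (by positivity) (ε / 16) (by positivity)
    (fun ε' hε' => by
      obtain ⟨X₀, hX₀⟩ := hlong ε' hε'
      exact ⟨X₀, fun X hX P hP hPE => hX₀ X hX P hP hPE.1⟩)
    (by
      obtain ⟨HB, hHB⟩ := hB ε₁ hε₁0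
      obtain ⟨K₁, hK₁, hK₁1, L₀, hL₀, hK⟩ := hQ (E \ nearSet Q κ E) κ Set.diff_subset hκ (far_sdiff Q κ E) HB
      obtain ⟨K₂, hK₂, hK₂L⟩ := exists_H₂ K₁ L₀
      obtain ⟨N₀, hN₀⟩ := exists_N₀ L₀
      refine ⟨K₁, K₂, N₀ + K₂, hK₁1, fun N hN => ?_⟩
      have hhN := hN₀ N (by omega)
      refine some_scale hK₁1 (lt_of_lt_of_le hL₀ hK₂L) ?_
      have e1 := hK K₂ N hK₂ hK₂L hhN f hf
      have hm0 : 0 < (∑ H ∈ Ico K₁ K₂, 1 / (H : ℝ)) * ∑ n ∈ Icc 1 N, 1 / (n : ℝ) :=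
        mul_pos (lt_of_lt_of_le hL₀ hK₂L) (lt_of_lt_of_le hL₀ hhN)
      have e2 : MM K₁ K₂ N (fun n H => Phi φ f t K n H) ≤ MM K₁ K₂ N B :=
        ML.MM_mono fun H hH n _ => hBP n H (hK₁1.trans (mem_Ico.1 hH).1)
      have e3 : MM K₁ K₂ N B ≤ (m + ε₁) * ((∑ H ∈ Ico K₁ K₂, 1 / (H : ℝ)) * ∑ n ∈ Icc 1 N, 1 / (n : ℝ)) := by
        refine MM_of_avg (fun H hH => ?_) (by positivity)
        rw [mem_Ico] at hH
        exact hHB N H (by omega) (by omega)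
      have e4 := mul_le_mul_of_nonneg_left (e2.trans e3) (by positivity : 0 ≤ (volume E).toReal + ε₁)
      refine e1.trans ((add_le_add e4 le_rfl).trans ?_)
      rw [← mul_assoc, ← add_mul]
      refine mul_le_mul_of_nonneg_right ?_ hm0.le
      have h5 : (volume E).toReal * ε₁ ≤ 1 * ε₁ := mul_le_mul_of_nonneg_right hE1 hε₁0.le
      have h6 : ε₁ * ε₁ ≤ 1 * ε₁ := mul_le_mul_of_nonneg_right hε₁1 hε₁0.le
      nlinarith)
  refine ⟨H₁ + H₂ + 1, fun N H hH hN => ?_⟩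
  have e1 := h₁ N H (by omega) hN
  have e2 := h₂ N H (by omega) hN
  have hlog : 0 ≤ Real.log N := Real.log_natCast_nonneg N
  have hpt : ∀ n, φ (wSup 1 E f n H / H) ≤ φ (wSup 1 (nearSet Q κ E) f n H / H) +
      φ (wSup 1 (E \ nearSet Q κ E) f n H / H) := by
    intro n
    have hn1 := hφ.nonneg (wSup 1 (nearSet Q κ E) f n H / H)
    have hn2 := hφ.nonneg (wSup 1 (E \ nearSet Q κ E) f n H / H)
    have hH0 : (0 : ℝ) < H := by exact_mod_cast (by omega : 0 < H)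
    refine phi_wSup hφ ht hΛ hf.1 (by linarith) fun β hβ => ?_
    by_cases hx : (β : UnitAddCircle) ∈ nearSet Q κ E
    · have h3 : ‖WL f β n H‖ / H ≤ wSup 1 (nearSet Q κ E) f n H / H := by
        refine div_le_div_of_nonneg_right ?_ hH0.le
        exact FL.le_wSup hf.1 n H (lin_deg β) (by rw [lin_coeff]; exact hx)
      have := hφ.mono h3
      linarith
    · have h3 : ‖WL f β n H‖ / H ≤ wSup 1 (E \ nearSet Q κ E) f n H / H := by
        refine div_le_div_of_nonneg_right ?_ hH0.le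
        exact FL.le_wSup hf.1 n H (lin_deg β) (by rw [lin_coeff]; exact ⟨hβ, hx⟩)
      have := hφ.mono h3
      linarith
  calc ∑ n ∈ Icc 1 N, (1 / (n : ℝ)) * φ (wSup 1 E f n H / H) ≤
      ∑ n ∈ Icc 1 N, ((1 / (n : ℝ)) * φ (wSup 1 (nearSet Q κ E) f n H / H) +
        (1 / (n : ℝ)) * φ (wSup 1 (E \ nearSet Q κ E) f n H / H)) := by
        refine sum_le_sum fun n _ => ?_
        rw [← mul_add]
        exact mul_le_mul_of_nonneg_left (hpt n) (by positivity)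
    _ ≤ (ε / 16 + ε / 16) * Real.log N + ((volume E).toReal * m + ε / 8 + ε / 16) * Real.log N := by
        rw [sum_add_distrib]; exact add_le_add e1 e2
    _ ≤ ((volume E).toReal * m + ε) * Real.log N := by
        have : 0 ≤ ε * Real.log N := by positivity
        nlinarith

end Pool.Agent.T9h55.MD
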