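import Pool.Agent.T9h55.MD.Sq4

/-! Localisation in an open set for convex functions of the supremum (helper55). -/

set_option autoImplicit false

namespace Pool.Agent.T9h55.MD

open Finset Polynomial MeasureTheory
open Pool.Agent.Helper44K9.FU
open Pool.Agent.H807R2.Dav (ee norm_ee)

open Classical in
/-- the pointwise inequality -/
lemma loc_point2 {φ : ℝ → ℝ} {t Λ : ℝ} (hφ : Pot φ t Λ) (hΛ : 0 ≤ Λ) {U : Set UnitAddCircle} {f : ℕ → ℂ}
    (hf : ∀ n, ‖f n‖ ≤ 1) {α : ℝ} {I : Finset ℕ} {n H : ℕ} (hH : 0 < H)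
    (hI : ∀ p ∈ I, p.Prime ∧ 0 ≤ vw p ∧ vw p ≤ 4 * (1 / (p : ℝ)) ∧ 1 ≤ H / p)
    {u η : ℝ} (hu : u ≤ 1) (hη : 0 < η)
    (hU : u * ∑ p ∈ I, vw p ≤
      ∑ p ∈ I.filter (fun p : ℕ => (((p : ℝ) ^ 1 * α : ℝ) : UnitAddCircle) ∈ U), vw p)
    (hbig : 400 / η ^ 2 ≤ η * ∑ p ∈ I, vw p)
    (hpush : ∑ p ∈ I.filter (fun p : ℕ => ‖WL f (p * α) (n / p) (H / p)‖ <
      (‖WL f α n H‖ / H - η) * ((H / p : ℕ) : ℝ)), 1 / (p : ℝ) ≤ 100 / η ^ 2) :
    u * φ (‖WL f α n H‖ / H) * ∑ p ∈ I, vw p ≤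
      ∑ p ∈ I, vw p * φ (wSup 1 U f (n / p) (H / p) / ((H / p : ℕ) : ℝ)) + (Λ + 1) * η * ∑ p ∈ I, vw p := by
  set V : ℝ := ∑ p ∈ I, vw p with hV
  set x : ℝ := ‖WL f α n H‖ / H with hx
  set y : ℝ := φ x with hy
  have hHr : (0 : ℝ) < H := by exact_mod_cast hH
  have hx1 : x ≤ 1 := WLH_le hf α n H
  have hy0 : 0 ≤ y := hφ.nonneg _
  have hy1 : y ≤ 1 := hφ.one _ hx1
  have hV0 : 0 ≤ V := sum_nonneg fun p hp => (hI p hp).2.1
  have hs0 : 0 ≤ ∑ p ∈ I, vw p * φ (wSup 1 U f (n / p) (H / p) / ((H / p : ℕ) : ℝ)) :=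
    sum_nonneg fun p hp => mul_nonneg (hI p hp).2.1 (hφ.nonneg _)
  have hΛη : 0 ≤ Λ * η := by positivity
  by_cases hxη : y < Λ * η
  · have h1 : u * y * V ≤ (Λ + 1) * η * V := by
      refine mul_le_mul_of_nonneg_right ?_ hV0
      have : u * y ≤ 1 * y := mul_le_mul_of_nonneg_right hu hy0
      linarith
    linarith
  push Not at hxη
  have hyx : y - Λ * η ≤ φ (x - η) := by
    have := hφ.lip x (x - η) (by linarith) hx1
    have h2 : Λ * (x - (x - η)) = Λ * η := by ring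
    rw [h2] at this
    linarith
  have key : ∀ p ∈ I, (y - Λ * η) * (if (((p : ℝ) ^ 1 * α : ℝ) : UnitAddCircle) ∈ U then vw p else 0) ≤
      vw p * φ (wSup 1 U f (n / p) (H / p) / ((H / p : ℕ) : ℝ)) +
      (if ‖WL f (p * α) (n / p) (H / p)‖ < (x - η) * ((H / p : ℕ) : ℝ) then vw p else 0) := by
    intro p hp
    obtain ⟨hpp, hv0, hv4, hHp⟩ := hI p hp
    have hHp0 : (0 : ℝ) < ((H / p : ℕ) : ℝ) := by exact_mod_cast (by omega : 0 < H / p)
    have hsv : 0 ≤ vw p * φ (wSup 1 U f (n / p) (H / p) / ((H / p : ℕ) : ℝ)) := mul_nonneg hv0 (hφ.nonneg _)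
    by_cases hpU : (((p : ℝ) ^ 1 * α : ℝ) : UnitAddCircle) ∈ U
    · rw [if_pos hpU]
      by_cases hbad : ‖WL f (p * α) (n / p) (H / p)‖ < (x - η) * ((H / p : ℕ) : ℝ)
      · rw [if_pos hbad]
        have : (y - Λ * η) * vw p ≤ 1 * vw p := mul_le_mul_of_nonneg_right (by linarith) hv0
        linarith
      · rw [if_neg hbad, add_zero]
        push Not at hbad
        have h1 : ‖WL f (p * α) (n / p) (H / p)‖ ≤ wSup 1 U f (n / p) (H / p) := by
          refine FL.le_wSup hf _ _ (lin_deg _) ?_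
          rw [lin_coeff]
          rw [pow_one] at hpU
          exact hpU
        have h2 : x - η ≤ wSup 1 U f (n / p) (H / p) / ((H / p : ℕ) : ℝ) := by
          rw [le_div_iff₀ hHp0]
          exact hbad.trans h1
        rw [mul_comm]
        exact mul_le_mul_of_nonneg_left (hyx.trans (hφ.mono h2)) hv0
    · rw [if_neg hpU, mul_zero]
      have : (0 : ℝ) ≤ if ‖WL f (p * α) (n / p) (H / p)‖ < (x - η) * ((H / p : ℕ) : ℝ) then vw p else 0 := by
        split_ifs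
        · exact hv0
        · exact le_rfl
      linarith
  have h1 := sum_le_sum key
  rw [← mul_sum, sum_add_distrib, ← sum_filter, ← sum_filter] at h1
  have h2 : ∑ p ∈ I.filter (fun p : ℕ => ‖WL f (p * α) (n / p) (H / p)‖ < (x - η) * ((H / p : ℕ) : ℝ)), vw p ≤ η * V := by
    calc ∑ p ∈ I.filter (fun p : ℕ => ‖WL f (p * α) (n / p) (H / p)‖ < (x - η) * ((H / p : ℕ) : ℝ)), vw p ≤
        ∑ p ∈ I.filter (fun p : ℕ => ‖WL f (p * α) (n / p) (H / p)‖ < (x - η) * ((H / p : ℕ) : ℝ)), 4 * (1 / (p : ℝ)) :=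
          sum_le_sum fun p hp => (hI p (mem_filter.1 hp).1).2.2.1
      _ ≤ 4 * (100 / η ^ 2) := by
          rw [← mul_sum]
          exact mul_le_mul_of_nonneg_left hpush (by norm_num)
      _ = 400 / η ^ 2 := by ring
      _ ≤ η * V := hbig
  have h3 : (y - Λ * η) * (u * V) ≤ (y - Λ * η) *
      ∑ p ∈ I.filter (fun p : ℕ => (((p : ℝ) ^ 1 * α : ℝ) : UnitAddCircle) ∈ U), vw p :=
    mul_le_mul_of_nonneg_left hU (by linarith)
  have h4 : Λ * η * (u * V) ≤ Λ * η * V := by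
    refine mul_le_mul_of_nonneg_left ?_ hΛη
    calc u * V ≤ 1 * V := mul_le_mul_of_nonneg_right hu hV0
      _ = V := one_mul V
  nlinarith

open ML in
/-- **localisation for the frequencies away from the rational points** -/
theorem far_loc2 (hPUSH : S_PUSH) (hDIL : S_DIL) (hPW : S_PW) (hCH : S_CHB) {f : ℕ → ℂ}
    (hf : Mul1 f) {φ : ℝ → ℝ} {t Λ : ℝ} (hφ : Pot φ t Λ) (ht : 0 < t) (hΛ : 0 ≤ Λ)
    {U : Set UnitAddCircle} (hU : IsOpen U) (hUv : 0 < (volume U).toReal) {σ : ℝ} (hσ : 0 ≤ σ)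
    (hs : ∃ H₀ : ℕ, ∀ N H : ℕ, H₀ ≤ H → H ≤ N →
      ∑ n ∈ Icc 1 N, (1 / (n : ℝ)) * φ (wSup 1 U f n H / H) ≤ σ * Real.log N) (ε : ℝ) (hε : 0 < ε) :
    ∃ Q : ℕ, 1 ≤ Q ∧ ∀ κ : ℝ, 0 < κ → ∀ E' : Set UnitAddCircle, Far Q κ E' → ∃ H₁ H₂ N₀ : ℕ, 1 ≤ H₁ ∧ ∀ N ≥ N₀,
      ∃ H ∈ Ico H₁ H₂, ∑ n ∈ Icc 1 N, (1 / (n : ℝ)) * φ (wSup 1 E' f n H / H) ≤
        (σ / (volume U).toReal + ε) * ∑ n ∈ Icc 1 N, 1 / (n : ℝ) := by
  classical
  set v : ℝ := (volume U).toReal with hv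
  have hv1 : v ≤ 1 := by
    have h1 : volume U ≤ 1 := by
      refine (measure_mono (Set.subset_univ U)).trans (le_of_eq ?_)
      exact UnitAddCircle.measure_univ
    exact ENNReal.toReal_le_of_le_ofReal zero_le_one (by simpa using h1)
  obtain ⟨H₀, hH₀⟩ := hs
  set ρ : ℝ := σ / v + ε with hρ
  have hρ0 : 0 < ρ := by positivity
  set ε₁ : ℝ := min (v / 2) (ε * v / (2 * ρ)) with hε₁
  have hε₁0 : 0 < ε₁ := lt_min (by positivity) (by positivity)
  set η : ℝ := ε * v / (8 * (Λ + 1)) with hη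
  have hη0 : 0 < η := by positivity
  have hηΛ : (Λ + 1) * η = ε * v / 8 := by rw [hη]; field_simp
  obtain ⟨Q, hQ1, hQ⟩ := eqw hPW hCH (d := 1) le_rfl hU ε₁ hε₁0
  refine ⟨Q, hQ1, fun κ hκ E' hE' => ?_⟩
  obtain ⟨I, hI, hIA, hIU⟩ := hQ κ hκ ⌈8 / η⌉₊ (400 / η ^ 2 / η + 1)
  set V : ℝ := ∑ p ∈ I, vw p with hV
  have hVbig : 400 / η ^ 2 ≤ η * V := by
    have h1 : 400 / η ^ 2 / η ≤ V := by linarith
    rw [div_le_iff₀ hη0] at h1
    linarith
  have hV0 : 0 < V := by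
    have : 0 ≤ 400 / η ^ 2 / η := by positivity
    linarith
  set w : ℕ → ℝ := fun p => vw p / V with hw
  have hw0 : ∀ p ∈ I, 0 ≤ w p := fun p hp => div_nonneg (hI p hp).2.2.1 hV0.le
  have hw1 : ∑ p ∈ I, w p = 1 := by
    simp only [hw]
    rw [← sum_div, ← hV, div_self hV0.ne']
  obtain ⟨B, hB⟩ : ∃ B : ℕ, ∀ p ∈ I, p ≤ B := ⟨I.sup id, fun p hp => le_sup (f := id) hp⟩
  obtain ⟨HP, hHP⟩ := hPUSH I η hη0 (fun p hp => ⟨(hI p hp).1, by
    have h1 := (hI p hp).2.1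
    exact (Nat.le_ceil _).trans (by exact_mod_cast h1.le)⟩)
  set H₁ : ℕ := HP + H₀ + 2 * B + 1 with hH₁
  set Er : ℝ := 4 + 2 * Real.log (B + 1) with hEr
  have hlogB : 0 ≤ Real.log ((B : ℝ) + 1) := Real.log_nonneg (by
    have : (0 : ℝ) ≤ B := Nat.cast_nonneg _
    linarith)
  have hEr0 : 0 < Er := by positivity
  set L₀ : ℝ := 16 * Er / (ε * v) with hL₀
  have hεv : 0 < ε * v := by positivity
  have hL₀0 : 0 < L₀ := by positivity
  obtain ⟨H₂, hH₂, hH₂Λ⟩ := exists_H₂ H₁ L₀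
  obtain ⟨N₀, hN₀⟩ := exists_N₀ L₀
  refine ⟨H₁, H₂, N₀ + H₂, by omega, fun N hN => ?_⟩
  have hhN := hN₀ N (by omega)
  set hn : ℝ := ∑ n ∈ Icc 1 N, 1 / (n : ℝ) with hhn
  set ℓ : ℝ := ∑ H ∈ Ico H₁ H₂, 1 / (H : ℝ) with hℓ
  have hmass : MM H₁ H₂ N (fun _ _ => 1) = ℓ * hn := MM_one H₁ H₂ N
  have hℓ0 : 0 < ℓ := lt_of_lt_of_le hL₀0 hH₂Λ
  have hhn0 : 0 < hn := lt_of_lt_of_le hL₀0 hhN
  set er : ℝ := Er * (ℓ + hn) with her
  have herm : er ≤ ε * v / 8 * (ℓ * hn) := by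
    have h1 : Er * ℓ ≤ ε * v / 16 * (ℓ * hn) := by
      have h2 : 16 * Er ≤ hn * (ε * v) := by rw [hL₀, div_le_iff₀ hεv] at hhN; exact hhN
      nlinarith
    have h1' : Er * hn ≤ ε * v / 16 * (ℓ * hn) := by
      have h2 : 16 * Er ≤ ℓ * (ε * v) := by rw [hL₀, div_le_iff₀ hεv] at hH₂Λ; exact hH₂Λ
      nlinarith
    rw [her]; nlinarith
  set s : ℕ → ℕ → ℝ := fun n H => φ (wSup 1 U f n H / H) with hsdef
  have hs01 : ∀ n H, 0 ≤ s n H ∧ s n H ≤ 1 := fun n H => ⟨hφ.nonneg _, phi_le_one hφ hf.1 U n H⟩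
  set s' : ℕ → ℕ → ℝ := fun n H => φ (wSup 1 E' f n H / H) with hs'def
  have hvε : 0 < v - ε₁ := by
    have : ε₁ ≤ v / 2 := min_le_left _ _
    linarith
  -- the pointwise inequality
  have hpt : ∀ H ∈ Ico H₁ H₂, ∀ n ∈ Icc 1 N, (v - ε₁) * s' n H ≤
      ∑ p ∈ I, w p * s (n / p) (H / p) + (Λ + 1) * η := by
    intro H hH n _
    rw [mem_Ico] at hH
    have hHpos : 0 < H := by omega
    have hHr : (0 : ℝ) < H := by exact_mod_cast hHpos
    have hR0 : 0 ≤ ∑ p ∈ I, w p * s (n / p) (H / p) + (Λ + 1) * η := by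
      have : 0 ≤ ∑ p ∈ I, w p * s (n / p) (H / p) :=
        sum_nonneg fun p hp => mul_nonneg (hw0 p hp) (hs01 _ _).1
      have h2 : 0 ≤ (Λ + 1) * η := by positivity
      linarith
    have h1 : s' n H ≤ (∑ p ∈ I, w p * s (n / p) (H / p) + (Λ + 1) * η) / (v - ε₁) := by
      refine phi_wSup hφ ht hΛ hf.1 (div_nonneg hR0 hvε.le) fun β hβ => ?_
      have h2 := loc_point2 hφ hΛ (U := U) hf.1 (α := β) (I := I) (n := n) (H := H) (u := v - ε₁) (η := η) hHpos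
        (fun p hp => ⟨(hI p hp).1, (hI p hp).2.2.1, (hI p hp).2.2.2, by
          rw [Nat.one_le_div_iff (hI p hp).1.pos]
          have := hB p hp
          omega⟩) (by linarith) hη0 (hIU β (hE' _ hβ)) hVbig (by
            have h1 := hHP H (by omega) f hf (lin β) n
            simp only [dil_lin] at h1
            exact h1)
      have h3 : ∑ p ∈ I, w p * s (n / p) (H / p) =
          (∑ p ∈ I, vw p * φ (wSup 1 U f (n / p) (H / p) / ((H / p : ℕ) : ℝ))) / V := by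
        rw [sum_div]
        refine sum_congr rfl fun p _ => ?_
        simp only [hw, hsdef]
        ring
      rw [← hV] at h2
      have h4 : (v - ε₁) * φ (‖WL f β n H‖ / H) ≤ ∑ p ∈ I, w p * s (n / p) (H / p) + (Λ + 1) * η := by
        rw [h3]
        have h5 : ((∑ p ∈ I, vw p * φ (wSup 1 U f (n / p) (H / p) / ((H / p : ℕ) : ℝ))) / V + (Λ + 1) * η) * V =
            ∑ p ∈ I, vw p * φ (wSup 1 U f (n / p) (H / p) / ((H / p : ℕ) : ℝ)) + (Λ + 1) * η * V := by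
          field_simp
        exact le_of_mul_le_mul_right (by rw [h5]; exact h2) hV0
      rw [le_div_iff₀ hvε]
      linarith
    rw [le_div_iff₀ hvε] at h1
    linarith
  -- averages
  have hs1 : (v - ε₁) * MM H₁ H₂ N s' ≤ ∑ p ∈ I, w p * MM H₁ H₂ N (fun n H => s (n / p) (H / p)) +
      (Λ + 1) * η * (ℓ * hn) := by
    have h1 := MM_mono (H₁ := H₁) (H₂ := H₂) (N := N) (F := fun n H => (v - ε₁) * s' n H)
      (G := fun n H => ∑ p ∈ I, w p * s (n / p) (H / p) + (Λ + 1) * η) hpt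
    rw [MM_add, MM_const, MM_smul, MM_sum I H₁ H₂ N (fun p n H => w p * s (n / p) (H / p)), hmass] at h1
    simp only [MM_smul] at h1
    exact h1
  have hs2 : ∑ p ∈ I, w p * MM H₁ H₂ N (fun n H => s (n / p) (H / p)) ≤ MM H₁ H₂ N s + er := by
    have h1 : ∀ p ∈ I, w p * MM H₁ H₂ N (fun n H => s (n / p) (H / p)) ≤ w p * (MM H₁ H₂ N s + er) := by
      intro p hp
      refine mul_le_mul_of_nonneg_left ?_ (hw0 p hp)
      have hpB := hB p hp
      have hp1 := (hI p hp).1.one_le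
      refine (hDIL p H₁ H₂ N 1 s hp1 (by omega) hH₂ (fun n H => hs01 n H)).trans ?_
      have h2 : Real.log p ≤ Real.log (B + 1) := Real.log_le_log (by exact_mod_cast hp1) (by
        have : (p : ℝ) ≤ B := by exact_mod_cast hpB
        linarith)
      have h3 : (1 : ℝ) * (4 + 2 * Real.log p) * (ℓ + hn) ≤ er := by
        rw [her, hEr, one_mul]
        gcongr
      linarith
    refine (sum_le_sum h1).trans ?_
    rw [← sum_mul, hw1, one_mul]
  have hs3 : MM H₁ H₂ N s ≤ σ * (ℓ * hn) := by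
    refine MM_of_avg (fun H hH => ?_) hσ
    rw [mem_Ico] at hH
    exact hH₀ N H (by omega) (by omega)
  have hm0 : 0 < ℓ * hn := by positivity
  have htot : MM H₁ H₂ N s' ≤ ρ * (ℓ * hn) := by
    have h1 : (v - ε₁) * MM H₁ H₂ N s' ≤ (σ + ε * v / 4) * (ℓ * hn) := by
      rw [hηΛ] at hs1
      nlinarith
    have h2 : σ + ε * v / 4 ≤ (v - ε₁) * ρ := by
      have h3 : v * ρ = σ + ε * v := by rw [hρ]; field_simp
      have h4 : ε₁ * ρ ≤ ε * v / 2 := by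
        have : ε₁ ≤ ε * v / (2 * ρ) := min_le_right _ _
        rw [le_div_iff₀ (by positivity)] at this
        linarith
      nlinarith
    have h3 : (σ + ε * v / 4) * (ℓ * hn) ≤ (v - ε₁) * ρ * (ℓ * hn) := mul_le_mul_of_nonneg_right h2 hm0.le
    have h4 : (v - ε₁) * MM H₁ H₂ N s' ≤ (v - ε₁) * (ρ * (ℓ * hn)) := by linarith
    exact le_of_mul_le_mul_left h4 hvε
  exact some_scale (by omega) hℓ0 htot

/-- **the lower bound for open sets** -/
theorem lower_gen (hPUSH : S_PUSH) (hDIL : S_DIL) (hPW : S_PW) (hCH : S_CHB) (hSUB : S_SUB) (hWR : S_WR) (hTK : S_TK)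
    {φ : ℝ → ℝ} {t Λ : ℝ} (hφ : Pot φ t Λ) (hcv : ConvexOn ℝ Set.univ φ) (ht : 0 < t) (hΛ : 0 ≤ Λ)
    {f : ℕ → ℂ} (hf : Mul1 f) (hRat : ShortRat f Set.univ) {U : Set UnitAddCircle} (hU : IsOpen U)
    (hUv : 0 < (volume U).toReal) {σ : ℝ} (hσ : 0 ≤ σ) (hs : AvgB (fun n H => φ (wSup 1 U f n H / H)) σ) :
    AvgB (fun n H => φ (wSup 1 Set.univ f n H / H)) (σ / (volume U).toReal) := by
  refine avgB_of_eps fun e he ε hε => ?_
  have hlong := long_all hWR hTK hf isCompact_univ hRat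
  obtain ⟨Q, hQ1, hQ⟩ := far_loc2 hPUSH hDIL hPW hCH hf hφ ht hΛ hU hUv
    (σ := σ + e * (volume U).toReal) (by positivity) (hs _ (by positivity)) (ε / 4) (by positivity)
  obtain ⟨κ, hκ, M, hM1, hMN⟩ := near_scale hf isCompact_univ hRat Q (ε / (16 * (Λ + 1))) (by positivity)
  obtain ⟨H₁, h₁⟩ := fin_core5 hSUB (nearSet Q κ Set.univ) hf hφ hcv ht hΛ (ε / 16) (by positivity) (ε / 16)
    (by positivity)
    (fun ε' hε' => by
      obtain ⟨X₀, hX₀⟩ := hlong ε' hε'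
      exact ⟨X₀, fun X hX P hP hPE => hX₀ X hX P hP hPE.1⟩)
    ⟨M, M + 1, M, hM1, fun N hN => ⟨M, by simp, by
      refine le_trans (sum_le_sum fun n _ => mul_le_mul_of_nonneg_left
        (?_ : _ ≤ Λ * (wSup 1 (nearSet Q κ Set.univ) f n M / M)) (by positivity)) ?_
      · have h1 := nsup01 (d := 1) (E := nearSet Q κ Set.univ) hf.1 n M
        have h2 := hφ.lip _ 0 h1.1 h1.2
        rw [hφ.zero 0 ht.le, zero_add, sub_zero] at h2
        exact h2
      · have h3 : ∑ n ∈ Icc 1 N, (1 / (n : ℝ)) * (Λ * (wSup 1 (nearSet Q κ Set.univ) f n M / M)) =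
            Λ * ∑ n ∈ Icc 1 N, (1 / (n : ℝ)) * (wSup 1 (nearSet Q κ Set.univ) f n M / M) := by
          rw [mul_sum]
          exact sum_congr rfl fun n _ => by ring
        rw [h3]
        have hn0 : 0 ≤ ∑ n ∈ Icc 1 N, 1 / (n : ℝ) := sum_nonneg fun _ _ => by positivity
        refine (mul_le_mul_of_nonneg_left (hMN N hN) hΛ).trans ?_
        rw [← mul_assoc]
        refine mul_le_mul_of_nonneg_right ?_ hn0
        rw [mul_div_assoc', div_le_div_iff₀ (by positivity) (by norm_num)]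
        nlinarith⟩⟩
  obtain ⟨H₂, h₂⟩ := fin_core5 hSUB (Set.univ \ nearSet Q κ Set.univ) hf hφ hcv ht hΛ
    ((σ + e * (volume U).toReal) / (volume U).toReal + ε / 4) (by positivity) (ε / 4) (by positivity)
    (fun ε' hε' => by
      obtain ⟨X₀, hX₀⟩ := hlong ε' hε'
      exact ⟨X₀, fun X hX P hP hPE => hX₀ X hX P hP hPE.1⟩)
    (hQ κ hκ (Set.univ \ nearSet Q κ Set.univ) (far_sdiff Q κ Set.univ))
  refine ⟨H₁ + H₂ + 1, fun N H hH hN => ?_⟩
  have e1 := h₁ N H (by omega) hN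
  have e2 := h₂ N H (by omega) hN
  have hlog : 0 ≤ Real.log N := Real.log_natCast_nonneg N
  have hpt : ∀ n, φ (wSup 1 Set.univ f n H / H) ≤ φ (wSup 1 (nearSet Q κ Set.univ) f n H / H) +
      φ (wSup 1 (Set.univ \ nearSet Q κ Set.univ) f n H / H) := by
    intro n
    have hn1 := hφ.nonneg (wSup 1 (nearSet Q κ Set.univ) f n H / H)
    have hn2 := hφ.nonneg (wSup 1 (Set.univ \ nearSet Q κ Set.univ) f n H / H)
    have hH0 : (0 : ℝ) < H := by exact_mod_cast (by omega : 0 < H)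
    refine phi_wSup hφ ht hΛ hf.1 (by linarith) fun β hβ => ?_
    by_cases hx : (β : UnitAddCircle) ∈ nearSet Q κ Set.univ
    · have h3 : ‖WL f β n H‖ / H ≤ wSup 1 (nearSet Q κ Set.univ) f n H / H := by
        refine div_le_div_of_nonneg_right ?_ hH0.le
        exact FL.le_wSup hf.1 n H (lin_deg β) (by rw [lin_coeff]; exact hx)
      have := hφ.mono h3
      linarith
    · have h3 : ‖WL f β n H‖ / H ≤ wSup 1 (Set.univ \ nearSet Q κ Set.univ) f n H / H := by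
        refine div_le_div_of_nonneg_right ?_ hH0.le
        exact FL.le_wSup hf.1 n H (lin_deg β) (by rw [lin_coeff]; exact ⟨hβ, hx⟩)
      have := hφ.mono h3
      linarith
  have e3 : (σ + e * (volume U).toReal) / (volume U).toReal = σ / (volume U).toReal + e := by
    field_simp
  rw [e3] at e2
  calc ∑ n ∈ Icc 1 N, (1 / (n : ℝ)) * φ (wSup 1 Set.univ f n H / H) ≤
      ∑ n ∈ Icc 1 N, ((1 / (n : ℝ)) * φ (wSup 1 (nearSet Q κ Set.univ) f n H / H) +
        (1 / (n : ℝ)) * φ (wSup 1 (Set.univ \ nearSet Q κ Set.univ) f n H / H)) := by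
        refine sum_le_sum fun n _ => ?_
        rw [← mul_add]
        exact mul_le_mul_of_nonneg_left (hpt n) (by positivity)
    _ ≤ (ε / 16 + ε / 16) * Real.log N + (σ / (volume U).toReal + e + ε / 4 + ε / 4) * Real.log N := by
        rw [sum_add_distrib]; exact add_le_add e1 e2
    _ ≤ (σ / (volume U).toReal + e + ε) * Real.log N := by
        have : 0 ≤ ε * Real.log N := by positivity
        nlinarith

end Pool.Agent.T9h55.MD
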