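import Pool.Agent.T9h55.MD.Sq5
import Pool.Agent.T9h55.MD.LocThm
import Pool.Agent.R509.HM.Sqf

/-! The mean square of the supremum over a compact set of frequencies, and the excess over a level (helper55). -/

set_option autoImplicit false

namespace Pool.Agent.T9h55.MD

open Finset Polynomial MeasureTheory
open Pool.Agent.Helper44K9.FU
open Pool.Agent.H807R2.Dav (ee norm_ee)

/-- the constants -/
lemma exists_KR {t : ℝ} (ht : 0 < t) (ρ : ℝ) (hρ : 0 < ρ) : ∃ K R : ℕ, 1 ≤ K ∧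
    (∀ K' : ℕ, K ≤ K' → ∀ r : ℝ, r * (t ^ 2 - 1 / (2 * K')) ≤ 1 → r ≤ R) ∧ (R : ℝ) / (2 * K) ≤ ρ ∧
    ∀ r : ℝ, r * (t ^ 2 - 1 / (2 * K)) ≤ 1 → r ≤ 1 / t ^ 2 + ρ := by
  obtain ⟨R, hR⟩ := exists_nat_ge (2 / t ^ 2)
  obtain ⟨K₀, hK₀⟩ := exists_nat_ge (1 / t ^ 2 + (R : ℝ) / (2 * ρ) + R / (2 * t ^ 2 * ρ))
  have ht2 : 0 < t ^ 2 := by positivity
  have hR0 : (0 : ℝ) ≤ R := Nat.cast_nonneg _
  have e1 : 0 ≤ 1 / t ^ 2 := by positivity
  have e2 : 0 ≤ (R : ℝ) / (2 * ρ) := by positivity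
  have e3 : 0 ≤ (R : ℝ) / (2 * t ^ 2 * ρ) := by positivity
  have hgen : ∀ K' : ℕ, K₀ + 1 ≤ K' → ∀ r : ℝ, r * (t ^ 2 - 1 / (2 * K')) ≤ 1 → r ≤ R := by
    intro K' hK' r hr
    by_contra hcon
    push Not at hcon
    have hr0 : 0 ≤ r := by linarith
    have hK'0 : (0 : ℝ) < K' := by exact_mod_cast (by omega : 0 < K')
    have h1 : (1 : ℝ) / t ^ 2 ≤ K' := by
      have : ((K₀ : ℕ) : ℝ) ≤ K' := by exact_mod_cast (by omega : K₀ ≤ K')
      linarith
    have h2 : 1 / (2 * (K' : ℝ)) ≤ t ^ 2 / 2 := by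
      rw [div_le_iff₀ ht2] at h1
      rw [div_le_div_iff₀ (by positivity) (by norm_num)]
      linarith
    have h3 : r * (t ^ 2 / 2) ≤ 1 := by
      have : r * (t ^ 2 / 2) ≤ r * (t ^ 2 - 1 / (2 * K')) := mul_le_mul_of_nonneg_left (by linarith) hr0
      linarith
    have h4 : r ≤ 2 / t ^ 2 := by
      rw [le_div_iff₀ ht2]
      linarith
    linarith
  have hK0 : (0 : ℝ) < ((K₀ + 1 : ℕ) : ℝ) := by positivity
  refine ⟨K₀ + 1, R, by omega, hgen, ?_, ?_⟩
  · have h1 : (R : ℝ) / (2 * ρ) ≤ ((K₀ + 1 : ℕ) : ℝ) := by push_cast; linarith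
    rw [div_le_iff₀ (by positivity)] at h1 ⊢
    linarith
  · intro r hr
    have h0 := hgen (K₀ + 1) le_rfl r hr
    have h1 : (R : ℝ) / (2 * t ^ 2 * ρ) ≤ ((K₀ + 1 : ℕ) : ℝ) := by push_cast; linarith
    rw [div_le_iff₀ (by positivity)] at h1
    have h2 : r * (1 / (2 * ((K₀ + 1 : ℕ) : ℝ))) ≤ t ^ 2 * ρ := by
      have h3 : r * (1 / (2 * ((K₀ + 1 : ℕ) : ℝ))) ≤ R * (1 / (2 * ((K₀ + 1 : ℕ) : ℝ))) :=
        mul_le_mul_of_nonneg_right h0 (by positivity)
      refine h3.trans ?_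
      rw [mul_one_div, div_le_iff₀ (by positivity)]
      nlinarith
    have h4 : r * t ^ 2 ≤ 1 + t ^ 2 * ρ := by linarith
    have h5 : r ≤ (1 + t ^ 2 * ρ) / t ^ 2 := by
      rw [le_div_iff₀ ht2]
      exact h4
    refine h5.trans (le_of_eq ?_)
    field_simp

/-- the truncated square -/
noncomputable def tsq (t x : ℝ) : ℝ := (max x t) ^ 2 - t ^ 2

lemma tsq_pot {t : ℝ} (ht : 0 < t) (ht1 : t ≤ 1) : Pot (tsq t) t 2 where
  mono := by
    intro x y h
    unfold tsq
    have h1 : max x t ≤ max y t := max_le_max_right t h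
    have h2 : 0 ≤ max x t := ht.le.trans (le_max_right _ _)
    have := pow_le_pow_left₀ h2 h1 2
    linarith
  zero := by
    intro x h
    unfold tsq
    rw [max_eq_right h, sub_self]
  one := by
    intro x h
    unfold tsq
    have h1 : max x t ≤ 1 := max_le h ht1
    have h2 : 0 ≤ max x t := ht.le.trans (le_max_right _ _)
    have := pow_le_pow_left₀ h2 h1 2
    nlinarith [sq_nonneg t]
  lip := by
    intro x y hyx hx
    unfold tsq
    have h1 : max x t ≤ 1 := max_le hx ht1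
    have h2 : 0 ≤ max x t := ht.le.trans (le_max_right _ _)
    have h3 : max y t ≤ max x t := max_le_max_right t hyx
    have h4 : 0 ≤ max y t := ht.le.trans (le_max_right _ _)
    have h5 : max x t - max y t ≤ x - y := by
      rcases le_total x t with h | h
      · rw [max_eq_right h, max_eq_right (hyx.trans h)]; linarith
      · rw [max_eq_left h]
        have := le_max_left y t
        linarith
    nlinarith

lemma tsq_convex {t : ℝ} (ht : 0 < t) : ConvexOn ℝ Set.univ (tsq t) := by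
  have h1 : ConvexOn ℝ Set.univ (fun x : ℝ => max x t) := (convexOn_id convex_univ).sup (convexOn_const t convex_univ)
  have h2 := h1.pow (fun x _ => ht.le.trans (le_max_right x t)) 2
  have h3 := h2.add_const (-(t ^ 2))
  refine h3.congr ?_
  intro x _
  simp [tsq, sub_eq_add_neg]

lemma sq_le_tsq (t x : ℝ) (hx : 0 ≤ x) : x ^ 2 ≤ tsq t x + t ^ 2 := by
  unfold tsq
  have h1 : x ≤ max x t := le_max_left _ _
  have := pow_le_pow_left₀ hx h1 2
  linarith

lemma tsq_le_sq {t x : ℝ} (hx : 0 ≤ x) : tsq t x ≤ x ^ 2 := by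
  unfold tsq
  rcases le_total x t with h | h
  · rw [max_eq_right h]; nlinarith [sq_nonneg x]
  · rw [max_eq_left h]; nlinarith [sq_nonneg t]

/-- the excess over `t` -/
noncomputable def exs (t x : ℝ) : ℝ := max (x - t) 0

lemma exs_pot {t : ℝ} (ht : 0 < t) : Pot (exs t) t 1 where
  mono := by
    intro x y h
    unfold exs
    exact max_le_max_right 0 (by linarith)
  zero := by
    intro x h
    unfold exs
    exact max_eq_right (by linarith)
  one := by
    intro x h
    unfold exs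
    exact max_le (by linarith) zero_le_one
  lip := by
    intro x y hyx hx
    unfold exs
    refine max_le ?_ ?_
    · have := le_max_left (y - t) 0
      linarith
    · have := le_max_right (y - t) 0
      linarith

lemma exs_convex (t : ℝ) : ConvexOn ℝ Set.univ (exs t) := by
  have h1 : ConvexOn ℝ Set.univ (fun x : ℝ => x - t) := by
    have := (convexOn_id (𝕜 := ℝ) (convex_univ (E := ℝ))).add_const (-t)
    refine this.congr ?_
    intro x _
    simp [sub_eq_add_neg]
  exact h1.sup (convexOn_const 0 convex_univ)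

/-- the mean of `|f|²` in all long windows is at most `m` -/
def SqMean (f : ℕ → ℂ) (m : ℝ) : Prop := ∀ ε : ℝ, 0 < ε → ∃ H₀ : ℕ, ∀ H : ℕ, H₀ ≤ H → ∀ n : ℕ,
  ∑ h ∈ Ioc n (n + H), ‖f h‖ ^ 2 ≤ (m + ε) * H

lemma avgB_sq {f : ℕ → ℂ} {m : ℝ} (hm : 0 ≤ m) (h : SqMean f m) :
    AvgB (fun n H => (∑ h ∈ Ioc n (n + H), ‖f h‖ ^ 2) / H) m := by
  refine avgB_of hm fun ε hε => ?_
  obtain ⟨H₀, h₀⟩ := h ε hε
  refine ⟨H₀ + 1, fun N H hH hN => ?_⟩
  have hH0 : (0 : ℝ) < H := by exact_mod_cast (by omega : 0 < H)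
  rw [mul_sum]
  refine sum_le_sum fun n _ => ?_
  rw [mul_comm (m + ε)]
  refine mul_le_mul_of_nonneg_left ?_ (by positivity)
  rw [div_le_iff₀ hH0]
  exact h₀ H (by omega) n

/-- **the mean square of the supremum over a compact set of frequencies** -/
theorem mean_square {f : ℕ → ℂ} (hf : Mul1 f) {m : ℝ} (hm : 0 ≤ m) (hsq : SqMean f m) {E : Set UnitAddCircle}
    (hE : IsCompact E) (hRat : ShortRat f E) :
    AvgB (fun n H => (wSup 1 E f n H / H) ^ 2) ((volume E).toReal * m) := by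
  refine avgB_of_eps fun ε hε => ?_
  have hE0 : 0 ≤ (volume E).toReal := ENNReal.toReal_nonneg
  -- the level
  obtain ⟨t, ht, ht1, ht2⟩ : ∃ t : ℝ, 0 < t ∧ t ≤ 1 ∧ t ^ 2 ≤ ε / 2 := by
    refine ⟨min 1 (ε / 2), lt_min one_pos (by positivity), min_le_left _ _, ?_⟩
    have h1 : min 1 (ε / 2) ≤ 1 := min_le_left _ _
    have h2 : min 1 (ε / 2) ≤ ε / 2 := min_le_right _ _
    have h3 : 0 < min 1 (ε / 2) := lt_min one_pos (by positivity)
    nlinarith
  set ρ : ℝ := ε / (2 * ((volume E).toReal * m + 1)) with hρ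
  have hρ0 : 0 < ρ := by positivity
  obtain ⟨K, R, hK, hR, hRK, _⟩ := exists_KR ht ρ hρ0
  have hφ := tsq_pot ht ht1
  have h1 := upper_gen (push tk) dil_ pw chb sub wr tk hφ (tsq_convex ht) ht (by norm_num) hK hR hE hf hRat
    (B := fun n H => (1 + ρ) * ((∑ h ∈ Ioc n (n + H), ‖f h‖ ^ 2) / H)) (m := (1 + ρ) * m) (by positivity)
    (fun n H hH => by
      refine Phi_le fun A hA => ?_
      have hH0 : (0 : ℝ) < H := by exact_mod_cast (by omega : 0 < H)
      have h2 := besL2 (f := f) (n := n) hK hH hA.1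
      have h3 := (sm_le_R hφ ht hf.1 hK (hR K le_rfl) hA).2 hH
      have h4 : sm (tsq t) f n H A ≤ ∑ α ∈ A, (‖WL f α n H‖ / H) ^ 2 :=
        sum_le_sum fun α _ => tsq_le_sq (by positivity)
      refine h4.trans (h2.trans ?_)
      rw [mul_comm]
      refine mul_le_mul_of_nonneg_right ?_ (by positivity)
      have hKr : (0 : ℝ) < K := by exact_mod_cast hK
      have h5 : (#A : ℝ) / (2 * K) ≤ R / (2 * K) := div_le_div_of_nonneg_right h3 (by positivity)
      linarith)
    ((avgB_sq hm hsq).smul (by positivity))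
  have h2 : AvgB (fun _ _ => t ^ 2) (t ^ 2) := avgB_of (by positivity) fun ε hε => ⟨0, fun N H _ _ => by
    rw [← sum_mul, mul_comm]
    have hn0 : 0 ≤ ∑ n ∈ Icc 1 N, 1 / (n : ℝ) := sum_nonneg fun _ _ => by positivity
    nlinarith⟩
  refine (h1.add h2).mono ?_ fun n H _ => sq_le_tsq t _ (nsup01 hf.1 n H).1
  have h3 : (volume E).toReal * m * ρ ≤ ε / 2 := by
    rw [hρ, mul_div_assoc', div_le_div_iff₀ (by positivity) (by norm_num)]
    have : 0 ≤ (volume E).toReal * m := by positivity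
    nlinarith
  nlinarith

/-- the mean from the mean square -/
lemma mean_of_sq {F : ℕ → ℕ → ℝ} {σ : ℝ} (hσ : 0 ≤ σ) (hF : ∀ n H, 0 ≤ F n H) (h : AvgB (fun n H => F n H ^ 2) σ) :
    AvgB F (Real.sqrt σ) := by
  refine avgB_of_eps fun ε hε => ?_
  set c : ℝ := Real.sqrt σ + ε with hc
  have hc0 : 0 < c := by positivity
  have h1 := h.smul (c := 1 / (2 * c)) (by positivity)
  have h2 : AvgB (fun _ _ => c / 2) (c / 2) := avgB_of (by positivity) fun ε hε => ⟨0, fun N H _ _ => by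
    rw [← sum_mul, mul_comm]
    have hn0 : 0 ≤ ∑ n ∈ Icc 1 N, 1 / (n : ℝ) := sum_nonneg fun _ _ => by positivity
    nlinarith⟩
  refine (h1.add h2).mono ?_ fun n H _ => ?_
  · have h3 : σ ≤ c ^ 2 := by
      have h4 := Real.sq_sqrt hσ
      have h5 := Real.sqrt_nonneg σ
      nlinarith
    have h4 : 1 / (2 * c) * σ ≤ c / 2 := by
      rw [div_mul_eq_mul_div, one_mul, div_le_div_iff₀ (by positivity) (by norm_num)]
      nlinarith
    linarith
  · have h3 := hF n H
    have h4 : F n H * (2 * c) ≤ F n H ^ 2 + c ^ 2 := by nlinarith [sq_nonneg (F n H - c)]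
    have h5 : 1 / (2 * c) * F n H ^ 2 + c / 2 = (F n H ^ 2 + c ^ 2) / (2 * c) := by
      field_simp
    rw [h5, le_div_iff₀ (by positivity)]
    exact h4

/-- **the excess for compact sets** -/
theorem excess_upper {f : ℕ → ℂ} (hf : Mul1 f) {E : Set UnitAddCircle}
    (hE : IsCompact E) (hRat : ShortRat f E) {t : ℝ} (ht : 0 < t) {σ : ℝ} (hσ : 0 ≤ σ)
    (h : AvgB (fun n H => exs t (wSup 1 Set.univ f n H / H)) σ) :
    AvgB (fun n H => exs t (wSup 1 E f n H / H)) ((volume E).toReal * σ / t ^ 2) := by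
  refine avgB_of_eps fun ε hε => ?_
  have hE0 : 0 ≤ (volume E).toReal := ENNReal.toReal_nonneg
  set ρ : ℝ := ε / ((volume E).toReal * σ + 1) with hρ
  have hρ0 : 0 < ρ := by positivity
  obtain ⟨K, R, hK, hR, hRK, hR2⟩ := exists_KR ht ρ hρ0
  have hφ := exs_pot ht
  have h1 := upper_gen (push tk) dil_ pw chb sub wr tk hφ (exs_convex t) ht (by norm_num) hK hR hE hf hRat
    (B := fun n H => (1 / t ^ 2 + ρ) * exs t (wSup 1 Set.univ f n H / H)) (m := (1 / t ^ 2 + ρ) * σ) (by positivity)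
    (fun n H hH => by
      refine Phi_le fun A hA => ?_
      have hH0 : (0 : ℝ) < H := by exact_mod_cast (by omega : 0 < H)
      have h3 := hR2 _ (card_le hf.1 hK hH ht hA.1 hA.2)
      have h4 : sm (exs t) f n H A ≤ ∑ _α ∈ A, exs t (wSup 1 Set.univ f n H / H) := by
        refine sum_le_sum fun α _ => hφ.mono ?_
        refine div_le_div_of_nonneg_right ?_ hH0.le
        exact FL.le_wSup hf.1 n H (lin_deg α) (Set.mem_univ _)
      rw [sum_const, nsmul_eq_mul] at h4
      exact h4.trans (mul_le_mul_of_nonneg_right h3 (hφ.nonneg _)))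
    (h.smul (by positivity))
  refine h1.mono ?_ fun n H _ => le_rfl
  have h3 : (volume E).toReal * σ * ρ ≤ ε := by
    rw [hρ, mul_div_assoc', div_le_iff₀ (by positivity)]
    have : 0 ≤ (volume E).toReal * σ := by positivity
    nlinarith
  have h4 : (volume E).toReal * ((1 / t ^ 2 + ρ) * σ) = (volume E).toReal * σ / t ^ 2 + (volume E).toReal * σ * ρ := by
    field_simp
  linarith

/-- **the excess for open sets** -/
theorem excess_lower {f : ℕ → ℂ} (hf : Mul1 f) {U : Set UnitAddCircle}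
    (hU : IsOpen U) (hUv : 0 < (volume U).toReal) (hRat : ShortRat f Set.univ) {t : ℝ} (ht : 0 < t) {σ : ℝ} (hσ : 0 ≤ σ)
    (h : AvgB (fun n H => exs t (wSup 1 U f n H / H)) σ) :
    AvgB (fun n H => exs t (wSup 1 Set.univ f n H / H)) (σ / (volume U).toReal) :=
  lower_gen (push tk) dil_ pw chb sub wr tk (exs_pot ht) (exs_convex t) ht (by norm_num) hf hRat hU hUv hσ h

open Pool.Agent.R509.HM in
/-- the squarefree numbers -/
theorem mu_sqMean : SqMean mu (6 / Real.pi ^ 2) := by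
  intro ε hε
  obtain ⟨n₀, hn₀⟩ := exists_W (ε / 2) (by positivity)
  set S := Nat.primesBelow n₀ with hS
  have hSp : ∀ p ∈ S, p.Prime := fun p hp => Nat.prime_of_mem_primesBelow hp
  have hD := DS_pos S hSp
  have hDr : (0 : ℝ) < DS S := by exact_mod_cast (by omega : 0 < DS S)
  obtain ⟨H₀, hH₀⟩ := exists_nat_ge (2 * ((1 + ε) * (DS S : ℝ)) / ε)
  have hpi := Real.pi_pos
  have hpi1 : 6 / Real.pi ^ 2 ≤ 1 := by
    rw [div_le_one (by positivity)]
    have := Real.pi_gt_three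
    nlinarith
  -- a full period, everywhere
  have hper : ∀ a : ℕ, ∑ m ∈ Ioc a (a + DS S), sqS S m = ∑ b ∈ range (DS S), sqS S b := by
    intro a
    have h1 : ∀ a : ℕ, ∑ m ∈ Ico a (a + DS S), sqS S m = ∑ b ∈ range (DS S), sqS S b := by
      intro a
      induction a with
      | zero => rw [Nat.zero_add, range_eq_Ico]
      | succ a ih =>
        rw [← ih]
        have e1 : Ico (a + 1) (a + 1 + DS S) = insert (a + DS S) (Ico (a + 1) (a + DS S)) := by
          ext m; simp only [mem_Ico, mem_insert]; omega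
        have e2 : Ico a (a + DS S) = insert a (Ico (a + 1) (a + DS S)) := by
          ext m; simp only [mem_Ico, mem_insert]; omega
        rw [e1, e2, sum_insert (by simp), sum_insert (by simp), sqS_per]
    have e3 : Ioc a (a + DS S) = Ico (a + 1) (a + 1 + DS S) := by
      ext m; simp only [mem_Ico, mem_Ioc]; omega
    rw [e3, h1]
  have hblock : ∀ k n : ℕ, ∑ m ∈ Ioc n (n + k * DS S), sqS S m = k * ∑ b ∈ range (DS S), sqS S b := by
    intro k n
    induction k with
    | zero => simp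
    | succ k ih =>
      have e1 : Ioc n (n + (k + 1) * DS S) = Ioc n (n + k * DS S) ∪ Ioc (n + k * DS S) (n + k * DS S + DS S) := by
        have : (k + 1) * DS S = k * DS S + DS S := by ring
        ext m; simp only [mem_Ioc, mem_union, this]; omega
      rw [e1, sum_union, ih, hper]
      · push_cast; ring
      · rw [Finset.disjoint_left]
        intro m hm hm'
        rw [mem_Ioc] at hm hm'
        omega
  refine ⟨H₀, fun H hH n => ?_⟩
  have hHr : 2 * ((1 + ε) * (DS S : ℝ)) / ε ≤ H := hH₀.trans (by exact_mod_cast hH)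
  rw [div_le_iff₀ hε] at hHr
  set k := H / DS S + 1 with hk
  have hHk : H ≤ k * DS S := by
    rw [hk, mul_comm]
    exact (Nat.lt_mul_div_succ H (by omega)).le
  have hkH : (k : ℝ) * DS S ≤ H + DS S := by
    have h1 : H / DS S * DS S ≤ H := Nat.div_mul_le_self _ _
    have h2 : k * DS S ≤ H + DS S := by rw [hk, Nat.add_mul, one_mul]; omega
    exact_mod_cast h2
  calc ∑ h ∈ Ioc n (n + H), ‖mu h‖ ^ 2 ≤ ∑ h ∈ Ioc n (n + H), sqS S h := by
        refine sum_le_sum fun h _ => ?_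
        have h1 := mob_le S hSp h
        have h2 : ‖mu h‖ = |((ArithmeticFunction.moebius h : ℤ) : ℝ)| := by
          unfold mu
          rw [Complex.norm_intCast]
        have h3 : ‖mu h‖ ≤ 1 := mu_mult.1 h
        rw [← h2] at h1
        nlinarith [norm_nonneg (mu h)]
    _ ≤ ∑ h ∈ Ioc n (n + k * DS S), sqS S h :=
        sum_le_sum_of_subset_of_nonneg (Ioc_subset_Ioc_right (by omega)) fun _ _ _ => sqS_nonneg _ _
    _ = k * ((∏ p ∈ S, (1 - 1 / (p : ℝ) ^ 2)) * DS S) := by rw [hblock, sqS_sum S hSp]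
    _ ≤ k * ((6 / Real.pi ^ 2 + ε / 2) * DS S) := by
        refine mul_le_mul_of_nonneg_left (mul_le_mul_of_nonneg_right hn₀ hDr.le) (Nat.cast_nonneg _)
    _ = (6 / Real.pi ^ 2 + ε / 2) * (k * DS S) := by ring
    _ ≤ (6 / Real.pi ^ 2 + ε / 2) * (H + DS S) := mul_le_mul_of_nonneg_left hkH (by positivity)
    _ ≤ (6 / Real.pi ^ 2 + ε) * H := by
        have h1 : (6 / Real.pi ^ 2 + ε / 2) * DS S ≤ (1 + ε) * DS S :=
          mul_le_mul_of_nonneg_right (by linarith) hDr.le
        nlinarith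

end Pool.Agent.T9h55.MD
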