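import Pool.Agent.T9h55.MD.Fin3
import Pool.Agent.Helper44K9.FB.Fin

/-! Rotations of tori with compact sets of rotations (helper55). -/

set_option autoImplicit false

namespace Pool.Agent.T9h55.MD

open Finset MeasureTheory Polynomial
open Pool.Agent.H807R2.Dav (ee norm_ee)
open Pool.Agent.Helper44K9.FU
open Pool.Agent.Helper44K9.FB (lf lf_add lf_cont norm_fourier fourier_real trigm Ioc_image)
open Pool.Agent.Helper44K9.FU.FL (le_wSup wSup_nonneg)

lemma vol_point (x : UnitAddCircle) : volume ({x} : Set UnitAddCircle) = 0 := by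
  have h1 : Filter.NeBot (nhdsWithin (0 : UnitAddCircle) {0}ᶜ) := by
    rw [← mem_closure_iff_nhdsWithin_neBot, Metric.mem_closure_iff]
    intro ε hε
    set t : ℝ := min (ε / 2) (1 / 4) with ht
    have ht0 : 0 < t := lt_min (by positivity) (by norm_num)
    have ht1 : t ≤ 1 / 4 := min_le_right _ _
    have ht2 : t ≤ ε / 2 := min_le_left _ _
    have hn : ‖(t : UnitAddCircle)‖ = t := by
      rw [UnitAddCircle.norm_eq]
      have : round t = 0 := by
        rw [round_eq_zero_iff]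
        constructor <;> linarith
      rw [this, Int.cast_zero, sub_zero, abs_of_pos ht0]
    refine ⟨(t : UnitAddCircle), ?_, ?_⟩
    · intro h
      rw [Set.mem_singleton_iff] at h
      rw [h, norm_zero] at hn
      linarith
    · rw [dist_comm, dist_zero_right, hn]
      linarith
  have h2 : NullSingletonClass (volume : Measure UnitAddCircle) :=
    Measure.IsAddHaarMeasure.nullSingletonClass (volume : Measure UnitAddCircle)
  exact measure_singleton x

lemma lf_nsmul {m : ℕ} (k : Fin m → ℤ) (n : ℕ) (x : Fin m → UnitAddCircle) : lf k (n • x) = n • lf k x := by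
  unfold lf
  rw [smul_sum]
  refine sum_congr rfl fun i _ => ?_
  rw [Pi.smul_apply, smul_comm]

/-- the supremum over `g ∈ E` and all starting points -/
noncomputable def tSup {m : ℕ} (F : (Fin m → UnitAddCircle) → ℂ) (E : Set (Fin m → UnitAddCircle)) (f : ℕ → ℂ)
    (n H : ℕ) : ℝ :=
  ⨆ p : E × (Fin m → UnitAddCircle), ‖∑ h ∈ Icc 1 H, f (n + h) * F (p.2 + (n + h) • (p.1 : Fin m → UnitAddCircle))‖

/-- one character -/
theorem char_rot {m : ℕ} (k : Fin m → ℤ) {E : Set (Fin m → UnitAddCircle)} {f : ℕ → ℂ} (hf : ∀ n, ‖f n‖ ≤ 1)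
    (n H : ℕ) (b : Fin m → UnitAddCircle) (hb : b ∈ E) (x : Fin m → UnitAddCircle) :
    ‖∑ h ∈ Icc 1 H, f (n + h) * (fourier 1 (lf k (x + (n + h) • b)) : ℂ)‖ ≤ wSup 1 (lf k '' E) f n H := by
  obtain ⟨c, hc⟩ := QuotientAddGroup.mk_surjective (lf k x)
  obtain ⟨β, hβ⟩ := QuotientAddGroup.mk_surjective (lf k b)
  have hc' : (c : UnitAddCircle) = lf k x := hc
  have hβ' : (β : UnitAddCircle) = lf k b := hβ
  set P : ℝ[X] := C c + C β * X with hP
  have hdeg : P.natDegree ≤ 1 := by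
    rw [hP]
    refine (natDegree_add_le _ _).trans (max_le ?_ ?_)
    · rw [natDegree_C]; omega
    · exact (natDegree_C_mul_le _ _).trans natDegree_X_le
  have hco : P.coeff 1 = β := by
    rw [hP]; simp
  have h4 : ∑ h ∈ Icc 1 H, f (n + h) * (fourier 1 (lf k (x + (n + h) • b)) : ℂ) = W f P n H := by
    unfold W
    rw [Ioc_image, sum_image fun a _ b _ hab => by omega]
    refine sum_congr rfl fun h _ => ?_
    have h5 : lf k (x + (n + h) • b) = ((P.eval ((n + h : ℕ) : ℝ) : ℝ) : UnitAddCircle) := by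
      rw [lf_add, lf_nsmul, ← hc', ← hβ', hP]
      simp only [eval_add, eval_mul, eval_C, eval_X]
      rw [AddCircle.coe_add, ← AddCircle.coe_nsmul, nsmul_eq_mul, mul_comm]
    rw [h5, fourier_real]
  rw [h4]
  refine le_wSup hf n H hdeg ?_
  rw [hco, hβ']
  exact ⟨b, hb, rfl⟩

/-- linear phases, all compact sets -/
theorem all3 : ∃ A : ℕ, 1 ≤ A ∧ ∀ f : ℕ → ℂ, Mul1 f → ∀ E : Set UnitAddCircle, IsCompact E → ShortRat f E →
    ∀ ε : ℝ, 0 < ε → ∃ H₀ : ℕ, ∀ N H : ℕ, H₀ ≤ H → H ≤ N →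
      ∑ n ∈ Icc 1 N, (1 / (n : ℝ)) * wSup 1 E f n H ≤
        (A * (volume E).toReal ^ (1 / (A : ℝ)) + ε) * H * Real.log N :=
  fin3 (bes2 wr2) (push tk) nr2 (eq3 pw trig2 chb) dil_ pig sub wr tk

/-- linear phases, compact null sets -/
theorem lin_null {f : ℕ → ℂ} (hf : Mul1 f) {E : Set UnitAddCircle} (hEc : IsCompact E) (hEv : volume E = 0)
    (hR : ShortRat f E) (ε : ℝ) (hε : 0 < ε) : ∃ H₀ : ℕ, ∀ N H : ℕ, H₀ ≤ H → H ≤ N →
      ∑ n ∈ Icc 1 N, (1 / (n : ℝ)) * wSup 1 E f n H ≤ ε * H * Real.log N := by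
  obtain ⟨A, hA, h⟩ := all3
  obtain ⟨H₀, hH₀⟩ := h f hf E hEc hR ε hε
  refine ⟨H₀, fun N H hH hN => ?_⟩
  have h1 := hH₀ N H hH hN
  have h2 : (0 : ℝ) ^ (1 / (A : ℝ)) = 0 := by
    apply Real.zero_rpow
    have : (0 : ℝ) < A := by exact_mod_cast hA
    positivity
  rw [hEv, ENNReal.toReal_zero, h2, mul_zero, zero_add] at h1
  exact h1

/-- **rotations of tori** -/
theorem torus {m : ℕ} (F : C(Fin m → UnitAddCircle, ℂ)) {E : Set (Fin m → UnitAddCircle)} (hEc : IsCompact E)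
    (hE : ∀ k : Fin m → ℤ, k ≠ 0 → volume (lf k '' E) = 0) {f : ℕ → ℂ} (hf : Mul1 f)
    (hR : ∀ k : Fin m → ℤ, ShortRat f (lf k '' E)) (ε : ℝ) (hε : 0 < ε) :
    ∃ H₀ : ℕ, ∀ N H : ℕ, H₀ ≤ H → H ≤ N →
      ∑ n ∈ Icc 1 N, (1 / (n : ℝ)) * tSup F E f n H ≤ ε * H * Real.log N := by
  classical
  obtain ⟨S, a, hSa⟩ := trigm m F (ε / 8) (by positivity)
  have hE0 : ∀ k : Fin m → ℤ, volume (lf k '' E) = 0 := by
    intro k
    by_cases hk : k = 0
    · subst hk
      have h1 : lf (0 : Fin m → ℤ) '' E ⊆ {0} := by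
        rintro _ ⟨x, _, rfl⟩
        simp [lf]
      exact measure_mono_null h1 (vol_point 0)
    · exact hE k hk
  have hchar : ∀ k : Fin m → ℤ, ∃ H₀ : ℕ, ∀ N H : ℕ, H₀ ≤ H → H ≤ N →
      ∑ n ∈ Icc 1 N, (1 / (n : ℝ)) * wSup 1 (lf k '' E) f n H ≤
        (ε / (4 * (#S + 1) * (‖a k‖ + 1))) * H * Real.log N := fun k =>
    lin_null hf (hEc.image (lf_cont k)) (hE0 k) (hR k) _ (by positivity)
  choose HG hG using hchar
  refine ⟨∑ k ∈ S, HG k + 3, fun N H hH hN => ?_⟩
  have hHr : (0 : ℝ) < H := by exact_mod_cast (by omega : 0 < H)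
  have hNr : (3 : ℝ) ≤ N := by exact_mod_cast (by omega : 3 ≤ N)
  have hlog : 1 ≤ Real.log N := by
    rw [Real.le_log_iff_exp_le (by linarith)]
    linarith [Real.exp_one_lt_d9]
  have hharm : ∑ n ∈ Icc 1 N, 1 / (n : ℝ) ≤ 1 + Real.log N := by
    have h1 := harmonic_le_one_add_log N
    refine le_trans (le_of_eq ?_) h1
    rw [harmonic_eq_sum_Icc]
    push_cast
    exact sum_congr rfl fun x _ => one_div _
  -- pointwise
  have hpt : ∀ n, tSup F E f n H ≤ ∑ k ∈ S, ‖a k‖ * wSup 1 (lf k '' E) f n H + ε / 8 * H := by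
    intro n
    have hnn : 0 ≤ ∑ k ∈ S, ‖a k‖ * wSup 1 (lf k '' E) f n H + ε / 8 * H :=
      add_nonneg (sum_nonneg fun k hk => mul_nonneg (norm_nonneg _) (wSup_nonneg n H)) (by positivity)
    refine Real.iSup_le (fun p => ?_) hnn
    obtain ⟨⟨b, hb⟩, x⟩ := p
    show ‖∑ h ∈ Icc 1 H, f (n + h) * F (x + (n + h) • b)‖ ≤ _
    calc ‖∑ h ∈ Icc 1 H, f (n + h) * F (x + (n + h) • b)‖ =
        ‖∑ k ∈ S, a k * ∑ h ∈ Icc 1 H, f (n + h) * (fourier 1 (lf k (x + (n + h) • b)) : ℂ) +
          ∑ h ∈ Icc 1 H, f (n + h) * (F (x + (n + h) • b) -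
            ∑ k ∈ S, a k * (fourier 1 (lf k (x + (n + h) • b)) : ℂ))‖ := by
          congr 1
          simp only [mul_sum]
          rw [sum_comm, ← sum_add_distrib]
          refine sum_congr rfl fun h _ => ?_
          rw [mul_sub, mul_sum]
          have h1 : ∑ k ∈ S, a k * (f (n + h) * (fourier 1 (lf k (x + (n + h) • b)) : ℂ)) =
              ∑ k ∈ S, f (n + h) * (a k * (fourier 1 (lf k (x + (n + h) • b)) : ℂ)) :=
            sum_congr rfl fun k _ => by ring
          rw [h1]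
          ring
      _ ≤ ∑ k ∈ S, ‖a k‖ * wSup 1 (lf k '' E) f n H + ε / 8 * H := by
          refine (norm_add_le _ _).trans (add_le_add ?_ ?_)
          · refine (norm_sum_le _ _).trans (sum_le_sum fun k hk => ?_)
            rw [norm_mul]
            exact mul_le_mul_of_nonneg_left (char_rot k hf.1 n H b hb x) (norm_nonneg _)
          · refine (norm_sum_le _ _).trans ?_
            calc ∑ h ∈ Icc 1 H, ‖f (n + h) * (F (x + (n + h) • b) -
                  ∑ k ∈ S, a k * (fourier 1 (lf k (x + (n + h) • b)) : ℂ))‖ ≤ ∑ h ∈ Icc 1 H, ε / 8 := by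
                  refine sum_le_sum fun h _ => ?_
                  rw [norm_mul]
                  have h2 := hSa (x + (n + h) • b)
                  have h3 := hf.1 (n + h)
                  calc _ ≤ 1 * ‖F (x + (n + h) • b) -
                    ∑ k ∈ S, a k * (fourier 1 (lf k (x + (n + h) • b)) : ℂ)‖ :=
                        mul_le_mul_of_nonneg_right h3 (norm_nonneg _)
                    _ ≤ ε / 8 := by rw [one_mul]; linarith
              _ = ε / 8 * H := by rw [sum_const, Nat.card_Icc, nsmul_eq_mul]; simp [mul_comm]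
  calc ∑ n ∈ Icc 1 N, (1 / (n : ℝ)) * tSup F E f n H ≤
      ∑ n ∈ Icc 1 N, (1 / (n : ℝ)) * (∑ k ∈ S, ‖a k‖ * wSup 1 (lf k '' E) f n H + ε / 8 * H) :=
        sum_le_sum fun n _ => mul_le_mul_of_nonneg_left (hpt n) (by positivity)
    _ = ∑ k ∈ S, ‖a k‖ * ∑ n ∈ Icc 1 N, (1 / (n : ℝ)) * wSup 1 (lf k '' E) f n H +
        ε / 8 * H * ∑ n ∈ Icc 1 N, 1 / (n : ℝ) := by
        simp only [mul_add, sum_add_distrib, mul_sum]
        rw [sum_comm]
        congr 1
        · refine sum_congr rfl fun k _ => sum_congr rfl fun n _ => ?_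
          ring
        · refine sum_congr rfl fun n _ => ?_
          ring
    _ ≤ ∑ k ∈ S, (ε / (4 * (#S + 1))) * H * Real.log N + ε / 8 * H * (1 + Real.log N) := by
        refine add_le_add (sum_le_sum fun k hk => ?_) (mul_le_mul_of_nonneg_left hharm (by positivity))
        have h1 : HG k ≤ ∑ k ∈ S, HG k := single_le_sum (f := HG) (fun _ _ => Nat.zero_le _) hk
        have h2 := hG k N H (by omega) hN
        have h3 : ‖a k‖ * ∑ n ∈ Icc 1 N, (1 / (n : ℝ)) * wSup 1 (lf k '' E) f n H ≤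
            (‖a k‖ + 1) * ((ε / (4 * (#S + 1) * (‖a k‖ + 1))) * H * Real.log N) := by
          refine mul_le_mul (by linarith) h2 ?_ (by positivity)
          exact sum_nonneg fun n _ => mul_nonneg (by positivity) (wSup_nonneg n H)
        refine h3.trans (le_of_eq ?_)
        field_simp
    _ ≤ ε / 4 * H * Real.log N + ε / 8 * H * (1 + Real.log N) := by
        refine add_le_add ?_ le_rfl
        rw [sum_const, nsmul_eq_mul]
        have h1 : (#S : ℝ) * (ε / (4 * (#S + 1)) * H * Real.log N) = (#S * (ε / (4 * (#S + 1)))) * (H * Real.log N) := by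
          ring
        rw [h1, mul_assoc (ε / 4)]
        refine mul_le_mul_of_nonneg_right ?_ (by positivity)
        rw [mul_div_assoc', div_le_div_iff₀ (by positivity) (by norm_num)]
        nlinarith
    _ ≤ ε * H * Real.log N := by
        have h1 : 0 < ε * H := by positivity
        nlinarith

end Pool.Agent.T9h55.MD
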